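import Mathlib

set_option autoImplicit false

/-!
# Symmetric functions: invariants of the Weyl group of type `C` in the similitude case
-/

namespace Run7.h456

open Polynomial

variable {R : Type*} [CommRing R]

/-- the polynomials with coefficients in `A` -/
noncomputable def PA (A : Subring R) : Subring R[X] := (mapRingHom A.subtype).range

theorem mem_PA {A : Subring R} {P : R[X]} : P ∈ PA A ↔ ∀ k, P.coeff k ∈ A := by
  unfold PA
  rw [Polynomial.mem_map_range]
  simp

theorem C_mem_PA {A : Subring R} {a : R} (h : a ∈ A) : C a ∈ PA A := by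
  rw [mem_PA]
  intro k
  rw [coeff_C]
  split_ifs
  · exact h
  · exact A.zero_mem

theorem X_mem_PA {A : Subring R} : (X : R[X]) ∈ PA A := by
  rw [mem_PA]
  intro k
  rw [coeff_X]
  split_ifs
  · exact A.one_mem
  · exact A.zero_mem

section symmetric

variable {ι : Type*} [Fintype ι]

/-- elementary symmetric functions -/
def es (y : ι → R) (k : ℕ) : R := ∑ s ∈ Finset.powersetCard k Finset.univ, ∏ i ∈ s, y i

theorem es_eq (y : ι → R) (k : ℕ) : es y k = MvPolynomial.aeval y (MvPolynomial.esymm ι ℤ k) := by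
  unfold es MvPolynomial.esymm
  simp

/-- a symmetric polynomial at `y` is in the ring generated by the elementary symmetric functions -/
theorem sym_mem {A : Subring R} {y : ι → R} (he : ∀ k, es y k ∈ A) {P : MvPolynomial ι ℤ}
    (hP : P.IsSymmetric) : MvPolynomial.aeval y P ∈ A := by
  obtain ⟨q, hq⟩ := MvPolynomial.esymmAlgHom_surjective (σ := ι) ℤ (n := Fintype.card ι) le_rfl
    ⟨P, hP⟩
  have h1 : P = MvPolynomial.aeval (fun i : Fin (Fintype.card ι) =>
      MvPolynomial.esymm ι ℤ (i + 1)) q := by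
    rw [← MvPolynomial.esymmAlgHom_apply, hq]
  rw [h1]
  have key : ∀ q : MvPolynomial (Fin (Fintype.card ι)) ℤ, MvPolynomial.aeval y
      (MvPolynomial.aeval (fun i : Fin (Fintype.card ι) =>
        MvPolynomial.esymm ι ℤ (i + 1)) q) ∈ A := by
    intro q
    induction q using MvPolynomial.induction_on with
    | C r =>
      simp only [eq_intCast, map_intCast]
      exact intCast_mem A r
    | add p q hp hq =>
      simp only [map_add]
      exact A.add_mem hp hq
    | mul_X p i hp =>
      simp only [map_mul, MvPolynomial.aeval_X]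
      refine A.mul_mem hp ?_
      rw [← es_eq]
      exact he _
  exact key q

/-- the elementary symmetric functions from the product `∏ (1 + y_i X + X²)` -/
theorem es_mem_of_prod [DecidableEq ι] {A : Subring R} {y : ι → R}
    (h : ∏ i, (1 + C (y i) * X + X ^ 2) ∈ PA A) (k : ℕ) : es y k ∈ A := by
  have h1 : ∏ i, (1 + C (y i) * X + X ^ 2) = ∑ j ∈ Finset.range (Fintype.card ι + 1),
      C (es y j) * (X ^ j * (1 + X ^ 2) ^ (Fintype.card ι - j)) := by
    have e : ∀ i, (1 + C (y i) * X + X ^ 2 : R[X]) = C (y i) * X + (1 + X ^ 2) := fun i => by ring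
    simp only [e]
    rw [Finset.prod_add, Finset.sum_powerset]
    refine Finset.sum_congr rfl fun j _ => ?_
    unfold es
    rw [map_sum, Finset.sum_mul]
    refine Finset.sum_congr rfl fun s hs => ?_
    rw [Finset.mem_powersetCard] at hs
    rw [Finset.prod_mul_distrib, Finset.prod_const, Finset.prod_const, hs.2,
      Finset.card_sdiff_of_subset hs.1, hs.2, map_prod, Finset.card_univ]
    ring
  induction k using Nat.strong_induction_on with
  | _ k ih =>
    by_cases hk : k ≤ Fintype.card ι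
    · have h2 := mem_PA.1 h k
      rw [h1, finsetSum_coeff] at h2
      have hkr : k ∈ Finset.range (Fintype.card ι + 1) := by
        rw [Finset.mem_range]
        omega
      rw [← Finset.add_sum_erase _ _ hkr] at h2
      have h3 : (C (es y k) * (X ^ k * (1 + X ^ 2) ^ (Fintype.card ι - k)) : R[X]).coeff k =
          es y k := by
        rw [coeff_C_mul, coeff_X_pow_mul', if_pos le_rfl, Nat.sub_self,
          coeff_zero_eq_eval_zero]
        simp
      have h4 : ∑ j ∈ (Finset.range (Fintype.card ι + 1)).erase k,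
          (C (es y j) * (X ^ j * (1 + X ^ 2) ^ (Fintype.card ι - j)) : R[X]).coeff k ∈ A := by
        refine A.sum_mem fun j hj => ?_
        rw [coeff_C_mul, coeff_X_pow_mul']
        split_ifs with hjk
        · have hjk' : j < k := lt_of_le_of_ne hjk (Finset.ne_of_mem_erase hj)
          refine A.mul_mem (ih j hjk') ?_
          have h5 : ((1 + X ^ 2) ^ (Fintype.card ι - j) : R[X]) ∈ PA A :=
            (PA A).pow_mem ((PA A).add_mem (PA A).one_mem ((PA A).pow_mem X_mem_PA 2)) _
          exact mem_PA.1 h5 _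
        · rw [mul_zero]
          exact A.zero_mem
      rw [h3] at h2
      have h6 := A.sub_mem h2 h4
      rwa [add_sub_cancel_right] at h6
    · have : es y k = 0 := by
        unfold es
        rw [Finset.powersetCard_eq_empty.2 (by rw [Finset.card_univ]; omega), Finset.sum_empty]
      rw [this]
      exact A.zero_mem

end symmetric

/-- the polynomials of the even case: `t^v + t^{-v}`, `v ≥ 1`, and `1` -/
theorem exists_even (R : Type*) [CommRing R] : ∃ Q : ℕ → ℤ[X], (Q 0 = 1) ∧ ∀ (v : ℕ) (t : Rˣ), v ≠ 0 →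
    ((t ^ v : Rˣ) : R) + ((t⁻¹ ^ v : Rˣ) : R) = aeval ((t : R) + ((t⁻¹ : Rˣ) : R)) (Q v) := by
  have key : ∃ D : ℕ → ℤ[X], ∀ (v : ℕ) (t : Rˣ),
      ((t ^ v : Rˣ) : R) + ((t⁻¹ ^ v : Rˣ) : R) = aeval ((t : R) + ((t⁻¹ : Rˣ) : R)) (D v) ∧
      ((t ^ (v + 1) : Rˣ) : R) + ((t⁻¹ ^ (v + 1) : Rˣ) : R) =
        aeval ((t : R) + ((t⁻¹ : Rˣ) : R)) (D (v + 1)) := by
    refine ⟨fun v => (Nat.rec (motive := fun _ => ℤ[X] × ℤ[X]) (2, X)
      (fun _ p => (p.2, X * p.2 - p.1)) v).1, fun v => ?_⟩
    induction v with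
    | zero =>
      intro t
      constructor
      · simp only [pow_zero, Units.val_one]
        change (1 : R) + 1 = aeval _ (2 : ℤ[X])
        rw [map_ofNat]
        norm_num
      · simp only [zero_add, pow_one]
        change _ = aeval _ (X : ℤ[X])
        rw [aeval_X]
    | succ v ih =>
      intro t
      obtain ⟨h1, h2⟩ := ih t
      refine ⟨h2, ?_⟩
      change _ = aeval _ (X * _ - _ : ℤ[X])
      rw [map_sub, map_mul, aeval_X]
      rw [show (Nat.rec (motive := fun _ => ℤ[X] × ℤ[X]) (2, X)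
        (fun _ p => (p.2, X * p.2 - p.1)) v).2 = (Nat.rec (motive := fun _ => ℤ[X] × ℤ[X]) (2, X)
        (fun _ p => (p.2, X * p.2 - p.1)) (v + 1)).1 from rfl, ← h1, ← h2]
      have h3 : (t : R) * ((t⁻¹ : Rˣ) : R) = 1 := Units.mul_inv t
      simp only [Units.val_pow_eq_pow_val]
      linear_combination (-(t : R) ^ v - ((t⁻¹ : Rˣ) : R) ^ v) * h3
  obtain ⟨D, hD⟩ := key
  refine ⟨fun v => if v = 0 then 1 else D v, by simp, fun v t hv => ?_⟩
  simp only [if_neg hv]
  exact (hD v t).1

/-- the polynomials of the odd case: `t^{v+1} + t^{-v}` is divisible by `1 + t` -/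
theorem exists_odd (R : Type*) [CommRing R] : ∃ Q : ℕ → ℤ[X], ∀ (v : ℕ) (t : Rˣ),
    ((t ^ (v + 1) : Rˣ) : R) + ((t⁻¹ ^ v : Rˣ) : R) =
      (1 + (t : R)) * aeval ((t : R) + ((t⁻¹ : Rˣ) : R)) (Q v) := by
  have key : ∃ D : ℕ → ℤ[X], ∀ (v : ℕ) (t : Rˣ),
      (((t ^ (v + 1) : Rˣ) : R) + ((t⁻¹ ^ v : Rˣ) : R) =
        (1 + (t : R)) * aeval ((t : R) + ((t⁻¹ : Rˣ) : R)) (D v)) ∧
      ((t ^ (v + 1 + 1) : Rˣ) : R) + ((t⁻¹ ^ (v + 1) : Rˣ) : R) =
        (1 + (t : R)) * aeval ((t : R) + ((t⁻¹ : Rˣ) : R)) (D (v + 1)) := by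
    refine ⟨fun v => (Nat.rec (motive := fun _ => ℤ[X] × ℤ[X]) (1, X - 1)
      (fun _ p => (p.2, X * p.2 - p.1)) v).1, fun v => ?_⟩
    induction v with
    | zero =>
      intro t
      have h3 : (t : R) * ((t⁻¹ : Rˣ) : R) = 1 := Units.mul_inv t
      constructor
      · simp only [pow_zero, Units.val_one, zero_add, pow_one]
        change _ = _ * aeval _ (1 : ℤ[X])
        rw [map_one]
        ring
      · simp only [zero_add, pow_one]
        change _ = _ * aeval _ (X - 1 : ℤ[X])
        rw [map_sub, map_one, aeval_X]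
        simp only [Units.val_pow_eq_pow_val]
        linear_combination -h3
    | succ v ih =>
      intro t
      obtain ⟨h1, h2⟩ := ih t
      refine ⟨h2, ?_⟩
      change _ = _ * aeval _ (X * _ - _ : ℤ[X])
      rw [map_sub, map_mul, aeval_X]
      rw [show (Nat.rec (motive := fun _ => ℤ[X] × ℤ[X]) (1, X - 1)
        (fun _ p => (p.2, X * p.2 - p.1)) v).2 = (Nat.rec (motive := fun _ => ℤ[X] × ℤ[X]) (1, X - 1)
        (fun _ p => (p.2, X * p.2 - p.1)) (v + 1)).1 from rfl, mul_sub, mul_left_comm, ← h1, ← h2]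
      have h3 : (t : R) * ((t⁻¹ : Rˣ) : R) = 1 := Units.mul_inv t
      simp only [Units.val_pow_eq_pow_val]
      linear_combination (-(t : R) ^ (v + 1) - ((t⁻¹ : Rˣ) : R) ^ v) * h3
  obtain ⟨D, hD⟩ := key
  exact ⟨D, fun v t => (hD v t).1⟩

end Run7.h456
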