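import Pool.Agent.Run7.h456.Alg

set_option autoImplicit false

/-!
# Characters of `GSpin_{2n+1}` in terms of elementary symmetric functions
-/

namespace Run7.h456

open Polynomial

variable {R : Type*} [CommRing R] {ι : Type*} [Fintype ι] [DecidableEq ι]

/-- the orbit of index `v` of the reflection `u ↦ a - u` -/
def orb (a : ℤ) (v : ℕ) : Finset ℤ := {a / 2 + a % 2 + v, a / 2 - v}

/-- the index of the orbit of `u` -/
def idx (a u : ℤ) : ℕ := (max (u - a / 2 - a % 2) (a / 2 - u)).toNat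

theorem mem_orb {a u : ℤ} {v : ℕ} : u ∈ orb a v ↔ idx a u = v := by
  unfold orb idx
  rw [Finset.mem_insert, Finset.mem_singleton]
  have h1 := Int.emod_nonneg a (show (2 : ℤ) ≠ 0 by norm_num)
  have h2 := Int.emod_lt_of_pos a (show (0 : ℤ) < 2 by norm_num)
  omega

theorem idx_eq {a u u' : ℤ} (h : idx a u = idx a u') : u' = u ∨ u' = a - u := by
  have h1 := mem_orb.2 h
  have h2 := mem_orb.2 (rfl : idx a u' = idx a u')
  unfold orb at h1 h2
  rw [Finset.mem_insert, Finset.mem_singleton] at h1 h2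
  have h3 := Int.emod_add_mul_ediv a 2
  omega

/-- the common shape of the sums over the orbits -/
theorem exists_orb (R : Type*) [CommRing R] (a : ℤ) : ∃ Q : ℕ → ℤ[X], ∀ (v : ℕ) (t : Rˣ),
    ∑ x ∈ orb a v, ((t ^ x : Rˣ) : R) = ((t ^ (a / 2) : Rˣ) : R) * (1 + (t : R)) ^ (a % 2).toNat *
      aeval ((t : R) + ((t⁻¹ : Rˣ) : R)) (Q v) := by
  have h1 := Int.emod_nonneg a (show (2 : ℤ) ≠ 0 by norm_num)
  have h2 := Int.emod_lt_of_pos a (show (0 : ℤ) < 2 by norm_num)
  have hcases : a % 2 = 0 ∨ a % 2 = 1 := by omega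
  rcases hcases with h0 | h0
  · obtain ⟨Q, hQ0, hQ⟩ := exists_even R
    refine ⟨Q, fun v t => ?_⟩
    unfold orb
    rw [h0]
    by_cases hv : v = 0
    · subst hv
      simp [hQ0]
    · rw [Finset.sum_pair (by omega)]
      simp only [Int.toNat_zero, pow_zero, mul_one]
      rw [← hQ v t hv, add_zero, zpow_add, zpow_sub, mul_add]
      simp only [zpow_natCast, Units.val_mul, inv_pow]
  · obtain ⟨Q, hQ⟩ := exists_odd R
    refine ⟨Q, fun v t => ?_⟩
    unfold orb
    rw [h0, Finset.sum_pair (by omega)]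
    simp only [Int.toNat_one, pow_one]
    rw [mul_assoc, ← hQ v t, add_assoc, zpow_add, zpow_sub, mul_add]
    have e : (1 : ℤ) + (v : ℤ) = ((v + 1 : ℕ) : ℤ) := by
      push_cast
      ring
    rw [e]
    simp only [zpow_natCast, Units.val_mul, inv_pow]

omit [DecidableEq ι] in
/-- a function invariant under all reflections depends on the indices only -/
theorem refl_fiber [DecidableEq ι] {a : ℤ} {f : (ι → ℤ) → ℤ}
    (hr : ∀ u i, f (Function.update u i (a - u i)) = f u) {u u' : ι → ℤ}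
    (h : ∀ i, idx a (u i) = idx a (u' i)) : f u' = f u := by
  have key : ∀ (s : Finset ι) (u' : ι → ℤ), (∀ i ∉ s, u' i = u i) →
      (∀ i, idx a (u i) = idx a (u' i)) → f u' = f u := by
    intro s
    induction s using Finset.induction_on with
    | empty =>
      intro u' h1 _
      have : u' = u := funext fun i => h1 i (Finset.notMem_empty i)
      rw [this]
    | insert j s hj ih =>
      intro u' h1 h2
      by_cases hju : u' j = u j
      · refine ih u' (fun i hi => ?_) h2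
        by_cases hij : i = j
        · rw [hij, hju]
        · exact h1 i (by
            rw [Finset.mem_insert]
            tauto)
      · have h3 : u' j = a - u j := (idx_eq (h2 j)).resolve_left hju
        rw [← hr u' j]
        refine ih _ (fun i hi => ?_) fun i => ?_
        · by_cases hij : i = j
          · subst hij
            rw [Function.update_self, h3]
            ring
          · rw [Function.update_of_ne hij]
            exact h1 i (by
              rw [Finset.mem_insert]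
              tauto)
        · by_cases hij : i = j
          · subst hij
            rw [Function.update_self, h3]
            congr 1
            ring
          · rw [Function.update_of_ne hij]
            exact h2 i
  exact key Finset.univ u' (fun i hi => absurd (Finset.mem_univ i) hi) h

/-- the box -/
def box (ι : Type*) [Fintype ι] [DecidableEq ι] (a : ℤ) (N : ℕ) : Finset (ι → ℤ) :=
  Fintype.piFinset fun _ => (Finset.range N).biUnion (orb a)

theorem mem_box {a : ℤ} {N : ℕ} {u : ι → ℤ} : u ∈ box ι a N ↔ ∀ i, idx a (u i) < N := by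
  unfold box
  rw [Fintype.mem_piFinset]
  refine forall_congr' fun i => ?_
  rw [Finset.mem_biUnion]
  constructor
  · rintro ⟨v, hv, h⟩
    rw [mem_orb] at h
    rw [h]
    exact Finset.mem_range.1 hv
  · intro h
    exact ⟨_, Finset.mem_range.2 h, mem_orb.2 rfl⟩

theorem core_sum {a : ℤ} {f : (ι → ℤ) → ℤ}
    (hr : ∀ u i, f (Function.update u i (a - u i)) = f u) (N : ℕ) (t : ι → Rˣ) :
    ∑ u ∈ box ι a N, (f u : R) * ∏ i, ((t i ^ u i : Rˣ) : R) =
      ∑ v ∈ Fintype.piFinset fun _ : ι => Finset.range N, (f (fun i => a / 2 - (v i : ℤ)) : R) *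
        ∏ i, ∑ x ∈ orb a (v i), ((t i ^ x : Rˣ) : R) := by
  rw [← Finset.sum_fiberwise_of_maps_to (s := box ι a N)
    (t := Fintype.piFinset fun _ : ι => Finset.range N) (g := fun u i => idx a (u i))
    (fun u hu => by
      rw [Fintype.mem_piFinset]
      exact fun i => Finset.mem_range.2 (mem_box.1 hu i))]
  refine Finset.sum_congr rfl fun v hv => ?_
  rw [Finset.prod_univ_sum, Finset.mul_sum]
  have e : (box ι a N).filter (fun u => (fun i => idx a (u i)) = v) =
      Fintype.piFinset fun i => orb a (v i) := by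
    ext u
    rw [Finset.mem_filter, mem_box, Fintype.mem_piFinset]
    constructor
    · rintro ⟨-, h⟩ i
      exact mem_orb.2 (congrFun h i)
    · intro h
      refine ⟨fun i => ?_, funext fun i => mem_orb.1 (h i)⟩
      rw [mem_orb.1 (h i)]
      exact Finset.mem_range.1 (Fintype.mem_piFinset.1 hv i)
  rw [e]
  refine Finset.sum_congr rfl fun u hu => ?_
  rw [Fintype.mem_piFinset] at hu
  congr 2
  refine refl_fiber hr fun i => ?_
  rw [mem_orb.1 (hu i)]
  have h1 : a / 2 - (v i : ℤ) ∈ orb a (v i) := by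
    unfold orb
    simp
  exact mem_orb.1 h1

/-- the polynomial in the `y_i` -/
noncomputable def PP (Q : ℕ → ℤ[X]) (a : ℤ) (f : (ι → ℤ) → ℤ) (N : ℕ) : MvPolynomial ι ℤ :=
  ∑ v ∈ Fintype.piFinset fun _ : ι => Finset.range N,
    (f (fun i => a / 2 - (v i : ℤ)) : MvPolynomial ι ℤ) *
      ∏ i, aeval (MvPolynomial.X i : MvPolynomial ι ℤ) (Q (v i))

theorem PP_symm (Q : ℕ → ℤ[X]) (a : ℤ) {f : (ι → ℤ) → ℤ}
    (hg : ∀ (g : Equiv.Perm ι) (u : ι → ℤ), f (fun i => u (g i)) = f u) (N : ℕ) :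
    (PP Q a f N).IsSymmetric := by
  intro g
  unfold PP
  rw [map_sum]
  refine Finset.sum_bij' (fun v _ => fun i => v (g.symm i)) (fun v _ => fun i => v (g i))
    ?_ ?_ ?_ ?_ ?_
  · intro v hv
    rw [Fintype.mem_piFinset] at hv ⊢
    exact fun i => hv _
  · intro v hv
    rw [Fintype.mem_piFinset] at hv ⊢
    exact fun i => hv _
  · intro v _
    funext i
    simp
  · intro v _
    funext i
    simp
  · intro v _
    rw [map_mul, map_intCast, map_prod]
    congr 1
    · rw [hg g.symm fun i => a / 2 - (v i : ℤ)]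
    · rw [← Equiv.prod_comp g (fun i => aeval (MvPolynomial.X i : MvPolynomial ι ℤ)
        (Q (v (g.symm i))))]
      refine Finset.prod_congr rfl fun i _ => ?_
      rw [Equiv.symm_apply_apply, ← Polynomial.aeval_algHom_apply, MvPolynomial.rename_X]

theorem aeval_PP (Q : ℕ → ℤ[X]) (a : ℤ) (f : (ι → ℤ) → ℤ) (N : ℕ) (y : ι → R) :
    MvPolynomial.aeval y (PP Q a f N) = ∑ v ∈ Fintype.piFinset fun _ : ι => Finset.range N,
      (f (fun i => a / 2 - (v i : ℤ)) : R) * ∏ i, aeval (y i) (Q (v i)) := by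
  unfold PP
  rw [map_sum]
  refine Finset.sum_congr rfl fun v _ => ?_
  rw [map_mul, map_intCast, map_prod]
  congr 1
  refine Finset.prod_congr rfl fun i _ => ?_
  rw [← Polynomial.aeval_algHom_apply, MvPolynomial.aeval_X]

/-- **The part of central degree `a` of an invariant sum.** -/
theorem core {A : Subring R} {t₀ : Rˣ} {t : ι → Rˣ}
    (hl : ((t₀ ^ 2 * ∏ i, t i : Rˣ) : R) ∈ A) (hl' : (((t₀ ^ 2 * ∏ i, t i)⁻¹ : Rˣ) : R) ∈ A)
    (he : ∀ k, es (fun i => (t i : R) + (((t i)⁻¹ : Rˣ) : R)) k ∈ A) {a : ℤ} {f : (ι → ℤ) → ℤ}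
    (hg : ∀ (g : Equiv.Perm ι) (u : ι → ℤ), f (fun i => u (g i)) = f u)
    (hr : ∀ u i, f (Function.update u i (a - u i)) = f u) (N : ℕ) :
    ∃ x ∈ A, ∑ u ∈ box ι a N, (f u : R) * ((t₀ ^ a * ∏ i, t i ^ u i : Rˣ) : R) =
      x * ((t₀ : R) * ∏ i, (1 + (t i : R))) ^ (a % 2).toNat := by
  obtain ⟨Q, hQ⟩ := exists_orb R a
  have hz : ∀ b : ℤ, (((t₀ ^ 2 * ∏ i, t i) ^ b : Rˣ) : R) ∈ A := by
    intro b
    rcases le_total 0 b with hb | hb
    · lift b to ℕ using hb
      rw [zpow_natCast, Units.val_pow_eq_pow_val]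
      exact A.pow_mem hl b
    · obtain ⟨b', rfl⟩ : ∃ b' : ℕ, b = -b' := ⟨b.natAbs, by omega⟩
      rw [zpow_neg, zpow_natCast, ← inv_pow, Units.val_pow_eq_pow_val]
      exact A.pow_mem hl' b'
  refine ⟨(((t₀ ^ 2 * ∏ i, t i) ^ (a / 2) : Rˣ) : R) * MvPolynomial.aeval
    (fun i => (t i : R) + (((t i)⁻¹ : Rˣ) : R)) (PP Q a f N),
    A.mul_mem (hz _) (sym_mem he (PP_symm Q a hg N)), ?_⟩
  have h1 : ∑ u ∈ box ι a N, (f u : R) * ((t₀ ^ a * ∏ i, t i ^ u i : Rˣ) : R) =
      ((t₀ ^ a : Rˣ) : R) * ∑ u ∈ box ι a N, (f u : R) * ∏ i, ((t i ^ u i : Rˣ) : R) := by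
    rw [Finset.mul_sum]
    refine Finset.sum_congr rfl fun u _ => ?_
    rw [Units.val_mul, Units.coe_prod]
    ring
  rw [h1, core_sum hr, aeval_PP]
  simp only [hQ]
  have h2 : ∀ v : ι → ℕ, ∏ i, (((t i ^ (a / 2) : Rˣ) : R) * (1 + (t i : R)) ^ (a % 2).toNat *
      aeval ((t i : R) + (((t i)⁻¹ : Rˣ) : R)) (Q (v i))) =
      ((∏ i, t i ^ (a / 2) : Rˣ) : R) * (∏ i, (1 + (t i : R))) ^ (a % 2).toNat *
        ∏ i, aeval ((t i : R) + (((t i)⁻¹ : Rˣ) : R)) (Q (v i)) := by
    intro v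
    rw [Finset.prod_mul_distrib, Finset.prod_mul_distrib, Units.coe_prod, Finset.prod_pow]
  simp only [h2]
  have h3 : ((t₀ ^ a : Rˣ) : R) = ((t₀ ^ (2 * (a / 2)) : Rˣ) : R) * (t₀ : R) ^ (a % 2).toNat := by
    have e : a = 2 * (a / 2) + ((a % 2).toNat : ℤ) := by
      have h1 := Int.emod_nonneg a (show (2 : ℤ) ≠ 0 by norm_num)
      omega
    conv_lhs => rw [e]
    rw [zpow_add, zpow_natCast, Units.val_mul, Units.val_pow_eq_pow_val]
  have h4 : (((t₀ ^ 2 * ∏ i, t i) ^ (a / 2) : Rˣ) : R) =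
      ((t₀ ^ (2 * (a / 2)) : Rˣ) : R) * ((∏ i, t i ^ (a / 2) : Rˣ) : R) := by
    rw [← Units.val_mul, mul_zpow, zpow_mul, Finset.prod_zpow]
    congr 2
  rw [h3, h4, mul_pow, Finset.mul_sum, Finset.mul_sum, Finset.sum_mul]
  refine Finset.sum_congr rfl fun v _ => ?_
  ring

end Run7.h456
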