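import Mathlib

set_option autoImplicit false

/-!
# Taylor coefficients of holomorphic functions: bounds, continuity in a parameter
-/

namespace Run7.h456

open Filter Topology Complex Set Metric

/-- the `k`-th Taylor coefficient of `g` at `x` -/
noncomputable def tc (g : ℂ → ℂ) (x : ℂ) (k : ℕ) : ℂ := (k.factorial : ℂ)⁻¹ * iteratedDeriv k g x

theorem tc_hasSum {g : ℂ → ℂ} {x : ℂ} {r : ℝ} (hg : DifferentiableOn ℂ g (ball x r)) {z : ℂ}
    (hz : z ∈ ball x r) : HasSum (fun k => tc g x k * (z - x) ^ k) (g z) := by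
  convert! hasSum_taylorSeries_on_ball hg hz using 2 with k
  rw [tc, smul_eq_mul, smul_eq_mul]
  ring

theorem tc_bound {g : ℂ → ℂ} {x : ℂ} {r M : ℝ} (hr : 0 < r)
    (hg : DifferentiableOn ℂ g (closedBall x r)) (hM : ∀ z ∈ sphere x r, ‖g z‖ ≤ M) (k : ℕ) :
    ‖tc g x k‖ ≤ M / r ^ k := by
  have h1 : DiffContOnCl ℂ g (ball x r) :=
    (hg.mono closure_ball_subset_closedBall).diffContOnCl
  have h2 := norm_iteratedDeriv_le_of_forall_mem_sphere_norm_le k hr h1 hM
  have h3 : (0 : ℝ) < k.factorial := by exact_mod_cast k.factorial_pos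
  rw [tc, norm_mul, norm_inv, Complex.norm_natCast, inv_mul_le_iff₀ h3]
  calc ‖iteratedDeriv k g x‖ ≤ k.factorial * M / r ^ k := h2
    _ = k.factorial * (M / r ^ k) := by ring

theorem tc_congr {g g' : ℂ → ℂ} {x : ℂ} (h : g =ᶠ[𝓝 x] g') (k : ℕ) : tc g x k = tc g' x k := by
  rw [tc, tc, h.iteratedDeriv_eq k]

theorem tc_circle {g : ℂ → ℂ} {x : ℂ} {r : ℝ} (hr : 0 < r)
    (hg : DifferentiableOn ℂ g (closedBall x r)) (k : ℕ) :
    tc g x k = (2 * Real.pi * I)⁻¹ * ∮ z in C(x, r), (1 / (z - x) ^ (k + 1)) • g z := by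
  rw [hg.circleIntegral_one_div_sub_center_pow_smul hr k, tc, smul_eq_mul]
  have h1 : (2 * (Real.pi : ℂ) * I) ≠ 0 := two_pi_I_ne_zero
  field_simp

theorem tc_continuous {Y : Type*} [TopologicalSpace Y] [FirstCountableTopology Y] {G : Y → ℂ → ℂ}
    {x : ℂ} {r : ℝ} (hr : 0 < r) (hG : ∀ y, DifferentiableOn ℂ (G y) (closedBall x r))
    (hc : Continuous fun p : Y × ℝ => G p.1 (circleMap x r p.2)) (k : ℕ) :
    Continuous fun y => tc (G y) x k := by
  simp only [fun y => tc_circle hr (hG y) k]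
  refine continuous_const.mul ?_
  unfold circleIntegral
  apply intervalIntegral.continuous_parametric_intervalIntegral_of_continuous'
  have h1 : Function.uncurry (fun (y : Y) (θ : ℝ) => deriv (circleMap x r) θ •
      (1 / (circleMap x r θ - x) ^ (k + 1)) • G y (circleMap x r θ)) =
      fun p : Y × ℝ => (circleMap 0 r p.2 * I) * ((1 / (circleMap x r p.2 - x) ^ (k + 1)) *
        G p.1 (circleMap x r p.2)) := by
    funext p
    obtain ⟨y, θ⟩ := p
    simp only [Function.uncurry_apply_pair, deriv_circleMap, smul_eq_mul]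
  rw [h1]
  have h2 : Continuous fun p : Y × ℝ => circleMap x r p.2 :=
    (continuous_circleMap x r).comp continuous_snd
  have h3 : Continuous fun p : Y × ℝ => circleMap 0 r p.2 :=
    (continuous_circleMap 0 r).comp continuous_snd
  refine (h3.mul continuous_const).mul (Continuous.mul ?_ hc)
  refine Continuous.div continuous_const ((h2.sub continuous_const).pow _) ?_
  intro p
  refine pow_ne_zero _ ?_
  rw [sub_ne_zero]
  exact circleMap_ne_center hr.ne'

theorem psum_summable {c : ℕ → ℂ} {M ρ : ℝ} (hρ : 0 < ρ) (hc : ∀ k, ‖c k‖ ≤ M / ρ ^ k) {x z : ℂ}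
    (hz : z ∈ ball x ρ) : Summable fun k => c k * (z - x) ^ k := by
  rw [mem_ball, dist_eq_norm] at hz
  refine Summable.of_norm_bounded (g := fun k : ℕ => M * (‖z - x‖ / ρ) ^ k) ?_ ?_
  · refine (summable_geometric_of_lt_one (by positivity) ?_).mul_left M
    rw [div_lt_one hρ]
    exact hz
  · intro k
    rw [norm_mul, norm_pow, div_pow]
    calc ‖c k‖ * ‖z - x‖ ^ k ≤ M / ρ ^ k * ‖z - x‖ ^ k := by
          gcongr
          exact hc k
      _ = M * (‖z - x‖ ^ k / ρ ^ k) := by ring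

theorem psum_diffOn {c : ℕ → ℂ} {M ρ : ℝ} (hρ : 0 < ρ) (hc : ∀ k, ‖c k‖ ≤ M / ρ ^ k) (x : ℂ) :
    DifferentiableOn ℂ (fun z => ∑' k, c k * (z - x) ^ k) (ball x ρ) := by
  intro z hz
  have hM : 0 ≤ M := by
    have := (norm_nonneg _).trans (hc 0)
    simpa using this
  rw [mem_ball] at hz
  obtain ⟨r, hr1, hr2⟩ := exists_between hz
  have hr0 : 0 ≤ r := dist_nonneg.trans hr1.le
  have h1 : DifferentiableOn ℂ (fun z => ∑' k, c k * (z - x) ^ k) (ball x r) := by
    refine differentiableOn_tsum_of_summable_norm (u := fun k : ℕ => M * (r / ρ) ^ k) ?_ ?_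
      isOpen_ball ?_
    · refine (summable_geometric_of_lt_one (by positivity) ?_).mul_left M
      rw [div_lt_one hρ]
      exact hr2
    · intro k
      fun_prop
    · intro k w hw
      rw [mem_ball, dist_eq_norm] at hw
      rw [norm_mul, norm_pow, div_pow]
      calc ‖c k‖ * ‖w - x‖ ^ k ≤ M / ρ ^ k * r ^ k := by
            gcongr
            exact hc k
        _ = M * (r ^ k / ρ ^ k) := by ring
  exact (h1.differentiableAt (isOpen_ball.mem_nhds hr1)).differentiableWithinAt

end Run7.h456
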