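import Pool.Agent.Run7.h456.Mero
import Pool.Agent.Run7.h456.Taylor

set_option autoImplicit false

/-!
# The set of parameters for which a function continues meromorphically is a Borel set
-/

namespace Run7.h456

open Filter Topology Complex Set Metric

/-- a polynomial clears the poles on a compact set -/
theorem clear_poles {K : Set ℂ} (hK : IsCompact K) {L : ℂ → ℂ} (hL : ∀ z ∈ K, MeromorphicAt L z) :
    ∃ Q : Polynomial ℂ, Q ≠ 0 ∧ ∀ z ∈ K, 0 ≤ meromorphicOrderAt (fun s => Q.eval s * L s) z := by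
  refine hK.induction_on (p := fun S => ∃ Q : Polynomial ℂ, Q ≠ 0 ∧ ∀ z ∈ S, z ∈ K →
      0 ≤ meromorphicOrderAt (fun s => Q.eval s * L s) z) ?_ ?_ ?_ ?_ |>.imp
      fun Q hQ => ⟨hQ.1, fun z hz => hQ.2 z hz hz⟩
  · exact ⟨1, one_ne_zero, fun z hz => absurd hz (notMem_empty z)⟩
  · rintro S T hST ⟨Q, hQ, h⟩
    exact ⟨Q, hQ, fun z hz => h z (hST hz)⟩
  · rintro S T ⟨Q, hQ, h⟩ ⟨P, hP, h'⟩
    refine ⟨P * Q, mul_ne_zero hP hQ, fun z hz hzK => ?_⟩
    have hp : ∀ R : Polynomial ℂ, AnalyticAt ℂ (fun s => R.eval s) z := fun R => by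
      have := R.differentiable.analyticAt z
      exact this
    rcases hz with hz | hz
    · have e : (fun s => (P * Q).eval s * L s) = (fun s => P.eval s) * fun s => Q.eval s * L s := by
        funext s
        simp only [Polynomial.eval_mul, Pi.mul_apply]
        ring
      have h1 : MeromorphicAt (fun s => Q.eval s * L s) z :=
        (hp Q).meromorphicAt.mul (hL z hzK)
      rw [e, meromorphicOrderAt_mul (hp P).meromorphicAt h1]
      exact add_nonneg (hp P).meromorphicOrderAt_nonneg (h z hz hzK)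
    · have e : (fun s => (P * Q).eval s * L s) = (fun s => Q.eval s) * fun s => P.eval s * L s := by
        funext s
        simp only [Polynomial.eval_mul, Pi.mul_apply]
        ring
      have h1 : MeromorphicAt (fun s => P.eval s * L s) z :=
        (hp P).meromorphicAt.mul (hL z hzK)
      rw [e, meromorphicOrderAt_mul (hp Q).meromorphicAt h1]
      exact add_nonneg (hp Q).meromorphicOrderAt_nonneg (h' z hz hzK)
  · intro x hx
    obtain ⟨n, hn⟩ := hL x hx
    refine ⟨{z | AnalyticAt ℂ (fun z => (z - x) ^ n • L z) z},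
      mem_nhdsWithin_of_mem_nhds hn.eventually_analyticAt, (Polynomial.X - Polynomial.C x) ^ n,
      pow_ne_zero _ (Polynomial.X_sub_C_ne_zero x), fun z hz _ => ?_⟩
    have e : (fun s => ((Polynomial.X - Polynomial.C x) ^ n).eval s * L s) =
        fun z => (z - x) ^ n • L z := by
      funext s
      simp
    rw [e]
    exact AnalyticAt.meromorphicOrderAt_nonneg hz

section

variable {Y : Type*} [TopologicalSpace Y] [FirstCountableTopology Y] {F : Y → ℂ → ℂ} {c q : ℝ}

/-- the polynomial with coefficients `a` in powers of `s - x` -/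
noncomputable def pol {m : ℕ} (a : Fin (m + 1) → ℂ) (x s : ℂ) : ℂ := ∑ i, a i * (s - x) ^ (i : ℕ)

/-- the closed sets -/
def CS (F : Y → ℂ → ℂ) (x : ℂ) (ρ : ℝ) (m n : ℕ) : Set Y :=
  {y | ∃ a : Fin (m + 1) → ℂ, a ∈ sphere (0 : Fin (m + 1) → ℂ) 1 ∧
    ∀ k : ℕ, ‖tc (fun s => pol a x s * F y s) x k‖ ≤ n / ρ ^ k}

theorem pol_diff {m : ℕ} (a : Fin (m + 1) → ℂ) (x : ℂ) : Differentiable ℂ (pol a x) := by
  unfold pol
  fun_prop

/-- `F` is continuous on `Y × {Re s > c}` and holomorphic in `s` -/
structure Fam (F : Y → ℂ → ℂ) (c : ℝ) : Prop where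
  an : ∀ y (s : ℂ), c < s.re → AnalyticAt ℂ (F y) s
  cont : ∀ y (s : ℂ), c < s.re → ContinuousAt (fun p : Y × ℂ => F p.1 p.2) (y, s)

theorem closed_CS (hF : Fam F c) {x : ℂ} (hx : c + 1 < x.re) (ρ : ℝ) (m n : ℕ) :
    IsClosed (CS F x ρ m n) := by
  have hre : ∀ z ∈ closedBall x 1, c < z.re := by
    intro z hz
    rw [mem_closedBall, dist_eq_norm] at hz
    have h1 := (abs_le.1 ((abs_re_le_norm _).trans hz)).1
    rw [sub_re] at h1
    linarith
  have hcont : ∀ k : ℕ, Continuous fun p : Y × (Fin (m + 1) → ℂ) =>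
      tc (fun s => pol p.2 x s * F p.1 s) x k := by
    intro k
    refine tc_continuous one_pos (G := fun (p : Y × (Fin (m + 1) → ℂ)) s =>
      pol p.2 x s * F p.1 s) (fun p z hz => ?_) ?_ k
    · exact ((pol_diff p.2 x z).mul
        (hF.an p.1 z (hre z hz)).differentiableAt).differentiableWithinAt
    · refine Continuous.mul ?_ ?_
      · unfold pol
        have h1 : Continuous fun p : (Y × (Fin (m + 1) → ℂ)) × ℝ => circleMap x 1 p.2 :=
          (continuous_circleMap x 1).comp continuous_snd
        refine continuous_finsetSum _ fun i _ => Continuous.mul ?_ ((h1.sub continuous_const).pow _)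
        exact (continuous_apply i).comp (continuous_snd.comp continuous_fst)
      · rw [continuous_iff_continuousAt]
        rintro ⟨⟨y, a⟩, θ⟩
        have hz : c < (circleMap x 1 θ).re :=
          hre _ (sphere_subset_closedBall (circleMap_mem_sphere x zero_le_one θ))
        have h1 := hF.cont y _ hz
        have h2 : ContinuousAt (fun p : (Y × (Fin (m + 1) → ℂ)) × ℝ =>
            (p.1.1, circleMap x 1 p.2)) ((y, a), θ) :=
          ((continuous_fst.comp continuous_fst).prodMk
            ((continuous_circleMap x 1).comp continuous_snd)).continuousAt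
        exact ContinuousAt.comp (f := fun p : (Y × (Fin (m + 1) → ℂ)) × ℝ =>
            (p.1.1, circleMap x 1 p.2)) (x := ((y, a), θ)) h1 h2
  set Z : Set (Y × sphere (0 : Fin (m + 1) → ℂ) 1) :=
    {p | ∀ k : ℕ, ‖tc (fun s => pol (p.2 : Fin (m + 1) → ℂ) x s * F p.1 s) x k‖ ≤ n / ρ ^ k} with hZ
  have hZc : IsClosed Z := by
    have e : Z = ⋂ k : ℕ, {p : Y × sphere (0 : Fin (m + 1) → ℂ) 1 |
        ‖tc (fun s => pol (p.2 : Fin (m + 1) → ℂ) x s * F p.1 s) x k‖ ≤ n / ρ ^ k} := by
      ext p
      simp [hZ]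
    rw [e]
    refine isClosed_iInter fun k => isClosed_le ?_ continuous_const
    exact ((hcont k).comp (continuous_fst.prodMk
      (continuous_subtype_val.comp continuous_snd))).norm
  have himg : CS F x ρ m n = Prod.fst '' Z := by
    ext y
    constructor
    · rintro ⟨a, ha, h⟩
      exact ⟨(y, ⟨a, ha⟩), h, rfl⟩
    · rintro ⟨⟨y', a⟩, h, rfl⟩
      exact ⟨a, a.2, h⟩
  rw [himg]
  haveI : CompactSpace (sphere (0 : Fin (m + 1) → ℂ) 1) :=
    isCompact_iff_compactSpace.1 (isCompact_sphere 0 1)
  exact isClosedMap_fst_of_compactSpace _ hZc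

omit [TopologicalSpace Y] [FirstCountableTopology Y] in
/-- continuation to a disc gives membership -/
theorem mem_CS {y : Y} (hF : ∀ s : ℂ, c < s.re → AnalyticAt ℂ (F y) s) {x : ℂ}
    (hx : c < x.re) {ρ : ℝ} (hρ : 0 < ρ) (hρq : q < x.re - ρ) (h : Ext q (F y)) :
    ∃ m n : ℕ, y ∈ CS F x ρ m n := by
  obtain ⟨L, hL, hLF⟩ := h.exact hF
  obtain ⟨ρ', hρ1, hρ2⟩ := exists_between (show ρ < x.re - q by linarith)
  have hsub : closedBall x ρ' ⊆ HP q := by
    intro z hz
    rw [mem_closedBall, dist_eq_norm] at hz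
    have h1 := (abs_le.1 ((abs_re_le_norm _).trans hz)).1
    rw [sub_re] at h1
    rw [mem_HP]
    linarith
  obtain ⟨Q, hQ0, hQ⟩ := clear_poles (isCompact_closedBall x ρ') fun z hz => hL z (hsub hz)
  set P : Polynomial ℂ := Q.comp (Polynomial.X + Polynomial.C x) with hP
  have hPQ : ∀ s, Q.eval s = P.eval (s - x) := by
    intro s
    simp [hP]
  have hP0 : P ≠ 0 := by
    intro h0
    apply hQ0
    have h1 : P.comp (Polynomial.X - Polynomial.C x) = Q := by
      rw [hP, Polynomial.comp_assoc]
      simp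
    rw [← h1, h0, Polynomial.zero_comp]
  set m := P.natDegree with hm
  set a₀ : Fin (m + 1) → ℂ := fun i => P.coeff i with ha₀
  have hpol₀ : ∀ s, pol a₀ x s = Q.eval s := by
    intro s
    rw [hPQ, Polynomial.eval_eq_sum_range, ← hm]
    unfold pol
    rw [Finset.sum_range]
  have ha₀ne : a₀ ≠ 0 := by
    intro h0
    have h1 := congrFun h0 (Fin.last m)
    simp only [ha₀, Fin.val_last, Pi.zero_apply] at h1
    exact hP0 (Polynomial.leadingCoeff_eq_zero.1 h1)
  have hN : 0 < ‖a₀‖ := norm_pos_iff.2 ha₀ne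
  set a : Fin (m + 1) → ℂ := fun i => ((‖a₀‖⁻¹ : ℝ) : ℂ) * a₀ i with ha
  have hasph : a ∈ sphere (0 : Fin (m + 1) → ℂ) 1 := by
    rw [mem_sphere_zero_iff_norm]
    have e : a = ((‖a₀‖⁻¹ : ℝ) : ℂ) • a₀ := rfl
    rw [e, norm_smul, Complex.norm_real, norm_inv, norm_norm, inv_mul_cancel₀ hN.ne']
  have hpol : ∀ s, pol a x s = ((‖a₀‖⁻¹ : ℝ) : ℂ) * Q.eval s := by
    intro s
    rw [← hpol₀]
    unfold pol
    rw [Finset.mul_sum]
    refine Finset.sum_congr rfl fun i _ => ?_
    rw [ha]
    ring
  -- the analytic version of `pol a * L`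
  set U : Set ℂ := ball x ρ' with hU
  set G : ℂ → ℂ := fun s => pol a x s * L s with hG
  have hUq : U ⊆ HP q := fun z hz => hsub (ball_subset_closedBall hz)
  have hpa : ∀ z, AnalyticAt ℂ (pol a x) z := fun z => (pol_diff a x).analyticAt z
  have hGm : MeromorphicOn G U := fun z hz => (hpa z).meromorphicAt.mul (hL z (hUq hz))
  have hGo : ∀ z ∈ U, 0 ≤ meromorphicOrderAt G z := by
    intro z hz
    have e : G = (fun _ => ((‖a₀‖⁻¹ : ℝ) : ℂ)) * fun s => Q.eval s * L s := by
      funext s
      simp only [hG, Pi.mul_apply, hpol]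
      ring
    have h1 : AnalyticAt ℂ (fun s => Q.eval s) z := Q.differentiable.analyticAt z
    have h2 : MeromorphicAt (fun s => Q.eval s * L s) z := h1.meromorphicAt.mul (hL z (hUq hz))
    rw [e, meromorphicOrderAt_mul (MeromorphicAt.const _ _) h2]
    exact add_nonneg (analyticAt_const.meromorphicOrderAt_nonneg)
      (hQ z (ball_subset_closedBall hz))
  set E : ℂ → ℂ := toMeromorphicNFOn G U with hE
  have hENF : MeromorphicNFOn E U := meromorphicNFOn_toMeromorphicNFOn G U
  have hEan : ∀ z ∈ U, AnalyticAt ℂ E z := by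
    intro z hz
    refine (hENF hz).meromorphicOrderAt_nonneg_iff_analyticAt.1 ?_
    rw [hE, meromorphicOrderAt_toMeromorphicNFOn hGm hz]
    exact hGo z hz
  have hxU : x ∈ U := mem_ball_self (hρ.trans hρ1)
  have hEx : E =ᶠ[𝓝 x] fun s => pol a x s * F y s := by
    have h1 : ∀ᶠ z in 𝓝 x, z ∈ U ∧ c < z.re :=
      Filter.Eventually.and (isOpen_ball.mem_nhds hxU) ((isOpen_HP c).mem_nhds hx)
    filter_upwards [h1] with z hz
    refine eq_of_nhdsNE (hEan z hz.1).continuousAt ((hpa z).mul (hF z hz.2)).continuousAt ?_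
    have h2 : G =ᶠ[𝓝[≠] z] E := (hGm.toMeromorphicNFOn_eq_self_on_nhdsNE hz.1).symm
    have h3 : ∀ᶠ w in 𝓝[≠] z, c < w.re :=
      mem_nhdsWithin_of_mem_nhds ((isOpen_HP c).mem_nhds hz.2)
    filter_upwards [h2, h3] with w hw1 hw2
    rw [← hw1, hG]
    simp only [hLF w hw2, Pi.mul_apply]
  have hEd : DifferentiableOn ℂ E (closedBall x ρ) := fun z hz =>
    (hEan z (closedBall_subset_ball hρ1 hz)).differentiableAt.differentiableWithinAt
  obtain ⟨M, hM⟩ := (isCompact_closedBall x ρ).exists_bound_of_continuousOn hEd.continuousOn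
  obtain ⟨n, hn⟩ := exists_nat_ge M
  refine ⟨m, n, a, hasph, fun k => ?_⟩
  rw [← tc_congr hEx k]
  refine (tc_bound hρ hEd (fun z hz => hM z (sphere_subset_closedBall hz)) k).trans ?_
  gcongr

omit [TopologicalSpace Y] [FirstCountableTopology Y] in
/-- membership gives continuation to a disc -/
theorem of_mem_CS {y : Y} (hF : ∀ s : ℂ, c < s.re → AnalyticAt ℂ (F y) s) {x : ℂ}
    (hx : c + 1 < x.re) {ρ : ℝ} (hρ : 0 < ρ) {m n : ℕ} (h : y ∈ CS F x ρ m n) :
    ∃ L : ℂ → ℂ, MeromorphicOn L (ball x ρ) ∧ L =ᶠ[𝓝[≠] x] F y := by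
  obtain ⟨a, ha, hk⟩ := h
  set E : ℂ → ℂ := fun z => ∑' k, tc (fun s => pol a x s * F y s) x k * (z - x) ^ k with hE
  have hEd : DifferentiableOn ℂ E (ball x ρ) := psum_diffOn hρ hk x
  have hpa : ∀ z, AnalyticAt ℂ (pol a x) z := fun z => (pol_diff a x).analyticAt z
  refine ⟨fun z => E z / pol a x z, fun z hz => ?_, ?_⟩
  · exact (hEd.analyticAt (isOpen_ball.mem_nhds hz)).meromorphicAt.div (hpa z).meromorphicAt
  · have hd : DifferentiableOn ℂ (fun s => pol a x s * F y s) (ball x 1) := by
      intro z hz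
      rw [mem_ball, dist_eq_norm] at hz
      have h1 := (abs_le.1 ((abs_re_le_norm _).trans hz.le)).1
      rw [sub_re] at h1
      exact ((hpa z).mul (hF z (by linarith))).differentiableAt.differentiableWithinAt
    have hpne : ∀ᶠ z in 𝓝[≠] x, pol a x z ≠ 0 := by
      rcases (hpa x).eventually_eq_zero_or_eventually_ne_zero with h1 | h1
      · exfalso
        -- a nonzero polynomial is not locally zero
        have hP : (∑ i : Fin (m + 1), Polynomial.C (a i) * Polynomial.X ^ (i : ℕ)) = 0 := by
          apply Polynomial.eq_zero_of_infinite_isRoot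
          have h2 : ∀ᶠ w in 𝓝 (0 : ℂ), (∑ i : Fin (m + 1), Polynomial.C (a i) *
              Polynomial.X ^ (i : ℕ)).IsRoot w := by
            have h3 : Tendsto (fun w : ℂ => w + x) (𝓝 0) (𝓝 x) := by
              have : Continuous fun w : ℂ => w + x := by fun_prop
              have h4 := this.tendsto 0
              rwa [zero_add] at h4
            filter_upwards [h3.eventually h1] with w hw
            rw [Polynomial.IsRoot, Polynomial.eval_finsetSum]
            simp only [Polynomial.eval_mul, Polynomial.eval_C, Polynomial.eval_pow,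
              Polynomial.eval_X]
            unfold pol at hw
            simpa using hw
          exact infinite_of_mem_nhds 0 h2
        have ha0 : a = 0 := by
          funext i
          have h4 := congrArg (fun P : Polynomial ℂ => P.coeff i) hP
          simp only [Polynomial.finsetSum_coeff, Polynomial.coeff_C_mul, Polynomial.coeff_X_pow,
            Polynomial.coeff_zero] at h4
          rw [Finset.sum_eq_single i] at h4
          · simpa using h4
          · intro b _ hb
            have : (i : ℕ) ≠ b := fun h => hb (Fin.ext h.symm)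
            simp [this]
          · intro h
            exact absurd (Finset.mem_univ i) h
        rw [ha0] at ha
        simp at ha
      · exact h1
    have h5 : ∀ᶠ z in 𝓝[≠] x, z ∈ ball x 1 :=
      mem_nhdsWithin_of_mem_nhds (isOpen_ball.mem_nhds (mem_ball_self one_pos))
    filter_upwards [hpne, h5] with z hz1 hz2
    have h6 := (tc_hasSum hd hz2).tsum_eq
    simp only [hE]
    rw [h6, mul_div_cancel_left₀ _ hz1]

/-- the centres of the discs -/
noncomputable def xc (c q : ℝ) (j : ℕ) : ℂ := ((max c q + 2 + j : ℝ) : ℂ)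

theorem xc_re (c q : ℝ) (j : ℕ) : (xc c q j).re = max c q + 2 + j := ofReal_re _

/-- the radii of the discs -/
noncomputable def rc (c q : ℝ) (j : ℕ) : ℝ := max c q + 2 + j - q - 1 / ((j : ℝ) + 1)

theorem rc_pos (c q : ℝ) (j : ℕ) : 0 < rc c q j := by
  unfold rc
  have h1 : 1 / ((j : ℝ) + 1) ≤ 1 := by
    rw [div_le_one (by positivity)]
    linarith [Nat.cast_nonneg (α := ℝ) j]
  have h2 := le_max_right c q
  linarith [Nat.cast_nonneg (α := ℝ) j]

omit [TopologicalSpace Y] [FirstCountableTopology Y] in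
theorem ext_iff {y : Y} (hF : ∀ s : ℂ, c < s.re → AnalyticAt ℂ (F y) s) :
    Ext q (F y) ↔ ∀ j : ℕ, ∃ m n : ℕ, y ∈ CS F (xc c q j) (rc c q j) m n := by
  constructor
  · intro h j
    refine mem_CS hF ?_ (rc_pos c q j) ?_ h
    · rw [xc_re]
      linarith [le_max_left c q, Nat.cast_nonneg (α := ℝ) j]
    · rw [xc_re]
      unfold rc
      have : 0 < 1 / ((j : ℝ) + 1) := by positivity
      linarith
  · intro h
    have h1 : ∀ j : ℕ, ∃ L : ℂ → ℂ, MeromorphicOn L (ball (xc c q j) (rc c q j)) ∧
        L =ᶠ[𝓝[≠] (xc c q j)] F y := by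
      intro j
      obtain ⟨m, n, hmn⟩ := h j
      refine of_mem_CS hF ?_ (rc_pos c q j) hmn
      rw [xc_re]
      linarith [le_max_left c q, Nat.cast_nonneg (α := ℝ) j]
    choose L hL1 hL2 using h1
    have hnest : ∀ i j : ℕ, i ≤ j → ball (xc c q i) (rc c q i) ⊆ ball (xc c q j) (rc c q j) := by
      intro i j hij
      refine ball_subset_ball' ?_
      have hij' : (i : ℝ) ≤ j := by exact_mod_cast hij
      have e : dist (xc c q i) (xc c q j) = j - i := by
        rw [dist_comm, dist_eq_norm]
        have e1 : xc c q j - xc c q i = (((j : ℝ) - i : ℝ) : ℂ) := by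
          unfold xc
          push_cast
          ring
        rw [e1, Complex.norm_real, Real.norm_eq_abs, abs_of_nonneg (by linarith)]
      rw [e]
      unfold rc
      have h2 : 1 / ((j : ℝ) + 1) ≤ 1 / ((i : ℝ) + 1) := by gcongr
      linarith
    have hgerm : ∀ i j : ℕ, i ≤ j → L j =ᶠ[𝓝[≠] (xc c q i)] F y := by
      intro i j hij
      refine mero_identity (V := ball (xc c q j) (rc c q j) ∩ HP c)
        ((convex_ball _ _).inter (convex_HP c)).isPreconnected
        (fun z hz => hL1 j z hz.1) (fun z hz => (hF z hz.2).meromorphicAt) (s₀ := xc c q j)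
        ⟨mem_ball_self (rc_pos c q j), ?_⟩ (hL2 j) _ ⟨hnest i j hij
          (mem_ball_self (rc_pos c q i)), ?_⟩
      · rw [mem_HP, xc_re]
        linarith [le_max_left c q, Nat.cast_nonneg (α := ℝ) j]
      · rw [mem_HP, xc_re]
        linarith [le_max_left c q, Nat.cast_nonneg (α := ℝ) i]
    have hcomp' : ∀ i j : ℕ, i ≤ j → ∀ s, s ∈ ball (xc c q i) (rc c q i) →
        L i =ᶠ[𝓝[≠] s] L j := by
      intro i j hij s hs
      refine mero_identity (V := ball (xc c q i) (rc c q i)) (convex_ball _ _).isPreconnected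
        (hL1 i) (fun z hz => hL1 j z (hnest i j hij hz)) (s₀ := xc c q i)
        (mem_ball_self (rc_pos c q i)) ?_ s hs
      exact (hL2 i).trans (hgerm i j hij).symm
    obtain ⟨N, hN⟩ := mero_glue (V := fun j => ball (xc c q j) (rc c q j))
      (fun j => isOpen_ball) (L := L) hL1 (by
        intro i j s hi hj
        rcases le_total i j with hij | hij
        · exact hcomp' i j hij s hi
        · exact (hcomp' j i hij s hj).symm)
    refine Ext.of_germ (c := c) (L := N) (s₀ := xc c q 0) hF ?_ ?_ ?_ ?_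
    · intro s hs
      rw [mem_HP] at hs
      -- `s` lies in one of the discs
      obtain ⟨j, hj⟩ : ∃ j : ℕ, s ∈ ball (xc c q j) (rc c q j) := by
        set d : ℝ := s.re - q with hd
        have hd0 : 0 < d := by
          rw [hd]
          linarith
        obtain ⟨j, hj⟩ := exists_nat_gt (max (2 / d) ((s.im ^ 2 + d ^ 2 + 1) / d))
        refine ⟨j, ?_⟩
        have hj1 : 2 / d < j := (le_max_left _ _).trans_lt hj
        have hj2 : (s.im ^ 2 + d ^ 2 + 1) / d < j := (le_max_right _ _).trans_lt hj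
        rw [div_lt_iff₀ hd0] at hj1 hj2
        have hjpos : (0 : ℝ) < (j : ℝ) + 1 := by positivity
        have h3 : 1 / ((j : ℝ) + 1) < d / 2 := by
          rw [div_lt_iff₀ hjpos]
          nlinarith
        rw [mem_ball, dist_eq_norm, Complex.norm_eq_sqrt_sq_add_sq]
        rw [Real.sqrt_lt' (rc_pos c q j)]
        have e1 : (s - xc c q j).re = -((max c q + 2 + j - q) - d) := by
          rw [sub_re, xc_re, hd]
          ring
        have e2 : (s - xc c q j).im = s.im := by
          unfold xc
          rw [sub_im, ofReal_im, sub_zero]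
        rw [e1, e2]
        set X : ℝ := max c q + 2 + j - q with hX
        have hXj : (j : ℝ) + 2 ≤ X := by
          rw [hX]
          linarith [le_max_right c q]
        have e3 : rc c q j = X - 1 / ((j : ℝ) + 1) := by
          unfold rc
          rw [hX]
        rw [e3]
        have h4 : 0 < 1 / ((j : ℝ) + 1) := by positivity
        nlinarith [sq_nonneg (1 / ((j : ℝ) + 1))]
      exact (hN j s hj).1
    · rw [xc_re]
      linarith [le_max_left c q, Nat.cast_nonneg (α := ℝ) 0]
    · rw [xc_re]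
      linarith [le_max_right c q, Nat.cast_nonneg (α := ℝ) 0]
    · exact (hN 0 _ (mem_ball_self (rc_pos c q 0))).2.trans (hL2 0)

omit [FirstCountableTopology Y] in
/-- **The parameters for which `F y` continues form a countable intersection of countable unions
of closed sets.** -/
theorem ext_set_eq (hF : Fam F c) (q : ℝ) :
    {y | Ext q (F y)} = ⋂ j : ℕ, ⋃ m : ℕ, ⋃ n : ℕ, CS F (xc c q j) (rc c q j) m n := by
  ext y
  simp only [mem_iInter, mem_iUnion]
  exact ext_iff (hF.an y)

theorem measurable_ext [MeasurableSpace Y] [BorelSpace Y] (hF : Fam F c) (q : ℝ) :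
    MeasurableSet {y | Ext q (F y)} := by
  rw [ext_set_eq hF q]
  refine MeasurableSet.iInter fun j => MeasurableSet.iUnion fun m => MeasurableSet.iUnion fun n => ?_
  refine (closed_CS hF ?_ _ m n).measurableSet
  rw [xc_re]
  linarith [le_max_left c q, Nat.cast_nonneg (α := ℝ) j]

end

end Run7.h456
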