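import Pool.Agent.Run7.h456.Cont

set_option autoImplicit false

/-!
# The constituents of the spin L-functions of Eisenstein series
-/

namespace Run7.h456

open Filter Topology Complex MeasureTheory

variable {S : Finset ℕ}

/-- `b(p)^m` -/
noncomputable def pwr (S : Finset ℕ) (b : ℕ → ℂ) : PS S × ℕ → ℂ := fun a => b a.1 ^ (a.2 + 1)

/-- the elementary symmetric functions of the powers of the Satake parameters -/
noncomputable def epw (S : Finset ℕ) {a : ℕ} (σ : ℕ → Fin a → ℂ) (k : ℕ) : PS S × ℕ → ℂ :=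
  es (fun i => pwr S fun p => σ p i) k

/-- the trace of the spin representation for `τ` -/
noncomputable def rr (S : Finset ℕ) {m : ℕ} (τ : (ℕ → ℂ) × (ℕ → Fin m → ℂ)) : PS S × ℕ → ℂ :=
  pwr S τ.1 * ∏ i, (1 + pwr S fun p => τ.2 p i)

/-- the polynomially bounded functions form a ring -/
noncomputable def BB (S : Finset ℕ) : Subring (PS S × ℕ → ℂ) where
  carrier := {x | ∃ B, Bd x B}
  mul_mem' := by
    rintro x y ⟨B, hB⟩ ⟨B', hB'⟩
    exact ⟨_, hB.mul hB'⟩
  one_mem' := ⟨0, fun a => by simp⟩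
  add_mem' := by
    rintro x y ⟨B, hB⟩ ⟨B', hB'⟩
    exact ⟨_, hB.add hB'⟩
  zero_mem' := ⟨0, Bd.zero 0⟩
  neg_mem' := by
    rintro x ⟨B, hB⟩
    exact ⟨B, hB.neg⟩

theorem mem_BB {x : PS S × ℕ → ℂ} : x ∈ BB S ↔ ∃ B, Bd x B := Iff.rfl

theorem sh_BB (z : ℂ) : sh S z ∈ BB S := ⟨_, sh_bd z⟩

theorem pwr_BB {b : ℕ → ℂ} (hb : Tame b) : pwr S b ∈ BB S := by
  obtain ⟨B, hB⟩ := hb.bound S
  exact ⟨B, geom_bd hB⟩

theorem epw_BB {a : ℕ} {σ : ℕ → Fin a → ℂ} (h : ∀ i, Tame fun p => σ p i) (k : ℕ) :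
    epw S σ k ∈ BB S :=
  (BB S).sum_mem fun _ _ => (BB S).prod_mem fun i _ => pwr_BB (h i)

theorem rr_BB {m : ℕ} {τ : (ℕ → ℂ) × (ℕ → Fin m → ℂ)} (h₀ : Tame τ.1)
    (h : ∀ i, Tame fun p => τ.2 p i) : rr S τ ∈ BB S :=
  (BB S).mul_mem (pwr_BB h₀) ((BB S).prod_mem fun i _ => (BB S).add_mem (BB S).one_mem (pwr_BB (h i)))

theorem pwr_mul (b b' : ℕ → ℂ) : pwr S (fun p => b p * b' p) = pwr S b * pwr S b' := by
  funext a
  simp only [pwr, Pi.mul_apply, mul_pow]

theorem pwr_cpow (z : ℂ) : pwr S (fun p : ℕ => (p : ℂ) ^ (-z)) = sh S z := by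
  funext a
  simp only [pwr, sh]
  rw [← cpow_nat_mul]
  congr 1
  ring

theorem pwr_prod {J : Type*} (s : Finset J) (b : J → ℕ → ℂ) :
    pwr S (fun p => ∏ j ∈ s, b j p) = ∏ j ∈ s, pwr S (b j) := by
  funext a
  simp only [pwr, Finset.prod_apply, Finset.prod_pow]

theorem sh_sum {J : Type*} (s : Finset J) (z : J → ℂ) :
    sh S (∑ j ∈ s, z j) = ∏ j ∈ s, sh S (z j) := by
  classical
  induction s using Finset.induction_on with
  | empty => simp [sh_zero]
  | insert a s ha ih => rw [Finset.sum_insert ha, Finset.prod_insert ha, sh_add, ih]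

theorem sh_nat (n : ℕ) (z : ℂ) : sh S (n * z) = sh S z ^ n := by
  induction n with
  | zero => simp [sh_zero]
  | succ n ih =>
    rw [pow_succ, ← ih, ← sh_add]
    congr 1
    push_cast
    ring

theorem prod_one_add_mul {R : Type*} [CommRing R] {ι : Type*} [Fintype ι] [DecidableEq ι]
    (u : ι → R) (Y : R) :
    ∏ i, (1 + u i * Y) = ∑ k ∈ Finset.range (Fintype.card ι + 1), es u k * Y ^ k := by
  have e : ∀ i, 1 + u i * Y = u i * Y + 1 := fun i => add_comm _ _
  simp only [e]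
  rw [Finset.prod_add, Finset.sum_powerset, Finset.card_univ]
  refine Finset.sum_congr rfl fun k _ => ?_
  unfold es
  rw [Finset.sum_mul]
  refine Finset.sum_congr rfl fun s hs => ?_
  rw [Finset.prod_mul_distrib, Finset.prod_const, Finset.prod_const_one, mul_one,
    (Finset.mem_powersetCard.1 hs).2]

theorem es_zero' {R : Type*} [CommRing R] {ι : Type*} [Fintype ι] (u : ι → R) : es u 0 = 1 := by
  unfold es
  simp

theorem es_gt {R : Type*} [CommRing R] {ι : Type*} [Fintype ι] (u : ι → R) {k : ℕ}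
    (hk : Fintype.card ι < k) : es u k = 0 := by
  unfold es
  rw [Finset.powersetCard_eq_empty.2 (by rwa [Finset.card_univ]), Finset.sum_empty]

theorem xr_spin {ι : Type} [Fintype ι] [DecidableEq ι] (t₀ : ℕ → ℂ) (t : ℕ → ι → ℂ) :
    xr S t₀ t (spin ι) = pwr S t₀ * ∏ i, (1 + pwr S fun p => t p i) := by
  have h1 : ∀ i, (1 + pwr S fun p => t p i) =
      ∑ b ∈ (Finset.univ : Finset Bool), if b then pwr S (fun p => t p i) else 1 := by
    intro i
    simp [add_comm]
  simp only [h1]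
  rw [Finset.prod_univ_sum, Fintype.piFinset_univ, Finset.mul_sum]
  funext a
  rw [Finset.sum_apply]
  unfold xr spin
  rw [Multiset.map_map]
  change ∑ f : ι → Bool, _ = _
  refine Finset.sum_congr rfl fun f _ => ?_
  simp only [Function.comp_apply, vl, zpow_one, mul_pow, Pi.mul_apply, Finset.prod_apply, pwr]
  congr 1
  rw [← Finset.prod_pow]
  refine Finset.prod_congr rfl fun i _ => ?_
  cases f i <;> simp [pwr]

variable {C : Classes} (D : CuspidalDatum C)

theorem spin_datum (z₀ : ℂ) (z : Fin D.k → ℂ) :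
    xr S (D.t₀ z₀) (D.t z) (spin D.Index) =
      ∑ ε ∈ Fintype.piFinset fun j => Finset.range (D.a j + 1),
        ((∏ j, epw S (D.σ j) (ε j)) * rr S D.τ) * sh S (z₀ + ∑ j, ε j * z j) := by
  rw [xr_spin, Fintype.prod_sum_type, Fintype.prod_sigma]
  have h0 : pwr S (D.t₀ z₀) = pwr S D.τ.1 * sh S z₀ := by
    have := pwr_mul (S := S) D.τ.1 (fun p : ℕ => (p : ℂ) ^ (-z₀))
    rw [pwr_cpow] at this
    exact this
  have h1 : ∀ (j : Fin D.k) (i : Fin (D.a j)), (pwr S fun p => D.t z p (Sum.inl ⟨j, i⟩)) =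
      (pwr S fun p => D.σ j p i) * sh S (z j) := by
    intro j i
    have := pwr_mul (S := S) (fun p => D.σ j p i) (fun p : ℕ => (p : ℂ) ^ (-(z j)))
    rw [pwr_cpow] at this
    exact this
  have h2 : ∀ i : Fin D.m, (pwr S fun p => D.t z p (Sum.inr i)) = pwr S fun p => D.τ.2 p i :=
    fun i => rfl
  simp only [h1, h2]
  have h3 : ∀ j : Fin D.k, ∏ i : Fin (D.a j), (1 + (pwr S fun p => D.σ j p i) * sh S (z j)) =
      ∑ k ∈ Finset.range (D.a j + 1), epw S (D.σ j) k * sh S (z j) ^ k := by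
    intro j
    have := prod_one_add_mul (fun i : Fin (D.a j) => pwr S fun p => D.σ j p i) (sh S (z j))
    rw [Fintype.card_fin] at this
    exact this
  simp only [h3]
  rw [Finset.prod_univ_sum, h0, Finset.sum_mul, Finset.mul_sum]
  refine Finset.sum_congr rfl fun ε _ => ?_
  rw [Finset.prod_mul_distrib, sh_add, sh_sum]
  have h4 : ∏ j, sh S ((ε j : ℂ) * z j) = ∏ j, sh S (z j) ^ ε j :=
    Finset.prod_congr rfl fun j _ => sh_nat _ _
  rw [h4]
  unfold rr
  ring

end Run7.h456
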