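import Pool.Agent.Run7.h456.Comp

set_option autoImplicit false

/-!
# Separation of the constituents of the spin L-functions
-/

namespace Run7.h456

open Filter Topology Complex MeasureTheory

variable {C : Classes} {S : Finset ℕ}

theorem CuspidalDatum.tame_t₀ (D : CuspidalDatum C) (z₀ : ℂ) : Tame (D.t₀ z₀) :=
  ((C.tame_GSp _ _ D.τ_mem).1).mul (Tame.cpow (-z₀))

theorem CuspidalDatum.tame_t (D : CuspidalDatum C) (z : Fin D.k → ℂ) (i : D.Index) :
    Tame fun p => D.t z p i := by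
  rcases i with ⟨j, i⟩ | i
  · exact (C.tame_GL _ _ (D.σ_mem j) i).mul (Tame.cpow (-(z j)))
  · exact (C.tame_GSp _ _ D.τ_mem).2 i

/-- a constituent of the trace of the spin representation -/
noncomputable def cons (S : Finset ℕ) (D : CuspidalDatum C) (ε : Fin D.k → ℕ) :
    PS S × ℕ → ℂ := (∏ j, epw S (D.σ j) (ε j)) * rr S D.τ

theorem cons_BB (D : CuspidalDatum C) (ε : Fin D.k → ℕ) : cons S D ε ∈ BB S :=
  (BB S).mul_mem ((BB S).prod_mem fun j _ => epw_BB (C.tame_GL _ _ (D.σ_mem j)) _)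
    (rr_BB (C.tame_GSp _ _ D.τ_mem).1 (C.tame_GSp _ _ D.τ_mem).2)

/-- the linear form of a constituent -/
noncomputable def linD (D : CuspidalDatum C) (ε : Fin D.k → ℕ) : (Fin D.k → ℝ) →ₗ[ℝ] ℝ :=
  ∑ j, ((ε j : ℝ) - D.a j / 2) • LinearMap.proj j

theorem linD_apply (D : CuspidalDatum C) (ε : Fin D.k → ℕ) (y : Fin D.k → ℝ) :
    linD D ε y = ∑ j, ((ε j : ℝ) - D.a j / 2) * y j := by
  simp [linD]

theorem linD_inj (D : CuspidalDatum C) {ε ε' : Fin D.k → ℕ} (h : linD D ε = linD D ε') :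
    ε = ε' := by
  funext j
  have h1 := LinearMap.congr_fun h (Pi.single j 1)
  rw [linD_apply, linD_apply] at h1
  simpa [Pi.single_apply] using h1

theorem linD_eq (D : CuspidalDatum C) (ε : Fin D.k → ℕ) (y : Fin D.k → ℝ) :
    -(∑ j, (D.a j : ℂ) * y j) / 2 * I + ∑ j, (ε j : ℂ) * (y j * I) = (linD D ε y : ℝ) * I := by
  rw [linD_apply]
  push_cast
  rw [Finset.sum_mul, neg_div, neg_mul, Finset.sum_div, Finset.sum_mul, ← Finset.sum_neg_distrib,
    ← Finset.sum_add_distrib]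
  refine Finset.sum_congr rfl fun j _ => ?_
  ring

/-- **Separation of the constituents of the spin L-functions of an Eisenstein family.** -/
theorem datum_sep (D : CuspidalDatum C) {S₁ : Finset ℕ} (h : ¬ Negligible {y : Fin D.k → ℝ |
    Continues S₁ (D.t₀ (-(∑ j, (D.a j : ℂ) * y j) / 2 * I)) (D.t fun j => y j * I)
      (spin D.Index)}) (S : Finset ℕ) {ε : Fin D.k → ℕ} (hε : ∀ j, ε j ≤ D.a j) :
    cons S D ε ∈ GG S := by
  set J : Finset (Fin D.k → ℕ) := Fintype.piFinset fun j => Finset.range (D.a j + 1) with hJ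
  choose B hB using fun ε => mem_BB.1 (cons_BB (S := S) D ε)
  set c : ℝ := 1 + ∑ ε ∈ J, |B ε| with hc
  have hgood : ∀ ε ∈ J, GoodAt c (LX (cons S D ε)) := by
    intro ε hε
    refine (LX_good (hB ε)).mono ?_
    have h1 : |B ε| ≤ ∑ ε ∈ J, |B ε| :=
      Finset.single_le_sum (f := fun ε => |B ε|) (fun _ _ => abs_nonneg _) hε
    linarith [le_abs_self (B ε)]
  have hcont : ∀ y : Fin D.k → ℝ, Continues S₁ (D.t₀ (-(∑ j, (D.a j : ℂ) * y j) / 2 * I))
      (D.t fun j => y j * I) (spin D.Index) →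
      ExtAll (fun s => ∏ ε ∈ J, LX (cons S D ε) (s + (linD D ε y : ℝ) * I)) := by
    intro y hy
    have ht : ∀ w ∈ spin D.Index, Tame (vl (D.t₀ (-(∑ j, (D.a j : ℂ) * y j) / 2 * I))
        (D.t fun j => y j * I) w) := fun w _ => vl_tame (D.tame_t₀ _) (D.tame_t _) w
    rw [continues_indep S₁ S ht, continues_iff_LX ht, spin_datum] at hy
    obtain ⟨c', hc'⟩ := LX_sum (S := S) J (x := fun ε => cons S D ε *
      sh S (-(∑ j, (D.a j : ℂ) * y j) / 2 * I + ∑ j, (ε j : ℂ) * (y j * I)))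
      fun ε _ => mem_BB.1 ((BB S).mul_mem (cons_BB D ε) (sh_BB _))
    refine hy.congr (c := c') fun s hs => ?_
    have h2 := hc' s hs
    unfold cons at h2
    rw [← hJ, h2]
    refine Finset.prod_congr rfl fun ε _ => ?_
    rw [LX_shift, linD_eq]
    rfl
  have key : ∀ q : ℝ, ∀ ε ∈ J, Ext q (LX (cons S D ε)) := by
    intro q
    refine (zero_one (V := Fin D.k → ℝ) volume J hgood (q := q) (l := linD D)
      (fun ε _ ε' _ hne heq => hne (linD_inj D heq))).resolve_right ?_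
    rintro ⟨h1, h2⟩
    refine h ⟨measure_mono_null ?_ h1, h2.mono ?_⟩
    · exact fun y hy => (hcont y hy).ext q
    · exact fun y hy => (hcont y hy).ext q
  have hεJ : ε ∈ J := by
    rw [hJ, Fintype.mem_piFinset]
    exact fun j => Finset.mem_range.2 (Nat.lt_succ_of_le (hε j))
  exact ⟨⟨_, hB ε⟩, ExtAll.of_forall (fun s hs => (hgood ε hεJ s hs).1) fun q => key q ε hεJ⟩

/-- the hypothesis on the spin L-functions -/
def SpinHyp (C : Classes) (𝒩 : Set ℕ) : Prop :=
  ∀ D : CuspidalDatum C, 0 < D.k → D.rank ∈ 𝒩 → D.CentralTrivial → ∃ S₁ : Finset ℕ,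
    ¬ Negligible {y : Fin D.k → ℝ |
      Continues S₁ (D.t₀ (-(∑ j, (D.a j : ℂ) * y j) / 2 * I)) (D.t fun j => y j * I)
        (spin D.Index)}

/-- **All the products of exterior powers.** -/
theorem component {𝒩 : Set ℕ} (h𝒩 : 𝒩.Infinite) (H : SpinHyp C 𝒩) (S : Finset ℕ) {κ : Type}
    [Fintype κ] {a : κ → ℕ} (ha : ∀ j, 1 ≤ a j) {σ : (j : κ) → ℕ → Fin (a j) → ℂ}
    (hσ : ∀ j, σ j ∈ C.cuspGL (a j)) (e : κ → ℕ) {m : ℕ} {τ : (ℕ → ℂ) × (ℕ → Fin m → ℂ)}
    (hτ : τ ∈ C.cuspGSp m) : (∏ j, epw S (σ j) (e j)) * rr S τ ∈ GG S := by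
  classical
  by_cases hea : ∃ j, a j < e j
  · obtain ⟨j, hj⟩ := hea
    have h0 : epw S (σ j) (e j) = 0 := es_gt _ (by rwa [Fintype.card_fin])
    rw [Finset.prod_eq_zero (Finset.mem_univ j) h0, zero_mul]
    exact (GG S).zero_mem
  push Not at hea
  obtain ⟨N, hN, hNle⟩ := h𝒩.exists_gt (∑ j, a j + m)
  set d : ℕ := N - (∑ j, a j + m + 1) with hd
  set ω : ℕ → ℂ := fun p => (τ.1 p ^ 2 * (∏ i, τ.2 p i) * ∏ j, ∏ i, σ j p i)⁻¹ with hω
  have hcen : IsHecke fun p => τ.1 p ^ 2 * (∏ i, τ.2 p i) * ∏ j, ∏ i, σ j p i :=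
    (C.central_GSp _ _ hτ).mul (IsHecke.prod Finset.univ fun j _ => C.central_GL _ _ (hσ j))
  have hωH : IsHecke ω := hcen.inv
  set κ' : Type := κ ⊕ Fin (d + 1) with hκ'
  set a' : κ' → ℕ := Sum.elim a fun _ => 1 with ha'
  set σ' : (j : κ') → ℕ → Fin (a' j) → ℂ := fun j => match j with
    | Sum.inl j => σ j
    | Sum.inr i => fun p _ => if i = 0 then ω p else 1 with hσ'
  set eqv : κ' ≃ Fin (Fintype.card κ') := Fintype.equivFin κ' with heqv
  have hσ'mem : ∀ j : κ', σ' j ∈ C.cuspGL (a' j) := by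
    rintro (j | i)
    · exact hσ j
    · by_cases hi : i = 0
      · have : σ' (Sum.inr i) = fun p _ => ω p := by
          funext p x
          simp [hσ', hi]
        rw [this]
        exact C.hecke ω hωH
      · have : σ' (Sum.inr i) = fun p _ => 1 := by
          funext p x
          simp [hσ', hi]
        rw [this]
        exact C.hecke _ IsHecke.one
  have ha'pos : ∀ j : κ', 1 ≤ a' j := by
    rintro (j | i)
    · exact ha j
    · exact le_rfl
  let D : CuspidalDatum C :=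
    { k := Fintype.card κ'
      a := fun j => a' (eqv.symm j)
      a_pos := fun j => ha'pos _
      σ := fun j => σ' (eqv.symm j)
      σ_mem := fun j => hσ'mem _
      m := m
      τ := τ
      τ_mem := hτ }
  have hk : 0 < D.k := Fintype.card_pos_iff.2 ⟨Sum.inr 0⟩
  have hrank : D.rank ∈ 𝒩 := by
    have : D.rank = N := by
      change ∑ j, a' (eqv.symm j) + m = N
      rw [Equiv.sum_comp eqv.symm a', Fintype.sum_sum_type]
      simp only [ha', Sum.elim_inl, Sum.elim_inr, Finset.sum_const, Finset.card_univ,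
        Fintype.card_fin, smul_eq_mul, mul_one]
      omega
    rw [this]
    exact hN
  have hct : D.CentralTrivial := by
    filter_upwards [hcen.ne] with p h1 hp
    change τ.1 p ^ 2 * (∏ i, τ.2 p i) * ∏ j, ∏ i, σ' (eqv.symm j) p i = 1
    rw [Equiv.prod_comp eqv.symm fun j => ∏ i, σ' j p i, Fintype.prod_sum_type]
    have h2 : ∏ x : Fin (d + 1), ∏ i, σ' (Sum.inr x) p i = ω p := by
      have h3 : ∀ x : Fin (d + 1), ∏ i, σ' (Sum.inr x) p i = if x = 0 then ω p else 1 := by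
        intro x
        change ∏ _i : Fin 1, (if x = 0 then ω p else 1) = _
        simp
      simp only [h3]
      simp
    rw [h2]
    change τ.1 p ^ 2 * (∏ i, τ.2 p i) * ((∏ j, ∏ i, σ j p i) * ω p) = 1
    rw [← mul_assoc, hω]
    exact mul_inv_cancel₀ (h1 hp)
  obtain ⟨S₁, hS₁⟩ := H D hk hrank hct
  set e' : κ' → ℕ := Sum.elim e fun _ => 0 with he'
  have h4 := datum_sep D hS₁ S (ε := fun j => e' (eqv.symm j)) (by
    intro j
    change e' (eqv.symm j) ≤ a' (eqv.symm j)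
    rcases eqv.symm j with j | i
    · exact hea j
    · exact Nat.zero_le _)
  have h5 : cons S D (fun j => e' (eqv.symm j)) = (∏ j, epw S (σ j) (e j)) * rr S τ := by
    unfold cons
    change (∏ j, epw S (σ' (eqv.symm j)) (e' (eqv.symm j))) * rr S τ = _
    rw [Equiv.prod_comp eqv.symm fun j => epw S (σ' j) (e' j), Fintype.prod_sum_type]
    have h6 : ∏ x : Fin (d + 1), epw S (σ' (Sum.inr x)) (e' (Sum.inr x)) = 1 :=
      Finset.prod_eq_one fun x _ => es_zero' _
    rw [h6, mul_one]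
    rfl
  rwa [h5] at h4

end Run7.h456
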