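import Pool.Agent.Run7.h456.Comp2

set_option autoImplicit false

/-!
# The ring generated by the elementary symmetric functions of all cuspidal representations
-/

namespace Run7.h456

open Filter Topology Complex MeasureTheory Polynomial

variable {C : Classes} {S : Finset ℕ}

/-- the generators -/
def Gen (C : Classes) (S : Finset ℕ) : Set (PS S × ℕ → ℂ) :=
  {x | ∃ a, 1 ≤ a ∧ ∃ σ ∈ C.cuspGL a, ∃ k, x = epw S σ k} ∪ {x | ∃ z, x = sh S z}

/-- the ring -/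
noncomputable def AA (C : Classes) (S : Finset ℕ) : Subring (PS S × ℕ → ℂ) :=
  Subring.closure (Gen C S)

theorem GG_sh {x : PS S × ℕ → ℂ} (hx : x ∈ GG S) (z : ℂ) : x * sh S z ∈ GG S := by
  obtain ⟨⟨B, hB⟩, h⟩ := hx
  refine ⟨⟨_, hB.mul (sh_bd z)⟩, (h.shift z).congr (c := 0) fun s _ => ?_⟩
  rw [LX_shift]

/-- the elements of the monoid are products -/
theorem mem_monoid {x : PS S × ℕ → ℂ} (hx : x ∈ Submonoid.closure (Gen C S)) :
    ∃ (κ : Type) (_ : Fintype κ) (a : κ → ℕ) (_ : ∀ j, 1 ≤ a j)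
      (σ : (j : κ) → ℕ → Fin (a j) → ℂ) (_ : ∀ j, σ j ∈ C.cuspGL (a j)) (e : κ → ℕ) (z : ℂ),
      x = (∏ j, epw S (σ j) (e j)) * sh S z := by
  induction hx using Submonoid.closure_induction with
  | mem x hx =>
    rcases hx with ⟨a, ha, σ, hσ, k, rfl⟩ | ⟨z, rfl⟩
    · refine ⟨Unit, inferInstance, fun _ => a, fun _ => ha, fun _ => σ, fun _ => hσ, fun _ => k, 0,
        ?_⟩
      simp [sh_zero]
    · refine ⟨Empty, inferInstance, fun j => j.elim, fun j => j.elim, fun j => j.elim,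
        fun j => j.elim, fun j => j.elim, z, ?_⟩
      simp
  | one =>
    refine ⟨Empty, inferInstance, fun j => j.elim, fun j => j.elim, fun j => j.elim,
      fun j => j.elim, fun j => j.elim, 0, ?_⟩
    simp [sh_zero]
  | mul x y _ _ hx hy =>
    obtain ⟨κ, _, a, ha, σ, hσ, e, z, rfl⟩ := hx
    obtain ⟨κ', _, a', ha', σ', hσ', e', z', rfl⟩ := hy
    refine ⟨κ ⊕ κ', inferInstance, Sum.elim a a', fun j => ?_,
      fun j => match j with
        | Sum.inl j => σ j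
        | Sum.inr j => σ' j, fun j => ?_, Sum.elim e e', z + z', ?_⟩
    · rcases j with j | j
      · exact ha j
      · exact ha' j
    · rcases j with j | j
      · exact hσ j
      · exact hσ' j
    · rw [Fintype.prod_sum_type, sh_add]
      simp only [Sum.elim_inl, Sum.elim_inr]
      ring

/-- **The L-functions of the elements of the ring, and of their products with a spin trace, continue.** -/
theorem AA_mul_rr {𝒩 : Set ℕ} (h𝒩 : 𝒩.Infinite) (H : SpinHyp C 𝒩) {m : ℕ}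
    {τ : (ℕ → ℂ) × (ℕ → Fin m → ℂ)} (hτ : τ ∈ C.cuspGSp m) {x : PS S × ℕ → ℂ}
    (hx : x ∈ AA C S) : x * rr S τ ∈ GG S := by
  have h1 : (Submonoid.closure (Gen C S) : Set (PS S × ℕ → ℂ)) ⊆
      ((GG S).comap (AddMonoidHom.mulRight (rr S τ)) : AddSubgroup (PS S × ℕ → ℂ)) := by
    intro y hy
    obtain ⟨κ, _, a, ha, σ, hσ, e, z, rfl⟩ := mem_monoid hy
    change (∏ j, epw S (σ j) (e j)) * sh S z * rr S τ ∈ GG S
    rw [mul_right_comm]
    exact GG_sh (component h𝒩 H S ha hσ e hτ) z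
  have h2 := (AddSubgroup.closure_le _).2 h1 (Subring.mem_closure_iff.1 hx)
  exact h2

theorem rr_one : rr S ((fun _ => 1), fun _ (i : Fin 0) => i.elim0) = 1 := by
  funext a
  simp [rr, pwr]

theorem AA_le {𝒩 : Set ℕ} (h𝒩 : 𝒩.Infinite) (H : SpinHyp C 𝒩) {x : PS S × ℕ → ℂ}
    (hx : x ∈ AA C S) : x ∈ GG S := by
  have := AA_mul_rr h𝒩 H C.one hx
  rwa [rr_one, mul_one] at this

theorem sh_AA (z : ℂ) : sh S z ∈ AA C S := Subring.subset_closure (Or.inr ⟨z, rfl⟩)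

theorem epw_AA {a : ℕ} {σ : ℕ → Fin a → ℂ} (hσ : σ ∈ C.cuspGL a) (k : ℕ) :
    epw S σ k ∈ AA C S := by
  by_cases ha : 1 ≤ a
  · exact Subring.subset_closure (Or.inl ⟨a, ha, σ, hσ, k, rfl⟩)
  · by_cases hk : k = 0
    · rw [hk, show epw S σ 0 = 1 from es_zero' _]
      exact (AA C S).one_mem
    · rw [show epw S σ k = 0 from es_gt _ (by rw [Fintype.card_fin]; omega)]
      exact (AA C S).zero_mem

theorem hecke_AA {μ : ℕ → ℂ} (hμ : IsHecke μ) : pwr S μ ∈ AA C S := by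
  have h1 := epw_AA (S := S) (C.hecke μ hμ) 1
  have h2 : epw S (fun p (_ : Fin 1) => μ p) 1 = pwr S μ := by
    unfold epw es
    rw [Finset.powersetCard_one]
    simp
  rwa [h2] at h1

/-- a nowhere vanishing function is a unit -/
noncomputable def mkU (x : PS S × ℕ → ℂ) (hx : ∀ a, x a ≠ 0) : (PS S × ℕ → ℂ)ˣ :=
  ⟨x, fun a => (x a)⁻¹, funext fun a => mul_inv_cancel₀ (hx a),
    funext fun a => inv_mul_cancel₀ (hx a)⟩

theorem mkU_val (x : PS S × ℕ → ℂ) (hx : ∀ a, x a ≠ 0) : (mkU x hx : PS S × ℕ → ℂ) = x := rfl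

/-- the units of the ring -/
noncomputable def UU (C : Classes) (S : Finset ℕ) : Subgroup (PS S × ℕ → ℂ)ˣ where
  carrier := {u | (u : PS S × ℕ → ℂ) ∈ AA C S ∧ ((u⁻¹ : (PS S × ℕ → ℂ)ˣ) : PS S × ℕ → ℂ) ∈ AA C S}
  one_mem' := ⟨(AA C S).one_mem, by rw [inv_one]; exact (AA C S).one_mem⟩
  mul_mem' := by
    rintro u v ⟨h1, h2⟩ ⟨h3, h4⟩
    refine ⟨(AA C S).mul_mem h1 h3, ?_⟩
    rw [mul_inv]
    exact (AA C S).mul_mem h2 h4
  inv_mem' := by
    rintro u ⟨h1, h2⟩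
    exact ⟨h2, by rwa [inv_inv]⟩

theorem mem_UU {u : (PS S × ℕ → ℂ)ˣ} : u ∈ UU C S ↔ (u : PS S × ℕ → ℂ) ∈ AA C S ∧
    ((u⁻¹ : (PS S × ℕ → ℂ)ˣ) : PS S × ℕ → ℂ) ∈ AA C S := Iff.rfl

theorem inv_val_of {u : (PS S × ℕ → ℂ)ˣ} (a : PS S × ℕ) :
    ((u⁻¹ : (PS S × ℕ → ℂ)ˣ) : PS S × ℕ → ℂ) a = ((u : PS S × ℕ → ℂ) a)⁻¹ := by
  have h1 : (u : PS S × ℕ → ℂ) a * ((u⁻¹ : (PS S × ℕ → ℂ)ˣ) : PS S × ℕ → ℂ) a = 1 := by
    have := congrFun (Units.mul_inv u) a
    exact this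
  exact eq_inv_of_mul_eq_one_right h1

theorem UU_of {u : (PS S × ℕ → ℂ)ˣ} {x y : PS S × ℕ → ℂ} (hx : x ∈ AA C S) (hy : y ∈ AA C S)
    (hu : (u : PS S × ℕ → ℂ) = x) (hxy : ∀ a, y a = (x a)⁻¹) : u ∈ UU C S := by
  rw [mem_UU, hu]
  refine ⟨hx, ?_⟩
  have : ((u⁻¹ : (PS S × ℕ → ℂ)ˣ) : PS S × ℕ → ℂ) = y := by
    funext a
    rw [inv_val_of, hu, hxy]
  rwa [this]

theorem UU_hecke {μ : ℕ → ℂ} (hμ : IsHecke μ) {u : (PS S × ℕ → ℂ)ˣ}
    (hu : (u : PS S × ℕ → ℂ) = pwr S μ) : u ∈ UU C S :=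
  UU_of (hecke_AA hμ) (hecke_AA hμ.inv) hu fun a => by
    simp only [pwr, inv_pow]

theorem UU_sh {z : ℂ} {u : (PS S × ℕ → ℂ)ˣ} (hu : (u : PS S × ℕ → ℂ) = sh S z) : u ∈ UU C S :=
  UU_of (sh_AA z) (sh_AA (-z)) hu fun a => by
    simp only [sh]
    rw [← cpow_neg]
    congr 1
    ring

/-- powers of units, pointwise -/
theorem zpow_apply (u : (PS S × ℕ → ℂ)ˣ) (n : ℤ) (a : PS S × ℕ) :
    ((u ^ n : (PS S × ℕ → ℂ)ˣ) : PS S × ℕ → ℂ) a = ((u : PS S × ℕ → ℂ) a) ^ n := by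
  rcases le_total 0 n with hn | hn
  · lift n to ℕ using hn
    rw [zpow_natCast, zpow_natCast, Units.val_pow_eq_pow_val]
    rfl
  · obtain ⟨m, rfl⟩ : ∃ m : ℕ, n = -m := ⟨n.natAbs, by omega⟩
    rw [zpow_neg, zpow_neg, zpow_natCast, zpow_natCast, inv_val_of, Units.val_pow_eq_pow_val]
    rfl

theorem es_mul_const {R : Type*} [CommRing R] {ι : Type*} [Fintype ι] (u : ι → R) (Y : R) (k : ℕ) :
    es (fun i => u i * Y) k = es u k * Y ^ k := by
  unfold es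
  rw [Finset.sum_mul]
  refine Finset.sum_congr rfl fun s hs => ?_
  rw [Finset.prod_mul_distrib, Finset.prod_const, (Finset.mem_powersetCard.1 hs).2]

theorem es_C {R : Type*} [CommRing R] {ι : Type*} [Fintype ι] (u : ι → R) (k : ℕ) :
    es (fun i => Polynomial.C (u i)) k = Polynomial.C (es u k) := by
  unfold es
  rw [map_sum]
  exact Finset.sum_congr rfl fun s _ => (map_prod _ _ _).symm

theorem prod_mem_PA {R : Type*} [CommRing R] {ι : Type*} [Fintype ι] [DecidableEq ι]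
    {A : Subring R} {v : ι → R} (h : ∀ k, es v k ∈ A) : ∏ i, (1 + Polynomial.C (v i) * X) ∈ PA A := by
  rw [prod_one_add_mul]
  refine (PA A).sum_mem fun k _ => (PA A).mul_mem ?_ ((PA A).pow_mem X_mem_PA k)
  rw [es_C]
  exact C_mem_PA (h k)

/-- the product with the inverses -/
theorem prod_inv_mem_PA {R : Type*} [CommRing R] {ι : Type*} [Fintype ι] [DecidableEq ι]
    {A : Subring R} {v : ι → Rˣ} (h : ∀ k, es (fun i => (v i : R)) k ∈ A)
    (hd : (((∏ i, v i)⁻¹ : Rˣ) : R) ∈ A) :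
    ∏ i, (1 + Polynomial.C (((v i)⁻¹ : Rˣ) : R) * X) ∈ PA A := by
  have h1 : ∏ i, (1 + Polynomial.C (((v i)⁻¹ : Rˣ) : R) * X) =
      Polynomial.C (((∏ i, v i)⁻¹ : Rˣ) : R) * ∏ i, (Polynomial.C (v i : R) + X) := by
    rw [← Finset.prod_inv_distrib, Units.coe_prod, map_prod, ← Finset.prod_mul_distrib]
    refine Finset.prod_congr rfl fun i _ => ?_
    rw [mul_add, ← map_mul, Units.inv_mul, map_one]
  rw [h1]
  refine (PA A).mul_mem (C_mem_PA hd) ?_
  rw [Finset.prod_add, Finset.sum_powerset]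
  refine (PA A).sum_mem fun k hk => ?_
  have h2 : ∑ t ∈ Finset.powersetCard k Finset.univ, (∏ a ∈ t, Polynomial.C (v a : R)) *
      ∏ a ∈ Finset.univ \ t, X = Polynomial.C (es (fun i => (v i : R)) k) *
        X ^ (Fintype.card ι - k) := by
    rw [← es_C]
    unfold es
    rw [Finset.sum_mul]
    refine Finset.sum_congr rfl fun s hs => ?_
    rw [Finset.mem_powersetCard] at hs
    rw [Finset.prod_const, Finset.card_sdiff_of_subset hs.1, hs.2, Finset.card_univ]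
  rw [h2]
  exact (PA A).mul_mem (C_mem_PA (h k)) ((PA A).pow_mem X_mem_PA _)

/-- division by `1 + X` -/
theorem PA_div {R : Type*} [CommRing R] {A : Subring R} {P : R[X]} (h : (1 + X) * P ∈ PA A) :
    P ∈ PA A := by
  rw [mem_PA] at h ⊢
  intro k
  induction k with
  | zero =>
    have := h 0
    rwa [add_mul, one_mul, coeff_add, coeff_X_mul_zero, add_zero] at this
  | succ k ih =>
    have := h (k + 1)
    rw [add_mul, one_mul, coeff_add, coeff_X_mul] at this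
    have h2 := A.sub_mem this ih
    rwa [add_sub_cancel_right] at h2

/-- equality of polynomials over a ring of functions -/
theorem poly_ext {P Q : (PS S × ℕ → ℂ)[X]}
    (h : ∀ a, P.map (Pi.evalRingHom (fun _ => ℂ) a) = Q.map (Pi.evalRingHom (fun _ => ℂ) a)) :
    P = Q := by
  refine Polynomial.ext fun k => funext fun a => ?_
  have := congrArg (fun P : ℂ[X] => P.coeff k) (h a)
  simpa using this

end Run7.h456
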