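import Pool.Agent.Run7.h456.Comp3

set_option autoImplicit false

/-!
# All L-functions from the spin L-functions
-/

namespace Run7.h456

open Filter Topology Complex MeasureTheory Polynomial

variable {C : Classes} {S : Finset ℕ}

/-- the conditions at the good primes -/
theorem good_primes (D : CuspidalDatum C) : ∃ (n₀ l : ℕ) (c : Fin l → ℕ)
    (σ : (j : Fin l) → ℕ → Fin (c j) → ℂ) (x : Fin l → ℂ), (∀ j, σ j ∈ C.cuspGL (c j)) ∧
    ∀ p : ℕ, n₀ ≤ p → p.Prime → D.τ.1 p ≠ 0 ∧ (∀ i, D.τ.2 p i ≠ 0) ∧ (∀ j i, D.σ j p i ≠ 0) ∧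
      1 ::ₘ (Finset.univ.val.map (D.τ.2 p) + Finset.univ.val.map fun i => (D.τ.2 p i)⁻¹) =
        ∑ j, Finset.univ.val.map fun i => σ j p i * (p : ℂ) ^ (-(x j)) := by
  obtain ⟨l, c, σ, x, hσ, hl⟩ := C.lift _ _ D.τ_mem
  have h1 := (C.tame_GSp _ _ D.τ_mem).1.ne
  have h2 : ∀ᶠ p : ℕ in atTop, ∀ i, p.Prime → D.τ.2 p i ≠ 0 :=
    eventually_all.2 fun i => ((C.tame_GSp _ _ D.τ_mem).2 i).ne
  have h3 : ∀ᶠ p : ℕ in atTop, ∀ j i, p.Prime → D.σ j p i ≠ 0 :=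
    eventually_all.2 fun j => eventually_all.2 fun i => (C.tame_GL _ _ (D.σ_mem j) i).ne
  obtain ⟨n₀, hn₀⟩ := eventually_atTop.1 (h1.and (h2.and (h3.and hl)))
  refine ⟨n₀, l, c, σ, x, hσ, fun p hp hpp => ?_⟩
  obtain ⟨h4, h5, h6, h7⟩ := hn₀ p hp
  exact ⟨h4 hpp, fun i => h5 i hpp, fun j i => h6 j i hpp, h7 hpp⟩

/-- the coefficients of the polynomial of the last block -/
theorem lift_mem_PA {m : ℕ} {τ : ℕ → Fin m → ℂ} {T : Fin m → (PS S × ℕ → ℂ)ˣ}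
    (hT : ∀ i, (T i : PS S × ℕ → ℂ) = pwr S fun p => τ p i) {l : ℕ} {c : Fin l → ℕ}
    {σ : (j : Fin l) → ℕ → Fin (c j) → ℂ} {x : Fin l → ℂ} (hσ : ∀ j, σ j ∈ C.cuspGL (c j))
    (h : ∀ p : PS S, 1 ::ₘ (Finset.univ.val.map (τ p) + Finset.univ.val.map fun i => (τ p i)⁻¹) =
        ∑ j, Finset.univ.val.map fun i => σ j p i * ((p : ℕ) : ℂ) ^ (-(x j))) :
    ∏ i, ((1 + Polynomial.C (T i : PS S × ℕ → ℂ) * X) *
      (1 + Polynomial.C (((T i)⁻¹ : (PS S × ℕ → ℂ)ˣ) : PS S × ℕ → ℂ) * X)) ∈ PA (AA C S) := by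
  refine PA_div ?_
  have h1 : (1 + X) * ∏ i, ((1 + Polynomial.C (T i : PS S × ℕ → ℂ) * X) *
      (1 + Polynomial.C (((T i)⁻¹ : (PS S × ℕ → ℂ)ˣ) : PS S × ℕ → ℂ) * X)) =
      ∏ j, ∏ i, (1 + Polynomial.C ((pwr S fun p => σ j p i) * sh S (x j)) * X) := by
    refine poly_ext fun a => ?_
    simp only [Polynomial.map_mul, Polynomial.map_add, Polynomial.map_one, Polynomial.map_X,
      Polynomial.map_prod, Polynomial.map_C, Pi.evalRingHom_apply, Pi.mul_apply, inv_val_of, hT]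
    have h2 := congrArg (fun s : Multiset ℂ =>
      (s.map fun v => (1 + Polynomial.C (v ^ (a.2 + 1)) * X : ℂ[X])).prod) (h a.1)
    simp only [Multiset.map_cons, Multiset.prod_cons, Multiset.map_add, Multiset.prod_add,
      Multiset.map_map, Function.comp_def, one_pow, map_one, one_mul] at h2
    have hms := map_sum (Multiset.mapAddMonoidHom
      (fun v : ℂ => (1 + Polynomial.C (v ^ (a.2 + 1)) * X : ℂ[X])))
      (fun j => Multiset.map (fun i => σ j a.1 i * ((a.1 : ℕ) : ℂ) ^ (-(x j))) Finset.univ.val)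
      Finset.univ
    simp only [Multiset.coe_mapAddMonoidHom, Multiset.map_map, Function.comp_def] at hms
    rw [hms, Multiset.prod_sum] at h2
    rw [Finset.prod_mul_distrib]
    have e1 : ∀ (j : Fin l) (i : Fin (c j)), (σ j a.1 i * ((a.1 : ℕ) : ℂ) ^ (-(x j))) ^ (a.2 + 1) =
        pwr S (fun p => σ j p i) a * sh S (x j) a := by
      intro j i
      rw [mul_pow, ← pwr_cpow]
      rfl
    simp only [e1] at h2
    simp only [pwr, inv_pow] at h2 ⊢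
    exact h2
  rw [h1]
  refine (PA (AA C S)).prod_mem fun j _ => prod_mem_PA fun k => ?_
  rw [es_mul_const]
  exact (AA C S).mul_mem (epw_AA (hσ j) k) ((AA C S).pow_mem (sh_AA _) k)

/-- **The trace of an invariant multiset is in the group `GG`.** -/
theorem trace_mem {𝒩 : Set ℕ} (h𝒩 : 𝒩.Infinite) (H : SpinHyp C 𝒩) (D : CuspidalDatum C) (z₀ : ℂ)
    (z : Fin D.k → ℂ) {ρ : Multiset (Weight D.Index)} (hρ : WeylInvariant ρ) {n₀ l : ℕ}
    {c : Fin l → ℕ} {σ : (j : Fin l) → ℕ → Fin (c j) → ℂ} {x : Fin l → ℂ}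
    (hσ : ∀ j, σ j ∈ C.cuspGL (c j))
    (h : ∀ p : ℕ, n₀ ≤ p → p.Prime → D.τ.1 p ≠ 0 ∧ (∀ i, D.τ.2 p i ≠ 0) ∧
      (∀ j i, D.σ j p i ≠ 0) ∧
      1 ::ₘ (Finset.univ.val.map (D.τ.2 p) + Finset.univ.val.map fun i => (D.τ.2 p i)⁻¹) =
        ∑ j, Finset.univ.val.map fun i => σ j p i * (p : ℂ) ^ (-(x j)))
    (hS : Finset.range n₀ ⊆ S) : xr S (D.t₀ z₀) (D.t z) ρ ∈ GG S := by
  have hp : ∀ p : PS S, n₀ ≤ (p : ℕ) := fun p => by
    by_contra hcon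
    exact p.2.2 (hS (Finset.mem_range.2 (not_le.1 hcon)))
  have hcp : ∀ (p : PS S) (u : ℂ), ((p : ℕ) : ℂ) ^ u ≠ 0 := fun p u => by
    rw [cpow_def_of_ne_zero p.ne]
    exact exp_ne_zero _
  -- the units
  have h₀ : ∀ a, pwr S (D.t₀ z₀) a ≠ 0 := fun a =>
    pow_ne_zero _ (mul_ne_zero (h _ (hp a.1) a.1.2.1).1 (hcp _ _))
  have h₁ : ∀ i a, pwr S (fun p => D.t z p i) a ≠ 0 := by
    rintro (⟨j, i⟩ | i) a
    · exact pow_ne_zero _ (mul_ne_zero ((h _ (hp a.1) a.1.2.1).2.2.1 j i) (hcp _ _))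
    · exact pow_ne_zero _ ((h _ (hp a.1) a.1.2.1).2.1 i)
  set T₀ : (PS S × ℕ → ℂ)ˣ := mkU _ h₀ with hT₀
  set T : D.Index → (PS S × ℕ → ℂ)ˣ := fun i => mkU _ (h₁ i) with hT
  have vT₀ : (T₀ : PS S × ℕ → ℂ) = pwr S D.τ.1 * sh S z₀ := by
    have := pwr_mul (S := S) D.τ.1 (fun p : ℕ => (p : ℂ) ^ (-z₀))
    rw [pwr_cpow] at this
    exact this
  have vTl : ∀ (j : Fin D.k) (i : Fin (D.a j)), (T (Sum.inl ⟨j, i⟩) : PS S × ℕ → ℂ) =
      (pwr S fun p => D.σ j p i) * sh S (z j) := by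
    intro j i
    have := pwr_mul (S := S) (fun p => D.σ j p i) (fun p : ℕ => (p : ℂ) ^ (-(z j)))
    rw [pwr_cpow] at this
    exact this
  have vTr : ∀ i : Fin D.m, (T (Sum.inr i) : PS S × ℕ → ℂ) = pwr S fun p => D.τ.2 p i :=
    fun i => rfl
  -- the determinants of the blocks
  have hdet : ∀ j : Fin D.k, ∏ i : Fin (D.a j), T (Sum.inl ⟨j, i⟩) ∈ UU C S := by
    intro j
    have e1 : ((∏ i : Fin (D.a j), T (Sum.inl ⟨j, i⟩) : (PS S × ℕ → ℂ)ˣ) : PS S × ℕ → ℂ) =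
        pwr S (fun p => ∏ i, D.σ j p i) * sh S (z j) ^ D.a j := by
      rw [Units.coe_prod, Finset.prod_congr rfl fun i _ => vTl j i, Finset.prod_mul_distrib,
        Finset.prod_const, Finset.card_univ, Fintype.card_fin, pwr_prod]
    refine UU_of (y := pwr S (fun p => (∏ i, D.σ j p i)⁻¹) * sh S (-(z j)) ^ D.a j) ?_ ?_ e1
      fun a => ?_
    · exact (AA C S).mul_mem (hecke_AA (C.central_GL _ _ (D.σ_mem j)))
        ((AA C S).pow_mem (sh_AA _) _)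
    · exact (AA C S).mul_mem (hecke_AA (C.central_GL _ _ (D.σ_mem j)).inv)
        ((AA C S).pow_mem (sh_AA _) _)
    · simp only [Pi.mul_apply, Pi.pow_apply, pwr, sh, inv_pow, mul_inv]
      congr 1
      rw [← inv_pow, ← cpow_neg]
      congr 2
      ring
  -- the central character
  have hcen : T₀ ^ 2 * ∏ i, T i ∈ UU C S := by
    have e0 : ∏ i, T i = (∏ j : Fin D.k, ∏ i : Fin (D.a j), T (Sum.inl ⟨j, i⟩)) *
        ∏ i : Fin D.m, T (Sum.inr i) := by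
      rw [Fintype.prod_sum_type, Fintype.prod_sigma]
    rw [e0, mul_left_comm]
    refine (UU C S).mul_mem ((UU C S).prod_mem fun j _ => hdet j) ?_
    have e1 : ((T₀ ^ 2 * ∏ i : Fin D.m, T (Sum.inr i) : (PS S × ℕ → ℂ)ˣ) : PS S × ℕ → ℂ) =
        pwr S (fun p => D.τ.1 p ^ 2 * ∏ i, D.τ.2 p i) * sh S z₀ ^ 2 := by
      rw [Units.val_mul, Units.val_pow_eq_pow_val, Units.coe_prod, vT₀,
        Finset.prod_congr rfl fun i _ => vTr i, pwr_mul, pwr_prod]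
      have e2 : pwr S (fun p => D.τ.1 p ^ 2) = pwr S D.τ.1 ^ 2 := by
        funext a
        simp only [pwr, Pi.pow_apply]
        ring
      rw [e2]
      ring
    refine UU_of (y := pwr S (fun p => (D.τ.1 p ^ 2 * ∏ i, D.τ.2 p i)⁻¹) * sh S (-z₀) ^ 2)
      ?_ ?_ e1 fun a => ?_
    · exact (AA C S).mul_mem (hecke_AA (C.central_GSp _ _ D.τ_mem))
        ((AA C S).pow_mem (sh_AA _) _)
    · exact (AA C S).mul_mem (hecke_AA (C.central_GSp _ _ D.τ_mem).inv)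
        ((AA C S).pow_mem (sh_AA _) _)
    · simp only [Pi.mul_apply, Pi.pow_apply, pwr, sh, mul_pow, mul_inv, inv_pow]
      congr 1
      rw [← inv_pow, ← cpow_neg]
      congr 2
      ring
  -- the elementary symmetric functions
  have hes : ∀ (j : Fin D.k) (k : ℕ),
      es (fun i : Fin (D.a j) => (T (Sum.inl ⟨j, i⟩) : PS S × ℕ → ℂ)) k ∈ AA C S := by
    intro j k
    rw [show (fun i : Fin (D.a j) => (T (Sum.inl ⟨j, i⟩) : PS S × ℕ → ℂ)) =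
      fun i => (pwr S fun p => D.σ j p i) * sh S (z j) from funext fun i => vTl j i, es_mul_const]
    exact (AA C S).mul_mem (epw_AA (D.σ_mem j) k) ((AA C S).pow_mem (sh_AA _) k)
  have he : ∀ k, es (fun i => (T i : PS S × ℕ → ℂ) +
      (((T i)⁻¹ : (PS S × ℕ → ℂ)ˣ) : PS S × ℕ → ℂ)) k ∈ AA C S := by
    refine es_mem_of_prod ?_
    have e0 : ∀ i, (1 + Polynomial.C ((T i : PS S × ℕ → ℂ) +
        (((T i)⁻¹ : (PS S × ℕ → ℂ)ˣ) : PS S × ℕ → ℂ)) * X + X ^ 2 : (PS S × ℕ → ℂ)[X]) =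
        (1 + Polynomial.C (T i : PS S × ℕ → ℂ) * X) *
          (1 + Polynomial.C (((T i)⁻¹ : (PS S × ℕ → ℂ)ˣ) : PS S × ℕ → ℂ) * X) := by
      intro i
      have h3 : Polynomial.C (T i : PS S × ℕ → ℂ) *
          Polynomial.C (((T i)⁻¹ : (PS S × ℕ → ℂ)ˣ) : PS S × ℕ → ℂ) = 1 := by
        rw [← map_mul, Units.mul_inv, map_one]
      rw [map_add]
      linear_combination (-X ^ 2 : (PS S × ℕ → ℂ)[X]) * h3
    simp only [e0]
    rw [Fintype.prod_sum_type, Fintype.prod_sigma]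
    refine (PA (AA C S)).mul_mem ?_ ?_
    · refine (PA (AA C S)).prod_mem fun j _ => ?_
      rw [Finset.prod_mul_distrib]
      refine (PA (AA C S)).mul_mem (prod_mem_PA (hes j)) ?_
      exact prod_inv_mem_PA (v := fun i : Fin (D.a j) => T (Sum.inl ⟨j, i⟩)) (hes j)
        (mem_UU.1 (hdet j)).2
    · exact lift_mem_PA (T := fun i : Fin D.m => T (Sum.inr i)) vTr hσ
        fun p => (h _ (hp p) p.2.1).2.2.2
  obtain ⟨x', hx', y', hy', hsum⟩ := weyl_mem (mem_UU.1 hcen).1 (mem_UU.1 hcen).2 he hρ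
  -- the trace
  have htr : xr S (D.t₀ z₀) (D.t z) ρ =
      (ρ.map fun w => ((T₀ ^ w.1 * ∏ i, T i ^ w.2 i : (PS S × ℕ → ℂ)ˣ) : PS S × ℕ → ℂ)).sum := by
    funext a
    have e1 : ((ρ.map fun w => ((T₀ ^ w.1 * ∏ i, T i ^ w.2 i : (PS S × ℕ → ℂ)ˣ) :
        PS S × ℕ → ℂ)).sum) a = (ρ.map fun w => ((T₀ ^ w.1 * ∏ i, T i ^ w.2 i :
          (PS S × ℕ → ℂ)ˣ) : PS S × ℕ → ℂ) a).sum := by
      have := map_multiset_sum (Pi.evalAddMonoidHom (fun _ : PS S × ℕ => ℂ) a)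
        (ρ.map fun w => ((T₀ ^ w.1 * ∏ i, T i ^ w.2 i : (PS S × ℕ → ℂ)ˣ) : PS S × ℕ → ℂ))
      rw [Multiset.map_map] at this
      exact this
    rw [e1]
    unfold xr
    congr 1
    refine Multiset.map_congr rfl fun w _ => ?_
    rw [Units.val_mul, Units.coe_prod, Pi.mul_apply, Finset.prod_apply, zpow_apply]
    simp only [zpow_apply]
    unfold vl
    rw [mul_pow, ← Finset.prod_pow]
    congr 1
    · change _ = (D.t₀ z₀ a.1 ^ (a.2 + 1)) ^ w.1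
      rw [← zpow_natCast, ← zpow_natCast, ← zpow_mul, ← zpow_mul, mul_comm]
    · refine Finset.prod_congr rfl fun i _ => ?_
      change _ = (D.t z a.1 i ^ (a.2 + 1)) ^ w.2 i
      rw [← zpow_natCast, ← zpow_natCast, ← zpow_mul, ← zpow_mul, mul_comm]
  have hr : (T₀ : PS S × ℕ → ℂ) * ∏ i, (1 + (T i : PS S × ℕ → ℂ)) =
      (sh S z₀ * ∏ j : Fin D.k, ∏ i : Fin (D.a j), (1 + (T (Sum.inl ⟨j, i⟩) : PS S × ℕ → ℂ))) *
        rr S D.τ := by
    rw [Fintype.prod_sum_type, Fintype.prod_sigma, vT₀]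
    unfold rr
    rw [Finset.prod_congr rfl fun i _ => congrArg (1 + ·) (vTr i)]
    ring
  have hb : sh S z₀ * ∏ j : Fin D.k, ∏ i : Fin (D.a j),
      (1 + (T (Sum.inl ⟨j, i⟩) : PS S × ℕ → ℂ)) ∈ AA C S := by
    refine (AA C S).mul_mem (sh_AA _) ((AA C S).prod_mem fun j _ => ?_)
    have e2 := prod_one_add_mul (fun i : Fin (D.a j) => (T (Sum.inl ⟨j, i⟩) : PS S × ℕ → ℂ)) 1
    simp only [mul_one, one_pow] at e2
    rw [e2]
    exact (AA C S).sum_mem fun k _ => hes j k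
  rw [htr, hsum, hr, ← mul_assoc]
  exact (GG S).add_mem (AA_le h𝒩 H hx')
    (AA_mul_rr h𝒩 H D.τ_mem ((AA C S).mul_mem hy' hb))

/-- **All L-functions continue if the spin L-functions of the Eisenstein families do.** -/
theorem all_of_spin {𝒩 : Set ℕ} (h𝒩 : 𝒩.Infinite) (H : SpinHyp C 𝒩) (D : CuspidalDatum C)
    (z₀ : ℂ) (z : Fin D.k → ℂ) {ρ : Multiset (Weight D.Index)} (hρ : WeylInvariant ρ)
    (S : Finset ℕ) : Continues S (D.t₀ z₀) (D.t z) ρ := by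
  classical
  obtain ⟨n₀, l, c, σ, x, hσ, h⟩ := good_primes D
  have ht : ∀ w ∈ ρ, Tame (vl (D.t₀ z₀) (D.t z) w) := fun w _ =>
    vl_tame (D.tame_t₀ _) (D.tame_t _) w
  rw [continues_indep S (S ∪ Finset.range n₀) ht, continues_iff_LX ht]
  exact (trace_mem h𝒩 H D z₀ z hρ hσ h Finset.subset_union_right).2

end Run7.h456
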