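import Pool.Agent.Run7.h456.Defs

set_option autoImplicit false

/-!
# Levi subgroups: twists and representations
-/

namespace Run7.h456

open Filter Topology Complex MeasureTheory

variable {n k : ℕ}

/-- The coordinate `t₀` after the twist by `|λ|^{z₀}`. -/
noncomputable def twist₀ (z₀ : ℂ) (t₀ : ℕ → ℂ) (p : ℕ) : ℂ := t₀ p * (p : ℂ) ^ (-z₀)

/-- The coordinates `t_i` after the twists by `|det|^{z_j}` of the blocks `GL_{a_j}` of the Levi subgroup
`M = GL_{a_1} × … × GL_{a_k} × GSp_{2m}`. Here `b i = some j` if `i` belongs to the block `GL_{a_j}` and `b i = none` if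
`i` belongs to `GSp_{2m}`. -/
noncomputable def twist (b : Fin n → Option (Fin k)) (z : Fin k → ℂ) (t : ℕ → Fin n → ℂ) (p : ℕ)
    (i : Fin n) : ℂ := t p i * (p : ℂ) ^ (-((b i).elim 0 z))

/-- The multiset of weights is invariant under the Weyl group of the Levi subgroup `M`: under the permutations of
the coordinates which respect the blocks and under the sign changes in the block `GSp_{2m}`. The multiset of the
weights of every algebraic representation of the dual group of `M` is of this kind, and conversely an invariant
multiset is the multiset of weights of a virtual representation. -/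
def LeviInvariant (b : Fin n → Option (Fin k)) (ρ : Multiset (Weight (Fin n))) : Prop :=
  (∀ g : Equiv.Perm (Fin n), (∀ i, b (g i) = b i) → ρ.map (permute g) = ρ) ∧
    ∀ i, b i = none → ρ.map (reflect i) = ρ

/-- The restriction of a weight to the unramified characters of `M`: `w₀` and, for each block `j`, the sum of the
`w_i` with `i` in the block. -/
def central (b : Fin n → Option (Fin k)) (w : Weight (Fin n)) : ℤ × (Fin k → ℤ) :=
  (w.1, fun j => ∑ i with b i = some j, w.2 i)

/-- All members of the multiset have the same similitude weight `w₀`. The multiset of the weights of every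
irreducible representation is of this kind. -/
def Homogeneous (ρ : Multiset (Weight (Fin n))) : Prop := ∃ c : ℤ, ∀ w ∈ ρ, w.1 = c

/-- Every Weyl invariant multiset is a difference of sums of members of `𝓡`. The set of the multisets of the weights
of the irreducible representations has this property. -/
def Generates (𝓡 : Set (Multiset (Weight (Fin n)))) : Prop :=
  ∀ ρ : Multiset (Weight (Fin n)), WeylInvariant ρ → ∃ F F' : Multiset (Multiset (Weight (Fin n))),
    (∀ σ ∈ F, σ ∈ 𝓡) ∧ (∀ σ ∈ F', σ ∈ 𝓡) ∧ ρ + F.sum = F'.sum

/-- the linear forms `A_1, …, A_k` on `ℝ^d` are linearly independent over `ℚ` -/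
def Independent {d : ℕ} (A : Fin k → (Fin d → ℝ) →ₗ[ℝ] ℝ) : Prop :=
  ∀ m : Fin k → ℤ, ∑ j, (m j : ℝ) • A j = 0 → m = 0

end Run7.h456
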