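import Pool.Agent.Run7.h456.One3
import Pool.Agent.Run7.h456.Defs2

set_option autoImplicit false

/-!
# Linear families of unitary twists, and half-planes which grow with the rank
-/

namespace Run7.h456

open Filter Topology Complex MeasureTheory

variable {C : Classes} {S : Finset ℕ}

/-- the linear form of a constituent in a linear family -/
noncomputable def linF (D : CuspidalDatum C) {d : ℕ} (A : Fin D.k → (Fin d → ℝ) →ₗ[ℝ] ℝ)
    (ε : Fin D.k → ℕ) : (Fin d → ℝ) →ₗ[ℝ] ℝ := ∑ j, ((ε j : ℝ) - D.a j / 2) • A j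

theorem linF_apply (D : CuspidalDatum C) {d : ℕ} (A : Fin D.k → (Fin d → ℝ) →ₗ[ℝ] ℝ)
    (ε : Fin D.k → ℕ) (y : Fin d → ℝ) :
    linF D A ε y = ∑ j, ((ε j : ℝ) - D.a j / 2) * A j y := by
  simp [linF]

theorem linF_inj (D : CuspidalDatum C) {d : ℕ} {A : Fin D.k → (Fin d → ℝ) →ₗ[ℝ] ℝ}
    (hA : Independent A) {ε ε' : Fin D.k → ℕ} (h : linF D A ε = linF D A ε') : ε = ε' := by
  have h1 : (fun j => (ε j : ℤ) - ε' j) = 0 := by
    refine hA _ (LinearMap.ext fun y => ?_)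
    have h2 := LinearMap.congr_fun h y
    rw [linF_apply, linF_apply] at h2
    simp only [LinearMap.sum_apply, LinearMap.smul_apply, smul_eq_mul, LinearMap.zero_apply]
    have h3 : ∑ j, (((ε j : ℤ) - ε' j : ℤ) : ℝ) * A j y =
        ∑ j, ((ε j : ℝ) - D.a j / 2) * A j y - ∑ j, ((ε' j : ℝ) - D.a j / 2) * A j y := by
      rw [← Finset.sum_sub_distrib]
      refine Finset.sum_congr rfl fun j _ => ?_
      push_cast
      ring
    rw [h3, h2, sub_self]
  funext j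
  have h2 := congrFun h1 j
  simp only [Pi.zero_apply] at h2
  omega

theorem linF_eq (D : CuspidalDatum C) {d : ℕ} (A : Fin D.k → (Fin d → ℝ) →ₗ[ℝ] ℝ)
    (ε : Fin D.k → ℕ) (y : Fin d → ℝ) :
    -(∑ j, (D.a j : ℂ) * A j y) / 2 * I + ∑ j, (ε j : ℂ) * (A j y * I) =
      (linF D A ε y : ℝ) * I := by
  rw [linF_apply]
  push_cast
  rw [Finset.sum_mul, neg_div, neg_mul, Finset.sum_div, Finset.sum_mul, ← Finset.sum_neg_distrib,
    ← Finset.sum_add_distrib]
  refine Finset.sum_congr rfl fun j _ => ?_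
  ring

/-- **Separation of the constituents on a half-plane.** -/
theorem datum_sep_to (D : CuspidalDatum C) {d : ℕ} {A : Fin D.k → (Fin d → ℝ) →ₗ[ℝ] ℝ}
    (hA : Independent A) {q : ℝ} {S₁ : Finset ℕ} (h : ¬ Negligible {y : Fin d → ℝ |
      ContinuesTo q S₁ (D.t₀ (-(∑ j, (D.a j : ℂ) * A j y) / 2 * I)) (D.t fun j => A j y * I)
        (spin D.Index)}) (S : Finset ℕ) {ε : Fin D.k → ℕ} (hε : ε ∈ JJ D) :
    Ext q (LX (cons S D ε)) := by
  choose B hB using fun ε => mem_BB.1 (cons_BB (S := S) D ε)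
  set c : ℝ := 1 + ∑ ε ∈ JJ D, |B ε| with hc
  have hgood : ∀ ε ∈ JJ D, GoodAt c (LX (cons S D ε)) := by
    intro ε hε
    refine (LX_good (hB ε)).mono ?_
    have h1 : |B ε| ≤ ∑ ε ∈ JJ D, |B ε| :=
      Finset.single_le_sum (f := fun ε => |B ε|) (fun _ _ => abs_nonneg _) hε
    linarith [le_abs_self (B ε)]
  have hcont : ∀ y : Fin d → ℝ, ContinuesTo q S₁ (D.t₀ (-(∑ j, (D.a j : ℂ) * A j y) / 2 * I))
      (D.t fun j => A j y * I) (spin D.Index) →
      Ext q (fun s => ∏ ε ∈ JJ D, LX (cons S D ε) (s + (linF D A ε y : ℝ) * I)) := by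
    intro y hy
    have ht : ∀ w ∈ spin D.Index, Tame (vl (D.t₀ (-(∑ j, (D.a j : ℂ) * A j y) / 2 * I))
        (D.t fun j => A j y * I) w) := fun w _ => vl_tame (D.tame_t₀ _) (D.tame_t _) w
    rw [continuesTo_indep S₁ S ht, continuesTo_iff_LX ht, spin_datum] at hy
    obtain ⟨c', hc'⟩ := LX_sum (S := S) (JJ D) (x := fun ε => cons S D ε *
      sh S (-(∑ j, (D.a j : ℂ) * A j y) / 2 * I + ∑ j, (ε j : ℂ) * (A j y * I)))
      fun ε _ => mem_BB.1 ((BB S).mul_mem (cons_BB D ε) (sh_BB _))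
    refine hy.congr (c := c') fun s hs => ?_
    have h2 := hc' s hs
    unfold cons JJ at h2
    rw [h2]
    refine Finset.prod_congr rfl fun ε _ => ?_
    rw [LX_shift, linF_eq]
    rfl
  refine (zero_one (V := Fin d → ℝ) volume (JJ D) hgood (q := q) (l := linF D A)
    (fun ε _ ε' _ hne heq => hne (linF_inj D hA heq))).resolve_right ?_ ε hε
  rintro ⟨h1, h2⟩
  refine h ⟨measure_mono_null ?_ h1, h2.mono ?_⟩
  · exact fun y hy => hcont y hy
  · exact fun y hy => hcont y hy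

/-- the hypothesis on the spin L-functions of unitary families -/
def FamHyp (C : Classes) (𝒩 : Set ℕ) (q : ℕ → ℝ) : Prop :=
  ∀ D : CuspidalDatum C, 0 < D.k → D.rank ∈ 𝒩 → D.CentralTrivial →
    ∃ (d : ℕ) (A : Fin D.k → (Fin d → ℝ) →ₗ[ℝ] ℝ) (S₁ : Finset ℕ), Independent A ∧
      ¬ Negligible {y : Fin d → ℝ |
        ContinuesTo (q D.rank) S₁ (D.t₀ (-(∑ j, (D.a j : ℂ) * A j y) / 2 * I))
          (D.t fun j => A j y * I) (spin D.Index)}

/-- **All the products of exterior powers.** -/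
theorem component_fam {𝒩 : Set ℕ} (h𝒩 : 𝒩.Infinite) {q : ℕ → ℝ} (hq : Tendsto q atTop atBot)
    (H : FamHyp C 𝒩 q) (S : Finset ℕ) {κ : Type} [Fintype κ] {a : κ → ℕ} (ha : ∀ j, 1 ≤ a j)
    {σ : (j : κ) → ℕ → Fin (a j) → ℂ} (hσ : ∀ j, σ j ∈ C.cuspGL (a j)) {m : ℕ}
    {τ : (ℕ → ℂ) × (ℕ → Fin m → ℂ)} (hτ : τ ∈ C.cuspGSp m) {e : κ → ℕ} (he : ∀ j, e j ≤ a j) :
    (∏ j, epw S (σ j) (e j)) * rr S τ ∈ GG S := by
  classical
  have hXB : (∏ j, epw S (σ j) (e j)) * rr S τ ∈ BB S :=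
    (BB S).mul_mem ((BB S).prod_mem fun j _ => epw_BB (C.tame_GL _ _ (hσ j)) _)
      (rr_BB (C.tame_GSp _ _ hτ).1 (C.tame_GSp _ _ hτ).2)
  obtain ⟨B, hB⟩ := mem_BB.1 hXB
  refine ⟨⟨B, hB⟩, ExtAll.of_forall (c := B + 1) (fun s hs => (LX_good hB s hs).1) fun q₀ => ?_⟩
  obtain ⟨n₀, hn₀⟩ := eventually_atTop.1 (hq.eventually_le_atBot q₀)
  obtain ⟨N, hN, hNlt⟩ := h𝒩.exists_gt (∑ j, a j + m + n₀)
  set d : ℕ := N - (∑ j, a j + m + 1) with hd
  set ω : ℕ → ℂ := fun p => (τ.1 p ^ 2 * (∏ i, τ.2 p i) * ∏ j, ∏ i, σ j p i)⁻¹ with hω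
  have hcen : IsHecke fun p => τ.1 p ^ 2 * (∏ i, τ.2 p i) * ∏ j, ∏ i, σ j p i :=
    (C.central_GSp _ _ hτ).mul (IsHecke.prod Finset.univ fun j _ => C.central_GL _ _ (hσ j))
  have hωH : IsHecke ω := hcen.inv
  set a' : κ ⊕ Fin (d + 1) → ℕ := Sum.elim a fun _ => 1 with ha'
  set σ' : (j : κ ⊕ Fin (d + 1)) → ℕ → Fin (a' j) → ℂ := fun j => match j with
    | Sum.inl j => σ j
    | Sum.inr i => fun p _ => if i = 0 then ω p else 1 with hσ'
  set eqv : (κ ⊕ Fin (d + 1)) ≃ Fin (Fintype.card (κ ⊕ Fin (d + 1))) :=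
    Fintype.equivFin (κ ⊕ Fin (d + 1)) with heqv
  have hσ'mem : ∀ j : κ ⊕ Fin (d + 1), σ' j ∈ C.cuspGL (a' j) := by
    rintro (j | i)
    · exact hσ j
    · by_cases hi : i = 0
      · have : σ' (Sum.inr i) = fun p _ => ω p := by
          funext p x
          simp [hσ', hi]
        rw [this]
        exact C.hecke ω hωH
      · have : σ' (Sum.inr i) = fun p _ => 1 := by
          funext p x
          simp [hσ', hi]
        rw [this]
        exact C.hecke _ IsHecke.one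
  have ha'pos : ∀ j : κ ⊕ Fin (d + 1), 1 ≤ a' j := by
    rintro (j | i)
    · exact ha j
    · exact le_rfl
  let D : CuspidalDatum C :=
    { k := Fintype.card (κ ⊕ Fin (d + 1))
      a := fun j => a' (eqv.symm j)
      a_pos := fun j => ha'pos _
      σ := fun j => σ' (eqv.symm j)
      σ_mem := fun j => hσ'mem _
      m := m
      τ := τ
      τ_mem := hτ }
  have hk : 0 < D.k := Fintype.card_pos_iff.2 ⟨Sum.inr 0⟩
  have hrankN : D.rank = N := by
    change ∑ j, a' (eqv.symm j) + m = N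
    rw [Equiv.sum_comp eqv.symm a', Fintype.sum_sum_type]
    simp only [ha', Sum.elim_inl, Sum.elim_inr, Finset.sum_const, Finset.card_univ,
      Fintype.card_fin, smul_eq_mul, mul_one]
    omega
  have hct : D.CentralTrivial := by
    filter_upwards [hcen.ne] with p h1 hp
    change τ.1 p ^ 2 * (∏ i, τ.2 p i) * ∏ j, ∏ i, σ' (eqv.symm j) p i = 1
    rw [Equiv.prod_comp eqv.symm fun j => ∏ i, σ' j p i, Fintype.prod_sum_type]
    have h2 : ∏ x : Fin (d + 1), ∏ i, σ' (Sum.inr x) p i = ω p := by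
      have h3 : ∀ x : Fin (d + 1), ∏ i, σ' (Sum.inr x) p i = if x = 0 then ω p else 1 := by
        intro x
        change ∏ _i : Fin 1, (if x = 0 then ω p else 1) = _
        simp
      simp only [h3]
      simp
    rw [h2]
    change τ.1 p ^ 2 * (∏ i, τ.2 p i) * ((∏ j, ∏ i, σ j p i) * ω p) = 1
    rw [← mul_assoc, hω]
    exact mul_inv_cancel₀ (h1 hp)
  obtain ⟨d', A, S₁, hA, hS₁⟩ := H D hk (by rw [hrankN]; exact hN) hct
  set e' : κ ⊕ Fin (d + 1) → ℕ := Sum.elim e fun _ => 0 with he'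
  have h4 := datum_sep_to D hA hS₁ S (ε := fun j => e' (eqv.symm j)) (by
    rw [mem_JJ]
    intro j
    change e' (eqv.symm j) ≤ a' (eqv.symm j)
    rcases eqv.symm j with j | i
    · exact he j
    · exact Nat.zero_le _)
  have h5 : cons S D (fun j => e' (eqv.symm j)) = (∏ j, epw S (σ j) (e j)) * rr S τ := by
    unfold cons
    change (∏ j, epw S (σ' (eqv.symm j)) (e' (eqv.symm j))) * rr S τ = _
    rw [Equiv.prod_comp eqv.symm fun j => epw S (σ' j) (e' j), Fintype.prod_sum_type]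
    have h6 : ∏ x : Fin (d + 1), epw S (σ' (Sum.inr x)) (e' (Sum.inr x)) = 1 :=
      Finset.prod_eq_one fun x _ => es_zero' _
    rw [h6, mul_one]
    rfl
  rw [h5, hrankN] at h4
  exact h4.mono (hn₀ N (by omega))

/-- all spin L-functions continue -/
theorem spinHyp_of_fam {𝒩 : Set ℕ} (h𝒩 : 𝒩.Infinite) {q : ℕ → ℝ} (hq : Tendsto q atTop atBot)
    (H : FamHyp C 𝒩 q) : SpinHyp C Set.univ := by
  intro D hk _ _
  refine ⟨∅, fun hneg => ?_⟩
  have e : {y : Fin D.k → ℝ |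
      Continues ∅ (D.t₀ (-(∑ j, (D.a j : ℂ) * y j) / 2 * I)) (D.t fun j => y j * I)
        (spin D.Index)} = Set.univ := by
    refine Set.eq_univ_of_forall fun y => ?_
    have ht : ∀ w ∈ spin D.Index, Tame (vl (D.t₀ (-(∑ j, (D.a j : ℂ) * y j) / 2 * I))
        (D.t fun j => y j * I) w) := fun w _ => vl_tame (D.tame_t₀ _) (D.tame_t _) w
    change Continues ∅ _ _ _
    rw [continues_iff_LX ht, spin_datum]
    refine ((GG ∅).sum_mem fun ε hε => GG_sh ?_ _).2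
    refine component_fam h𝒩 hq H ∅ D.a_pos D.σ_mem D.τ_mem fun j => ?_
    have h1 := Fintype.mem_piFinset.1 hε j
    exact Nat.lt_succ_iff.1 (Finset.mem_range.1 h1)
  rw [e] at hneg
  exact Measure.measure_univ_ne_zero.2 (NeZero.ne _) hneg.1

end Run7.h456
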