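import Pool.Agent.Run7.h456.Hecke

set_option autoImplicit false

/-!
# `Continues` in terms of `LX`, and independence of `S`
-/

namespace Run7.h456

open Filter Topology Complex MeasureTheory

variable {ι : Type} [Fintype ι] {S : Finset ℕ} {t₀ : ℕ → ℂ} {t : ℕ → ι → ℂ}
  {ρ : Multiset (Weight ι)}

theorem ExtAll.congr {f g : ℂ → ℂ} (hf : ExtAll f) {c : ℝ}
    (h : ∀ s : ℂ, c < s.re → f s = g s) : ExtAll g := by
  obtain ⟨L, hL, d, hd⟩ := hf
  refine ⟨L, hL, max c d, fun s hs => ?_⟩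
  rw [hd s ((le_max_right _ _).trans_lt hs), h s ((le_max_left _ _).trans_lt hs)]

theorem ExtAll.inv {f : ℂ → ℂ} (hf : ExtAll f) : ExtAll (fun s => (f s)⁻¹) := by
  obtain ⟨L, hL, c, hc⟩ := hf
  refine ⟨fun s => (L s)⁻¹, fun s => (hL s).inv, c, fun s hs => ?_⟩
  simp only [hc s hs]

theorem ExtAll.of_mero {f : ℂ → ℂ} (hf : Meromorphic f) : ExtAll f :=
  ⟨f, hf, 0, fun _ _ => rfl⟩

/-- the value of a weight -/
noncomputable def vl (t₀ : ℕ → ℂ) (t : ℕ → ι → ℂ) (w : Weight ι) (p : ℕ) : ℂ :=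
  t₀ p ^ w.1 * ∏ i, t p i ^ w.2 i

theorem vl_tame (h₀ : Tame t₀) (h : ∀ i, Tame fun p => t p i) (w : Weight ι) :
    Tame (vl t₀ t w) :=
  (h₀.zpow w.1).mul (Tame.prod Finset.univ fun i _ => (h i).zpow (w.2 i))

/-- the trace of the powers of the Satake classes -/
noncomputable def xr (S : Finset ℕ) (t₀ : ℕ → ℂ) (t : ℕ → ι → ℂ) (ρ : Multiset (Weight ι)) :
    PS S × ℕ → ℂ := fun a => (ρ.map fun w => vl t₀ t w a.1 ^ (a.2 + 1)).sum

theorem vl_bound (S : Finset ℕ) (h : ∀ w ∈ ρ, Tame (vl t₀ t w)) :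
    ∃ B : ℝ, ∀ w ∈ ρ, ∀ p : PS S, ‖vl t₀ t w p‖ ≤ ((p : ℕ) : ℝ) ^ B :=
  bound_multiset (x := vl t₀ t) ρ fun w hw => (h w hw).bound S

theorem xr_bd (S : Finset ℕ) (h : ∀ w ∈ ρ, Tame (vl t₀ t w)) : ∃ B, Bd (xr S t₀ t ρ) B := by
  obtain ⟨B, hB⟩ := vl_bound S h
  exact (LX_multiset hB).1

theorem continues_iff_meul (h : ∀ w ∈ ρ, Tame (vl t₀ t w)) :
    Continues S t₀ t ρ ↔ ExtAll (meul S (vl t₀ t) ρ) := by
  obtain ⟨B, hB⟩ := vl_bound S h
  have key : ∀ s : ℂ, B + 1 < s.re → HasProd (fun p : {p : ℕ // p.Prime ∧ p ∉ S} =>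
      (ρ.map fun w => (1 - (t₀ p ^ w.1 * ∏ i, t p i ^ w.2 i) * ((p : ℕ) : ℂ) ^ (-s))⁻¹).prod)
      (meul S (vl t₀ t) ρ s) := fun s hs => meul_hasProd (x := vl t₀ t) hB hs
  constructor
  · rintro ⟨L, hL, c, hc⟩
    refine ⟨L, hL, max c (B + 1), fun s hs => ?_⟩
    exact (hc s ((le_max_left _ _).trans_lt hs)).unique (key s ((le_max_right _ _).trans_lt hs))
  · rintro ⟨L, hL, c, hc⟩
    refine ⟨L, hL, max c (B + 1), fun s hs => ?_⟩
    rw [hc s ((le_max_left _ _).trans_lt hs)]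
    exact key s ((le_max_right _ _).trans_lt hs)

theorem continues_iff_LX (h : ∀ w ∈ ρ, Tame (vl t₀ t w)) :
    Continues S t₀ t ρ ↔ ExtAll (LX (xr S t₀ t ρ)) := by
  rw [continues_iff_meul h]
  obtain ⟨B, hB⟩ := vl_bound S h
  obtain ⟨-, c, hc⟩ := LX_multiset hB
  exact ⟨fun h1 => h1.congr fun s hs => (hc s hs).symm, fun h1 => h1.congr fun s hs => hc s hs⟩

/-- the finitely many Euler factors -/
noncomputable def finE {Ω : Type*} (T : Finset ℕ) (x : Ω → ℕ → ℂ) (ρ : Multiset Ω) (s : ℂ) : ℂ :=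
  ∏ p ∈ T.filter Nat.Prime, (ρ.map fun w => (1 - x w p * (p : ℂ) ^ (-s))⁻¹).prod

theorem finE_mero {Ω : Type*} (T : Finset ℕ) (x : Ω → ℕ → ℂ) (ρ : Multiset Ω) :
    Meromorphic (finE T x ρ) := by
  intro s
  have h1 : ∀ p ∈ T.filter Nat.Prime,
      MeromorphicAt (fun s : ℂ => (ρ.map fun w => (1 - x w p * (p : ℂ) ^ (-s))⁻¹).prod) s := by
    intro p hp
    have hp0 : (p : ℂ) ≠ 0 := by exact_mod_cast (Finset.mem_filter.1 hp).2.pos.ne'
    induction ρ using Multiset.induction_on with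
    | empty =>
      simp only [Multiset.map_zero, Multiset.prod_zero]
      exact MeromorphicAt.const _ _
    | cons w ρ ih =>
      simp only [Multiset.map_cons, Multiset.prod_cons]
      have h2 : AnalyticAt ℂ (fun s : ℂ => 1 - x w p * (p : ℂ) ^ (-s)) s := by
        have hd : Differentiable ℂ (fun s : ℂ => 1 - x w p * (p : ℂ) ^ (-s)) := by
          intro z
          refine (differentiableAt_const _).sub ((differentiableAt_const _).mul ?_)
          exact DifferentiableAt.const_cpow differentiableAt_id.neg (Or.inl hp0)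
        exact hd.analyticAt s
      exact h2.meromorphicAt.inv.mul ih
  have e : finE T x ρ = fun s => ∏ p ∈ T.filter Nat.Prime,
      (ρ.map fun w => (1 - x w p * (p : ℂ) ^ (-s))⁻¹).prod := rfl
  rw [e]
  classical
  revert h1
  generalize T.filter Nat.Prime = T'
  induction T' using Finset.induction_on with
  | empty =>
    intro _
    simp only [Finset.prod_empty]
    exact MeromorphicAt.const _ _
  | insert p T' hp ih =>
    intro h1
    simp only [Finset.prod_insert hp]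
    exact (h1 p (Finset.mem_insert_self p T')).mul
      (ih fun q hq => h1 q (Finset.mem_insert_of_mem hq))

/-- enlarging `S` -/
theorem meul_subset {Ω : Type*} {x : Ω → ℕ → ℂ} {ρ : Multiset Ω} {S S' : Finset ℕ} (h : S ⊆ S')
    {B : ℝ} (hb : ∀ w ∈ ρ, ∀ p : PS S, ‖x w p‖ ≤ ((p : ℕ) : ℝ) ^ B) {s : ℂ} (hs : B + 1 < s.re) :
    meul S x ρ s = meul S' x ρ s * finE (S' \ S) x ρ s ∧ finE (S' \ S) x ρ s ≠ 0 := by
  classical
  have hb' : ∀ w ∈ ρ, ∀ p : PS S', ‖x w p‖ ≤ ((p : ℕ) : ℝ) ^ B := fun w hw p =>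
    hb w hw ⟨p, p.2.1, fun hp => p.2.2 (h hp)⟩
  set F : ℕ → ℂ := fun p => (ρ.map fun w => (1 - x w p * (p : ℂ) ^ (-s))⁻¹).prod with hF
  have h1 : HasProd (F ∘ (Subtype.val : {p : ℕ | p.Prime ∧ p ∉ S} → ℕ)) (meul S x ρ s) :=
    meul_hasProd hb hs
  have h2 : HasProd (F ∘ (Subtype.val : {p : ℕ | p.Prime ∧ p ∉ S'} → ℕ)) (meul S' x ρ s) :=
    meul_hasProd hb' hs
  have h3 : HasProd (F ∘ (Subtype.val : (((S' \ S).filter Nat.Prime : Finset ℕ) : Set ℕ) → ℕ))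
      (finE (S' \ S) x ρ s) := Finset.hasProd _ F
  have hdisj : Disjoint {p : ℕ | p.Prime ∧ p ∉ S'}
      (((S' \ S).filter Nat.Prime : Finset ℕ) : Set ℕ) := by
    rw [Set.disjoint_left]
    rintro p ⟨_, hp⟩ hp'
    rw [Finset.mem_coe, Finset.mem_filter, Finset.mem_sdiff] at hp'
    exact hp hp'.1.1
  have h4 := h2.mul_disjoint hdisj h3
  have e : {p : ℕ | p.Prime ∧ p ∉ S'} ∪ (((S' \ S).filter Nat.Prime : Finset ℕ) : Set ℕ) =
      {p : ℕ | p.Prime ∧ p ∉ S} := by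
    ext p
    simp only [Set.mem_union, Set.mem_ofPred_eq, Finset.mem_coe, Finset.mem_filter,
      Finset.mem_sdiff]
    constructor
    · rintro (⟨h5, h6⟩ | ⟨⟨h5, h6⟩, h7⟩)
      · exact ⟨h5, fun h7 => h6 (h h7)⟩
      · exact ⟨h7, h6⟩
    · rintro ⟨h5, h6⟩
      by_cases h7 : p ∈ S'
      · exact Or.inr ⟨⟨h7, h6⟩, h5⟩
      · exact Or.inl ⟨h5, h7⟩
  rw [e] at h4
  refine ⟨h1.unique h4, ?_⟩
  unfold finE
  refine Finset.prod_ne_zero_iff.2 fun p hp => ?_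
  rw [Finset.mem_filter, Finset.mem_sdiff] at hp
  refine Multiset.prod_ne_zero ?_
  intro h5
  rw [Multiset.mem_map] at h5
  obtain ⟨w, hw, h6⟩ := h5
  exact one_sub_ne (b := x w) (A := B) (hb w hw) ⟨p, hp.2, hp.1.2⟩ hs (inv_eq_zero.1 h6)

theorem meul_subset_iff {Ω : Type*} {x : Ω → ℕ → ℂ} {ρ : Multiset Ω} {S S' : Finset ℕ}
    (h : S ⊆ S') (ht : ∀ w ∈ ρ, Tame (x w)) :
    ExtAll (meul S x ρ) ↔ ExtAll (meul S' x ρ) := by
  obtain ⟨B, hB⟩ := bound_multiset (S := S) (x := x) ρ fun w hw => (ht w hw).bound S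
  constructor
  · intro h1
    refine (h1.mul (ExtAll.of_mero (finE_mero (S' \ S) x ρ)).inv).congr (c := B + 1)
      fun s hs => ?_
    obtain ⟨h2, h3⟩ := meul_subset h hB hs
    rw [h2, mul_inv_cancel_right₀ h3]
  · intro h1
    refine (h1.mul (ExtAll.of_mero (finE_mero (S' \ S) x ρ))).congr (c := B + 1) fun s hs => ?_
    exact (meul_subset h hB hs).1.symm

/-- **Independence of `S`.** -/
theorem continues_indep (S S' : Finset ℕ) (h : ∀ w ∈ ρ, Tame (vl t₀ t w)) :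
    Continues S t₀ t ρ ↔ Continues S' t₀ t ρ := by
  classical
  rw [continues_iff_meul h, continues_iff_meul h,
    meul_subset_iff (Finset.subset_union_left (s₁ := S) (s₂ := S')) h,
    ← meul_subset_iff (Finset.subset_union_right (s₁ := S) (s₂ := S')) h]

/-- the functions whose L-function continues -/
noncomputable def GG (S : Finset ℕ) : AddSubgroup (PS S × ℕ → ℂ) where
  carrier := {x | (∃ B, Bd x B) ∧ ExtAll (LX x)}
  zero_mem' := ⟨⟨0, Bd.zero 0⟩, (ExtAll.const 1).congr (c := 0) fun s _ => (LX_zero s).symm⟩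
  add_mem' := by
    rintro x y ⟨⟨B, hB⟩, hx⟩ ⟨⟨B', hB'⟩, hy⟩
    refine ⟨⟨_, hB.add hB'⟩, (hx.mul hy).congr (c := max (B + 1) (B' + 1)) fun s hs => ?_⟩
    rw [max_lt_iff] at hs
    exact (LX_add hB hB' hs.1 hs.2).symm
  neg_mem' := by
    rintro x ⟨⟨B, hB⟩, hx⟩
    exact ⟨⟨B, hB.neg⟩, hx.inv.congr (c := 0) fun s _ => (LX_neg x s).symm⟩

theorem mem_GG {x : PS S × ℕ → ℂ} : x ∈ GG S ↔ (∃ B, Bd x B) ∧ ExtAll (LX x) := Iff.rfl

end Run7.h456
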