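import Pool.Agent.Run7.h456.Weyl

set_option autoImplicit false

/-!
# Cuspidal data and automorphic L-functions of `GSp_{2n}`

All objects are given by their Satake parameters.
-/

namespace Run7.h456

open Filter Topology Complex MeasureTheory

/-- The Euler product `L_S(s, π, ρ) = ∏_{p ∉ S} det(1 - ρ(A_p) p^{-s})⁻¹`, `A_p = (t₀(p); t(p))`, converges for large
real part and extends to a meromorphic function on `ℂ`. -/
def Continues {ι : Type} [Fintype ι] (S : Finset ℕ) (t₀ : ℕ → ℂ) (t : ℕ → ι → ℂ)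
    (ρ : Multiset (Weight ι)) : Prop :=
  ∃ L : ℂ → ℂ, Meromorphic L ∧ ∃ c : ℝ, ∀ s : ℂ, c < s.re →
    HasProd (fun p : {p : ℕ // p.Prime ∧ p ∉ S} =>
      (ρ.map fun w => (1 - (t₀ p ^ w.1 * ∏ i, t p i ^ w.2 i) * ((p : ℕ) : ℂ) ^ (-s))⁻¹).prod) (L s)

/-- `μ(p) = χ(p) p^{-iy}` for almost all primes `p`, with a Dirichlet character `χ` and a real number `y`: the values
of a unitary Hecke character of `ℚ` -/
def IsHecke (μ : ℕ → ℂ) : Prop :=
  ∃ N : ℕ, N ≠ 0 ∧ ∃ (χ : DirichletCharacter ℂ N) (y : ℝ), ∀ᶠ p : ℕ in atTop, p.Prime →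
    μ p = χ (p : ZMod N) * (p : ℂ) ^ (-(y * I))

/-- `x(p)` and `x(p)⁻¹` are polynomially bounded, for almost all primes `p` -/
def Tame (x : ℕ → ℂ) : Prop :=
  ∃ A : ℝ, ∀ᶠ p : ℕ in atTop, p.Prime → (p : ℝ) ^ (-A) ≤ ‖x p‖ ∧ ‖x p‖ ≤ (p : ℝ) ^ A

/-- Sets `cuspGL a` and `cuspGSp m` of Satake families, to be thought of as the sets of the unitary cuspidal
automorphic representations of `GL_a` and `GSp_{2m}` over `ℚ`. The value of a member of `cuspGL a` at a prime `p` is
its Satake parameter, `a` numbers; the value of a member of `cuspGSp m` is its Satake parameter `(τ₀; τ_1, …, τ_m)` in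
the dual torus. The values at finitely many primes (the ramified ones) are irrelevant. -/
structure Classes where
  /-- unitary cuspidal representations of `GL_a` -/
  cuspGL : (a : ℕ) → Set (ℕ → Fin a → ℂ)
  /-- unitary cuspidal representations of `GSp_{2m}` -/
  cuspGSp : (m : ℕ) → Set ((ℕ → ℂ) × (ℕ → Fin m → ℂ))
  /-- the Satake parameters of the members of `cuspGL a` are polynomially bounded -/
  tame_GL : ∀ a, ∀ σ ∈ cuspGL a, ∀ i, Tame fun p => σ p i
  /-- the Satake parameters of the members of `cuspGSp m` are polynomially bounded -/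
  tame_GSp : ∀ m, ∀ τ ∈ cuspGSp m, Tame τ.1 ∧ ∀ i, Tame fun p => τ.2 p i
  /-- the unitary Hecke characters of `ℚ` are in `cuspGL 1` -/
  hecke : ∀ μ, IsHecke μ → (fun p _ => μ p) ∈ cuspGL 1
  /-- the trivial character is in `cuspGSp 0` -/
  one : ((fun _ => 1), fun _ i => i.elim0) ∈ cuspGSp 0
  /-- the central characters of the members of `cuspGL a` are Hecke characters -/
  central_GL : ∀ a, ∀ σ ∈ cuspGL a, IsHecke fun p => ∏ i, σ p i
  /-- the central characters of the members of `cuspGSp m` are Hecke characters -/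
  central_GSp : ∀ m, ∀ τ ∈ cuspGSp m, IsHecke fun p => τ.1 p ^ 2 * ∏ i, τ.2 p i
  /-- Every `τ ∈ cuspGSp m` has a weak lift to `GL_{2m+1}`: the numbers `1, τ_i, τ_i⁻¹` are the Satake parameter of an
  isobaric sum of twists `σ_j |det|^{x_j}`, `σ_j ∈ cuspGL (c j)`, `x_j ∈ ℂ`. -/
  lift : ∀ m, ∀ τ ∈ cuspGSp m, ∃ (l : ℕ) (c : Fin l → ℕ) (σ : (j : Fin l) → ℕ → Fin (c j) → ℂ)
    (x : Fin l → ℂ), (∀ j, σ j ∈ cuspGL (c j)) ∧ ∀ᶠ p : ℕ in atTop, p.Prime →
      1 ::ₘ (Finset.univ.val.map (τ.2 p) + Finset.univ.val.map fun i => (τ.2 p i)⁻¹) =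
        ∑ j, Finset.univ.val.map fun i => σ j p i * (p : ℂ) ^ (-(x j))

/-- A cuspidal datum for `GSp_{2n}`: a Levi subgroup `GL_{a_1} × … × GL_{a_k} × GSp_{2m}`, `n = a_1 + … + a_k + m`,
and a unitary cuspidal representation `σ_1 ⊗ … ⊗ σ_k ⊗ τ` of it. -/
structure CuspidalDatum (C : Classes) where
  /-- the number of the blocks `GL` -/
  k : ℕ
  /-- the sizes of the blocks -/
  a : Fin k → ℕ
  /-- there are no empty blocks -/
  a_pos : ∀ j, 1 ≤ a j
  /-- the cuspidal representations of the blocks `GL` -/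
  σ : (j : Fin k) → ℕ → Fin (a j) → ℂ
  /-- they are members of the classes `cuspGL` -/
  σ_mem : ∀ j, σ j ∈ C.cuspGL (a j)
  /-- the last block is `GSp_{2m}` -/
  m : ℕ
  /-- the cuspidal representation of the last block -/
  τ : (ℕ → ℂ) × (ℕ → Fin m → ℂ)
  /-- it is a member of the class `cuspGSp` -/
  τ_mem : τ ∈ C.cuspGSp m

namespace CuspidalDatum

variable {C : Classes} (D : CuspidalDatum C)

/-- the rank `n` -/
def rank : ℕ := ∑ j, D.a j + D.m

/-- the index set of the coordinates, with `n` elements -/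
abbrev Index : Type := (Σ j : Fin D.k, Fin (D.a j)) ⊕ Fin D.m

/-- The coordinate `t₀` of the Satake parameters of the automorphic constituents `π` of the representation of
`GSp_{2n}` induced from `σ_1 |det|^{z_1} ⊗ … ⊗ σ_k |det|^{z_k} ⊗ τ |λ|^{z₀}`. By Langlands these are all the automorphic
representations of `GSp_{2n}`, if the datum and `z₀`, `z` vary. -/
noncomputable def t₀ (z₀ : ℂ) (p : ℕ) : ℂ := D.τ.1 p * (p : ℂ) ^ (-z₀)

/-- the other coordinates of the Satake parameters of `π` -/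
noncomputable def t (z : Fin D.k → ℂ) (p : ℕ) : D.Index → ℂ :=
  Sum.elim (fun x => D.σ x.1 p x.2 * (p : ℂ) ^ (-(z x.1))) fun i => D.τ.2 p i

/-- The central character is trivial (for `z = 0`, `z₀ = 0`, and so for all `z` if `z₀ = -(a_1 z_1 + … + a_k z_k)/2`). -/
def CentralTrivial : Prop :=
  ∀ᶠ p : ℕ in atTop, p.Prime → D.τ.1 p ^ 2 * (∏ i, D.τ.2 p i) * ∏ j, ∏ i, D.σ j p i = 1

end CuspidalDatum

/-- the weights `(1; ε_1, …, ε_n)`, `ε_i ∈ {0, 1}`, of the spin representation `r` of degree `2^n` -/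
def spin (ι : Type) [Fintype ι] [DecidableEq ι] : Multiset (Weight ι) :=
  (Finset.univ : Finset (ι → Bool)).val.map fun f => (1, fun i => if f i then 1 else 0)

/-- of Lebesgue measure zero and of first category -/
def Negligible {k : ℕ} (E : Set (Fin k → ℝ)) : Prop := volume E = 0 ∧ IsMeagre E

end Run7.h456
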