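import Pool.Agent.Run7.h456.Defs

set_option autoImplicit false

/-!
# Continuation to half-planes
-/

namespace Run7.h456

open Filter Topology Complex MeasureTheory

/-- The Euler product `L_S(s, π, ρ) = ∏_{p ∉ S} det(1 - ρ(A_p) p^{-s})⁻¹`, `A_p = (t₀(p); t(p))`, converges for large
real part and extends to a meromorphic function on the half-plane `Re s > q`. -/
def ContinuesTo {ι : Type} [Fintype ι] (q : ℝ) (S : Finset ℕ) (t₀ : ℕ → ℂ) (t : ℕ → ι → ℂ)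
    (ρ : Multiset (Weight ι)) : Prop :=
  ∃ L : ℂ → ℂ, MeromorphicOn L {s : ℂ | q < s.re} ∧ ∃ c : ℝ, ∀ s : ℂ, c < s.re →
    HasProd (fun p : {p : ℕ // p.Prime ∧ p ∉ S} =>
      (ρ.map fun w => (1 - (t₀ p ^ w.1 * ∏ i, t p i ^ w.2 i) * ((p : ℕ) : ℂ) ^ (-s))⁻¹).prod) (L s)

end Run7.h456
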