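import Pool.Agent.Run7.h456.Mero

set_option autoImplicit false

/-!
# Euler products with one factor per prime
-/

namespace Run7.h456

open Filter Topology Complex Set Metric

/-- the primes outside `S` -/
abbrev PS (S : Finset ℕ) : Type := {p : ℕ // p.Prime ∧ p ∉ S}

variable {S : Finset ℕ}

/-- the Euler product `∏ (1 - b_p p^{-s})⁻¹`, for large real part -/
noncomputable def eul (S : Finset ℕ) (b : ℕ → ℂ) (s : ℂ) : ℂ :=
  cexp (∑' p : PS S, -log (1 - b p * (p : ℂ) ^ (-s)))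

theorem PS.pos (p : PS S) : 0 < (p : ℕ) := p.2.1.pos

theorem PS.norm_cpow (p : PS S) (s : ℂ) : ‖((p : ℕ) : ℂ) ^ (-s)‖ = ((p : ℕ) : ℝ) ^ (-s.re) := by
  rw [norm_natCast_cpow_of_pos p.pos, neg_re]

theorem term_bound {b : ℕ → ℂ} {A : ℝ} (hb : ∀ p : PS S, ‖b p‖ ≤ ((p : ℕ) : ℝ) ^ A) (p : PS S)
    (s : ℂ) : ‖b p * ((p : ℕ) : ℂ) ^ (-s)‖ ≤ ((p : ℕ) : ℝ) ^ (A - s.re) := by
  have hp : (0 : ℝ) < (p : ℕ) := by exact_mod_cast p.pos
  rw [norm_mul, p.norm_cpow, sub_eq_add_neg, Real.rpow_add hp]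
  exact mul_le_mul_of_nonneg_right (hb p) (Real.rpow_nonneg hp.le _)

theorem rpow_le_half {p : PS S} {x : ℝ} (hx : x ≤ -1) : ((p : ℕ) : ℝ) ^ x ≤ 1 / 2 := by
  have hp : (2 : ℝ) ≤ (p : ℕ) := by exact_mod_cast p.2.1.two_le
  calc ((p : ℕ) : ℝ) ^ x ≤ ((p : ℕ) : ℝ) ^ (-1 : ℝ) :=
        Real.rpow_le_rpow_of_exponent_le (by linarith) hx
    _ = ((p : ℕ) : ℝ)⁻¹ := Real.rpow_neg_one _
    _ ≤ 1 / 2 := by
        rw [one_div]
        exact inv_anti₀ (by norm_num) hp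

theorem one_sub_ne {b : ℕ → ℂ} {A : ℝ} (hb : ∀ p : PS S, ‖b p‖ ≤ ((p : ℕ) : ℝ) ^ A) (p : PS S)
    {s : ℂ} (hs : A + 1 < s.re) : 1 - b p * ((p : ℕ) : ℂ) ^ (-s) ≠ 0 := by
  intro h
  have h1 : b p * ((p : ℕ) : ℂ) ^ (-s) = 1 := (sub_eq_zero.1 h).symm
  have h2 := (term_bound hb p s).trans (rpow_le_half (p := p) (by linarith))
  rw [h1, norm_one] at h2
  norm_num at h2

theorem log_term_bound {b : ℕ → ℂ} {A : ℝ} (hb : ∀ p : PS S, ‖b p‖ ≤ ((p : ℕ) : ℝ) ^ A)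
    (p : PS S) {s : ℂ} {x : ℝ} (hx : 1 ≤ x) (hs : A + x < s.re) :
    ‖-log (1 - b p * ((p : ℕ) : ℂ) ^ (-s))‖ ≤ 3 / 2 * ((p : ℕ) : ℝ) ^ (-x) := by
  have hp : (1 : ℝ) ≤ (p : ℕ) := by exact_mod_cast p.pos
  have h1 := term_bound hb p s
  have h2 : ‖-(b p * ((p : ℕ) : ℂ) ^ (-s))‖ ≤ 1 / 2 := by
    rw [norm_neg]
    exact h1.trans (rpow_le_half (p := p) (by linarith))
  rw [norm_neg, sub_eq_add_neg]
  refine (norm_log_one_add_half_le_self h2).trans ?_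
  rw [norm_neg]
  refine mul_le_mul_of_nonneg_left (h1.trans ?_) (by norm_num)
  exact Real.rpow_le_rpow_of_exponent_le hp (by linarith)

theorem summable_PS {x : ℝ} (hx : 1 < x) :
    Summable fun p : PS S => 3 / 2 * ((p : ℕ) : ℝ) ^ (-x) := by
  refine Summable.mul_left _ ?_
  have h1 : Summable fun p : Nat.Primes => ((p : ℕ) : ℝ) ^ (-x) :=
    Nat.Primes.summable_rpow.2 (by linarith)
  exact h1.comp_injective (i := fun p : PS S => (⟨p.1, p.2.1⟩ : Nat.Primes))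
    fun p q h => Subtype.ext (congrArg (fun r : Nat.Primes => (r : ℕ)) h)

theorem eul_summable {b : ℕ → ℂ} {A : ℝ} (hb : ∀ p : PS S, ‖b p‖ ≤ ((p : ℕ) : ℝ) ^ A) {s : ℂ}
    (hs : A + 1 < s.re) : Summable fun p : PS S => -log (1 - b p * ((p : ℕ) : ℂ) ^ (-s)) := by
  obtain ⟨x, h1, h2⟩ := exists_between (show (1 : ℝ) < s.re - A by linarith)
  exact (summable_PS h1).of_norm_bounded fun p => log_term_bound hb p h1.le (by linarith)

theorem eul_good {b : ℕ → ℂ} {A : ℝ} (hb : ∀ p : PS S, ‖b p‖ ≤ ((p : ℕ) : ℝ) ^ A) :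
    GoodAt (A + 1) (eul S b) := by
  intro s hs
  refine ⟨?_, exp_ne_zero _⟩
  obtain ⟨x, h1, h2⟩ := exists_between (show (1 : ℝ) < s.re - A by linarith)
  have hU : IsOpen (HP (A + x)) := isOpen_HP _
  have hd : DifferentiableOn ℂ (fun s => ∑' p : PS S, -log (1 - b p * ((p : ℕ) : ℂ) ^ (-s)))
      (HP (A + x)) := by
    refine differentiableOn_tsum_of_summable_norm (summable_PS h1) (fun p => ?_) hU
      fun p w hw => log_term_bound hb p h1.le hw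
    intro w hw
    rw [mem_HP] at hw
    have hp0 : ((p : ℕ) : ℂ) ≠ 0 := by exact_mod_cast p.pos.ne'
    have h3 : ‖b p * ((p : ℕ) : ℂ) ^ (-w)‖ < 1 := by
      have := (term_bound hb p w).trans (rpow_le_half (p := p) (by linarith))
      linarith
    refine DifferentiableAt.differentiableWithinAt (DifferentiableAt.neg (DifferentiableAt.clog ?_ ?_))
    · refine (differentiableAt_const _).sub ((differentiableAt_const _).mul ?_)
      exact DifferentiableAt.const_cpow differentiableAt_id.neg (Or.inl hp0)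
    · refine Or.inl ?_
      rw [sub_re, one_re]
      have := (re_le_norm (b p * ((p : ℕ) : ℂ) ^ (-w))).trans_lt h3
      linarith
  have ha : AnalyticAt ℂ (fun s => ∑' p : PS S, -log (1 - b p * ((p : ℕ) : ℂ) ^ (-s))) s :=
    hd.analyticAt (hU.mem_nhds (by rw [mem_HP]; linarith))
  exact ha.cexp

theorem eul_hasProd {b : ℕ → ℂ} {A : ℝ} (hb : ∀ p : PS S, ‖b p‖ ≤ ((p : ℕ) : ℝ) ^ A) {s : ℂ}
    (hs : A + 1 < s.re) :
    HasProd (fun p : PS S => (1 - b p * ((p : ℕ) : ℂ) ^ (-s))⁻¹) (eul S b s) := by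
  have h1 := (eul_summable hb hs).hasSum.cexp
  refine HasProd.congr_fun h1 fun p => ?_
  simp only [Function.comp_apply, exp_neg, exp_log (one_sub_ne hb p hs)]

theorem eul_shift (b : ℕ → ℂ) (z s : ℂ) :
    eul S (fun p => b p * (p : ℂ) ^ (-z)) s = eul S b (s + z) := by
  unfold eul
  congr 1
  refine tsum_congr fun p => ?_
  have hp0 : ((p : ℕ) : ℂ) ≠ 0 := by exact_mod_cast p.pos.ne'
  rw [neg_add, cpow_add _ _ hp0]
  congr 3
  ring

theorem cpow_fsum {x : ℂ} (hx : x ≠ 0) {ι : Type*} (t : Finset ι) (f : ι → ℂ) :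
    x ^ (∑ i ∈ t, f i) = ∏ i ∈ t, x ^ f i := by
  classical
  induction t using Finset.induction_on with
  | empty => simp
  | insert a t ha ih => rw [Finset.sum_insert ha, Finset.prod_insert ha, cpow_add _ _ hx, ih]

/-- a bound with a constant gives one without -/
theorem bound_const {b : ℕ → ℂ} {C A : ℝ} (hb : ∀ p : PS S, ‖b p‖ ≤ C * ((p : ℕ) : ℝ) ^ A) :
    ∃ B : ℝ, ∀ p : PS S, ‖b p‖ ≤ ((p : ℕ) : ℝ) ^ B := by
  obtain ⟨n, hn⟩ := exists_nat_gt C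
  refine ⟨n + A, fun p => (hb p).trans ?_⟩
  have hp2 : (2 : ℝ) ≤ (p : ℕ) := by exact_mod_cast p.2.1.two_le
  have hp : (0 : ℝ) < (p : ℕ) := by linarith
  rw [Real.rpow_add hp]
  refine mul_le_mul_of_nonneg_right (hn.le.trans ?_) (Real.rpow_nonneg hp.le _)
  rw [Real.rpow_natCast]
  calc (n : ℝ) ≤ 2 ^ n := by exact_mod_cast (Nat.lt_two_pow_self (n := n)).le
    _ ≤ ((p : ℕ) : ℝ) ^ n := pow_le_pow_left₀ (by norm_num) hp2 n

end Run7.h456
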