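import Pool.Agent.Run7.h456.Families

set_option autoImplicit false

/-!
# Continuation to half-planes with extended real abscissa
-/

namespace Run7.h456

open Filter Topology Complex Set Metric MeasureTheory

/-- the half-plane `Re s > q`, `q` an extended real number -/
def HE (q : EReal) : Set ℂ := {s : ℂ | q < (s.re : EReal)}

theorem HE_coe (q : ℝ) : HE (q : EReal) = HP q := by
  ext s
  simp only [HE, HP, mem_ofPred_eq]
  exact EReal.coe_lt_coe_iff

theorem HE_bot : HE ⊥ = Set.univ := by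
  ext s
  simp only [HE, mem_ofPred_eq, mem_univ, iff_true]
  exact EReal.bot_lt_coe _

theorem HE_top : HE ⊤ = ∅ := by
  ext s
  simp [HE]

theorem HE_mono {q q' : EReal} (h : q ≤ q') : HE q' ⊆ HE q := fun _ hs => lt_of_le_of_lt h hs

/-- meromorphic continuation to `Re s > q` -/
def ExtE (q : EReal) (f : ℂ → ℂ) : Prop :=
  ∃ L : ℂ → ℂ, MeromorphicOn L (HE q) ∧ ∃ c : ℝ, ∀ s : ℂ, c < s.re → L s = f s

theorem extE_coe {q : ℝ} {f : ℂ → ℂ} : ExtE (q : EReal) f ↔ Ext q f := by
  unfold ExtE Ext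
  rw [HE_coe]

theorem extE_bot {f : ℂ → ℂ} : ExtE ⊥ f ↔ ExtAll f := by
  unfold ExtE ExtAll
  rw [HE_bot]
  exact ⟨fun ⟨L, hL, h⟩ => ⟨L, fun s => hL s (mem_univ s), h⟩, fun ⟨L, hL, h⟩ =>
    ⟨L, fun s _ => hL s, h⟩⟩

theorem extE_top (f : ℂ → ℂ) : ExtE ⊤ f :=
  ⟨f, by rw [HE_top]; exact fun s hs => absurd hs (notMem_empty s), 0, fun _ _ => rfl⟩

theorem ExtE.mono {q q' : EReal} (h : q ≤ q') {f : ℂ → ℂ} (hf : ExtE q f) : ExtE q' f := by
  obtain ⟨L, hL, hc⟩ := hf
  exact ⟨L, hL.mono_set (HE_mono h), hc⟩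

/-- the infimum is attained -/
theorem extE_iff {q : EReal} {f : ℂ → ℂ} {c : ℝ} (hf : ∀ s : ℂ, c < s.re → AnalyticAt ℂ f s) :
    ExtE q f ↔ ∀ r : ℝ, q < r → Ext r f := by
  constructor
  · intro h r hr
    exact extE_coe.1 (h.mono hr.le)
  · intro h
    induction q with
    | bot => exact extE_bot.2 (ExtAll.of_forall hf fun r => h r (EReal.bot_lt_coe r))
    | top => exact extE_top f
    | coe q => exact extE_coe.2 (Ext.of_seq hf fun r hr => h r (EReal.coe_lt_coe_iff.2 hr))

/-- the abscissa of meromorphic continuation -/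
noncomputable def absc (f : ℂ → ℂ) : EReal := sInf {q : EReal | ExtE q f}

theorem absc_le_iff {q : EReal} {f : ℂ → ℂ} {c : ℝ} (hf : ∀ s : ℂ, c < s.re → AnalyticAt ℂ f s) :
    absc f ≤ q ↔ ExtE q f := by
  constructor
  · intro h
    rw [extE_iff hf]
    intro r hr
    obtain ⟨q', hq', h1⟩ := sInf_lt_iff.1 (lt_of_le_of_lt h hr)
    exact extE_coe.1 (hq'.mono h1.le)
  · intro h
    exact sInf_le h

theorem ext_shift_iff {q : ℝ} {f : ℂ → ℂ} (a : ℂ) :
    Ext q (fun s => f (s + a)) ↔ Ext (q + a.re) f := by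
  constructor
  · intro h
    have h1 := h.shift (-a)
    have e : q - (-a).re = q + a.re := by
      rw [neg_re]
      ring
    rw [e] at h1
    refine h1.congr (c := 0) fun s _ => ?_
    congr 1
    ring
  · intro h
    have h1 := h.shift a
    rwa [add_sub_cancel_right] at h1

theorem GoodAt.shift {c : ℝ} {f : ℂ → ℂ} (hf : GoodAt c f) (a : ℂ) :
    GoodAt (c - a.re) (fun s => f (s + a)) := by
  intro s hs
  have h1 := hf (s + a) (by
    rw [add_re]
    linarith)
  exact ⟨AnalyticAt.fun_comp (g := f) (f := fun s : ℂ => s + a) h1.1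
    (analyticAt_id.add analyticAt_const), h1.2⟩

theorem GoodAt.prod {J : Type*} {c : ℝ} (t : Finset J) {f : J → ℂ → ℂ}
    (hf : ∀ j ∈ t, GoodAt c (f j)) : GoodAt c (fun s => ∏ j ∈ t, f j s) := fun s hs =>
  ⟨Finset.analyticAt_fun_prod t fun j hj => (hf j hj s hs).1,
    Finset.prod_ne_zero_iff.2 fun j hj => (hf j hj s hs).2⟩

theorem absc_shift {f : ℂ → ℂ} {c : ℝ} (hf : ∀ s : ℂ, c < s.re → AnalyticAt ℂ f s) (a : ℂ) :
    absc (fun s => f (s + a)) = absc f - (a.re : ℝ) := by
  have hf' : ∀ s : ℂ, c - a.re < s.re → AnalyticAt ℂ (fun s => f (s + a)) s := by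
    intro s hs
    exact AnalyticAt.fun_comp (g := f) (f := fun s : ℂ => s + a) (hf _ (by
      rw [add_re]
      linarith)) (analyticAt_id.add analyticAt_const)
  have key : ∀ q : EReal, absc (fun s => f (s + a)) ≤ q ↔ absc f - (a.re : ℝ) ≤ q := by
    intro q
    rw [absc_le_iff hf', EReal.sub_le_iff_le_add (Or.inl (EReal.coe_ne_bot _))
      (Or.inl (EReal.coe_ne_top _)), absc_le_iff hf, extE_iff hf', extE_iff hf]
    constructor
    · intro h r hr
      have h1 : q < ((r - a.re : ℝ) : EReal) := by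
        rw [EReal.coe_sub]
        exact EReal.lt_sub_iff_add_lt (Or.inl (EReal.coe_ne_bot _))
          (Or.inl (EReal.coe_ne_top _)) |>.2 hr
      have h2 := (ext_shift_iff a).1 (h (r - a.re) h1)
      rwa [sub_add_cancel] at h2
    · intro h r hr
      refine (ext_shift_iff a).2 (h (r + a.re) ?_)
      rw [EReal.coe_add]
      exact EReal.add_lt_add_of_lt_of_le hr le_rfl (EReal.coe_ne_bot _) (EReal.coe_ne_top _)
  exact le_antisymm ((key _).2 le_rfl) ((key _).1 le_rfl)

theorem ExtE.prod {q : EReal} {J : Type*} {c : ℝ} (t : Finset J) {f : J → ℂ → ℂ}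
    (hg : ∀ j ∈ t, GoodAt c (f j)) (hf : ∀ j ∈ t, ExtE q (f j)) :
    ExtE q (fun s => ∏ j ∈ t, f j s) := by
  rw [extE_iff fun s hs => (GoodAt.prod t hg s hs).1]
  intro r hr
  exact Ext.prod t fun j hj => extE_coe.1 ((hf j hj).mono hr.le)

theorem ExtE.ishift {q : EReal} {c : ℝ} {f : ℂ → ℂ} (hg : GoodAt c f) (hf : ExtE q f) (y : ℝ) :
    ExtE q (fun s => f (s + y * I)) := by
  rw [extE_iff fun s hs => (hg.ishift y s hs).1]
  intro r hr
  exact (extE_coe.1 (hf.mono hr.le)).ishift y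

section

variable {V : Type*} [NormedAddCommGroup V] [NormedSpace ℝ V] [FiniteDimensional ℝ V]
    [MeasurableSpace V] [BorelSpace V]

/-- **The abscissa of continuation of a product of vertical shifts.** -/
theorem absc_law (μ : Measure V) [μ.IsAddHaarMeasure] {J : Type*} {c : ℝ}
    (t : Finset J) {f : J → ℂ → ℂ} (hf : ∀ j ∈ t, GoodAt c (f j)) {l : J → V →ₗ[ℝ] ℝ}
    (hl : ∀ j ∈ t, ∀ j' ∈ t, j ≠ j' → l j ≠ l j') :
    (∀ y, absc (fun s => ∏ j ∈ t, f j (s + (l j y : ℝ) * I)) ≤ t.sup fun j => absc (f j)) ∧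
    (∀ i ∈ t, (∀ j ∈ t, j ≠ i → absc (f j) < absc (f i)) →
      ∀ y, absc (fun s => ∏ j ∈ t, f j (s + (l j y : ℝ) * I)) = absc (f i)) ∧
    μ {y | absc (fun s => ∏ j ∈ t, f j (s + (l j y : ℝ) * I)) ≠ t.sup fun j => absc (f j)} = 0 ∧
    IsMeagre
      {y | absc (fun s => ∏ j ∈ t, f j (s + (l j y : ℝ) * I)) ≠ t.sup fun j => absc (f j)} := by
  have hF : ∀ y, GoodAt c (fun s => ∏ j ∈ t, f j (s + (l j y : ℝ) * I)) := fun y =>
    GoodAt.prod t fun j hj => (hf j hj).ishift _
  have hup : ∀ y, absc (fun s => ∏ j ∈ t, f j (s + (l j y : ℝ) * I)) ≤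
      t.sup fun j => absc (f j) := by
    intro y
    rw [absc_le_iff fun s hs => (hF y s hs).1]
    refine ExtE.prod t (fun j hj => (hf j hj).ishift _) fun j hj => ExtE.ishift (hf j hj) ?_ _
    rw [← absc_le_iff fun s hs => (hf j hj s hs).1]
    exact Finset.le_sup (f := fun j => absc (f j)) hj
  refine ⟨hup, ?_, ?_⟩
  · intro i hi hlt y
    have hsup : (t.sup fun j => absc (f j)) = absc (f i) := by
      refine le_antisymm (Finset.sup_le fun j hj => ?_) (Finset.le_sup (f := fun j => absc (f j)) hi)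
      by_cases hji : j = i
      · rw [hji]
      · exact (hlt j hj hji).le
    refine le_antisymm ((hup y).trans hsup.le) ?_
    by_contra hcon
    push Not at hcon
    classical
    -- the other factors continue further to the left
    have h1 : (((t.erase i).sup fun j => absc (f j)) ⊔
        absc (fun s => ∏ j ∈ t, f j (s + (l j y : ℝ) * I))) < absc (f i) := by
      refine max_lt ?_ hcon
      rw [Finset.sup_lt_iff (lt_of_le_of_lt bot_le hcon)]
      intro j hj
      exact hlt j (Finset.mem_of_mem_erase hj) (Finset.ne_of_mem_erase hj)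
    obtain ⟨q, hq1, hq2⟩ := EReal.lt_iff_exists_real_btwn.1 h1
    have h2 : Ext q (fun s => ∏ j ∈ t, f j (s + (l j y : ℝ) * I)) :=
      extE_coe.1 ((absc_le_iff fun s hs => (hF y s hs).1).1 ((le_max_right _ _).trans hq1.le))
    have h3 : Ext q (fun s => ∏ j ∈ t.erase i, f j (s + (l j y : ℝ) * I)) := by
      refine Ext.prod _ fun j hj => Ext.ishift ?_ _
      have hjt := Finset.mem_of_mem_erase hj
      refine extE_coe.1 ((absc_le_iff fun s hs => (hf j hjt s hs).1).1 ?_)
      exact (Finset.le_sup (f := fun j => absc (f j)) hj).trans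
        ((le_max_left _ _).trans hq1.le)
    have h4 : Ext q (fun s => f i (s + (l i y : ℝ) * I)) := by
      refine (h2.div h3).congr (c := c) fun s hs => ?_
      rw [← Finset.mul_prod_erase t _ hi]
      refine mul_div_cancel_right₀ _ (Finset.prod_ne_zero_iff.2 fun j hj => ?_)
      exact ((hf j (Finset.mem_of_mem_erase hj)).ishift _ s hs).2
    have h5 : Ext q (f i) := (Ext.ishift_iff _).1 h4
    have h6 := (absc_le_iff fun s hs => (hf i hi s hs).1).2 (extE_coe.2 h5)
    exact absurd (h6.trans_lt hq2) (lt_irrefl _)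
  · have hsub : {y | absc (fun s => ∏ j ∈ t, f j (s + (l j y : ℝ) * I)) ≠
        t.sup fun j => absc (f j)} ⊆ ⋃ q : {q : ℚ // ((q : ℝ) : EReal) <
          t.sup fun j => absc (f j)},
        {y | Ext ((q : ℚ) : ℝ) (fun s => ∏ j ∈ t, f j (s + (l j y : ℝ) * I))} := by
      intro y hy
      have h1 := lt_of_le_of_ne (hup y) hy
      obtain ⟨q, hq1, hq2⟩ := EReal.lt_iff_exists_rat_btwn.1 h1
      rw [mem_iUnion]
      refine ⟨⟨q, hq2⟩, ?_⟩
      exact extE_coe.1 ((absc_le_iff fun s hs => (hF y s hs).1).1 hq1.le)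
    have hneg : ∀ q : {q : ℚ // ((q : ℝ) : EReal) < t.sup fun j => absc (f j)},
        μ {y | Ext ((q : ℚ) : ℝ) (fun s => ∏ j ∈ t, f j (s + (l j y : ℝ) * I))} = 0 ∧
          IsMeagre {y | Ext ((q : ℚ) : ℝ) (fun s => ∏ j ∈ t, f j (s + (l j y : ℝ) * I))} := by
      rintro ⟨q, hq⟩
      refine (zero_one μ t hf hl).resolve_left fun h => ?_
      refine absurd hq (not_lt.2 (Finset.sup_le fun j hj => ?_))
      exact (absc_le_iff fun s hs => (hf j hj s hs).1).2 (extE_coe.2 (h j hj))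
    exact ⟨measure_mono_null hsub (measure_iUnion_null fun q => (hneg q).1),
      (isMeagre_iUnion fun q => (hneg q).2).mono hsub⟩

end

end Run7.h456
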