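import Pool.Agent.Run7.h456.Sep
import Pool.Agent.Run7.h456.Borel

set_option autoImplicit false

/-!
# Large sets: positive measure, second category
-/

namespace Run7.h456

open Filter Topology Complex Set Metric MeasureTheory
open scoped Pointwise ENNReal

variable {V : Type*}

/-- measurable sets of positive measure form a large family (Steinhaus) -/
theorem largeFam_measure [NormedAddCommGroup V] [NormedSpace ℝ V] [FiniteDimensional ℝ V]
    [MeasurableSpace V] [BorelSpace V] (μ : Measure V) [μ.IsAddHaarMeasure] :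
    LargeFam {E : Set V | MeasurableSet E ∧ μ E ≠ 0} := by
  constructor
  · rintro E ⟨-, hE⟩
    exact nonempty_of_measure_ne_zero hE
  · rintro E ⟨hEm, hE⟩
    obtain ⟨K, hKE, hK, hK0⟩ := hEm.exists_lt_isCompact (pos_iff_ne_zero.2 hE)
    have h1 := eventually_nhds_zero_measure_vadd_sdiff_lt (μ := μ) hK hK.isClosed hK0.ne'
    have h2 : Tendsto (fun v : V => -v) (𝓝 0) (𝓝 0) := by
      have := (continuous_neg (G := V)).tendsto 0
      rwa [neg_zero] at this
    filter_upwards [h2.eventually h1] with v hv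
    have hm : Measurable fun y : V => y + v := measurable_add_const v
    refine ⟨hEm.inter (hm hEm), fun h0 => ?_⟩
    have hsub : (-v +ᵥ K) ⊆ ((-v +ᵥ K) \ K) ∪ (E ∩ {y | y + v ∈ E}) := by
      intro y hy
      by_cases hyK : y ∈ K
      · right
        refine ⟨hKE hyK, hKE ?_⟩
        rw [mem_vadd_set_iff_neg_vadd_mem, neg_neg, vadd_eq_add, add_comm] at hy
        exact hy
      · left
        exact ⟨hy, hyK⟩
    have h3 : μ (-v +ᵥ K) ≤ μ ((-v +ᵥ K) \ K) + μ (E ∩ {y | y + v ∈ E}) :=
      (measure_mono hsub).trans (measure_union_le _ _)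
    rw [h0, add_zero, measure_vadd] at h3
    exact absurd (h3.trans_lt hv) (lt_irrefl _)

/-- the sets with the Baire property which are not meagre form a large family -/
theorem largeFam_baire [AddCommGroup V] [TopologicalSpace V] [IsTopologicalAddGroup V]
    [BaireSpace V] :
    LargeFam {E : Set V | BaireMeasurableSet E ∧ ¬ IsMeagre E} := by
  constructor
  · rintro E ⟨-, hE⟩
    by_contra h
    rw [not_nonempty_iff_eq_empty] at h
    exact hE (h ▸ IsMeagre.empty)
  · rintro E ⟨hEm, hE⟩
    obtain ⟨U, hU, hEU⟩ := hEm.residualEq_isOpen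
    have hUne : U.Nonempty := by
      by_contra h
      rw [not_nonempty_iff_eq_empty] at h
      apply hE
      rw [h] at hEU
      rw [IsMeagre]
      filter_upwards [hEU] with x hx
      exact fun hxE => (cast hx hxE : x ∈ (∅ : Set V))
    obtain ⟨u, hu⟩ := hUne
    have h1 : Tendsto (fun v : V => u + v) (𝓝 0) (𝓝 u) := by
      have : Continuous fun v : V => u + v := by fun_prop
      have h2 := this.tendsto 0
      rwa [add_zero] at h2
    filter_upwards [h1.eventually (hU.mem_nhds hu)] with v hv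
    have hc : Continuous fun y : V => y + v := by fun_prop
    have ho : IsOpenMap fun y : V => y + v := isOpenMap_add_right v
    have hEv : BaireMeasurableSet {y | y + v ∈ E} := hEm.preimage hc ho
    refine ⟨hEm.inter hEv, fun hmea => ?_⟩
    have hW : IsOpen (U ∩ {y | y + v ∈ U}) := hU.inter (hU.preimage hc)
    have hWne : (U ∩ {y | y + v ∈ U}).Nonempty := ⟨u, hu, hv⟩
    refine not_isMeagre_of_isOpen hW hWne ?_
    have h3 : ∀ᶠ y in residual V, (y ∈ E) = (y ∈ U) := hEU
    have h4 : ∀ᶠ y in residual V, (y + v ∈ E) = (y + v ∈ U) :=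
      (tendsto_residual_of_isOpenMap hc ho).eventually h3
    rw [IsMeagre] at hmea ⊢
    filter_upwards [hmea, h3, h4] with y hy h5 h6 h7
    refine hy ⟨?_, ?_⟩
    · rw [h5]
      exact h7.1
    · change y + v ∈ E
      rw [h6]
      exact h7.2

/-- the product of vertical shifts is a family in the sense of `Fam` -/
theorem fam_prod [NormedAddCommGroup V] [NormedSpace ℝ V] [FiniteDimensional ℝ V] {J : Type*}
    {c : ℝ} (t : Finset J) {f : J → ℂ → ℂ} (hf : ∀ j ∈ t, GoodAt c (f j)) (l : J → V →ₗ[ℝ] ℝ) :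
    Fam (fun (y : V) s => ∏ j ∈ t, f j (s + (l j y : ℝ) * I)) c := by
  constructor
  · intro y s hs
    refine Finset.analyticAt_fun_prod t fun j hj => ?_
    exact ((hf j hj).ishift (l j y) s hs).1
  · intro y s hs
    refine tendsto_finsetProd t fun j hj => ?_
    have h1 : ContinuousAt (f j) (s + (l j y : ℝ) * I) :=
      ((hf j hj) _ (by rw [re_add_ih]; exact hs)).1.continuousAt
    have h2 : Continuous fun p : V × ℂ => p.2 + (l j p.1 : ℝ) * I := by
      have h3 : Continuous fun p : V × ℂ => l j p.1 :=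
        (LinearMap.continuous_of_finiteDimensional (l j)).comp continuous_fst
      exact continuous_snd.add ((continuous_ofReal.comp h3).mul continuous_const)
    exact ContinuousAt.comp (f := fun p : V × ℂ => p.2 + (l j p.1 : ℝ) * I) (x := (y, s)) h1
      h2.continuousAt

/-- **The zero-one law for products of vertical shifts.** -/
theorem zero_one [NormedAddCommGroup V] [NormedSpace ℝ V] [FiniteDimensional ℝ V]
    [MeasurableSpace V] [BorelSpace V] (μ : Measure V) [μ.IsAddHaarMeasure] {J : Type*} {c q : ℝ}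
    (t : Finset J) {f : J → ℂ → ℂ} (hf : ∀ j ∈ t, GoodAt c (f j)) {l : J → V →ₗ[ℝ] ℝ}
    (hl : ∀ j ∈ t, ∀ j' ∈ t, j ≠ j' → l j ≠ l j') :
    (∀ j ∈ t, Ext q (f j)) ∨
      (μ {y | Ext q (fun s => ∏ j ∈ t, f j (s + (l j y : ℝ) * I))} = 0 ∧
        IsMeagre {y | Ext q (fun s => ∏ j ∈ t, f j (s + (l j y : ℝ) * I))}) := by
  have hm : MeasurableSet {y | Ext q (fun s => ∏ j ∈ t, f j (s + (l j y : ℝ) * I))} :=
    measurable_ext (fam_prod t hf l) q
  by_cases h1 : μ {y | Ext q (fun s => ∏ j ∈ t, f j (s + (l j y : ℝ) * I))} = 0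
  · by_cases h2 : IsMeagre {y | Ext q (fun s => ∏ j ∈ t, f j (s + (l j y : ℝ) * I))}
    · exact Or.inr ⟨h1, h2⟩
    · exact Or.inl (sep largeFam_baire t f hf l hl _ ⟨hm.baireMeasurableSet, h2⟩ fun y hy => hy)
  · exact Or.inl (sep (largeFam_measure μ) t f hf l hl _ ⟨hm, h1⟩ fun y hy => hy)

end Run7.h456
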