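import Pool.Agent.Run7.h456.Euler
import Pool.Agent.Run7.h456.Large

set_option autoImplicit false

/-!
# Euler products attached to multisets of weights, and their twists
-/

namespace Run7.h456

open Filter Topology Complex Set Metric MeasureTheory

variable {S : Finset ℕ}

/-- the product of `eul` over a multiset of Satake families -/
noncomputable def meul {Ω : Type*} (S : Finset ℕ) (x : Ω → ℕ → ℂ) (ρ : Multiset Ω) (s : ℂ) : ℂ :=
  (ρ.map fun w => eul S (x w) s).prod

theorem meul_good {Ω : Type*} {x : Ω → ℕ → ℂ} {ρ : Multiset Ω} {B : ℝ}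
    (hb : ∀ w ∈ ρ, ∀ p : PS S, ‖x w p‖ ≤ ((p : ℕ) : ℝ) ^ B) : GoodAt (B + 1) (meul S x ρ) := by
  induction ρ using Multiset.induction_on with
  | empty =>
    intro s _
    simp only [meul, Multiset.map_zero, Multiset.prod_zero]
    exact ⟨analyticAt_const, one_ne_zero⟩
  | cons w ρ ih =>
    have e : meul S x (w ::ₘ ρ) = fun s => eul S (x w) s * meul S x ρ s := by
      funext s
      simp [meul]
    rw [e]
    intro s hs
    obtain ⟨h1, h2⟩ := eul_good (hb w (Multiset.mem_cons_self w ρ)) s hs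
    obtain ⟨h3, h4⟩ := ih (fun v hv => hb v (Multiset.mem_cons_of_mem hv)) s hs
    exact ⟨h1.mul h3, mul_ne_zero h2 h4⟩

theorem meul_hasProd {Ω : Type*} {x : Ω → ℕ → ℂ} {ρ : Multiset Ω} {B : ℝ}
    (hb : ∀ w ∈ ρ, ∀ p : PS S, ‖x w p‖ ≤ ((p : ℕ) : ℝ) ^ B) {s : ℂ} (hs : B + 1 < s.re) :
    HasProd (fun p : PS S => (ρ.map fun w => (1 - x w p * ((p : ℕ) : ℂ) ^ (-s))⁻¹).prod)
      (meul S x ρ s) := by
  induction ρ using Multiset.induction_on with
  | empty => simpa [meul] using hasProd_one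
  | cons w ρ ih =>
    simp only [meul, Multiset.map_cons, Multiset.prod_cons]
    exact (eul_hasProd (hb w (Multiset.mem_cons_self w ρ)) hs).mul
      (ih fun v hv => hb v (Multiset.mem_cons_of_mem hv))

/-- a product over a multiset, fibre by fibre -/
theorem prod_fiber {Ω K : Type*} [DecidableEq K] (κ : Ω → K) (G : Ω → ℂ) (ρ : Multiset Ω)
    (T : Finset K) (hT : ∀ w ∈ ρ, κ w ∈ T) :
    (ρ.map G).prod = ∏ k ∈ T, ((ρ.filter fun w => κ w = k).map G).prod := by
  induction ρ using Multiset.induction_on with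
  | empty => simp
  | cons w ρ ih =>
    have e : ∀ k, (((w ::ₘ ρ).filter fun w => κ w = k).map G).prod =
        (if κ w = k then G w else 1) * ((ρ.filter fun w => κ w = k).map G).prod := by
      intro k
      rw [Multiset.filter_cons]
      split_ifs with h <;> simp
    simp only [e, Multiset.map_cons, Multiset.prod_cons]
    rw [Finset.prod_mul_distrib, Finset.prod_ite_eq, if_pos (hT w (Multiset.mem_cons_self w ρ)),
      ih fun v hv => hT v (Multiset.mem_cons_of_mem hv)]

/-- a uniform bound for the members of a multiset -/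
theorem bound_multiset {Ω : Type*} {x : Ω → ℕ → ℂ} (ρ : Multiset Ω)
    (hb : ∀ w ∈ ρ, ∃ B : ℝ, ∀ p : PS S, ‖x w p‖ ≤ ((p : ℕ) : ℝ) ^ B) :
    ∃ B : ℝ, ∀ w ∈ ρ, ∀ p : PS S, ‖x w p‖ ≤ ((p : ℕ) : ℝ) ^ B := by
  induction ρ using Multiset.induction_on with
  | empty => exact ⟨0, fun w hw => absurd hw (Multiset.notMem_zero w)⟩
  | cons w ρ ih =>
    obtain ⟨B, hB⟩ := hb w (Multiset.mem_cons_self w ρ)
    obtain ⟨B', hB'⟩ := ih fun v hv => hb v (Multiset.mem_cons_of_mem hv)
    refine ⟨max B B', fun v hv p => ?_⟩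
    have hp : (1 : ℝ) ≤ (p : ℕ) := by exact_mod_cast p.pos
    rcases Multiset.mem_cons.1 hv with rfl | hv
    · exact (hB p).trans (Real.rpow_le_rpow_of_exponent_le hp (le_max_left _ _))
    · exact (hB' v hv p).trans (Real.rpow_le_rpow_of_exponent_le hp (le_max_right _ _))

theorem ExtAll.mul {f g : ℂ → ℂ} (hf : ExtAll f) (hg : ExtAll g) :
    ExtAll (fun s => f s * g s) := by
  obtain ⟨L, hL, c, hc⟩ := hf
  obtain ⟨M, hM, d, hd⟩ := hg
  refine ⟨fun s => L s * M s, fun s => (hL s).mul (hM s), max c d, fun s hs => ?_⟩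
  simp only [hc s ((le_max_left _ _).trans_lt hs), hd s ((le_max_right _ _).trans_lt hs)]

theorem ExtAll.shift {f : ℂ → ℂ} (hf : ExtAll f) (a : ℂ) : ExtAll (fun s => f (s + a)) := by
  obtain ⟨L, hL, c, hc⟩ := hf
  refine ⟨fun s => L (s + a), fun s => mero_shift (hL _), c - a.re, fun s hs => ?_⟩
  refine hc _ ?_
  rw [add_re]
  linarith

theorem ExtAll.const (a : ℂ) : ExtAll (fun _ => a) :=
  ⟨fun _ => a, fun _ => MeromorphicAt.const _ _, 0, fun _ _ => rfl⟩

theorem ExtAll.prod {J : Type*} (t : Finset J) {f : J → ℂ → ℂ} (hf : ∀ j ∈ t, ExtAll (f j)) :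
    ExtAll (fun s => ∏ j ∈ t, f j s) := by
  classical
  induction t using Finset.induction_on with
  | empty => simpa using ExtAll.const 1
  | insert a t ha ih =>
    simp only [Finset.prod_insert ha]
    exact (hf a (Finset.mem_insert_self a t)).mul
      (ih fun j hj => hf j (Finset.mem_insert_of_mem hj))

end Run7.h456
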