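import Pool.Agent.Run7.h456.ExtE

set_option autoImplicit false

/-!
# The L-function attached to a function of the prime powers

`x (p, m)` plays the role of the trace of the `(m+1)`-st power of the Satake class at `p`.
-/

namespace Run7.h456

open Filter Topology Complex Set Metric MeasureTheory

variable {S : Finset ℕ}

/-- polynomially bounded functions of the prime powers -/
def Bd (x : PS S × ℕ → ℂ) (B : ℝ) : Prop :=
  ∀ a : PS S × ℕ, ‖x a‖ ≤ ((a.1 : ℕ) : ℝ) ^ (B * ((a.2 + 1 : ℕ) : ℝ))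

/-- the L-function -/
noncomputable def LX (x : PS S × ℕ → ℂ) (s : ℂ) : ℂ :=
  cexp (∑' a : PS S × ℕ, x a * ((a.1 : ℕ) : ℂ) ^ (-(((a.2 + 1 : ℕ) : ℂ) * s)) / ((a.2 + 1 : ℕ) : ℂ))

theorem PS.two_le (p : PS S) : (2 : ℝ) ≤ ((p : ℕ) : ℝ) := by exact_mod_cast p.2.1.two_le

theorem PS.one_le (p : PS S) : (1 : ℝ) ≤ ((p : ℕ) : ℝ) := by linarith [p.two_le]

theorem PS.pos' (p : PS S) : (0 : ℝ) < ((p : ℕ) : ℝ) := by linarith [p.two_le]

theorem PS.ne (p : PS S) : ((p : ℕ) : ℂ) ≠ 0 := by exact_mod_cast p.pos.ne'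

theorem Bd.mono {x : PS S × ℕ → ℂ} {B B' : ℝ} (h : B ≤ B') (hx : Bd x B) : Bd x B' := fun a =>
  (hx a).trans (Real.rpow_le_rpow_of_exponent_le a.1.one_le
    (mul_le_mul_of_nonneg_right h (Nat.cast_nonneg _)))

theorem Bd.zero (B : ℝ) : Bd (0 : PS S × ℕ → ℂ) B := fun a => by
  rw [Pi.zero_apply, norm_zero]
  exact Real.rpow_nonneg a.1.pos'.le _

theorem Bd.neg {x : PS S × ℕ → ℂ} {B : ℝ} (hx : Bd x B) : Bd (-x) B := fun a => by
  rw [Pi.neg_apply, norm_neg]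
  exact hx a

theorem Bd.add {x y : PS S × ℕ → ℂ} {B B' : ℝ} (hx : Bd x B) (hy : Bd y B') :
    Bd (x + y) (max B B' + 1) := fun a => by
  have h1 := hx.mono (le_max_left B B') a
  have h2 := hy.mono (le_max_right B B') a
  have hm : (1 : ℝ) ≤ ((a.2 + 1 : ℕ) : ℝ) := by
    push_cast
    linarith [Nat.cast_nonneg (α := ℝ) a.2]
  have h3 : (2 : ℝ) ≤ ((a.1 : ℕ) : ℝ) ^ (1 * ((a.2 + 1 : ℕ) : ℝ)) := by
    calc (2 : ℝ) ≤ ((a.1 : ℕ) : ℝ) := a.1.two_le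
      _ = ((a.1 : ℕ) : ℝ) ^ (1 : ℝ) := (Real.rpow_one _).symm
      _ ≤ _ := Real.rpow_le_rpow_of_exponent_le a.1.one_le (by rw [one_mul]; exact hm)
  rw [Pi.add_apply, add_mul, Real.rpow_add a.1.pos']
  have h4 : 0 ≤ ((a.1 : ℕ) : ℝ) ^ (max B B' * ((a.2 + 1 : ℕ) : ℝ)) := Real.rpow_nonneg a.1.pos'.le _
  calc ‖x a + y a‖ ≤ ‖x a‖ + ‖y a‖ := norm_add_le _ _
    _ ≤ ((a.1 : ℕ) : ℝ) ^ (max B B' * ((a.2 + 1 : ℕ) : ℝ)) * 2 := by linarith
    _ ≤ _ := mul_le_mul_of_nonneg_left h3 h4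

theorem Bd.mul {x y : PS S × ℕ → ℂ} {B B' : ℝ} (hx : Bd x B) (hy : Bd y B') :
    Bd (x * y) (B + B') := fun a => by
  rw [Pi.mul_apply, norm_mul, add_mul, Real.rpow_add a.1.pos']
  exact mul_le_mul (hx a) (hy a) (norm_nonneg _) (Real.rpow_nonneg a.1.pos'.le _)

theorem Bd.sum {J : Type*} (t : Finset J) {x : J → PS S × ℕ → ℂ}
    (hx : ∀ j ∈ t, ∃ B, Bd (x j) B) : ∃ B, Bd (∑ j ∈ t, x j) B := by
  classical
  induction t using Finset.induction_on with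
  | empty => exact ⟨0, by simpa using Bd.zero 0⟩
  | insert a t ha ih =>
    obtain ⟨B, hB⟩ := hx a (Finset.mem_insert_self a t)
    obtain ⟨B', hB'⟩ := ih fun j hj => hx j (Finset.mem_insert_of_mem hj)
    rw [Finset.sum_insert ha]
    exact ⟨_, hB.add hB'⟩

theorem term_le {x : PS S × ℕ → ℂ} {B : ℝ} (hx : Bd x B) (a : PS S × ℕ) {s : ℂ} {u : ℝ}
    (hu : 1 ≤ u) (hs : B + u < s.re) :
    ‖x a * ((a.1 : ℕ) : ℂ) ^ (-(((a.2 + 1 : ℕ) : ℂ) * s)) / ((a.2 + 1 : ℕ) : ℂ)‖ ≤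
      ((a.1 : ℕ) : ℝ) ^ (-u) * (1 / 2) ^ a.2 := by
  have hp := a.1.pos'
  have hm : (1 : ℝ) ≤ ((a.2 + 1 : ℕ) : ℝ) := by
    push_cast
    linarith [Nat.cast_nonneg (α := ℝ) a.2]
  have h1 : ‖((a.1 : ℕ) : ℂ) ^ (-(((a.2 + 1 : ℕ) : ℂ) * s))‖ =
      ((a.1 : ℕ) : ℝ) ^ (-(s.re * ((a.2 + 1 : ℕ) : ℝ))) := by
    rw [PS.norm_cpow]
    congr 2
    rw [show (((a.2 + 1 : ℕ) : ℂ)) = ((((a.2 + 1 : ℕ) : ℝ)) : ℂ) by push_cast; rfl, re_ofReal_mul]
    ring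
  rw [norm_div, norm_mul, h1]
  have h2 : ‖((a.2 + 1 : ℕ) : ℂ)‖ = ((a.2 + 1 : ℕ) : ℝ) := by
    rw [show (((a.2 + 1 : ℕ) : ℂ)) = ((((a.2 + 1 : ℕ) : ℝ)) : ℂ) by push_cast; rfl,
      Complex.norm_real, Real.norm_of_nonneg (by linarith)]
  rw [h2]
  have h3 : ‖x a‖ * ((a.1 : ℕ) : ℝ) ^ (-(s.re * ((a.2 + 1 : ℕ) : ℝ))) ≤
      ((a.1 : ℕ) : ℝ) ^ (-u) * (1 / 2) ^ a.2 := by
    calc ‖x a‖ * ((a.1 : ℕ) : ℝ) ^ (-(s.re * ((a.2 + 1 : ℕ) : ℝ)))
        ≤ ((a.1 : ℕ) : ℝ) ^ (B * ((a.2 + 1 : ℕ) : ℝ)) *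
          ((a.1 : ℕ) : ℝ) ^ (-(s.re * ((a.2 + 1 : ℕ) : ℝ))) :=
          mul_le_mul_of_nonneg_right (hx a) (Real.rpow_nonneg hp.le _)
      _ = ((a.1 : ℕ) : ℝ) ^ ((B - s.re) * ((a.2 + 1 : ℕ) : ℝ)) := by
          rw [← Real.rpow_add hp]
          congr 1
          ring
      _ ≤ ((a.1 : ℕ) : ℝ) ^ (-u * ((a.2 + 1 : ℕ) : ℝ)) :=
          Real.rpow_le_rpow_of_exponent_le a.1.one_le
            (mul_le_mul_of_nonneg_right (by linarith) (by linarith))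
      _ = ((a.1 : ℕ) : ℝ) ^ (-u) * (((a.1 : ℕ) : ℝ) ^ (-u)) ^ a.2 := by
          rw [Real.rpow_mul hp.le, Real.rpow_natCast, pow_succ, mul_comm]
      _ ≤ ((a.1 : ℕ) : ℝ) ^ (-u) * (1 / 2) ^ a.2 := by
          refine mul_le_mul_of_nonneg_left ?_ (Real.rpow_nonneg hp.le _)
          exact pow_le_pow_left₀ (Real.rpow_nonneg hp.le _)
            (rpow_le_half (p := a.1) (by linarith)) _
  refine (div_le_self ?_ hm).trans h3
  exact mul_nonneg (norm_nonneg _) (Real.rpow_nonneg hp.le _)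

theorem summable_prod {u : ℝ} (hu : 1 < u) :
    Summable fun a : PS S × ℕ => ((a.1 : ℕ) : ℝ) ^ (-u) * (1 / 2 : ℝ) ^ a.2 := by
  have h1 : Summable fun p : PS S => ((p : ℕ) : ℝ) ^ (-u) := by
    have := (summable_PS (S := S) hu).mul_left (2 / 3)
    refine this.congr fun p => ?_
    ring
  have h2 : Summable fun m : ℕ => (1 / 2 : ℝ) ^ m := summable_geometric_two
  exact h1.mul_of_nonneg h2 (fun p => Real.rpow_nonneg p.pos'.le _) fun m => by positivity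

theorem LX_summable {x : PS S × ℕ → ℂ} {B : ℝ} (hx : Bd x B) {s : ℂ} (hs : B + 1 < s.re) :
    Summable fun a : PS S × ℕ =>
      x a * ((a.1 : ℕ) : ℂ) ^ (-(((a.2 + 1 : ℕ) : ℂ) * s)) / ((a.2 + 1 : ℕ) : ℂ) := by
  obtain ⟨u, h1, h2⟩ := exists_between (show (1 : ℝ) < s.re - B by linarith)
  exact (summable_prod h1).of_norm_bounded fun a => term_le hx a h1.le (by linarith)

theorem LX_good {x : PS S × ℕ → ℂ} {B : ℝ} (hx : Bd x B) : GoodAt (B + 1) (LX x) := by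
  intro s hs
  refine ⟨?_, exp_ne_zero _⟩
  obtain ⟨u, h1, h2⟩ := exists_between (show (1 : ℝ) < s.re - B by linarith)
  have hU : IsOpen (HP (B + u)) := isOpen_HP _
  have hd : DifferentiableOn ℂ (fun s => ∑' a : PS S × ℕ,
      x a * ((a.1 : ℕ) : ℂ) ^ (-(((a.2 + 1 : ℕ) : ℂ) * s)) / ((a.2 + 1 : ℕ) : ℂ))
      (HP (B + u)) := by
    refine differentiableOn_tsum_of_summable_norm (summable_prod h1) (fun a => ?_) hU
      fun a w hw => term_le hx a h1.le hw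
    intro w _
    refine DifferentiableAt.differentiableWithinAt ?_
    refine DifferentiableAt.div_const ((differentiableAt_const _).mul ?_) _
    exact DifferentiableAt.const_cpow (((differentiableAt_const _).mul differentiableAt_id).neg)
      (Or.inl a.1.ne)
  have ha := hd.analyticAt (hU.mem_nhds (show s ∈ HP (B + u) by rw [mem_HP]; linarith))
  exact ha.cexp

theorem LX_add {x y : PS S × ℕ → ℂ} {B B' : ℝ} (hx : Bd x B) (hy : Bd y B') {s : ℂ}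
    (hs : B + 1 < s.re) (hs' : B' + 1 < s.re) : LX (x + y) s = LX x s * LX y s := by
  unfold LX
  rw [← exp_add, ← (LX_summable hx hs).tsum_add (LX_summable hy hs')]
  congr 1
  refine tsum_congr fun a => ?_
  rw [Pi.add_apply]
  ring

theorem LX_zero (s : ℂ) : LX (0 : PS S × ℕ → ℂ) s = 1 := by
  unfold LX
  simp

theorem LX_neg (x : PS S × ℕ → ℂ) (s : ℂ) : LX (-x) s = (LX x s)⁻¹ := by
  unfold LX
  rw [← exp_neg, ← tsum_neg]
  congr 1
  refine tsum_congr fun a => ?_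
  rw [Pi.neg_apply]
  ring

/-- the function `p^{-zm}` -/
noncomputable def sh (S : Finset ℕ) (z : ℂ) : PS S × ℕ → ℂ := fun a =>
  ((a.1 : ℕ) : ℂ) ^ (-(((a.2 + 1 : ℕ) : ℂ) * z))

theorem sh_add (z z' : ℂ) : sh S (z + z') = sh S z * sh S z' := by
  funext a
  unfold sh
  rw [Pi.mul_apply, ← cpow_add _ _ a.1.ne]
  congr 1
  ring

theorem sh_zero : sh S 0 = 1 := by
  funext a
  simp [sh]

theorem sh_bd (z : ℂ) : Bd (sh S z) (-z.re) := fun a => by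
  unfold sh
  rw [PS.norm_cpow]
  have : (((a.2 + 1 : ℕ) : ℂ) * z).re = ((a.2 + 1 : ℕ) : ℝ) * z.re := by
    rw [show (((a.2 + 1 : ℕ) : ℂ)) = ((((a.2 + 1 : ℕ) : ℝ)) : ℂ) by push_cast; rfl, re_ofReal_mul]
  rw [this]
  apply le_of_eq
  congr 1
  ring

theorem LX_shift (x : PS S × ℕ → ℂ) (z s : ℂ) : LX (x * sh S z) s = LX x (s + z) := by
  unfold LX
  congr 1
  refine tsum_congr fun a => ?_
  rw [Pi.mul_apply, mul_add, neg_add, cpow_add _ _ a.1.ne]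
  unfold sh
  ring

/-- the sum of finitely many functions -/
theorem LX_sum {J : Type*} (t : Finset J) {x : J → PS S × ℕ → ℂ}
    (hx : ∀ j ∈ t, ∃ B, Bd (x j) B) :
    ∃ c : ℝ, ∀ s : ℂ, c < s.re → LX (∑ j ∈ t, x j) s = ∏ j ∈ t, LX (x j) s := by
  classical
  induction t using Finset.induction_on with
  | empty => exact ⟨0, fun s _ => by rw [Finset.sum_empty, Finset.prod_empty, LX_zero]⟩
  | insert a t ha ih =>
    obtain ⟨B, hB⟩ := hx a (Finset.mem_insert_self a t)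
    obtain ⟨c, hc⟩ := ih fun j hj => hx j (Finset.mem_insert_of_mem hj)
    obtain ⟨B', hB'⟩ := Bd.sum t fun j hj => hx j (Finset.mem_insert_of_mem hj)
    refine ⟨max c (max (B + 1) (B' + 1)), fun s hs => ?_⟩
    rw [max_lt_iff, max_lt_iff] at hs
    rw [Finset.sum_insert ha, Finset.prod_insert ha, LX_add hB hB' hs.2.1 hs.2.2, hc s hs.1]

theorem geom_bd {b : ℕ → ℂ} {B : ℝ} (hb : ∀ p : PS S, ‖b p‖ ≤ ((p : ℕ) : ℝ) ^ B) :
    Bd (fun a : PS S × ℕ => b a.1 ^ (a.2 + 1)) B := fun a => by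
  rw [norm_pow, Real.rpow_mul a.1.pos'.le, Real.rpow_natCast]
  exact pow_le_pow_left₀ (norm_nonneg _) (hb a.1) _

/-- the L-function of one Satake family is the Euler product -/
theorem LX_geom {b : ℕ → ℂ} {B : ℝ} (hb : ∀ p : PS S, ‖b p‖ ≤ ((p : ℕ) : ℝ) ^ B) {s : ℂ}
    (hs : B + 1 < s.re) : LX (fun a : PS S × ℕ => b a.1 ^ (a.2 + 1)) s = eul S b s := by
  unfold LX eul
  congr 1
  have h1 := (LX_summable (geom_bd hb) hs).hasSum
  have h2 : ∀ p : PS S, HasSum (fun m : ℕ => b p ^ (m + 1) *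
      ((p : ℕ) : ℂ) ^ (-(((m + 1 : ℕ) : ℂ) * s)) / ((m + 1 : ℕ) : ℂ))
      (-log (1 - b p * ((p : ℕ) : ℂ) ^ (-s))) := by
    intro p
    have h3 : ‖b p * ((p : ℕ) : ℂ) ^ (-s)‖ < 1 := by
      have := (term_bound hb p s).trans (rpow_le_half (p := p) (by linarith))
      linarith
    have h4 := hasSum_taylorSeries_neg_log h3
    have h5 := (hasSum_nat_add_iff' 1).2 h4
    simp only [Finset.range_one, Finset.sum_singleton, pow_zero, Nat.cast_zero, div_zero,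
      sub_zero] at h5
    refine h5.congr_fun fun m => ?_
    rw [mul_pow, ← cpow_nat_mul]
    congr 3
    ring
  exact (h1.prod_fiberwise h2).tsum_eq.symm

theorem LX_multiset {Ω : Type*} {b : Ω → ℕ → ℂ} {ρ : Multiset Ω} {B : ℝ}
    (hb : ∀ w ∈ ρ, ∀ p : PS S, ‖b w p‖ ≤ ((p : ℕ) : ℝ) ^ B) :
    (∃ B', Bd (fun a : PS S × ℕ => (ρ.map fun w => b w a.1 ^ (a.2 + 1)).sum) B') ∧
    ∃ c : ℝ, ∀ s : ℂ, c < s.re →
      LX (fun a : PS S × ℕ => (ρ.map fun w => b w a.1 ^ (a.2 + 1)).sum) s = meul S b ρ s := by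
  induction ρ using Multiset.induction_on with
  | empty =>
    refine ⟨⟨0, ?_⟩, 0, fun s _ => ?_⟩
    · simp only [Multiset.map_zero, Multiset.sum_zero]
      exact Bd.zero 0
    · simp only [Multiset.map_zero, Multiset.sum_zero, meul, Multiset.prod_zero]
      exact LX_zero s
  | cons w ρ ih =>
    obtain ⟨⟨B', hB'⟩, c, hc⟩ := ih fun v hv => hb v (Multiset.mem_cons_of_mem hv)
    have hw := hb w (Multiset.mem_cons_self w ρ)
    have e : (fun a : PS S × ℕ => ((w ::ₘ ρ).map fun w => b w a.1 ^ (a.2 + 1)).sum) =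
        (fun a : PS S × ℕ => b w a.1 ^ (a.2 + 1)) +
        fun a : PS S × ℕ => (ρ.map fun w => b w a.1 ^ (a.2 + 1)).sum := by
      funext a
      simp
    rw [e]
    refine ⟨⟨_, (geom_bd hw).add hB'⟩, max c (max (B + 1) (B' + 1)), fun s hs => ?_⟩
    rw [max_lt_iff, max_lt_iff] at hs
    rw [LX_add (geom_bd hw) hB' hs.2.1 hs.2.2, hc s hs.1, LX_geom hw hs.2.1]
    simp [meul]

end Run7.h456
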