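import Pool.Agent.Run7.h456.Defs
import Pool.Agent.Run7.h456.LX

set_option autoImplicit false

/-!
# Hecke characters and tame families
-/

namespace Run7.h456

open Filter Topology Complex MeasureTheory

theorem tame_iff {x : ℕ → ℂ} : Tame x ↔ ∃ A : ℝ, 0 ≤ A ∧ ∀ᶠ p : ℕ in atTop, p.Prime →
    (p : ℝ) ^ (-A) ≤ ‖x p‖ ∧ ‖x p‖ ≤ (p : ℝ) ^ A := by
  constructor
  · rintro ⟨A, hA⟩
    refine ⟨max A 0, le_max_right _ _, ?_⟩
    filter_upwards [hA] with p hp hpp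
    have h1 : (1 : ℝ) ≤ p := by exact_mod_cast hpp.one_lt.le
    obtain ⟨h2, h3⟩ := hp hpp
    exact ⟨(Real.rpow_le_rpow_of_exponent_le h1 (neg_le_neg (le_max_left _ _))).trans h2,
      h3.trans (Real.rpow_le_rpow_of_exponent_le h1 (le_max_left _ _))⟩
  · rintro ⟨A, -, hA⟩
    exact ⟨A, hA⟩

theorem Tame.mul {x y : ℕ → ℂ} (hx : Tame x) (hy : Tame y) : Tame fun p => x p * y p := by
  obtain ⟨A, hA⟩ := hx
  obtain ⟨B, hB⟩ := hy
  refine ⟨A + B, ?_⟩
  filter_upwards [hA, hB] with p h1 h2 hp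
  obtain ⟨h3, h4⟩ := h1 hp
  obtain ⟨h5, h6⟩ := h2 hp
  have hp0 : (0 : ℝ) < p := by exact_mod_cast hp.pos
  rw [norm_mul, neg_add, Real.rpow_add hp0, Real.rpow_add hp0]
  exact ⟨mul_le_mul h3 h5 (Real.rpow_nonneg hp0.le _) (norm_nonneg _),
    mul_le_mul h4 h6 (norm_nonneg _) (Real.rpow_nonneg hp0.le _)⟩

theorem Tame.one : Tame fun _ => 1 := by
  refine ⟨0, Eventually.of_forall fun p _ => ?_⟩
  simp

theorem Tame.prod {J : Type*} (s : Finset J) {x : J → ℕ → ℂ} (hx : ∀ j ∈ s, Tame (x j)) :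
    Tame fun p => ∏ j ∈ s, x j p := by
  classical
  induction s using Finset.induction_on with
  | empty => simpa using Tame.one
  | insert a s ha ih =>
    simp only [Finset.prod_insert ha]
    exact (hx a (Finset.mem_insert_self a s)).mul
      (ih fun j hj => hx j (Finset.mem_insert_of_mem hj))

theorem Tame.inv {x : ℕ → ℂ} (hx : Tame x) : Tame fun p => (x p)⁻¹ := by
  obtain ⟨A, hA⟩ := hx
  refine ⟨A, ?_⟩
  filter_upwards [hA] with p h1 hp
  obtain ⟨h3, h4⟩ := h1 hp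
  have hp0 : (0 : ℝ) < p := by exact_mod_cast hp.pos
  have h5 := Real.rpow_pos_of_pos hp0 A
  have h6 := Real.rpow_pos_of_pos hp0 (-A)
  have h7 : 0 < ‖x p‖ := h6.trans_le h3
  rw [norm_inv]
  constructor
  · rw [Real.rpow_neg hp0.le]
    exact inv_anti₀ h7 h4
  · rw [inv_le_comm₀ h7 h5, ← Real.rpow_neg hp0.le]
    exact h3

theorem Tame.pow {x : ℕ → ℂ} (hx : Tame x) (n : ℕ) : Tame fun p => x p ^ n := by
  induction n with
  | zero => simpa using Tame.one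
  | succ n ih =>
    simp only [pow_succ]
    exact ih.mul hx

theorem Tame.zpow {x : ℕ → ℂ} (hx : Tame x) (n : ℤ) : Tame fun p => x p ^ n := by
  rcases le_total 0 n with hn | hn
  · lift n to ℕ using hn
    simpa using hx.pow n
  · obtain ⟨m, rfl⟩ : ∃ m : ℕ, n = -m := ⟨n.natAbs, by omega⟩
    simp only [zpow_neg, zpow_natCast]
    exact (hx.pow m).inv

theorem Tame.cpow (z : ℂ) : Tame fun p : ℕ => (p : ℂ) ^ z := by
  refine ⟨|z.re|, Eventually.of_forall fun p hp => ?_⟩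
  have h1 : (1 : ℝ) ≤ p := by exact_mod_cast hp.one_lt.le
  rw [norm_natCast_cpow_of_pos hp.pos]
  exact ⟨Real.rpow_le_rpow_of_exponent_le h1 (neg_abs_le _),
    Real.rpow_le_rpow_of_exponent_le h1 (le_abs_self _)⟩

theorem Tame.ne {x : ℕ → ℂ} (hx : Tame x) : ∀ᶠ p : ℕ in atTop, p.Prime → x p ≠ 0 := by
  obtain ⟨A, hA⟩ := hx
  filter_upwards [hA] with p h1 hp
  have hp0 : (0 : ℝ) < p := by exact_mod_cast hp.pos
  exact norm_pos_iff.1 ((Real.rpow_pos_of_pos hp0 (-A)).trans_le (h1 hp).1)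

/-- a tame family is bounded by a power of `p` for all `p ∉ S` -/
theorem Tame.bound {x : ℕ → ℂ} (hx : Tame x) (S : Finset ℕ) :
    ∃ B : ℝ, ∀ p : PS S, ‖x p‖ ≤ ((p : ℕ) : ℝ) ^ B := by
  obtain ⟨A, hA0, hA⟩ := tame_iff.1 hx
  obtain ⟨n, hn⟩ := eventually_atTop.1 hA
  refine bound_const (C := 1 + ∑ p ∈ Finset.range n, ‖x p‖) (A := A) fun p => ?_
  have h0 : 0 ≤ ∑ p ∈ Finset.range n, ‖x p‖ := Finset.sum_nonneg fun _ _ => norm_nonneg _
  have h1 : 1 ≤ ((p : ℕ) : ℝ) ^ A := Real.one_le_rpow p.one_le hA0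
  by_cases hp : (p : ℕ) < n
  · have h2 : ‖x p‖ ≤ ∑ p ∈ Finset.range n, ‖x p‖ :=
      Finset.single_le_sum (f := fun p => ‖x p‖) (fun _ _ => norm_nonneg _)
        (Finset.mem_range.2 hp)
    nlinarith
  · have h2 := (hn p (not_lt.1 hp) p.2.1).2
    nlinarith

theorem IsHecke.one : IsHecke fun _ => 1 := by
  refine ⟨1, one_ne_zero, 1, 0, Eventually.of_forall fun p _ => ?_⟩
  have h1 : (1 : DirichletCharacter ℂ 1) (p : ZMod 1) = 1 := by
    rw [Subsingleton.elim (p : ZMod 1) 1, map_one]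
  rw [h1]
  simp

theorem IsHecke.inv {μ : ℕ → ℂ} (h : IsHecke μ) : IsHecke fun p => (μ p)⁻¹ := by
  obtain ⟨N, hN, χ, y, hχ⟩ := h
  refine ⟨N, hN, χ⁻¹, -y, ?_⟩
  filter_upwards [hχ] with p h1 hp
  rw [h1 hp, mul_inv, MulChar.inv_apply_eq_inv', ← cpow_neg]
  congr 2
  push_cast
  ring

theorem IsHecke.mul {μ ν : ℕ → ℂ} (h : IsHecke μ) (h' : IsHecke ν) :
    IsHecke fun p => μ p * ν p := by
  obtain ⟨N, hN, χ, y, hχ⟩ := h
  obtain ⟨N', hN', χ', y', hχ'⟩ := h'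
  refine ⟨N * N', mul_ne_zero hN hN', DirichletCharacter.changeLevel (dvd_mul_right N N') χ *
    DirichletCharacter.changeLevel (dvd_mul_left N' N) χ', y + y', ?_⟩
  filter_upwards [hχ, hχ', eventually_gt_atTop (N * N')] with p h1 h2 h3 hp
  have hcop : Nat.Coprime p (N * N') := by
    rw [hp.coprime_iff_not_dvd]
    intro hd
    exact absurd (Nat.le_of_dvd (Nat.pos_of_ne_zero (mul_ne_zero hN hN')) hd) (not_le.2 h3)
  have hu : ((ZMod.unitOfCoprime p hcop : (ZMod (N * N'))ˣ) : ZMod (N * N')) = (p : ZMod (N * N')) :=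
    ZMod.coe_unitOfCoprime p hcop
  have hp0 : (p : ℂ) ≠ 0 := by exact_mod_cast hp.pos.ne'
  rw [h1 hp, h2 hp, MulChar.mul_apply, ← hu, DirichletCharacter.changeLevel_eq_cast_of_dvd,
    DirichletCharacter.changeLevel_eq_cast_of_dvd, hu]
  have e : (-(((y + y' : ℝ) : ℂ) * I)) = -((y : ℂ) * I) + -((y' : ℂ) * I) := by
    push_cast
    ring
  rw [e, cpow_add _ _ hp0, ZMod.cast_natCast (dvd_mul_right N N'),
    ZMod.cast_natCast (dvd_mul_left N' N)]
  ring

theorem IsHecke.prod {J : Type*} (s : Finset J) {x : J → ℕ → ℂ} (hx : ∀ j ∈ s, IsHecke (x j)) :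
    IsHecke fun p => ∏ j ∈ s, x j p := by
  classical
  induction s using Finset.induction_on with
  | empty => simpa using IsHecke.one
  | insert a s ha ih =>
    simp only [Finset.prod_insert ha]
    exact (hx a (Finset.mem_insert_self a s)).mul
      (ih fun j hj => hx j (Finset.mem_insert_of_mem hj))

/-- the values of a Hecke character are different from zero -/
theorem IsHecke.ne {μ : ℕ → ℂ} (h : IsHecke μ) : ∀ᶠ p : ℕ in atTop, p.Prime → μ p ≠ 0 := by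
  obtain ⟨N, hN, χ, y, hχ⟩ := h
  filter_upwards [hχ, eventually_gt_atTop N] with p h1 h2 hp
  have hcop : Nat.Coprime p N := by
    rw [hp.coprime_iff_not_dvd]
    intro hd
    exact absurd (Nat.le_of_dvd (Nat.pos_of_ne_zero hN) hd) (not_le.2 h2)
  have hp0 : (p : ℂ) ≠ 0 := by exact_mod_cast hp.pos.ne'
  rw [h1 hp]
  refine mul_ne_zero ?_ ?_
  · have hu : IsUnit (p : ZMod N) := (ZMod.isUnit_iff_coprime p N).2 hcop
    exact (hu.map χ).ne_zero
  · rw [cpow_def_of_ne_zero hp0]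
    exact exp_ne_zero _

end Run7.h456
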