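import Pool.Agent.Run7.h456.Sat
import Pool.Agent.Run7.h456.Cont

set_option autoImplicit false

/-!
# Separation of the isotypic parts, and dominant shifts
-/

namespace Run7.h456

open Filter Topology Complex MeasureTheory

variable {n k : ℕ} {b : Fin n → Option (Fin k)} {S : Finset ℕ} {t₀ : ℕ → ℂ} {t : ℕ → Fin n → ℂ}
  {ρ : Multiset (Weight (Fin n))}

/-- the exponent `κ·z` -/
noncomputable def dot (κ : ℤ × (Fin k → ℤ)) (z₀ : ℂ) (z : Fin k → ℂ) : ℂ :=
  κ.1 * z₀ + ∑ j, κ.2 j * z j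

theorem vl_twist {p : ℕ} (hp0 : (p : ℂ) ≠ 0) (z₀ : ℂ) (z : Fin k → ℂ) (w : Weight (Fin n)) :
    vl (twist₀ z₀ t₀) (twist b z t) w p =
      vl t₀ t w p * (p : ℂ) ^ (-(dot (central b w) z₀ z)) := by
  unfold vl twist₀ twist dot central
  simp only
  rw [mul_zpow, ← cpow_mul_int]
  have e1 : ∏ i, (t p i * (p : ℂ) ^ (-((b i).elim 0 z))) ^ w.2 i =
      (∏ i, t p i ^ w.2 i) * (p : ℂ) ^ (∑ i, -((b i).elim 0 z) * w.2 i) := by
    rw [cpow_fsum hp0, ← Finset.prod_mul_distrib]
    refine Finset.prod_congr rfl fun i _ => ?_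
    rw [mul_zpow, ← cpow_mul_int]
  have e2 : ∑ i, -((b i).elim 0 z) * (w.2 i : ℂ) =
      -∑ j, ((∑ i with b i = some j, w.2 i : ℤ) : ℂ) * z j := by
    rw [← Finset.sum_neg_distrib]
    have e3 : ∀ j, -(((∑ i with b i = some j, w.2 i : ℤ) : ℂ) * z j) =
        ∑ i, if b i = some j then -(z j * (w.2 i : ℂ)) else 0 := by
      intro j
      rw [← Finset.sum_filter, Finset.sum_neg_distrib]
      push_cast
      rw [Finset.sum_mul]
      congr 1
      exact Finset.sum_congr rfl fun i _ => mul_comm _ _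
    simp only [e3]
    rw [Finset.sum_comm]
    refine Finset.sum_congr rfl fun i _ => ?_
    rcases hb : b i with _ | j
    · simp
    · simp
  rw [e1, e2, neg_add, cpow_add _ _ hp0]
  have e4 : -z₀ * (w.1 : ℂ) = -((w.1 : ℂ) * z₀) := by ring
  rw [e4]
  ring

theorem twist₀_tame (h₀ : Tame t₀) (z₀ : ℂ) : Tame (twist₀ z₀ t₀) := h₀.mul (Tame.cpow _)

theorem twist_tame (h : ∀ i, Tame fun p => t p i) (z : Fin k → ℂ) (i : Fin n) :
    Tame fun p => twist b z t p i := (h i).mul (Tame.cpow _)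

/-- the product over the isotypic parts -/
theorem meul_twist (z₀ : ℂ) (z : Fin k → ℂ) (s : ℂ) :
    meul S (vl (twist₀ z₀ t₀) (twist b z t)) ρ s = ∏ κ ∈ (ρ.map (central b)).toFinset,
      meul S (vl t₀ t) (ρ.filter fun w => central b w = κ) (s + dot κ z₀ z) := by
  unfold meul
  rw [prod_fiber (central b) _ ρ (ρ.map (central b)).toFinset fun w hw => by
    rw [Multiset.mem_toFinset]
    exact Multiset.mem_map_of_mem _ hw]
  refine Finset.prod_congr rfl fun κ _ => ?_
  congr 1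
  refine Multiset.map_congr rfl fun w hw => ?_
  rw [← eul_shift]
  unfold eul
  congr 1
  refine tsum_congr fun p => ?_
  beta_reduce
  rw [vl_twist p.ne, (Multiset.mem_filter.1 hw).2]

/-- the linear form attached to a central exponent -/
noncomputable def linA {d : ℕ} (A₀ : (Fin d → ℝ) →ₗ[ℝ] ℝ) (A : Fin k → (Fin d → ℝ) →ₗ[ℝ] ℝ)
    (κ : ℤ × (Fin k → ℤ)) : (Fin d → ℝ) →ₗ[ℝ] ℝ := (κ.1 : ℝ) • A₀ + ∑ j, (κ.2 j : ℝ) • A j

theorem linA_inj {d : ℕ} {A₀ : (Fin d → ℝ) →ₗ[ℝ] ℝ} {A : Fin k → (Fin d → ℝ) →ₗ[ℝ] ℝ}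
    (hA : Independent A) {κ κ' : ℤ × (Fin k → ℤ)} (h1 : κ.1 = κ'.1)
    (h : linA A₀ A κ = linA A₀ A κ') : κ = κ' := by
  refine Prod.ext h1 ?_
  have h2 : (fun j => κ.2 j - κ'.2 j) = 0 := by
    refine hA _ ?_
    unfold linA at h
    rw [h1, add_right_inj] at h
    refine LinearMap.ext fun y => ?_
    have h3 := LinearMap.congr_fun h y
    simp only [LinearMap.sum_apply, LinearMap.smul_apply, smul_eq_mul] at h3
    simp only [LinearMap.sum_apply, LinearMap.smul_apply, smul_eq_mul, Int.cast_sub, sub_mul,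
      Finset.sum_sub_distrib, LinearMap.zero_apply]
    rw [h3, sub_self]
  funext j
  have h3 := congrFun h2 j
  simp only [Pi.zero_apply] at h3
  omega

theorem dot_linA {d : ℕ} (A₀ : (Fin d → ℝ) →ₗ[ℝ] ℝ) (A : Fin k → (Fin d → ℝ) →ₗ[ℝ] ℝ)
    (κ : ℤ × (Fin k → ℤ)) (z₀ : ℂ) (z : Fin k → ℂ) (y : Fin d → ℝ) :
    dot κ (z₀ + A₀ y * I) (fun j => z j + A j y * I) = dot κ z₀ z + (linA A₀ A κ y : ℝ) * I := by
  have e : linA A₀ A κ y = κ.1 * A₀ y + ∑ j, κ.2 j * A j y := by
    simp [linA]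
  rw [e]
  unfold dot
  push_cast
  rw [add_mul, Finset.sum_mul]
  have e2 : ∑ j, (κ.2 j : ℂ) * (z j + A j y * I) =
      ∑ j, (κ.2 j : ℂ) * z j + ∑ j, (κ.2 j : ℂ) * (A j y : ℂ) * I := by
    rw [← Finset.sum_add_distrib]
    exact Finset.sum_congr rfl fun j _ => by ring
  rw [e2]
  ring

/-- **Separation of the isotypic parts.** -/
theorem sep_parts (h₀ : Tame t₀) (h : ∀ i, Tame fun p => t p i) {c₀ : ℤ}
    (hρ : ∀ w ∈ ρ, w.1 = c₀) {d : ℕ} {A₀ : (Fin d → ℝ) →ₗ[ℝ] ℝ}
    {A : Fin k → (Fin d → ℝ) →ₗ[ℝ] ℝ} (hA : Independent A) {z₀ : ℂ} {z : Fin k → ℂ}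
    {S₁ : Finset ℕ} (hneg : ¬ Negligible {y : Fin d → ℝ |
      Continues S₁ (twist₀ (z₀ + A₀ y * I) t₀) (twist b (fun j => z j + A j y * I) t) ρ})
    (S : Finset ℕ) (κ : ℤ × (Fin k → ℤ)) :
    ExtAll (meul S (vl t₀ t) (ρ.filter fun w => central b w = κ)) := by
  obtain ⟨B, hB⟩ := vl_bound (ρ := ρ) S fun w _ => vl_tame h₀ h w
  have hBp : ∀ κ, ∀ w ∈ ρ.filter fun w => central b w = κ, ∀ p : PS S,
      ‖vl t₀ t w p‖ ≤ ((p : ℕ) : ℝ) ^ B := fun κ w hw => hB w (Multiset.mem_filter.1 hw).1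
  set K : Finset (ℤ × (Fin k → ℤ)) := (ρ.map (central b)).toFinset with hK
  have hK1 : ∀ κ ∈ K, κ.1 = c₀ := by
    intro κ hκ
    rw [hK, Multiset.mem_toFinset, Multiset.mem_map] at hκ
    obtain ⟨w, hw, rfl⟩ := hκ
    exact hρ w hw
  set f : (ℤ × (Fin k → ℤ)) → ℂ → ℂ := fun κ s =>
    meul S (vl t₀ t) (ρ.filter fun w => central b w = κ) (s + dot κ z₀ z) with hf
  set c : ℝ := B + 1 + ∑ κ ∈ K, |(dot κ z₀ z).re| with hc
  have hgood : ∀ κ ∈ K, GoodAt c (f κ) := by
    intro κ hκ s hs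
    have h1 : |(dot κ z₀ z).re| ≤ ∑ κ ∈ K, |(dot κ z₀ z).re| :=
      Finset.single_le_sum (f := fun κ => |(dot κ z₀ z).re|) (fun _ _ => abs_nonneg _) hκ
    have h2 : B + 1 < (s + dot κ z₀ z).re := by
      rw [add_re]
      linarith [neg_abs_le (dot κ z₀ z).re]
    obtain ⟨h3, h4⟩ := meul_good (x := vl t₀ t) (hBp κ) _ h2
    exact ⟨h3.comp_of_eq (f := fun s : ℂ => s + dot κ z₀ z)
      (analyticAt_id.add analyticAt_const) rfl, h4⟩
  have hcont : ∀ y : Fin d → ℝ, Continues S₁ (twist₀ (z₀ + A₀ y * I) t₀)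
      (twist b (fun j => z j + A j y * I) t) ρ →
      ExtAll (fun s => ∏ κ ∈ K, f κ (s + (linA A₀ A κ y : ℝ) * I)) := by
    intro y hy
    have ht : ∀ w ∈ ρ, Tame (vl (twist₀ (z₀ + A₀ y * I) t₀)
        (twist b (fun j => z j + A j y * I) t) w) := fun w _ =>
      vl_tame (twist₀_tame h₀ _) (twist_tame h _) w
    rw [continues_indep S₁ S ht, continues_iff_meul ht] at hy
    refine hy.congr (c := 0) fun s _ => ?_
    rw [meul_twist, ← hK]
    refine Finset.prod_congr rfl fun κ _ => ?_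
    simp only [hf, dot_linA]
    congr 1
    ring
  have key : ∀ q : ℝ, ∀ κ ∈ K, Ext q (f κ) := by
    intro q
    refine (zero_one (V := Fin d → ℝ) volume K hgood (q := q) (l := linA A₀ A)
      (fun κ hκ κ' hκ' hne heq => hne (linA_inj hA ((hK1 κ hκ).trans (hK1 κ' hκ').symm)
        heq))).resolve_right ?_
    rintro ⟨h1, h2⟩
    refine hneg ⟨measure_mono_null ?_ h1, h2.mono ?_⟩
    · exact fun y hy => (hcont y hy).ext q
    · exact fun y hy => (hcont y hy).ext q
  by_cases hκ : κ ∈ K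
  · have h1 : ExtAll (f κ) :=
      ExtAll.of_forall (fun s hs => (hgood κ hκ s hs).1) fun q => key q κ hκ
    refine (h1.shift (-(dot κ z₀ z))).congr (c := 0) fun s _ => ?_
    simp only [hf]
    congr 1
    ring
  · have e : ρ.filter (fun w => central b w = κ) = 0 := by
      rw [Multiset.filter_eq_nil]
      rintro w hw rfl
      exact hκ (by
        rw [hK, Multiset.mem_toFinset]
        exact Multiset.mem_map_of_mem _ hw)
    rw [e]
    refine (ExtAll.const 1).congr (c := 0) fun s _ => ?_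
    simp [meul]

/-- the isotypic parts of a Levi invariant multiset are invariant -/
theorem LeviInvariant.part {θ : Multiset (Weight (Fin n))} (h : LeviInvariant b θ)
    (κ : ℤ × (Fin k → ℤ)) : LeviInvariant b (θ.filter fun w => central b w = κ) := by
  constructor
  · intro g hg
    conv_rhs => rw [← h.1 g hg, Multiset.filter_map]
    congr 1
    refine Multiset.filter_congr fun w _ => ?_
    have e : central b (permute g w) = central b w := by
      unfold central permute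
      refine Prod.ext rfl (funext fun j => ?_)
      simp only [Finset.sum_filter]
      rw [← Equiv.sum_comp g fun i => if b i = some j then w.2 i else 0]
      refine Finset.sum_congr rfl fun i _ => ?_
      rw [hg i]
    rw [Function.comp_apply, e]
  · intro i hi
    conv_rhs => rw [← h.2 i hi, Multiset.filter_map]
    congr 1
    refine Multiset.filter_congr fun w _ => ?_
    have e : central b (reflect i w) = central b w := by
      unfold central reflect
      refine Prod.ext rfl (funext fun j => ?_)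
      simp only
      refine Finset.sum_congr rfl fun i' hi' => ?_
      have : i' ≠ i := by
        rintro rfl
        rw [(Finset.mem_filter.1 hi').2] at hi
        exact absurd hi (by simp)
      rw [Function.update_of_ne this]
    rw [Function.comp_apply, e]

/-- Weyl invariant multisets are Levi invariant -/
theorem WeylInvariant.levi {ρ : Multiset (Weight (Fin n))} (h : WeylInvariant ρ) :
    LeviInvariant b ρ := ⟨fun g _ => h.1 g, fun i _ => h.2 i⟩

end Run7.h456
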