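import Pool.Agent.Run7.h456.Levi

set_option autoImplicit false

/-!
# The dominant shift is a shift of the variable
-/

namespace Run7.h456

open Filter Topology Complex MeasureTheory

variable {n k : ℕ} {b : Fin n → Option (Fin k)} {S : Finset ℕ} {t₀ : ℕ → ℂ} {t : ℕ → Fin n → ℂ}
  {ρ : Multiset (Weight (Fin n))}

theorem vl_shiftW {K : ℤ} {p : ℕ} (hp0 : (p : ℂ) ≠ 0) (ht : ∀ i, t p i ≠ 0) {c w : Fin k → ℂ}
    (hb : ∀ j, ∏ i with b i = some j, t p i = c j * (p : ℂ) ^ (-(w j)))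
    (hc : ∀ j, c j ^ K = 1) (v : Weight (Fin n)) :
    vl t₀ t (v.1, fun i => v.2 i + nu b K i) p =
      vl t₀ t v p * (p : ℂ) ^ (-(∑ j : Fin k, w j * ((((j : ℕ) : ℤ) + 1) * K : ℤ))) := by
  unfold vl
  simp only
  have e1 : ∏ i, t p i ^ (v.2 i + nu b K i) = (∏ i, t p i ^ v.2 i) * ∏ i, t p i ^ nu b K i := by
    rw [← Finset.prod_mul_distrib]
    exact Finset.prod_congr rfl fun i _ => zpow_add₀ (ht i) _ _
  have e2 : ∏ i, t p i ^ nu b K i =
      ∏ j : Fin k, (∏ i with b i = some j, t p i) ^ ((((j : ℕ) : ℤ) + 1) * K) := by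
    have e3 : ∀ j : Fin k, (∏ i with b i = some j, t p i) ^ ((((j : ℕ) : ℤ) + 1) * K) =
        ∏ i, if b i = some j then t p i ^ ((((j : ℕ) : ℤ) + 1) * K) else 1 := by
      intro j
      rw [← Finset.prod_zpow, Finset.prod_filter]
    simp only [e3]
    rw [Finset.prod_comm]
    refine Finset.prod_congr rfl fun i _ => ?_
    unfold nu
    rcases hbi : b i with _ | j
    · simp
    · simp
  have e4 : ∀ j : Fin k, (∏ i with b i = some j, t p i) ^ ((((j : ℕ) : ℤ) + 1) * K) =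
      (p : ℂ) ^ (-(w j * ((((j : ℕ) : ℤ) + 1) * K : ℤ))) := by
    intro j
    rw [hb j, mul_zpow, ← cpow_mul_int, neg_mul]
    have e5 : c j ^ ((((j : ℕ) : ℤ) + 1) * K) = 1 := by
      rw [mul_comm, zpow_mul, hc j, one_zpow]
    rw [e5, one_mul]
  rw [e1, e2, Finset.prod_congr rfl fun j _ => e4 j, ← cpow_fsum hp0, Finset.sum_neg_distrib]
  ring

/-- **The dominant shifts do not change the L-function.** -/
theorem exists_shift (h : ∀ i, Tame fun p => t p i)
    (hdet : ∀ j, ∃ N : ℕ, N ≠ 0 ∧ ∃ (χ : DirichletCharacter ℂ N) (w : ℂ), ∀ᶠ p : ℕ in atTop,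
      p.Prime → ∏ i with b i = some j, t p i = χ (p : ZMod N) * (p : ℂ) ^ (-w)) :
    ∃ (K₀ : ℤ) (S : Finset ℕ), 0 < K₀ ∧ ∀ K : ℤ, K₀ ∣ K → ∃ Z : ℂ,
      ∀ (t₀ : ℕ → ℂ) (θ : Multiset (Weight (Fin n))) (s : ℂ),
        meul S (vl t₀ t) (shiftW b K θ) s = meul S (vl t₀ t) θ (s + Z) := by
  choose N hN χ w hw using hdet
  have h1 : ∀ᶠ p : ℕ in atTop, ∀ i, p.Prime → t p i ≠ 0 := eventually_all.2 fun i => (h i).ne
  have h2 : ∀ᶠ p : ℕ in atTop, ∀ j, p.Prime → ∏ i with b i = some j, t p i =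
      χ j (p : ZMod (N j)) * (p : ℂ) ^ (-(w j)) := eventually_all.2 fun j => hw j
  have h3 : ∀ᶠ p : ℕ in atTop, ∀ j, N j < p := eventually_all.2 fun j => eventually_gt_atTop _
  obtain ⟨n₀, hn₀⟩ := eventually_atTop.1 (h1.and (h2.and h3))
  refine ⟨∏ j, (Nat.totient (N j) : ℤ), Finset.range n₀, ?_, fun K hK => ?_⟩
  · refine Finset.prod_pos fun j _ => ?_
    exact_mod_cast Nat.totient_pos.2 (Nat.pos_of_ne_zero (hN j))
  refine ⟨∑ j : Fin k, w j * ((((j : ℕ) : ℤ) + 1) * K : ℤ), fun t₀ θ s => ?_⟩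
  unfold meul shiftW
  rw [Multiset.map_map]
  congr 1
  refine Multiset.map_congr rfl fun v _ => ?_
  rw [← eul_shift, Function.comp_apply]
  unfold eul
  congr 1
  refine tsum_congr fun p => ?_
  beta_reduce
  have hp : n₀ ≤ (p : ℕ) := by
    have := p.2.2
    rw [Finset.mem_range, not_lt] at this
    exact this
  obtain ⟨h4, h5, h6⟩ := hn₀ p hp
  rw [vl_shiftW (c := fun j => χ j ((p : ℕ) : ZMod (N j))) (w := w) p.ne (fun i => h4 i p.2.1)
    (fun j => h5 j p.2.1) (fun j => ?_)]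
  have hcop : Nat.Coprime (p : ℕ) (N j) := by
    rw [p.2.1.coprime_iff_not_dvd]
    intro hd
    exact absurd (Nat.le_of_dvd (Nat.pos_of_ne_zero (hN j)) hd) (not_le.2 (h6 j))
  have h7 : (χ j ((p : ℕ) : ZMod (N j))) ^ (Nat.totient (N j)) = 1 := by
    rw [← map_pow]
    have h8 : (((p : ℕ) : ZMod (N j))) ^ (Nat.totient (N j)) = 1 := by
      have h9 := ZMod.pow_totient (ZMod.unitOfCoprime (p : ℕ) hcop)
      have h10 := congrArg (fun u : (ZMod (N j))ˣ => (u : ZMod (N j))) h9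
      simp only [Units.val_pow_eq_pow_val, ZMod.coe_unitOfCoprime, Units.val_one] at h10
      exact h10
    rw [h8, map_one]
  obtain ⟨m, hm⟩ := (Finset.dvd_prod_of_mem (fun j => (Nat.totient (N j) : ℤ))
    (Finset.mem_univ j)).trans hK
  change (χ j ((p : ℕ) : ZMod (N j))) ^ K = 1
  rw [hm, zpow_mul, zpow_natCast, h7, one_zpow]

/-- a bound for the entries of the weights -/
theorem exists_weight_bound (θ : Multiset (Weight (Fin n))) : ∃ B : ℤ, 0 ≤ B ∧
    (∀ w ∈ θ, |w.1| ≤ B) ∧ ∀ w ∈ θ, ∀ i, |w.2 i| ≤ B := by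
  induction θ using Multiset.induction_on with
  | empty => exact ⟨0, le_rfl, fun w hw => absurd hw (Multiset.notMem_zero w),
      fun w hw => absurd hw (Multiset.notMem_zero w)⟩
  | cons v θ ih =>
    obtain ⟨B, h0, h1, h2⟩ := ih
    refine ⟨B + |v.1| + ∑ i, |v.2 i|, by positivity, fun w hw => ?_, fun w hw i => ?_⟩
    · have h3 : 0 ≤ ∑ i, |v.2 i| := Finset.sum_nonneg fun i _ => abs_nonneg _
      rcases Multiset.mem_cons.1 hw with rfl | hw
      · omega
      · have h4 := h1 w hw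
        have h5 := abs_nonneg v.1
        omega
    · have h3 : ∀ i, |v.2 i| ≤ ∑ i, |v.2 i| := fun i =>
        Finset.single_le_sum (f := fun i => |v.2 i|) (fun _ _ => abs_nonneg _)
          (Finset.mem_univ i)
      have h4 := h3 i
      have h5 := abs_nonneg v.1
      rcases Multiset.mem_cons.1 hw with rfl | hw
      · omega
      · have h6 := h2 w hw i
        have h7 := abs_nonneg (v.2 i)
        omega

/-- **Descent to the Levi subgroup.** Suppose that the L-functions of the isotypic parts of all homogeneous Weyl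
invariant multisets continue. Then the L-functions of all Levi invariant multisets continue. -/
theorem descent (h₀ : Tame t₀) (h : ∀ i, Tame fun p => t p i)
    (hdet : ∀ j, ∃ N : ℕ, N ≠ 0 ∧ ∃ (χ : DirichletCharacter ℂ N) (w : ℂ), ∀ᶠ p : ℕ in atTop,
      p.Prime → ∏ i with b i = some j, t p i = χ (p : ZMod N) * (p : ℂ) ^ (-w))
    (H : ∀ ρ : Multiset (Weight (Fin n)), WeylInvariant ρ → Homogeneous ρ → ∀ (S : Finset ℕ) κ,
      ExtAll (meul S (vl t₀ t) (ρ.filter fun w => central b w = κ)))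
    {θ : Multiset (Weight (Fin n))} (hθ : LeviInvariant b θ) (z₀ : ℂ) (z : Fin k → ℂ)
    (S : Finset ℕ) : Continues S (twist₀ z₀ t₀) (twist b z t) θ := by
  obtain ⟨K₀, S₁, hK₀, hsh⟩ := exists_shift (b := b) h hdet
  have ht : ∀ w ∈ θ, Tame (vl (twist₀ z₀ t₀) (twist b z t) w) := fun w _ =>
    vl_tame (twist₀_tame h₀ _) (twist_tame h _) w
  rw [continues_indep S S₁ ht, continues_iff_meul ht]
  have key : ∀ κ, ExtAll (meul S₁ (vl t₀ t) (θ.filter fun w => central b w = κ)) := by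
    intro κ
    obtain ⟨B, hB, hB0, hBw⟩ := exists_weight_bound (θ.filter fun w => central b w = κ)
    obtain ⟨Z, hZ⟩ := hsh (K₀ * (6 * B * n * k + 1)) (dvd_mul_right _ _)
    have h1 : 6 * B * n * k < K₀ * (6 * B * n * k + 1) := by
      have h2 : 0 ≤ 6 * B * n * k := by positivity
      nlinarith
    obtain ⟨ρ, κ', hρ, hρh, hρκ⟩ := exists_dominant (hθ.part κ)
      (fun w hw => (Multiset.mem_filter.1 hw).2) hB hB0 hBw h1
    have h3 := H ρ hρ hρh S₁ κ'
    rw [hρκ] at h3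
    have h4 : ExtAll fun s => meul S₁ (vl t₀ t) (θ.filter fun w => central b w = κ) (s + Z) :=
      h3.congr (c := 0) fun s _ => hZ t₀ _ s
    refine (h4.shift (-Z)).congr (c := 0) fun s _ => ?_
    congr 1
    ring
  refine (ExtAll.prod (θ.map (central b)).toFinset fun κ _ =>
    (key κ).shift (dot κ z₀ z)).congr (c := 0) fun s _ => ?_
  rw [meul_twist]

end Run7.h456
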