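import Pool.Agent.Run7.h456.Ode

set_option autoImplicit false

/-!
# Local continuation across a vertical line, end of the proof
-/

namespace Run7.h456

open Filter Topology Complex Set Metric

variable {L : ℂ → ℂ} {σ ρ a b M : ℝ} {x : ℂ} {T : ℝ → ℕ → ℂ}

theorem ode_extend (hρ : 0 < ρ) (hab : a < b) (hb : b - a < ρ / 4) (hx : x.re = σ + ρ / 2)
    (hTc : ∀ k, Continuous fun h => T h k)
    (hTb : ∀ h ∈ Icc a b, ∀ k, ‖T h k‖ ≤ M / ρ ^ k)
    (hL : ∀ z ∈ HP σ, dist z x < ρ → AnalyticAt ℂ L z ∧ L z ≠ 0)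
    (hL' : ∀ z ∈ HP σ, dist z (x + a * I) < ρ → AnalyticAt ℂ L z)
    (hS : ∀ h ∈ Icc a b, ∀ z ∈ ball x (ρ / 2),
      HasSum (fun k => T h k * (z - x) ^ k) (L (z + h * I) / L z))
    (hne : ∫ h in a..b, T h 0 ≠ 0) :
    ∃ (s₂ : ℂ) (r : ℝ) (K : ℂ → ℂ), s₂.re = σ ∧ 0 < r ∧ (∀ z ∈ ball s₂ r, AnalyticAt ℂ K z) ∧
      ∀ z ∈ ball s₂ r, z ∈ HP σ → K z = L z := by
  set A : ℂ → ℂ := fun w => ∑' k, (∫ h in a..b, T h k) * (w - x) ^ k with hA
  set Sa : ℂ → ℂ := fun w => ∑' k, T a k * (w - x) ^ k with hSa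
  set Sb : ℂ → ℂ := fun w => ∑' k, T b k * (w - x) ^ k with hSb
  have hAd : DifferentiableOn ℂ A (ball x ρ) := psum_diffOn hρ (avg_bound hab.le hTb) x
  have hSad : DifferentiableOn ℂ Sa (ball x ρ) :=
    psum_diffOn hρ (hTb a (left_mem_Icc.2 hab.le)) x
  have hSbd : DifferentiableOn ℂ Sb (ball x ρ) :=
    psum_diffOn hρ (hTb b (right_mem_Icc.2 hab.le)) x
  have hAa : AnalyticOnNhd ℂ A (ball x ρ) := hAd.analyticOnNhd isOpen_ball
  have hSaa : AnalyticOnNhd ℂ Sa (ball x ρ) := hSad.analyticOnNhd isOpen_ball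
  have hSba : AnalyticOnNhd ℂ Sb (ball x ρ) := hSbd.analyticOnNhd isOpen_ball
  have hAx : A x ≠ 0 := by
    have h1 : A x = ∫ h in a..b, T h 0 := by
      rw [hA]
      simp only [sub_self]
      rw [tsum_eq_single 0]
      · simp
      · intro k hk
        simp [hk]
    rw [h1]
    exact hne
  have hxρ : x ∈ ball x ρ := mem_ball_self hρ
  -- the differential equation on the whole domain
  set W : Set ℂ := ball x ρ ∩ HP σ with hW
  have hWo : IsOpen W := isOpen_ball.inter (isOpen_HP σ)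
  have hWc : IsPreconnected W := ((convex_ball x ρ).inter (convex_HP σ)).isPreconnected
  have hxW : x ∈ W := by
    refine ⟨hxρ, ?_⟩
    rw [mem_HP, hx]
    linarith
  have hLW : AnalyticOnNhd ℂ L W := fun z hz => (hL z hz.2 (mem_ball.1 hz.1)).1
  have hode : ∀ z ∈ W, deriv L z * A z + L z * deriv A z + I * (L z * (Sb z - Sa z)) = 0 := by
    have hX : AnalyticOnNhd ℂ (fun z => deriv L z * A z + L z * deriv A z +
        I * (L z * (Sb z - Sa z))) W := by
      intro z hz
      have h1 := hLW z hz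
      have h2 := hAa z hz.1
      have h3 := hSaa z hz.1
      have h4 := hSba z hz.1
      exact ((h1.deriv.mul h2).add (h1.mul h2.deriv)).add
        (analyticAt_const.mul (h1.mul (h4.sub h3)))
    have h0 : AnalyticOnNhd ℂ (fun _ : ℂ => (0 : ℂ)) W := fun z _ => analyticAt_const
    refine hX.eqOn_of_preconnected_of_eventuallyEq h0 hWc hxW ?_
    filter_upwards [isOpen_ball.mem_nhds (mem_ball_self (x := x) (show 0 < ρ / 4 by linarith))]
      with z hz
    exact ode_near hρ hab hb hx hTc hTb hL hL' hS hz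
  -- a point of the line where `A` does not vanish
  set w₀ : ℂ := (σ : ℂ) + x.im * I with hw₀
  have hw₀x : w₀ ∈ ball x ρ := by
    rw [mem_ball, dist_eq_norm]
    have e : w₀ - x = ((-(ρ / 2) : ℝ) : ℂ) := by
      apply Complex.ext
      · simp [hw₀, hx]
      · simp [hw₀]
    rw [e, Complex.norm_real, Real.norm_eq_abs, abs_neg, abs_of_nonneg (by linarith)]
    linarith
  have hev : ∀ᶠ z in 𝓝[≠] w₀, A z ≠ 0 := by
    by_contra hcon
    have hfr : ∃ᶠ z in 𝓝[≠] w₀, A z = 0 := by
      rw [not_eventually] at hcon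
      exact hcon.mono fun z hz => not_not.1 hz
    exact hAx (hAa.eqOn_zero_of_preconnected_of_frequently_eq_zero
      (convex_ball x ρ).isPreconnected hw₀x hfr hxρ)
  have htend : Tendsto (fun t : ℝ => w₀ + t * I) (𝓝[≠] 0) (𝓝[≠] w₀) := by
    rw [tendsto_nhdsWithin_iff]
    constructor
    · have h1 : ContinuousAt (fun t : ℝ => w₀ + (t : ℂ) * I) 0 := by fun_prop
      have h2 := h1.tendsto
      simp only [ofReal_zero, zero_mul, add_zero] at h2
      exact h2.mono_left nhdsWithin_le_nhds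
    · filter_upwards [self_mem_nhdsWithin] with t ht
      intro hcon
      apply ht
      rw [mem_singleton_iff] at hcon ⊢
      have h3 : (t : ℂ) * I = 0 := by
        have := congrArg (fun u => u - w₀) hcon
        simpa using this
      have h4 := congrArg Complex.im h3
      simpa using h4
  have hball : ∀ᶠ z in 𝓝[≠] w₀, z ∈ ball x ρ :=
    mem_nhdsWithin_of_mem_nhds (isOpen_ball.mem_nhds hw₀x)
  obtain ⟨t, ht1, ht2⟩ := ((htend.eventually hev).and (htend.eventually hball)).exists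
  set s₂ : ℂ := w₀ + t * I with hs₂
  have hs₂re : s₂.re = σ := by simp [hs₂, hw₀]
  have hnb : ∀ᶠ z in 𝓝 s₂, z ∈ ball x ρ ∧ A z ≠ 0 :=
    Filter.Eventually.and (isOpen_ball.mem_nhds ht2)
      ((hAa s₂ ht2).continuousAt.eventually_ne ht1)
  obtain ⟨r, hr, hrb⟩ := Metric.eventually_nhds_iff_ball.1 hnb
  set G : ℂ → ℂ := fun z => (-(I * (Sb z - Sa z)) - deriv A z) / A z with hG
  have hGd : DifferentiableOn ℂ G (ball s₂ r) := by
    intro z hz
    obtain ⟨h1, h2⟩ := hrb z hz
    have h3 := hAa z h1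
    refine (((analyticAt_const.mul ((hSba z h1).sub (hSaa z h1))).neg.sub h3.deriv).div h3
      h2).differentiableAt.differentiableWithinAt
  obtain ⟨g, hg⟩ := hGd.isExactOn_ball
  set V : Set ℂ := ball s₂ r ∩ HP σ with hV
  have hVo : IsOpen V := isOpen_ball.inter (isOpen_HP σ)
  have hVc : IsPreconnected V := ((convex_ball s₂ r).inter (convex_HP σ)).isPreconnected
  have hVW : V ⊆ W := fun z hz => ⟨(hrb z hz.1).1, hz.2⟩
  have hder : ∀ z ∈ V, HasDerivAt (fun z => L z * Complex.exp (-g z)) 0 z := by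
    intro z hz
    have h1 := (hLW z (hVW hz)).differentiableAt.hasDerivAt
    have h2 := (hg z hz.1).neg.cexp
    have h3 := h1.mul h2
    have h4 := hode z (hVW hz)
    have h5 := (hrb z hz.1).2
    have h6 : deriv L z = L z * G z := by
      rw [hG]
      simp only
      field_simp
      linear_combination h4
    have h7 : deriv L z * Complex.exp ((-g) z) + L z * (Complex.exp ((-g) z) * -G z) = 0 := by
      rw [h6]
      ring
    rw [h7] at h3
    exact h3
  -- a point of `V`
  obtain ⟨v, hv⟩ : V.Nonempty := by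
    refine ⟨s₂ + ((r / 2 : ℝ) : ℂ), ?_, ?_⟩
    · rw [mem_ball, dist_eq_norm, add_sub_cancel_left, Complex.norm_real, Real.norm_eq_abs,
        abs_of_nonneg (by linarith)]
      linarith
    · rw [mem_HP, add_re, hs₂re, ofReal_re]
      linarith
  set C : ℂ := L v * Complex.exp (-g v) with hC
  have hconst : ∀ z ∈ V, L z * Complex.exp (-g z) = C := by
    intro z hz
    have hd : DifferentiableOn ℂ (fun z => L z * Complex.exp (-g z)) V := fun z hz =>
      (hder z hz).differentiableAt.differentiableWithinAt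
    exact hVo.is_const_of_deriv_eq_zero hVc hd (fun z hz => (hder z hz).deriv) hz hv
  refine ⟨s₂, r, fun z => C * Complex.exp (g z), hs₂re, hr, ?_, ?_⟩
  · have hgd : DifferentiableOn ℂ (fun z => C * Complex.exp (g z)) (ball s₂ r) := by
      intro z hz
      exact (((hg z hz).cexp.const_mul C).differentiableAt).differentiableWithinAt
    exact hgd.analyticOnNhd isOpen_ball
  · intro z hz hzσ
    simp only
    rw [← hconst z ⟨hz, hzσ⟩, mul_assoc, ← Complex.exp_add, neg_add_cancel, Complex.exp_zero,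
      mul_one]

end Run7.h456
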