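import Pool.Agent.Run7.h456.Orders
import Pool.Agent.Run7.h456.Ode2

set_option autoImplicit false

/-!
# Local continuation across the boundary by a category argument
-/

namespace Run7.h456

open Filter Topology Complex Set Metric

variable {c q σ : ℝ} {f L : ℂ → ℂ} {R : ℝ → ℂ → ℂ}

/-- one may take the continuation in normal form -/
theorem Sit.nf (H : Sit c q σ f L R) :
    ∃ L' : ℂ → ℂ, Sit c q σ f L' R ∧ MeromorphicNFOn L' (HP σ) := by
  refine ⟨toMeromorphicNFOn L (HP σ), ⟨H.qσ, H.good,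
    (meromorphicNFOn_toMeromorphicNFOn L (HP σ)).meromorphicOn, ?_, H.mR, H.eR⟩,
    meromorphicNFOn_toMeromorphicNFOn L (HP σ)⟩
  intro s hs
  rw [← H.eL s hs]
  by_cases h : s ∈ HP σ
  · rw [toMeromorphicNFOn_eq_toMeromorphicNFAt H.mL h]
    have hLs : AnalyticAt ℂ L s := by
      refine (H.good s hs).1.congr ?_
      filter_upwards [(isOpen_HP c).mem_nhds hs] with z hz
      exact (H.eL z hz).symm
    rw [toMeromorphicNFAt_eq_self.2 hLs.meromorphicNFAt]
  · exact (toMeromorphicNFOn_eq_self_on_compl H.mL) h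

theorem Sit.analytic (H : Sit c q σ f L R) (hNF : MeromorphicNFOn L (HP σ)) {s : ℂ}
    (hs : s ∈ HP σ) (h0 : meromorphicOrderAt L s = 0) : AnalyticAt ℂ L s ∧ L s ≠ 0 := by
  have h1 := hNF hs
  exact ⟨h1.meromorphicOrderAt_nonneg_iff_analyticAt.1 h0.ge, h1.meromorphicOrderAt_eq_zero_iff.1 h0⟩

/-- truncation -/
noncomputable def clamp (δ h : ℝ) : ℝ := max (-δ) (min δ h)

theorem clamp_continuous (δ : ℝ) : Continuous (clamp δ) := by
  unfold clamp
  fun_prop

theorem clamp_abs {δ : ℝ} (hδ : 0 ≤ δ) (h : ℝ) : |clamp δ h| ≤ δ := by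
  unfold clamp
  rw [abs_le]
  exact ⟨le_max_left _ _, max_le (by linarith) (min_le_left _ _)⟩

theorem clamp_eq {δ h : ℝ} (hh : |h| ≤ δ) : clamp δ h = h := by
  unfold clamp
  rw [abs_le] at hh
  rw [min_eq_right hh.2, max_eq_right hh.1]

/-- the centres -/
noncomputable def cen (σ : ℝ) (τ ρ : ℝ) : ℂ := ((σ + ρ / 2 : ℝ) : ℂ) + τ * I

theorem cen_re (σ τ ρ : ℝ) : (cen σ τ ρ).re = σ + ρ / 2 := by simp [cen]

theorem cen_im (σ τ ρ : ℝ) : (cen σ τ ρ).im = τ := by simp [cen]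

theorem dist_cen {σ τ ρ : ℝ} (hτ : 0 ≤ τ) (hρ : 0 ≤ ρ) : dist (cen σ τ ρ) (σ : ℂ) ≤ ρ / 2 + τ := by
  rw [dist_eq_norm]
  have e : cen σ τ ρ - (σ : ℂ) = ((ρ / 2 : ℝ) : ℂ) + (τ : ℂ) * I := by
    unfold cen
    push_cast
    ring
  rw [e]
  refine (norm_add_le _ _).trans ?_
  rw [norm_mul, norm_I, mul_one, Complex.norm_real, Complex.norm_real, Real.norm_eq_abs,
    Real.norm_eq_abs, abs_of_nonneg hτ, abs_of_nonneg (by linarith)]

/-- the shifted quotient, with truncated shift -/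
noncomputable def FF (L : ℂ → ℂ) (δ h : ℝ) (z : ℂ) : ℂ := L (z + (clamp δ h : ℝ) * I) / L z

theorem dist_ih (z w : ℂ) (h : ℝ) : dist (z + h * I) w ≤ dist z w + |h| := by
  rw [dist_eq_norm, dist_eq_norm]
  have e : z + h * I - w = (z - w) + (h : ℂ) * I := by ring
  rw [e]
  refine (norm_add_le _ _).trans ?_
  rw [norm_mul, norm_I, mul_one, Complex.norm_real, Real.norm_eq_abs]

/-- near the boundary point `σ` the quotients are quotients of analytic functions -/
theorem Sit.R_eq (H : Sit c q σ f L R) {δ : ℝ}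
    (hA : ∀ z ∈ HP σ, dist z (σ : ℂ) < 4 * δ → AnalyticAt ℂ L z ∧ L z ≠ 0) {h : ℝ}
    (hh : |h| ≤ δ) {z : ℂ} (hz : z ∈ HP σ) (hz2 : dist z (σ : ℂ) < 2 * δ)
    (hR : ContinuousAt (R h) z) : R h z = L (z + h * I) / L z := by
  have hδ : 0 ≤ δ := (abs_nonneg h).trans hh
  have h1 := H.mul_eq h hz
  have h2 := hA z hz (by linarith)
  have h3 := hA (z + h * I) (HP_add_ih hz h) (by
    have := dist_ih z (σ : ℂ) h
    linarith)
  have h4 : R h z * L z = L (z + h * I) := by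
    refine eq_of_nhdsNE (hR.mul h2.1.continuousAt) ?_ h1
    exact ContinuousAt.comp (f := fun z : ℂ => z + h * I) h3.1.continuousAt (by fun_prop)
  rw [← h4, mul_div_cancel_right₀ _ h2.2]

theorem Sit.local_ext (H : Sit c q σ f L R) (hNF : MeromorphicNFOn L (HP σ)) :
    ∃ (s₂ : ℂ) (r : ℝ) (K : ℂ → ℂ), s₂.re = σ ∧ 0 < r ∧ (∀ z ∈ ball s₂ r, AnalyticAt ℂ K z) ∧
      ∀ z ∈ ball s₂ r, z ∈ HP σ → K z = L z := by
  obtain ⟨δ₀, hδ₀, hacc⟩ := H.no_acc (s₁ := (σ : ℂ)) (ofReal_re σ)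
  set δ : ℝ := δ₀ / 4 with hδdef
  have hδ : 0 < δ := by positivity
  have hA : ∀ z ∈ HP σ, dist z (σ : ℂ) < 4 * δ → AnalyticAt ℂ L z ∧ L z ≠ 0 := by
    intro z hz hd
    refine H.analytic hNF hz (hacc z hz ?_)
    rw [hδdef] at hd
    linarith
  -- the closed sets
  set valid : ℚ × ℚ × ℕ → Prop := fun i => 0 < (i.2.1 : ℝ) ∧
    closedBall (cen σ i.1 i.2.1) i.2.1 ⊆ ball (σ : ℂ) (2 * δ) with hvalid
  set HS : ℚ × ℚ × ℕ → Set ℝ := fun i => {h : ℝ | valid i ∧
    ∀ k : ℕ, ‖tc (FF L δ h) (cen σ i.1 i.2.1) k‖ ≤ (i.2.2 : ℝ) / (i.2.1 : ℝ) ^ k} with hHS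
  -- the quotients are analytic near the centres
  have hFan : ∀ (h : ℝ) (z : ℂ), z ∈ HP σ → dist z (σ : ℂ) < 2 * δ →
      AnalyticAt ℂ (FF L δ h) z := by
    intro h z hz hd
    have hcl := clamp_abs hδ.le h
    have h2 := hA z hz (by linarith)
    have h3 := hA (z + (clamp δ h : ℝ) * I) (HP_add_ih hz _) (by
      have := dist_ih z (σ : ℂ) (clamp δ h)
      linarith)
    have h4 : AnalyticAt ℂ (fun z => L (z + (clamp δ h : ℝ) * I)) z :=
      AnalyticAt.fun_comp (g := L) (f := fun z : ℂ => z + (clamp δ h : ℝ) * I) h3.1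
        (analyticAt_id.add analyticAt_const)
    exact h4.div h2.1 h2.2
  have hball : ∀ i, valid i → ∀ z ∈ ball (cen σ i.1 i.2.1) ((i.2.1 : ℝ) / 2),
      z ∈ HP σ ∧ dist z (σ : ℂ) < 2 * δ := by
    intro i hi z hz
    refine ⟨ball_sub_HP (cen_re _ _ _) hz, ?_⟩
    have h1 : z ∈ closedBall (cen σ i.1 i.2.1) (i.2.1 : ℝ) := by
      rw [mem_ball] at hz
      rw [mem_closedBall]
      have := hi.1
      linarith
    exact mem_ball.1 (hi.2 h1)
  have htcc : ∀ i, valid i → ∀ k, Continuous fun h => tc (FF L δ h) (cen σ i.1 i.2.1) k := by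
    intro i hi k
    have hρ := hi.1
    have hr : 0 < (i.2.1 : ℝ) / 4 := by linarith
    have hsub : closedBall (cen σ i.1 i.2.1) ((i.2.1 : ℝ) / 4) ⊆
        ball (cen σ i.1 i.2.1) ((i.2.1 : ℝ) / 2) := closedBall_subset_ball (by linarith)
    refine tc_continuous hr (fun h z hz => ?_) ?_ k
    · obtain ⟨h1, h2⟩ := hball i hi z (hsub hz)
      exact (hFan h z h1 h2).differentiableAt.differentiableWithinAt
    · rw [continuous_iff_continuousAt]
      rintro ⟨h, θ⟩
      have hz : circleMap (cen σ i.1 i.2.1) ((i.2.1 : ℝ) / 4) θ ∈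
          ball (cen σ i.1 i.2.1) ((i.2.1 : ℝ) / 2) :=
        hsub (sphere_subset_closedBall (circleMap_mem_sphere _ hr.le θ))
      obtain ⟨h1, h2⟩ := hball i hi _ hz
      have hcl := clamp_abs hδ.le h
      have h3 := hA _ h1 (by linarith)
      have h4 := hA (circleMap (cen σ i.1 i.2.1) ((i.2.1 : ℝ) / 4) θ + (clamp δ h : ℝ) * I)
        (HP_add_ih h1 _) (by
          have := dist_ih (circleMap (cen σ i.1 i.2.1) ((i.2.1 : ℝ) / 4) θ) (σ : ℂ) (clamp δ h)
          linarith)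
      have hcc : Continuous fun p : ℝ × ℝ => circleMap (cen σ i.1 i.2.1) ((i.2.1 : ℝ) / 4) p.2 :=
        (continuous_circleMap _ _).comp continuous_snd
      have hcl2 : Continuous fun p : ℝ × ℝ => ((clamp δ p.1 : ℝ) : ℂ) :=
        continuous_ofReal.comp ((clamp_continuous δ).comp continuous_fst)
      unfold FF
      refine ContinuousAt.div ?_ ?_ h3.2
      · exact ContinuousAt.comp (f := fun p : ℝ × ℝ =>
          circleMap (cen σ i.1 i.2.1) ((i.2.1 : ℝ) / 4) p.2 + ((clamp δ p.1 : ℝ) : ℂ) * I)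
          (x := (h, θ)) h4.1.continuousAt (hcc.add (hcl2.mul continuous_const)).continuousAt
      · exact ContinuousAt.comp (f := fun p : ℝ × ℝ =>
          circleMap (cen σ i.1 i.2.1) ((i.2.1 : ℝ) / 4) p.2)
          (x := (h, θ)) h3.1.continuousAt hcc.continuousAt
  have hclosed : ∀ i, IsClosed (HS i) := by
    intro i
    by_cases hi : valid i
    · have e : HS i = ⋂ k : ℕ, {h : ℝ | ‖tc (FF L δ h) (cen σ i.1 i.2.1) k‖ ≤
          (i.2.2 : ℝ) / (i.2.1 : ℝ) ^ k} := by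
        ext h
        simp only [hHS, mem_setOf_eq, mem_iInter]
        exact ⟨fun h1 => h1.2, fun h1 => ⟨hi, h1⟩⟩
      rw [e]
      exact isClosed_iInter fun k => isClosed_le (htcc i hi k).norm continuous_const
    · have e : HS i = ∅ := by
        ext h
        simp only [hHS, mem_setOf_eq, mem_empty_iff_false, iff_false]
        exact fun h1 => hi h1.1
      rw [e]
      exact isClosed_empty
  have hσq : (σ : ℂ) ∈ HP q := by
    rw [mem_HP, ofReal_re]
    exact H.qσ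
  have hcover : ⋃ i, HS i = univ := by
    rw [eq_univ_iff_forall]
    intro h
    have hcl := clamp_abs hδ.le h
    set h' := clamp δ h with hh'
    have hev := (H.mR h' (σ : ℂ) hσq).eventually_analyticAt
    rw [eventually_nhdsWithin_iff, Metric.eventually_nhds_iff_ball] at hev
    obtain ⟨ε₀, hε₀, hev⟩ := hev
    set ε := min ε₀ δ with hε
    have hεpos : 0 < ε := lt_min hε₀ hδ
    obtain ⟨τ, hτ1, hτ2⟩ := exists_rat_btwn (show (0 : ℝ) < ε / 2 by linarith)
    obtain ⟨ρ, hρ1, hρ2⟩ := exists_rat_btwn (show (0 : ℝ) < (τ : ℝ) / 4 by linarith)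
    have hmem : ∀ z ∈ closedBall (cen σ τ ρ) (ρ : ℝ), dist z (σ : ℂ) < ε ∧ z ≠ (σ : ℂ) := by
      intro z hz
      rw [mem_closedBall] at hz
      have h1 := dist_triangle z (cen σ τ ρ) (σ : ℂ)
      have h2 := dist_cen (σ := σ) hτ1.le hρ1.le
      refine ⟨by linarith, ?_⟩
      intro hcon
      rw [hcon, dist_eq_norm] at hz
      have h3 := (abs_im_le_norm ((σ : ℂ) - cen σ τ ρ)).trans hz
      rw [sub_im, cen_im, ofReal_im, zero_sub, abs_neg, abs_of_pos hτ1] at h3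
      linarith
    have hv0 : closedBall (cen σ τ ρ) (ρ : ℝ) ⊆ ball (σ : ℂ) (2 * δ) := by
      intro z hz
      rw [mem_ball]
      have h1 := (hmem z hz).1
      have h2 : ε ≤ δ := min_le_right _ _
      linarith
    have hRan : ∀ z ∈ closedBall (cen σ τ ρ) (ρ : ℝ), AnalyticAt ℂ (R h') z := by
      intro z hz
      obtain ⟨h1, h2⟩ := hmem z hz
      exact hev z (by
        rw [mem_ball]
        exact h1.trans_le (min_le_left _ _)) h2
    have hRd : DifferentiableOn ℂ (R h') (closedBall (cen σ τ ρ) (ρ : ℝ)) := fun z hz =>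
      (hRan z hz).differentiableAt.differentiableWithinAt
    obtain ⟨M, hM⟩ := (isCompact_closedBall (cen σ τ ρ) (ρ : ℝ)).exists_bound_of_continuousOn
      hRd.continuousOn
    obtain ⟨n, hn⟩ := exists_nat_ge M
    rw [mem_iUnion]
    refine ⟨(τ, ρ, n), ⟨hρ1, hv0⟩, fun k => ?_⟩
    have heq : FF L δ h =ᶠ[𝓝 (cen σ τ ρ)] R h' := by
      filter_upwards [isOpen_ball.mem_nhds (mem_ball_self (x := cen σ τ ρ)
        (show 0 < (ρ : ℝ) / 2 by linarith))] with z hz
      obtain ⟨h1, h2⟩ := hball (τ, ρ, n) ⟨hρ1, hv0⟩ z hz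
      have hz' : z ∈ closedBall (cen σ τ ρ) (ρ : ℝ) :=
        closedBall_subset_closedBall (by linarith) (ball_subset_closedBall hz)
      rw [H.R_eq hA hcl h1 h2 (hRan z hz').continuousAt]
      rfl
    simp only
    rw [tc_congr heq k]
    refine (tc_bound hρ1 hRd (fun z hz => hM z (sphere_subset_closedBall hz)) k).trans ?_
    gcongr
  -- the category argument
  have hdense := dense_iUnion_interior_of_closed hclosed hcover
  obtain ⟨h₀, hh₀1, hh₀2⟩ := hdense.inter_open_nonempty (Ioo (-δ) δ) isOpen_Ioo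
    (nonempty_Ioo.2 (by linarith))
  rw [mem_iUnion] at hh₀2
  obtain ⟨i, hi⟩ := hh₀2
  have hnb : Ioo (-δ) δ ∩ interior (HS i) ∈ 𝓝 h₀ :=
    (isOpen_Ioo.inter isOpen_interior).mem_nhds ⟨hh₀1, hi⟩
  obtain ⟨η, hη, hηb⟩ := Metric.mem_nhds_iff.1 hnb
  have hin : ∀ h : ℝ, |h - h₀| < η → |h| ≤ δ ∧ h ∈ HS i := by
    intro h hh
    have h1 : h ∈ ball h₀ η := by
      rw [mem_ball, Real.dist_eq]
      exact hh
    obtain ⟨h2, h3⟩ := hηb h1
    exact ⟨abs_le.2 ⟨h2.1.le, h2.2.le⟩, interior_subset h3⟩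
  have hvi : valid i := (interior_subset hi).1
  set ρ : ℝ := (i.2.1 : ℝ) with hρdef
  have hρ : 0 < ρ := hvi.1
  set x : ℂ := cen σ i.1 i.2.1 with hxdef
  have hx : x.re = σ + ρ / 2 := cen_re _ _ _
  set T : ℝ → ℕ → ℂ := fun h k => tc (FF L δ h) x k with hT
  have hTc : ∀ k, Continuous fun h => T h k := fun k => htcc i hvi k
  -- choice of the interval
  set κ : ℝ := min η (ρ / 4) with hκ
  have hκ0 : 0 < κ := lt_min hη (by linarith)
  have hxb : x ∈ ball x (ρ / 2) := mem_ball_self (by linarith)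
  have hT0 : ∀ h : ℝ, T h 0 ≠ 0 := by
    intro h
    have h1 : T h 0 = FF L δ h x := by
      simp [hT, tc]
    rw [h1]
    obtain ⟨h2, h3⟩ := hball i hvi x hxb
    have hcl := clamp_abs hδ.le h
    unfold FF
    refine div_ne_zero ?_ ?_
    · exact (hA _ (HP_add_ih h2 _) (by
        have := dist_ih x (σ : ℂ) (clamp δ h)
        linarith)).2
    · exact (hA x h2 (by linarith)).2
  obtain ⟨b, hb1, hb2, hb3⟩ : ∃ b : ℝ, h₀ < b ∧ b < h₀ + κ ∧ ∫ h in h₀..b, T h 0 ≠ 0 := by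
    by_contra hcon
    push Not at hcon
    have h1 : (fun b : ℝ => ∫ h in h₀..b, T h 0) =ᶠ[𝓝 (h₀ + κ / 2)] fun _ => 0 := by
      filter_upwards [isOpen_Ioo.mem_nhds (show h₀ + κ / 2 ∈ Ioo h₀ (h₀ + κ) from
        ⟨by linarith, by linarith⟩)] with b hb
      exact hcon b hb.1 hb.2
    have h2 := ((hTc 0).integral_hasStrictDerivAt h₀ (h₀ + κ / 2)).hasDerivAt
    have h3 : HasDerivAt (fun b : ℝ => ∫ h in h₀..b, T h 0) 0 (h₀ + κ / 2) :=
      (hasDerivAt_const (h₀ + κ / 2) (0 : ℂ)).congr_of_eventuallyEq h1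
    exact hT0 _ (h2.unique h3)
  have hIcc : ∀ h ∈ Icc h₀ b, |h - h₀| < η := by
    intro h hh
    rw [abs_of_nonneg (by linarith [hh.1])]
    have : κ ≤ η := min_le_left _ _
    linarith [hh.2]
  refine ode_extend (L := L) (σ := σ) (ρ := ρ) (a := h₀) (b := b) (M := (i.2.2 : ℝ)) (x := x)
    (T := T) hρ hb1 ?_ hx hTc ?_ ?_ ?_ ?_ hb3
  · have : κ ≤ ρ / 4 := min_le_right _ _
    linarith
  · intro h hh k
    exact (hin h (hIcc h hh)).2.2 k
  · intro z hz hd
    refine hA z hz ?_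
    have h1 : z ∈ closedBall x ρ := by
      rw [mem_closedBall]
      exact hd.le
    have h2 := mem_ball.1 (hvi.2 h1)
    linarith
  · intro z hz hd
    refine (hA z hz ?_).1
    have h1 : z - h₀ * I ∈ closedBall x ρ := by
      rw [mem_closedBall, dist_eq_norm]
      rw [dist_eq_norm] at hd
      have e : z - h₀ * I - x = z - (x + h₀ * I) := by ring
      rw [e]
      exact hd.le
    have h2 := mem_ball.1 (hvi.2 h1)
    have h3 := dist_ih (z - h₀ * I) (σ : ℂ) h₀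
    rw [sub_add_cancel] at h3
    have h4 := (hin h₀ (by simpa using hη)).1
    linarith
  · intro h hh z hz
    have h1 := (hin h (hIcc h hh)).1
    have h2 : DifferentiableOn ℂ (FF L δ h) (ball x (ρ / 2)) := fun w hw =>
      (hFan h w (hball i hvi w hw).1 (hball i hvi w hw).2).differentiableAt.differentiableWithinAt
    have h3 := tc_hasSum h2 hz
    have h4 : FF L δ h z = L (z + h * I) / L z := by
      unfold FF
      rw [clamp_eq h1]
    rw [h4] at h3
    exact h3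

end Run7.h456
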