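import Mathlib

set_option autoImplicit false

/-!
# Meromorphic continuation to half-planes: identity theorem, gluing
-/

namespace Run7.h456

open Filter Topology Complex Set

/-- identity theorem for meromorphic functions -/
theorem mero_identity {V : Set ℂ} (hV : IsPreconnected V) {F G : ℂ → ℂ}
    (hF : MeromorphicOn F V) (hG : MeromorphicOn G V) {s₀ : ℂ} (hs₀ : s₀ ∈ V)
    (h : F =ᶠ[𝓝[≠] s₀] G) : ∀ s ∈ V, F =ᶠ[𝓝[≠] s] G := by
  intro s hs
  have hFG : MeromorphicOn (F - G) V := hF.sub hG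
  have h1 : meromorphicOrderAt (F - G) s₀ = ⊤ := by
    rw [meromorphicOrderAt_eq_top_iff]
    filter_upwards [h] with z hz
    simp [hz]
  have h2 : meromorphicOrderAt (F - G) s = ⊤ := by
    by_contra hcon
    exact hFG.meromorphicOrderAt_ne_top_of_isPreconnected hV hs hs₀ hcon h1
  rw [meromorphicOrderAt_eq_top_iff] at h2
  filter_upwards [h2] with z hz
  exact sub_eq_zero.1 hz

/-- gluing meromorphic functions -/
theorem mero_glue {κ : Type*} {V : κ → Set ℂ} (hV : ∀ i, IsOpen (V i)) {L : κ → ℂ → ℂ}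
    (hL : ∀ i, MeromorphicOn (L i) (V i))
    (hc : ∀ i j s, s ∈ V i → s ∈ V j → L i =ᶠ[𝓝[≠] s] L j) :
    ∃ M : ℂ → ℂ, ∀ i, ∀ s ∈ V i, MeromorphicAt M s ∧ M =ᶠ[𝓝[≠] s] L i := by
  classical
  refine ⟨fun s => if h : ∃ i, s ∈ V i then toMeromorphicNFAt (L h.choose) s s else 0, ?_⟩
  intro i s₀ hs₀
  have key : (fun s => if h : ∃ i, s ∈ V i then toMeromorphicNFAt (L h.choose) s s else 0)
      =ᶠ[𝓝[≠] s₀] L i := by
    have e1 : ∀ᶠ s in 𝓝[≠] s₀, s ∈ V i :=
      mem_nhdsWithin_of_mem_nhds ((hV i).mem_nhds hs₀)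
    filter_upwards [e1, (hL i s₀ hs₀).eventually_analyticAt] with s h1 h2
    have h : ∃ i, s ∈ V i := ⟨i, h1⟩
    simp only [dif_pos h]
    have h3 := hc h.choose i s h.choose_spec h1
    have h4 := (toMeromorphicNFAt_eventuallyEq_nhds_congr h3).self_of_nhds
    rw [h4]
    have h5 : toMeromorphicNFAt (L i) s = L i := toMeromorphicNFAt_eq_self.2 h2.meromorphicNFAt
    rw [h5]
  exact ⟨(hL i s₀ hs₀).congr key.symm, key⟩

/-- the half-plane `Re s > q` -/
def HP (q : ℝ) : Set ℂ := {s : ℂ | q < s.re}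

theorem mem_HP {q : ℝ} {s : ℂ} : s ∈ HP q ↔ q < s.re := Iff.rfl

theorem HP_mono {q q' : ℝ} (h : q ≤ q') : HP q' ⊆ HP q := fun _ hs => lt_of_le_of_lt h hs

theorem isOpen_HP (q : ℝ) : IsOpen (HP q) := isOpen_lt continuous_const continuous_re

theorem convex_HP (q : ℝ) : Convex ℝ (HP q) := convex_halfSpace_re_gt q

theorem preconn_HP (q : ℝ) : IsPreconnected (HP q) := (convex_HP q).isPreconnected

/-- `f` is holomorphic without zeros for `Re s > c` -/
def GoodAt (c : ℝ) (f : ℂ → ℂ) : Prop := ∀ s : ℂ, c < s.re → AnalyticAt ℂ f s ∧ f s ≠ 0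

/-- `f`, which matters for large real part only, has a meromorphic continuation to `Re s > q` -/
def Ext (q : ℝ) (f : ℂ → ℂ) : Prop :=
  ∃ L : ℂ → ℂ, MeromorphicOn L (HP q) ∧ ∃ c : ℝ, ∀ s : ℂ, c < s.re → L s = f s

/-- the same for the whole plane -/
def ExtAll (f : ℂ → ℂ) : Prop :=
  ∃ L : ℂ → ℂ, Meromorphic L ∧ ∃ c : ℝ, ∀ s : ℂ, c < s.re → L s = f s

theorem GoodAt.mono {c c' : ℝ} (h : c ≤ c') {f : ℂ → ℂ} (hf : GoodAt c f) : GoodAt c' f :=
  fun s hs => hf s (h.trans_lt hs)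

theorem exists_re_gt (a b : ℝ) : ∃ s : ℂ, a < s.re ∧ b < s.re := by
  refine ⟨((max a b + 1 : ℝ) : ℂ), ?_, ?_⟩
  · rw [ofReal_re]
    linarith [le_max_left a b]
  · rw [ofReal_re]
    linarith [le_max_right a b]

/-- two meromorphic functions on open sets, one of them analytic -/
theorem eq_of_nhdsNE {F G : ℂ → ℂ} {s : ℂ} (hF : ContinuousAt F s) (hG : ContinuousAt G s)
    (h : F =ᶠ[𝓝[≠] s] G) : F s = G s := by
  have h1 : Tendsto F (𝓝[≠] s) (𝓝 (F s)) := hF.mono_left nhdsWithin_le_nhds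
  have h2 : Tendsto G (𝓝[≠] s) (𝓝 (G s)) := hG.mono_left nhdsWithin_le_nhds
  exact tendsto_nhds_unique (h1.congr' h) h2

/-- from agreement near one point to agreement on the half-plane -/
theorem exact_of_germ {c q : ℝ} {f L : ℂ → ℂ} (hf : ∀ s : ℂ, c < s.re → AnalyticAt ℂ f s)
    (hL : MeromorphicOn L (HP q)) {s₀ : ℂ} (h1 : c < s₀.re) (h2 : q < s₀.re)
    (h : L =ᶠ[𝓝[≠] s₀] f) :
    ∃ M : ℂ → ℂ, MeromorphicOn M (HP q) ∧ (∀ s : ℂ, c < s.re → M s = f s) ∧
      ∀ s ∈ HP q, M =ᶠ[𝓝[≠] s] L := by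
  classical
  have hid : ∀ s ∈ HP (max c q), L =ᶠ[𝓝[≠] s] f := by
    refine mero_identity (preconn_HP _) (fun s hs => hL s ?_)
      (fun s hs => (hf s ?_).meromorphicAt) (s₀ := s₀) ?_ h
    · exact lt_of_le_of_lt (le_max_right c q) hs
    · exact lt_of_le_of_lt (le_max_left c q) hs
    · exact max_lt h1 h2
  set M : ℂ → ℂ := fun s => if c < s.re then f s else L s with hM
  have hML : ∀ s ∈ HP q, M =ᶠ[𝓝[≠] s] L := by
    intro s hs
    have e1 : ∀ᶠ z in 𝓝[≠] s, z ∈ HP q :=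
      mem_nhdsWithin_of_mem_nhds ((isOpen_HP q).mem_nhds hs)
    filter_upwards [e1, (hL s hs).eventually_analyticAt] with z hz1 hz2
    simp only [hM]
    split_ifs with hz
    · exact (eq_of_nhdsNE hz2.continuousAt (hf z hz).continuousAt
        (hid z (max_lt hz hz1))).symm
    · rfl
  refine ⟨M, fun s hs => (hL s hs).congr (hML s hs).symm, fun s hs => ?_, hML⟩
  simp only [hM, if_pos hs]

theorem Ext.exact {c q : ℝ} {f : ℂ → ℂ} (hf : ∀ s : ℂ, c < s.re → AnalyticAt ℂ f s)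
    (h : Ext q f) : ∃ M : ℂ → ℂ, MeromorphicOn M (HP q) ∧ ∀ s : ℂ, c < s.re → M s = f s := by
  obtain ⟨L, hL, c', hc'⟩ := h
  obtain ⟨s₀, h1, h2⟩ := exists_re_gt (max c q) c'
  obtain ⟨M, hM1, hM2, -⟩ := exact_of_germ hf hL (s₀ := s₀) ((le_max_left _ _).trans_lt h1)
    ((le_max_right _ _).trans_lt h1) (by
      refine mem_nhdsWithin_of_mem_nhds ?_
      filter_upwards [(isOpen_HP c').mem_nhds h2] with z hz
      exact hc' z hz)
  exact ⟨M, hM1, hM2⟩

theorem Ext.of_germ {c q : ℝ} {f L : ℂ → ℂ} (hf : ∀ s : ℂ, c < s.re → AnalyticAt ℂ f s)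
    (hL : MeromorphicOn L (HP q)) {s₀ : ℂ} (h1 : c < s₀.re) (h2 : q < s₀.re)
    (h : L =ᶠ[𝓝[≠] s₀] f) : Ext q f := by
  obtain ⟨M, hM1, hM2, -⟩ := exact_of_germ hf hL h1 h2 h
  exact ⟨M, hM1, c, hM2⟩

theorem Ext.mono {q q' : ℝ} (h : q ≤ q') {f : ℂ → ℂ} (hf : Ext q f) : Ext q' f := by
  obtain ⟨L, hL, hc⟩ := hf
  exact ⟨L, fun s hs => hL s (lt_of_le_of_lt h hs), hc⟩

theorem ExtAll.ext {f : ℂ → ℂ} (hf : ExtAll f) (q : ℝ) : Ext q f := by
  obtain ⟨L, hL, hc⟩ := hf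
  exact ⟨L, fun s _ => hL s, hc⟩

theorem Ext.mul {q : ℝ} {f g : ℂ → ℂ} (hf : Ext q f) (hg : Ext q g) :
    Ext q (fun s => f s * g s) := by
  obtain ⟨L, hL, c, hc⟩ := hf
  obtain ⟨M, hM, d, hd⟩ := hg
  refine ⟨fun s => L s * M s, fun s hs => (hL s hs).mul (hM s hs), max c d, fun s hs => ?_⟩
  simp only [hc s ((le_max_left _ _).trans_lt hs), hd s ((le_max_right _ _).trans_lt hs)]

theorem Ext.inv {q : ℝ} {f : ℂ → ℂ} (hf : Ext q f) : Ext q (fun s => (f s)⁻¹) := by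
  obtain ⟨L, hL, c, hc⟩ := hf
  refine ⟨fun s => (L s)⁻¹, fun s hs => (hL s hs).inv, c, fun s hs => ?_⟩
  simp only [hc s hs]

theorem Ext.div {q : ℝ} {f g : ℂ → ℂ} (hf : Ext q f) (hg : Ext q g) :
    Ext q (fun s => f s / g s) := by
  simp only [div_eq_mul_inv]
  exact hf.mul hg.inv

theorem Ext.const (q : ℝ) (a : ℂ) : Ext q (fun _ => a) :=
  ⟨fun _ => a, fun _ _ => MeromorphicAt.const _ _, 0, fun _ _ => rfl⟩

theorem Ext.prod {q : ℝ} {J : Type*} (t : Finset J) {f : J → ℂ → ℂ} (hf : ∀ j ∈ t, Ext q (f j)) :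
    Ext q (fun s => ∏ j ∈ t, f j s) := by
  classical
  induction t using Finset.induction_on with
  | empty => simpa using Ext.const q 1
  | insert a t ha ih =>
    simp only [Finset.prod_insert ha]
    exact (hf a (Finset.mem_insert_self a t)).mul
      (ih fun j hj => hf j (Finset.mem_insert_of_mem hj))

theorem Ext.congr {q : ℝ} {f g : ℂ → ℂ} (hf : Ext q f) {c : ℝ}
    (h : ∀ s : ℂ, c < s.re → f s = g s) : Ext q g := by
  obtain ⟨L, hL, d, hd⟩ := hf
  refine ⟨L, hL, max c d, fun s hs => ?_⟩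
  rw [hd s ((le_max_right _ _).trans_lt hs), h s ((le_max_left _ _).trans_lt hs)]

theorem mero_shift {L : ℂ → ℂ} {s a : ℂ} (h : MeromorphicAt L (s + a)) :
    MeromorphicAt (fun z => L (z + a)) s := by
  have := h.comp_analyticAt (g := fun z : ℂ => z + a) (analyticAt_id.add analyticAt_const)
  exact this

/-- shift by a complex number -/
theorem Ext.shift {q : ℝ} {f : ℂ → ℂ} (hf : Ext q f) (a : ℂ) :
    Ext (q - a.re) (fun s => f (s + a)) := by
  obtain ⟨L, hL, c, hc⟩ := hf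
  refine ⟨fun s => L (s + a), fun s hs => mero_shift (hL _ ?_), c - a.re, fun s hs => ?_⟩
  · rw [mem_HP] at hs ⊢
    rw [add_re]
    linarith
  · refine hc _ ?_
    rw [add_re]
    linarith

theorem Ext.ishift {q : ℝ} {f : ℂ → ℂ} (hf : Ext q f) (t : ℝ) :
    Ext q (fun s => f (s + t * I)) := by
  have := hf.shift ((t : ℂ) * I)
  have h0 : ((t : ℂ) * I).re = 0 := by simp
  rwa [h0, sub_zero] at this

theorem Ext.ishift_iff {q : ℝ} {f : ℂ → ℂ} (t : ℝ) :
    Ext q (fun s => f (s + t * I)) ↔ Ext q f := by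
  refine ⟨fun h => ?_, fun h => h.ishift t⟩
  have := h.ishift (-t)
  refine this.congr (c := 0) fun s _ => ?_
  congr 1
  push_cast
  ring

/-- the infimum is attained -/
theorem Ext.of_seq {q : ℝ} {f : ℂ → ℂ} {c : ℝ} (hf : ∀ s : ℂ, c < s.re → AnalyticAt ℂ f s)
    (h : ∀ q' : ℝ, q < q' → Ext q' f) : Ext q f := by
  choose! M hM1 hM2 using fun q' (hq' : q < q') => (h q' hq').exact hf
  obtain ⟨N, hN⟩ := mero_glue (κ := {q' : ℝ // q < q'}) (V := fun q' => HP q'.1)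
    (fun q' => isOpen_HP q'.1) (L := fun q' => M q'.1) (fun q' => hM1 q'.1 q'.2) (by
      intro i j s hi hj
      obtain ⟨s₀, h1, h2⟩ := exists_re_gt (max i.1 j.1) c
      refine mero_identity (V := HP (max i.1 j.1)) (preconn_HP _)
        (fun z hz => hM1 i.1 i.2 z (HP_mono (le_max_left _ _) hz))
        (fun z hz => hM1 j.1 j.2 z (HP_mono (le_max_right _ _) hz)) (s₀ := s₀) h1 ?_ s
        (mem_HP.2 (max_lt (mem_HP.1 hi) (mem_HP.1 hj)))
      refine mem_nhdsWithin_of_mem_nhds ?_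
      filter_upwards [(isOpen_HP c).mem_nhds h2] with z hz
      simp only [hM2 i.1 i.2 z hz, hM2 j.1 j.2 z hz])
  obtain ⟨s₀, h1, h2⟩ := exists_re_gt (q + 1) c
  have hq1 : q < q + 1 := by linarith
  refine Ext.of_germ (L := N) (s₀ := s₀) hf ?_ h2 (hq1.trans h1) ?_
  · intro s hs
    rw [mem_HP] at hs
    exact (hN ⟨(q + s.re) / 2, by linarith⟩ s (by
      change (q + s.re) / 2 < s.re
      linarith)).1
  · refine (hN ⟨q + 1, hq1⟩ s₀ h1).2.trans ?_
    refine mem_nhdsWithin_of_mem_nhds ?_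
    filter_upwards [(isOpen_HP c).mem_nhds h2] with z hz
    exact hM2 (q + 1) hq1 z hz

/-- continuation to all half-planes is continuation to the plane -/
theorem ExtAll.of_forall {f : ℂ → ℂ} {c : ℝ} (hf : ∀ s : ℂ, c < s.re → AnalyticAt ℂ f s)
    (h : ∀ q : ℝ, Ext q f) : ExtAll f := by
  choose M hM1 hM2 using fun q' => (h q').exact hf
  obtain ⟨N, hN⟩ := mero_glue (V := fun q' => HP q')
    (fun q' => isOpen_HP q') (L := fun q' => M q') (fun q' => hM1 q') (by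
      intro i j s hi hj
      obtain ⟨s₀, h1, h2⟩ := exists_re_gt (max i j) c
      refine mero_identity (V := HP (max i j)) (preconn_HP _)
        (fun z hz => hM1 i z (HP_mono (le_max_left _ _) hz))
        (fun z hz => hM1 j z (HP_mono (le_max_right _ _) hz)) (s₀ := s₀) h1 ?_ s
        (mem_HP.2 (max_lt (mem_HP.1 hi) (mem_HP.1 hj)))
      refine mem_nhdsWithin_of_mem_nhds ?_
      filter_upwards [(isOpen_HP c).mem_nhds h2] with z hz
      simp only [hM2 i z hz, hM2 j z hz])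
  classical
  have hNm : Meromorphic N := fun s => (hN (s.re - 1) s (by
    change s.re - 1 < s.re
    linarith)).1
  refine ⟨fun s => if c < s.re then f s else N s, fun s => ?_, c, fun s hs => by simp [hs]⟩
  refine (hNm s).congr ?_
  have e1 : ∀ᶠ z in 𝓝[≠] s, z ∈ HP (s.re - 1) :=
    mem_nhdsWithin_of_mem_nhds ((isOpen_HP _).mem_nhds (by
      change s.re - 1 < s.re
      linarith))
  filter_upwards [(hNm s).eventually_analyticAt] with z hz2
  split_ifs with hz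
  · refine eq_of_nhdsNE hz2.continuousAt (hf z hz).continuousAt ?_
    refine (hN (z.re - 1) z (by
      change z.re - 1 < z.re
      linarith)).2.trans ?_
    refine mem_nhdsWithin_of_mem_nhds ?_
    filter_upwards [(isOpen_HP c).mem_nhds hz] with w hw
    exact hM2 _ w hw
  · rfl

end Run7.h456
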