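import Pool.Agent.Run7.h456.Mero
import Pool.Agent.Run7.h456.Taylor

set_option autoImplicit false

/-!
# Local continuation across a vertical line from bounds for the quotients by the shifts
-/

namespace Run7.h456

open Filter Topology Complex Set Metric

theorem ball_sub_HP {x : ℂ} {σ ρ : ℝ} (hx : x.re = σ + ρ / 2) : ball x (ρ / 2) ⊆ HP σ := by
  intro z hz
  rw [mem_ball, dist_eq_norm] at hz
  have h1 := (abs_le.1 ((abs_re_le_norm (z - x)).trans hz.le)).1
  have h2 : |(z - x).re| < ρ / 2 := (abs_re_le_norm (z - x)).trans_lt hz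
  have h3 := (abs_lt.1 h2).1
  rw [sub_re] at h3
  rw [mem_HP]
  linarith

section

variable {L : ℂ → ℂ} {σ ρ a b M : ℝ} {x : ℂ} {T : ℝ → ℕ → ℂ}

/-- the sum of the series with the coefficients averaged over `[a, b]` -/
theorem avg_bound (hab : a ≤ b) (hTb : ∀ h ∈ Icc a b, ∀ k, ‖T h k‖ ≤ M / ρ ^ k) (k : ℕ) :
    ‖∫ h in a..b, T h k‖ ≤ (M * (b - a)) / ρ ^ k := by
  have := intervalIntegral.norm_integral_le_of_norm_le_const (a := a) (b := b)
    (f := fun h => T h k) (C := M / ρ ^ k) (fun h hh => by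
      rw [uIoc_of_le hab] at hh
      exact hTb h (Ioc_subset_Icc_self hh) k)
  rw [abs_of_nonneg (by linarith)] at this
  calc ‖∫ h in a..b, T h k‖ ≤ M / ρ ^ k * (b - a) := this
    _ = (M * (b - a)) / ρ ^ k := by ring

theorem avg_eq (hρ : 0 < ρ) (hab : a < b) (hTc : ∀ k, Continuous fun h => T h k)
    (hTb : ∀ h ∈ Icc a b, ∀ k, ‖T h k‖ ≤ M / ρ ^ k) {z : ℂ} (hz : z ∈ ball x (ρ / 2)) :
    ∑' k, (∫ h in a..b, T h k) * (z - x) ^ k = ∫ h in a..b, ∑' k, T h k * (z - x) ^ k := by
  have hM : 0 ≤ M := by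
    have := (norm_nonneg _).trans (hTb a (left_mem_Icc.2 hab.le) 0)
    simpa using this
  rw [mem_ball, dist_eq_norm] at hz
  have h1 : ∑' k, ∫ h in a..b, T h k * (z - x) ^ k = ∫ h in a..b, ∑' k, T h k * (z - x) ^ k := by
    refine (intervalIntegral.hasSum_integral_of_dominated_convergence
      (fun k _ => M * (‖z - x‖ / ρ) ^ k) ?_ ?_ ?_ ?_ ?_).tsum_eq
    · intro k
      exact ((hTc k).mul continuous_const).aestronglyMeasurable
    · intro k
      refine Eventually.of_forall fun h hh => ?_
      rw [uIoc_of_le hab.le] at hh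
      rw [norm_mul, norm_pow, div_pow]
      calc ‖T h k‖ * ‖z - x‖ ^ k ≤ M / ρ ^ k * ‖z - x‖ ^ k := by
            gcongr
            exact hTb h (Ioc_subset_Icc_self hh) k
        _ = M * (‖z - x‖ ^ k / ρ ^ k) := by ring
    · refine Eventually.of_forall fun h _ => ?_
      refine (summable_geometric_of_lt_one (by positivity) ?_).mul_left M
      rw [div_lt_one hρ]
      linarith
    · exact intervalIntegrable_const
    · refine Eventually.of_forall fun h hh => ?_
      rw [uIoc_of_le hab.le] at hh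
      refine (psum_summable hρ (hTb h (Ioc_subset_Icc_self hh)) ?_).hasSum
      rw [mem_ball, dist_eq_norm]
      linarith
  rw [← h1]
  refine tsum_congr fun k => ?_
  rw [intervalIntegral.integral_mul_const]

/-- the differential equation near the centre -/
theorem ode_near (hρ : 0 < ρ) (hab : a < b) (hb : b - a < ρ / 4) (hx : x.re = σ + ρ / 2)
    (hTc : ∀ k, Continuous fun h => T h k)
    (hTb : ∀ h ∈ Icc a b, ∀ k, ‖T h k‖ ≤ M / ρ ^ k)
    (hL : ∀ z ∈ HP σ, dist z x < ρ → AnalyticAt ℂ L z ∧ L z ≠ 0)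
    (hL' : ∀ z ∈ HP σ, dist z (x + a * I) < ρ → AnalyticAt ℂ L z)
    (hS : ∀ h ∈ Icc a b, ∀ z ∈ ball x (ρ / 2),
      HasSum (fun k => T h k * (z - x) ^ k) (L (z + h * I) / L z)) {z : ℂ}
    (hz : z ∈ ball x (ρ / 4)) :
    deriv L z * (∑' k, (∫ h in a..b, T h k) * (z - x) ^ k) +
      L z * deriv (fun w => ∑' k, (∫ h in a..b, T h k) * (w - x) ^ k) z +
      I * (L z * ((∑' k, T b k * (z - x) ^ k) - ∑' k, T a k * (z - x) ^ k)) = 0 := by
  set A : ℂ → ℂ := fun w => ∑' k, (∫ h in a..b, T h k) * (w - x) ^ k with hA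
  have hsub : ball x (ρ / 4) ⊆ ball x (ρ / 2) := ball_subset_ball (by linarith)
  have hHP : ball x (ρ / 2) ⊆ HP σ := ball_sub_HP hx
  have hx' : (x + a * I).re = σ + ρ / 2 := by simp [hx]
  have hHP' : ball (x + a * I) (ρ / 2) ⊆ HP σ := ball_sub_HP hx'
  have hdist : ∀ w ∈ ball x (ρ / 4), ∀ h ∈ Icc a b, w + h * I ∈ ball (x + a * I) (ρ / 2) := by
    intro w hw h hh
    rw [mem_ball, dist_eq_norm] at hw ⊢
    have e : w + h * I - (x + a * I) = (w - x) + ((h - a : ℝ) : ℂ) * I := by
      push_cast
      ring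
    rw [e]
    refine (norm_add_le _ _).trans_lt ?_
    rw [norm_mul, norm_I, mul_one, Complex.norm_real, Real.norm_eq_abs,
      abs_of_nonneg (by linarith [hh.1])]
    linarith [hh.2]
  -- a primitive
  have hLd : DifferentiableOn ℂ L (ball (x + a * I) (ρ / 2)) := by
    intro w hw
    refine (hL' w (hHP' hw) ?_).differentiableAt.differentiableWithinAt
    rw [mem_ball] at hw
    linarith
  obtain ⟨P, hP⟩ := hLd.isExactOn_ball
  have hLA : ∀ w ∈ ball x (ρ / 4), L w * A w = -I * (P (w + b * I) - P (w + a * I)) := by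
    intro w hw
    have hw2 := hsub hw
    have hLw : L w ≠ 0 := by
      refine (hL w (hHP hw2) ?_).2
      rw [mem_ball] at hw
      linarith
    have h1 : A w = ∫ h in a..b, L (w + h * I) / L w := by
      rw [hA]
      simp only
      rw [avg_eq hρ hab hTc hTb hw2]
      refine intervalIntegral.integral_congr fun h hh => ?_
      rw [uIcc_of_le hab.le] at hh
      exact (hS h hh w hw2).tsum_eq
    have h2 : ∀ h ∈ uIcc a b, HasDerivAt (fun h : ℝ => P (w + h * I)) (L (w + h * I) * I) h := by
      intro h hh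
      rw [uIcc_of_le hab.le] at hh
      have h3 := hP _ (hdist w hw h hh)
      have h4 : HasDerivAt (fun t : ℝ => w + (t : ℂ) * I) I h := by
        have := ((Complex.ofRealCLM.hasDerivAt (x := h)).mul_const I).const_add w
        simpa using this
      exact h3.comp h h4
    have h5 : ContinuousOn (fun h : ℝ => L (w + h * I) * I) (uIcc a b) := by
      intro h hh
      rw [uIcc_of_le hab.le] at hh
      have h6 := hdist w hw h hh
      have h7 : ContinuousAt L (w + h * I) := by
        refine (hL' _ (hHP' h6) ?_).continuousAt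
        rw [mem_ball] at h6
        linarith
      refine ContinuousAt.continuousWithinAt ?_
      refine ContinuousAt.mul ?_ continuousAt_const
      exact ContinuousAt.comp (f := fun h : ℝ => w + (h : ℂ) * I) h7 (by fun_prop)
    have h8 := intervalIntegral.integral_eq_sub_of_hasDerivAt h2 h5.intervalIntegrable
    rw [intervalIntegral.integral_mul_const] at h8
    rw [h1, intervalIntegral.integral_div, mul_div_cancel₀ _ hLw, ← h8]
    have : I * I = -1 := I_mul_I
    linear_combination (∫ h in a..b, L (w + h * I)) * this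
  have hzA : HasDerivAt A (deriv A z) z := by
    have h1 := psum_diffOn hρ (avg_bound hab.le hTb) x
    refine (h1.differentiableAt (isOpen_ball.mem_nhds ?_)).hasDerivAt
    exact ball_subset_ball (by linarith) hz
  have hz2 := hsub hz
  have hzL : HasDerivAt L (deriv L z) z := by
    refine (hL z (hHP hz2) ?_).1.differentiableAt.hasDerivAt
    rw [mem_ball] at hz
    linarith
  have hd1 := hzL.mul hzA
  have hd2 : HasDerivAt (fun w => -I * (P (w + b * I) - P (w + a * I)))
      (-I * (L (z + b * I) - L (z + a * I))) z := by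
    have e1 := (hP _ (hdist z hz b (right_mem_Icc.2 hab.le))).comp_add_const z (b * I)
    have e2 := (hP _ (hdist z hz a (left_mem_Icc.2 hab.le))).comp_add_const z (a * I)
    exact (e1.sub e2).const_mul _
  have hev : (fun w => L w * A w) =ᶠ[𝓝 z] fun w => -I * (P (w + b * I) - P (w + a * I)) := by
    filter_upwards [isOpen_ball.mem_nhds hz] with w hw
    exact hLA w hw
  have hd3 : deriv L z * A z + L z * deriv A z = -I * (L (z + b * I) - L (z + a * I)) :=
    HasDerivAt.unique (hd1.congr_of_eventuallyEq hev.symm) hd2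
  have hLz : L z ≠ 0 := by
    refine (hL z (hHP hz2) ?_).2
    rw [mem_ball] at hz
    linarith
  have hb1 := (hS b (right_mem_Icc.2 hab.le) z hz2).tsum_eq
  have ha1 := (hS a (left_mem_Icc.2 hab.le) z hz2).tsum_eq
  rw [hb1, ha1, hd3]
  field_simp
  ring

end

end Run7.h456
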