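import Pool.Agent.Run7.h456.Defs3
import Pool.Agent.Run7.h456.Comp4

set_option autoImplicit false

/-!
# Continuation of spin L-functions to half-planes
-/

namespace Run7.h456

open Filter Topology Complex MeasureTheory

section

variable {ι : Type} [Fintype ι] {S : Finset ℕ} {t₀ : ℕ → ℂ} {t : ℕ → ι → ℂ}
  {ρ : Multiset (Weight ι)} {q : ℝ}

theorem continuesTo_iff_meul (h : ∀ w ∈ ρ, Tame (vl t₀ t w)) :
    ContinuesTo q S t₀ t ρ ↔ Ext q (meul S (vl t₀ t) ρ) := by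
  obtain ⟨B, hB⟩ := vl_bound S h
  have key : ∀ s : ℂ, B + 1 < s.re → HasProd (fun p : {p : ℕ // p.Prime ∧ p ∉ S} =>
      (ρ.map fun w => (1 - (t₀ p ^ w.1 * ∏ i, t p i ^ w.2 i) * ((p : ℕ) : ℂ) ^ (-s))⁻¹).prod)
      (meul S (vl t₀ t) ρ s) := fun s hs => meul_hasProd (x := vl t₀ t) hB hs
  constructor
  · rintro ⟨L, hL, c, hc⟩
    refine ⟨L, hL, max c (B + 1), fun s hs => ?_⟩
    exact (hc s ((le_max_left _ _).trans_lt hs)).unique (key s ((le_max_right _ _).trans_lt hs))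
  · rintro ⟨L, hL, c, hc⟩
    refine ⟨L, hL, max c (B + 1), fun s hs => ?_⟩
    rw [hc s ((le_max_left _ _).trans_lt hs)]
    exact key s ((le_max_right _ _).trans_lt hs)

theorem Ext.of_mero {f : ℂ → ℂ} (hf : Meromorphic f) (q : ℝ) : Ext q f :=
  (ExtAll.of_mero hf).ext q

theorem meul_subset_ext {Ω : Type*} {x : Ω → ℕ → ℂ} {ρ : Multiset Ω} {S S' : Finset ℕ}
    (h : S ⊆ S') (ht : ∀ w ∈ ρ, Tame (x w)) :
    Ext q (meul S x ρ) ↔ Ext q (meul S' x ρ) := by
  obtain ⟨B, hB⟩ := bound_multiset (S := S) (x := x) ρ fun w hw => (ht w hw).bound S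
  constructor
  · intro h1
    refine (h1.mul (Ext.of_mero (finE_mero (S' \ S) x ρ) q).inv).congr (c := B + 1)
      fun s hs => ?_
    obtain ⟨h2, h3⟩ := meul_subset h hB hs
    rw [h2, mul_inv_cancel_right₀ h3]
  · intro h1
    refine (h1.mul (Ext.of_mero (finE_mero (S' \ S) x ρ) q)).congr (c := B + 1) fun s hs => ?_
    exact (meul_subset h hB hs).1.symm

theorem continuesTo_indep (S S' : Finset ℕ) (h : ∀ w ∈ ρ, Tame (vl t₀ t w)) :
    ContinuesTo q S t₀ t ρ ↔ ContinuesTo q S' t₀ t ρ := by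
  classical
  rw [continuesTo_iff_meul h, continuesTo_iff_meul h,
    meul_subset_ext (Finset.subset_union_left (s₁ := S) (s₂ := S')) h,
    ← meul_subset_ext (Finset.subset_union_right (s₁ := S) (s₂ := S')) h]

theorem continuesTo_iff_LX (h : ∀ w ∈ ρ, Tame (vl t₀ t w)) :
    ContinuesTo q S t₀ t ρ ↔ Ext q (LX (xr S t₀ t ρ)) := by
  rw [continuesTo_iff_meul h]
  obtain ⟨B, hB⟩ := vl_bound S h
  obtain ⟨-, c, hc⟩ := LX_multiset hB
  exact ⟨fun h1 => h1.congr fun s hs => (hc s hs).symm, fun h1 => h1.congr fun s hs => hc s hs⟩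

theorem Continues.to {S : Finset ℕ} (h : Continues S t₀ t ρ) (q : ℝ) :
    ContinuesTo q S t₀ t ρ := by
  obtain ⟨L, hL, hc⟩ := h
  exact ⟨L, fun s _ => hL s, hc⟩

end

variable {C : Classes} {S : Finset ℕ}

/-- the index set of the constituents -/
def JJ (D : CuspidalDatum C) : Finset (Fin D.k → ℕ) :=
  Fintype.piFinset fun j => Finset.range (D.a j + 1)

theorem mem_JJ {D : CuspidalDatum C} {ε : Fin D.k → ℕ} : ε ∈ JJ D ↔ ∀ j, ε j ≤ D.a j := by
  unfold JJ
  rw [Fintype.mem_piFinset]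
  simp only [Finset.mem_range, Nat.lt_succ_iff]

theorem linD_eq' (D : CuspidalDatum C) (ε : Fin D.k → ℕ) (x y : Fin D.k → ℝ) :
    -(∑ j, (D.a j : ℂ) * (x j + y j * I)) / 2 + ∑ j, (ε j : ℂ) * (x j + y j * I) =
      (linD D ε x : ℝ) + (linD D ε y : ℝ) * I := by
  rw [linD_apply, linD_apply]
  push_cast
  rw [Finset.sum_mul, neg_div, Finset.sum_div, ← Finset.sum_neg_distrib,
    ← Finset.sum_add_distrib, ← Finset.sum_add_distrib]
  refine Finset.sum_congr rfl fun j _ => ?_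
  ring

theorem cons_absc_le (D : CuspidalDatum C) (ε : Fin D.k → ℕ) : ∃ B : ℝ,
    (∀ s : ℂ, B < s.re → AnalyticAt ℂ (LX (cons S D ε)) s ∧ LX (cons S D ε) s ≠ 0) := by
  obtain ⟨B, hB⟩ := mem_BB.1 (cons_BB (S := S) D ε)
  exact ⟨B + 1, LX_good hB⟩

/-- **The dominating constituent.** -/
theorem datum_abs (D : CuspidalDatum C) {S₁ : Finset ℕ} {q : ℝ} {x y : Fin D.k → ℝ}
    (h : ContinuesTo q S₁ (D.t₀ (-(∑ j, (D.a j : ℂ) * (x j + y j * I)) / 2))
      (D.t fun j => x j + y j * I) (spin D.Index)) (S : Finset ℕ) {e : Fin D.k → ℕ}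
    (he : e ∈ JJ D) {β : ℝ} (hβ : absc (LX (cons S D e)) = β)
    (hmax : ∀ ε ∈ JJ D, ε ≠ e →
      absc (LX (cons S D ε)) < ((β - linD D e x + linD D ε x : ℝ) : EReal)) :
    β - linD D e x ≤ q := by
  choose B hB using fun ε => mem_BB.1 (cons_BB (S := S) D ε)
  set g : (Fin D.k → ℕ) → ℂ → ℂ := fun ε s => LX (cons S D ε) (s + ((linD D ε x : ℝ) : ℂ)) with hg
  set c : ℝ := 1 + ∑ ε ∈ JJ D, (|B ε| + |linD D ε x|) with hc
  have hgood : ∀ ε ∈ JJ D, GoodAt c (g ε) := by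
    intro ε hε
    refine GoodAt.mono ?_ ((LX_good (hB ε)).shift ((linD D ε x : ℝ) : ℂ))
    have h1 : |B ε| + |linD D ε x| ≤ ∑ ε ∈ JJ D, (|B ε| + |linD D ε x|) :=
      Finset.single_le_sum (f := fun ε => |B ε| + |linD D ε x|)
        (fun _ _ => add_nonneg (abs_nonneg _) (abs_nonneg _)) hε
    rw [ofReal_re]
    linarith [le_abs_self (B ε), neg_abs_le (linD D ε x)]
  have habs : ∀ ε, absc (g ε) = absc (LX (cons S D ε)) - (linD D ε x : ℝ) := by
    intro ε
    have h1 := absc_shift (fun s hs => (LX_good (hB ε) s hs).1) ((linD D ε x : ℝ) : ℂ)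
    rwa [ofReal_re] at h1
  have hcont : Ext q (fun s => ∏ ε ∈ JJ D, g ε (s + (linD D ε y : ℝ) * I)) := by
    have ht : ∀ w ∈ spin D.Index, Tame (vl (D.t₀ (-(∑ j, (D.a j : ℂ) * (x j + y j * I)) / 2))
        (D.t fun j => x j + y j * I) w) := fun w _ => vl_tame (D.tame_t₀ _) (D.tame_t _) w
    rw [continuesTo_indep S₁ S ht, continuesTo_iff_LX ht, spin_datum] at h
    obtain ⟨c', hc'⟩ := LX_sum (S := S) (JJ D) (x := fun ε => cons S D ε *
      sh S (-(∑ j, (D.a j : ℂ) * (x j + y j * I)) / 2 + ∑ j, (ε j : ℂ) * (x j + y j * I)))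
      fun ε _ => mem_BB.1 ((BB S).mul_mem (cons_BB D ε) (sh_BB _))
    refine h.congr (c := c') fun s hs => ?_
    have h2 := hc' s hs
    unfold cons JJ at h2
    rw [h2]
    refine Finset.prod_congr rfl fun ε _ => ?_
    rw [LX_shift, linD_eq']
    simp only [hg, cons]
    congr 1
    ring
  have h2 := (absc_law (V := Fin D.k → ℝ) volume (JJ D) hgood (l := linD D)
    (fun ε _ ε' _ hne heq => hne (linD_inj D heq))).2.1 e he (by
      intro ε hε hne
      rw [habs, habs, hβ]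
      have h3 := hmax ε hε hne
      rw [← EReal.coe_sub]
      refine (EReal.sub_lt_iff (Or.inl (EReal.coe_ne_bot _)) (Or.inl (EReal.coe_ne_top _))).2 ?_
      rw [← EReal.coe_add]
      exact h3) y
  have h4 : absc (fun s => ∏ ε ∈ JJ D, g ε (s + (linD D ε y : ℝ) * I)) ≤ q := by
    rw [absc_le_iff (c := c) fun s hs => (GoodAt.prod (JJ D)
      (fun ε hε => (hgood ε hε).ishift (linD D ε y)) s hs).1]
    exact extE_coe.2 hcont
  rw [h2, habs, hβ, ← EReal.coe_sub, EReal.coe_le_coe_iff] at h4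
  exact h4

end Run7.h456
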