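import Mathlib

set_option autoImplicit false

/-!
# Separation of the exponents
-/

namespace Run7.h456

open Filter Topology

theorem exists_positions {κ : Type} [Fintype κ] (a : κ → ℕ) {x : ℕ → ℝ}
    (hx : Tendsto x atTop atTop) (R : ℝ) : ∃ pos : κ → ℕ, Function.Injective pos ∧
      ∀ δ : κ → ℤ, δ ≠ 0 → (∀ j, |δ j| ≤ a j) → R < |∑ j, (δ j : ℝ) * x (pos j)| := by
  classical
  have key : ∀ s : Finset κ, ∃ pos : κ → ℕ, Set.InjOn pos s ∧
      ∀ δ : κ → ℤ, (∃ j ∈ s, δ j ≠ 0) → (∀ j ∈ s, |δ j| ≤ a j) →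
        R < |∑ j ∈ s, (δ j : ℝ) * x (pos j)| := by
    intro s
    induction s using Finset.induction_on with
    | empty =>
      refine ⟨fun _ => 0, ?_, ?_⟩
      · simp
      · rintro δ ⟨j, hj, -⟩
        simp at hj
    | insert j₀ s hj₀ ih =>
      obtain ⟨pos, hinj, hpos⟩ := ih
      obtain ⟨n₀, h1, h2⟩ := ((hx.eventually_gt_atTop
        (|R| + ∑ j ∈ s, (a j : ℝ) * |x (pos j)|)).and
        (eventually_gt_atTop (∑ j ∈ s, pos j))).exists
      have hne : ∀ j ∈ s, j ≠ j₀ := fun j hj h => hj₀ (h ▸ hj)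
      have hupd : ∀ j ∈ s, Function.update pos j₀ n₀ j = pos j := fun j hj =>
        Function.update_of_ne (hne j hj) _ _
      refine ⟨Function.update pos j₀ n₀, ?_, ?_⟩
      · have hle : ∀ j ∈ s, pos j < n₀ := fun j hj =>
          (Finset.single_le_sum (f := pos) (fun _ _ => Nat.zero_le _) hj).trans_lt h2
        intro i hi j hj hij
        rw [Finset.mem_coe, Finset.mem_insert] at hi hj
        rcases hi with rfl | hi <;> rcases hj with rfl | hj
        · rfl
        · rw [Function.update_self, hupd j hj] at hij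
          exact absurd (hle j hj) (by omega)
        · rw [Function.update_self, hupd i hi] at hij
          exact absurd (hle i hi) (by omega)
        · rw [hupd i hi, hupd j hj] at hij
          exact hinj hi hj hij
      · intro δ hδ hδa
        rw [Finset.sum_insert hj₀, Function.update_self]
        have e : ∑ j ∈ s, (δ j : ℝ) * x (Function.update pos j₀ n₀ j) =
            ∑ j ∈ s, (δ j : ℝ) * x (pos j) :=
          Finset.sum_congr rfl fun j hj => by rw [hupd j hj]
        rw [e]
        by_cases h0 : δ j₀ = 0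
        · rw [h0, Int.cast_zero, zero_mul, zero_add]
          refine hpos δ ?_ fun j hj => hδa j (Finset.mem_insert_of_mem hj)
          obtain ⟨j, hj, hjne⟩ := hδ
          rcases Finset.mem_insert.1 hj with rfl | hj
          · exact absurd h0 hjne
          · exact ⟨j, hj, hjne⟩
        · have h3 : |∑ j ∈ s, (δ j : ℝ) * x (pos j)| ≤ ∑ j ∈ s, (a j : ℝ) * |x (pos j)| := by
            refine (Finset.abs_sum_le_sum_abs _ _).trans (Finset.sum_le_sum fun j hj => ?_)
            rw [abs_mul]
            refine mul_le_mul_of_nonneg_right ?_ (abs_nonneg _)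
            have := hδa j (Finset.mem_insert_of_mem hj)
            rw [← Int.cast_abs]
            exact_mod_cast this
          have h4 : (0 : ℝ) ≤ ∑ j ∈ s, (a j : ℝ) * |x (pos j)| :=
            Finset.sum_nonneg fun j _ => mul_nonneg (Nat.cast_nonneg _) (abs_nonneg _)
          have h5 : (1 : ℝ) ≤ |(δ j₀ : ℝ)| := by
            rw [← Int.cast_abs]
            exact_mod_cast Int.one_le_abs h0
          have h6 : x n₀ ≤ |(δ j₀ : ℝ) * x n₀| := by
            rw [abs_mul]
            have h7 : 0 ≤ x n₀ := by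
              have := abs_nonneg R
              linarith
            rw [abs_of_nonneg h7]
            nlinarith
          have h8 := abs_sub_abs_le_abs_sub ((δ j₀ : ℝ) * x n₀)
            (-(∑ j ∈ s, (δ j : ℝ) * x (pos j)))
          rw [abs_neg, sub_neg_eq_add] at h8
          have h9 := le_abs_self R
          linarith
  obtain ⟨pos, h1, h2⟩ := key Finset.univ
  refine ⟨pos, fun i j hij => h1 (by simp) (by simp) hij, fun δ hδ hδa => ?_⟩
  refine h2 δ ?_ fun j _ => hδa j
  by_contra hcon
  push Not at hcon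
  exact hδ (funext fun j => hcon j (Finset.mem_univ j))

/-- **The positions at which one constituent dominates all others.** -/
theorem exists_unique_max {κ : Type} [Fintype κ] [DecidableEq κ] (a : κ → ℕ) {x : ℕ → ℝ}
    (hx : Tendsto x atTop atTop) {β : (κ → ℕ) → EReal}
    (hβ : ∀ ε ∈ Fintype.piFinset fun j => Finset.range (a j + 1), β ε < ⊤) {ε₀ : κ → ℕ}
    (hε₀ : ε₀ ∈ Fintype.piFinset fun j => Finset.range (a j + 1)) (h0 : ⊥ < β ε₀) :
    ∃ pos : κ → ℕ, Function.Injective pos ∧ ∃ e ∈ Fintype.piFinset fun j => Finset.range (a j + 1),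
      ∃ b : ℝ, β e = b ∧ ∀ ε ∈ Fintype.piFinset fun j => Finset.range (a j + 1), ε ≠ e →
        β ε < ((b - ∑ j, ((e j : ℝ) - a j / 2) * x (pos j) +
          ∑ j, ((ε j : ℝ) - a j / 2) * x (pos j) : ℝ) : EReal) := by
  classical
  set J : Finset (κ → ℕ) := Fintype.piFinset fun j => Finset.range (a j + 1) with hJ
  have hJm : ∀ ε, ε ∈ J ↔ ∀ j, ε j ≤ a j := by
    intro ε
    rw [hJ, Fintype.mem_piFinset]
    simp only [Finset.mem_range, Nat.lt_succ_iff]
  set E : Finset (κ → ℕ) := J.filter fun ε => ⊥ < β ε with hE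
  set b : (κ → ℕ) → ℝ := fun ε => (β ε).toReal with hb
  have hbE : ∀ ε ∈ E, β ε = (b ε : EReal) := by
    intro ε hε
    rw [hE, Finset.mem_filter] at hε
    exact (EReal.coe_toReal (hβ ε hε.1).ne hε.2.ne').symm
  obtain ⟨pos, hinj, hpos⟩ := exists_positions a hx (∑ ε ∈ E, |b ε| + ∑ ε ∈ E, |b ε|)
  set lam : (κ → ℕ) → ℝ := fun ε => ∑ j, ((ε j : ℝ) - a j / 2) * x (pos j) with hlam
  obtain ⟨e, he, hmax⟩ := Finset.exists_max_image E (fun ε => b ε - lam ε)
    ⟨ε₀, Finset.mem_filter.2 ⟨hε₀, h0⟩⟩
  have heJ : e ∈ J := (Finset.mem_filter.1 he).1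
  refine ⟨pos, hinj, e, heJ, b e, hbE e he, fun ε hε hne => ?_⟩
  by_cases hε2 : ε ∈ E
  · rw [hbE ε hε2, EReal.coe_lt_coe_iff]
    have h1 := hmax ε hε2
    have h2 : b ε - lam ε ≠ b e - lam e := by
      intro h3
      have h4 := hpos (fun j => (ε j : ℤ) - e j) (by
        intro h5
        apply hne
        funext j
        have := congrFun h5 j
        simp only [Pi.zero_apply] at this
        omega) (by
        intro j
        have h6 := (hJm ε).1 hε j
        have h7 := (hJm e).1 heJ j
        rw [abs_le]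
        omega)
      have h5 : ∑ j, (((ε j : ℤ) - e j : ℤ) : ℝ) * x (pos j) = lam ε - lam e := by
        rw [hlam]
        simp only
        rw [← Finset.sum_sub_distrib]
        refine Finset.sum_congr rfl fun j _ => ?_
        push_cast
        ring
      rw [h5] at h4
      have h6 : lam ε - lam e = b ε - b e := by linarith
      rw [h6] at h4
      have h7 : |b ε| ≤ ∑ ε ∈ E, |b ε| :=
        Finset.single_le_sum (f := fun ε => |b ε|) (fun _ _ => abs_nonneg _) hε2
      have h8 : |b e| ≤ ∑ ε ∈ E, |b ε| :=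
        Finset.single_le_sum (f := fun ε => |b ε|) (fun _ _ => abs_nonneg _) he
      have h9 := abs_sub (b ε) (b e)
      linarith
    have h3 := lt_of_le_of_ne h1 h2
    have e1 : ∑ j, ((e j : ℝ) - a j / 2) * x (pos j) = lam e := rfl
    have e2 : ∑ j, ((ε j : ℝ) - a j / 2) * x (pos j) = lam ε := rfl
    rw [e1, e2]
    linarith
  · have h1 : β ε = ⊥ := by
      by_contra h2
      exact hε2 (Finset.mem_filter.2 ⟨hε, bot_lt_iff_ne_bot.2 h2⟩)
    rw [h1]
    exact EReal.bot_lt_coe _

/-- an injection into `Fin K` extends to an equivalence with the source enlarged -/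
theorem exists_equiv {A : Type} [Fintype A] {K d : ℕ} {f : A → Fin K} (hf : Function.Injective f)
    (hK : Fintype.card A + d = K) : ∃ e : A ⊕ Fin d ≃ Fin K, ∀ a, e (Sum.inl a) = f a := by
  classical
  have h1 : Fintype.card (Fin d) = Fintype.card ((Set.range f)ᶜ : Set (Fin K)) := by
    rw [Fintype.card_compl_set, Fintype.card_fin, Fintype.card_fin]
    have h2 : Fintype.card (Set.range f) = Fintype.card A :=
      Set.card_range_of_injective hf
    rw [h2]
    omega
  set g : Fin d ≃ ((Set.range f)ᶜ : Set (Fin K)) := Fintype.equivOfCardEq h1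
  refine ⟨(Equiv.sumCongr (Equiv.ofInjective f hf) g).trans (Equiv.Set.sumCompl (Set.range f)),
    fun a => ?_⟩
  simp

end Run7.h456
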