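import Pool.Agent.Run7.h456.One1
import Pool.Agent.Run7.h456.One2

set_option autoImplicit false

/-!
# One twist for every cuspidal datum
-/

namespace Run7.h456

open Filter Topology Complex MeasureTheory

variable {C : Classes} {S : Finset ℕ}

theorem absc_le_of_good {f : ℂ → ℂ} {c : ℝ} (hf : GoodAt c f) : absc f ≤ (c : EReal) := by
  rw [absc_le_iff (c := c) fun s hs => (hf s hs).1]
  exact extE_coe.2 ⟨f, fun s hs => (hf s hs).1.meromorphicAt, 0, fun _ _ => rfl⟩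

/-- the hypothesis: one L-function for every cuspidal datum -/
def OneHyp (C : Classes) (𝒩 : Set ℕ) (x : ℕ → ℝ) (φ : ℝ → ℝ) : Prop :=
  ∀ D : CuspidalDatum C, 0 < D.k → D.rank ∈ 𝒩 → D.CentralTrivial →
    ∃ (y : Fin D.k → ℝ) (S : Finset ℕ),
      ContinuesTo (φ (∑ j, (D.a j : ℝ) * x j / 2)) S
        (D.t₀ (-(∑ j, (D.a j : ℂ) * (x j + y j * I)) / 2)) (D.t fun j => x j + y j * I)
        (spin D.Index)

theorem epw_one (δ : ℕ) (hδ : δ ≤ 1) : epw S (fun _ (_ : Fin 1) => (1 : ℂ)) δ = 1 := by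
  interval_cases δ
  · exact es_zero' _
  · funext a
    simp [epw, es, Finset.powersetCard_one, pwr]

theorem epw_single (ω : ℕ → ℂ) : epw S (fun p (_ : Fin 1) => ω p) 1 = pwr S ω := by
  funext a
  simp [epw, es, Finset.powersetCard_one, pwr]

/-- **All constituents continue.** -/
theorem component_one {𝒩 : Set ℕ} (h𝒩 : 𝒩.Infinite) {x : ℕ → ℝ} (hx : ∀ j, 0 < x j)
    (hx' : Tendsto x atTop atTop) {φ : ℝ → ℝ} (hφ : Tendsto (fun A => A - φ A) atTop atTop)
    (H : OneHyp C 𝒩 x φ) (S : Finset ℕ) {κ : Type} [Fintype κ] {a : κ → ℕ} (ha : ∀ j, 1 ≤ a j)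
    {σ : (j : κ) → ℕ → Fin (a j) → ℂ} (hσ : ∀ j, σ j ∈ C.cuspGL (a j)) {m : ℕ}
    {τ : (ℕ → ℂ) × (ℕ → Fin m → ℂ)} (hτ : τ ∈ C.cuspGSp m) {ε₀ : κ → ℕ}
    (hε₀ : ∀ j, ε₀ j ≤ a j) : (∏ j, epw S (σ j) (ε₀ j)) * rr S τ ∈ GG S := by
  classical
  set X : (κ → ℕ) → PS S × ℕ → ℂ := fun ε => (∏ j, epw S (σ j) (ε j)) * rr S τ with hX
  have hXB : ∀ ε, X ε ∈ BB S := fun ε =>
    (BB S).mul_mem ((BB S).prod_mem fun j _ => epw_BB (C.tame_GL _ _ (hσ j)) _)
      (rr_BB (C.tame_GSp _ _ hτ).1 (C.tame_GSp _ _ hτ).2)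
  choose BX hBX using fun ε => mem_BB.1 (hXB ε)
  by_contra hcon
  change X ε₀ ∉ GG S at hcon
  set J : Finset (κ → ℕ) := Fintype.piFinset fun j => Finset.range (a j + 1) with hJ
  have hJm : ∀ ε, ε ∈ J ↔ ∀ j, ε j ≤ a j := by
    intro ε
    rw [hJ, Fintype.mem_piFinset]
    simp only [Finset.mem_range, Nat.lt_succ_iff]
  set β : (κ → ℕ) → EReal := fun ε => absc (LX (X ε)) with hβ
  have hβtop : ∀ ε ∈ J, β ε < ⊤ := fun ε _ =>
    (absc_le_of_good (LX_good (hBX ε))).trans_lt (EReal.coe_lt_top _)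
  have h0 : ⊥ < β ε₀ := by
    rw [bot_lt_iff_ne_bot]
    intro h1
    refine hcon ⟨⟨_, hBX ε₀⟩, ?_⟩
    rw [← extE_bot, ← absc_le_iff (c := BX ε₀ + 1) fun s hs => (LX_good (hBX ε₀) s hs).1]
    exact h1.le
  obtain ⟨pos, hinj, e, he, b, hb, hmax⟩ :=
    exists_unique_max a hx' (β := β) hβtop ((hJm ε₀).2 hε₀) h0
  rw [← hJ] at he hmax
  -- the central character
  set ω : ℕ → ℂ := fun p => (τ.1 p ^ 2 * (∏ i, τ.2 p i) * ∏ j, ∏ i, σ j p i)⁻¹ with hω
  have hcen : IsHecke fun p => τ.1 p ^ 2 * (∏ i, τ.2 p i) * ∏ j, ∏ i, σ j p i :=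
    (C.central_GSp _ _ hτ).mul (IsHecke.prod Finset.univ fun j _ => C.central_GL _ _ (hσ j))
  have hωH : IsHecke ω := hcen.inv
  have hωB : pwr S ω ∈ BB S := pwr_BB (C.tame_GL 1 _ (C.hecke ω hωH) 0)
  choose Bω hBω using fun ε => mem_BB.1 ((BB S).mul_mem (hXB ε) hωB)
  set lam : (κ → ℕ) → ℝ := fun ε => ∑ j, ((ε j : ℝ) - a j / 2) * x (pos j) with hlam
  set Λ : ℝ := ∑ ε ∈ J, |lam ε| with hΛ
  set cω : ℝ := ∑ ε ∈ J, |Bω ε| + 1 with hcω
  obtain ⟨i₀, hi₀1, hi₀2⟩ := ((hx'.eventually_gt_atTop (cω + Λ + |b - lam e|)).and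
    (eventually_gt_atTop (∑ j, pos j))).exists
  set A₀ : ℝ := ∑ j, (a j : ℝ) * x (pos j) / 2 with hA₀
  obtain ⟨A₁, hA₁⟩ := eventually_atTop.1 (hφ.eventually_gt_atTop (A₀ - b + lam e))
  obtain ⟨n₁, hn₁⟩ := eventually_atTop.1 (hx'.eventually_ge_atTop (2 * A₁))
  obtain ⟨N, hN, hNlt⟩ := h𝒩.exists_gt (∑ j, a j + m + (i₀ + n₁ + 2))
  set d : ℕ := N - (∑ j, a j + m + 1) with hd
  have hdi : i₀ + n₁ + 1 < d := by omega
  set K : ℕ := Fintype.card (κ ⊕ Unit) + d with hK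
  have hpos : ∀ j, pos j < i₀ := fun j =>
    (Finset.single_le_sum (f := pos) (fun _ _ => Nat.zero_le _) (Finset.mem_univ j)).trans_lt hi₀2
  have hdK : d ≤ K := by omega
  set f : κ ⊕ Unit → Fin K := Sum.elim (fun j => ⟨pos j, by have := hpos j; omega⟩)
    fun _ => ⟨i₀, by omega⟩ with hf
  have hfinj : Function.Injective f := by
    rintro (i | i) (j | j) hij
    · simp only [hf, Sum.elim_inl, Fin.mk.injEq] at hij
      rw [hinj hij]
    · simp only [hf, Sum.elim_inl, Sum.elim_inr, Fin.mk.injEq] at hij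
      have := hpos i
      omega
    · simp only [hf, Sum.elim_inl, Sum.elim_inr, Fin.mk.injEq] at hij
      have := hpos j
      omega
    · rfl
  obtain ⟨eqv, heqv⟩ := exists_equiv hfinj hK.symm
  set a' : ((κ ⊕ Unit) ⊕ Fin d) → ℕ := Sum.elim (Sum.elim a fun _ => 1) fun _ => 1 with ha'
  set σ' : (j : ((κ ⊕ Unit) ⊕ Fin d)) → ℕ → Fin (a' j) → ℂ := fun j => match j with
    | Sum.inl (Sum.inl j) => σ j
    | Sum.inl (Sum.inr _) => fun p _ => ω p
    | Sum.inr _ => fun _ _ => 1 with hσ'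
  have hσ'mem : ∀ j : ((κ ⊕ Unit) ⊕ Fin d), σ' j ∈ C.cuspGL (a' j) := by
    rintro ((j | u) | i)
    · exact hσ j
    · exact C.hecke ω hωH
    · exact C.hecke _ IsHecke.one
  have ha'pos : ∀ j : ((κ ⊕ Unit) ⊕ Fin d), 1 ≤ a' j := by
    rintro ((j | u) | i)
    · exact ha j
    · exact le_rfl
    · exact le_rfl
  let D : CuspidalDatum C :=
    { k := K
      a := fun j => a' (eqv.symm j)
      a_pos := fun j => ha'pos _
      σ := fun j => σ' (eqv.symm j)
      σ_mem := fun j => hσ'mem _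
      m := m
      τ := τ
      τ_mem := hτ }
  have hk : 0 < D.k := by
    change 0 < K
    omega
  have hrank : D.rank ∈ 𝒩 := by
    have : D.rank = N := by
      change ∑ j, a' (eqv.symm j) + m = N
      rw [Equiv.sum_comp eqv.symm a', Fintype.sum_sum_type, Fintype.sum_sum_type]
      simp only [ha', Sum.elim_inl, Sum.elim_inr, Finset.sum_const, Finset.card_univ,
        Fintype.card_fin, smul_eq_mul, mul_one, Fintype.card_unit]
      omega
    rw [this]
    exact hN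
  have hct : D.CentralTrivial := by
    filter_upwards [hcen.ne] with p h1 hp
    change τ.1 p ^ 2 * (∏ i, τ.2 p i) * ∏ j, ∏ i, σ' (eqv.symm j) p i = 1
    rw [Equiv.prod_comp eqv.symm fun j => ∏ i, σ' j p i, Fintype.prod_sum_type,
      Fintype.prod_sum_type]
    have h2 : ∏ u : Unit, ∏ i, σ' (Sum.inl (Sum.inr u)) p i = ω p := by
      change ∏ _u : Unit, ∏ _i : Fin 1, ω p = ω p
      simp
    have h3 : ∏ x : Fin d, ∏ i, σ' (Sum.inr x) p i = 1 := by
      change ∏ _x : Fin d, ∏ _i : Fin 1, (1 : ℂ) = 1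
      simp
    rw [h2, h3, mul_one]
    change τ.1 p ^ 2 * (∏ i, τ.2 p i) * ((∏ j, ∏ i, σ j p i) * ω p) = 1
    rw [← mul_assoc, hω]
    exact mul_inv_cancel₀ (h1 hp)
  obtain ⟨y, S₁, hS₁⟩ := H D hk hrank hct
  -- the constituents of the large datum
  have hcons : ∀ ε : Fin K → ℕ, ε ∈ JJ D → cons S D ε =
      X (fun j => ε (eqv (Sum.inl (Sum.inl j)))) *
        epw S (fun p (_ : Fin 1) => ω p) (ε (eqv (Sum.inl (Sum.inr ())))) := by
    intro ε hε
    unfold cons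
    change (∏ j, epw S (σ' (eqv.symm j)) (ε j)) * rr S τ = _
    have h1 : ∏ j, epw S (σ' (eqv.symm j)) (ε j) = ∏ j : ((κ ⊕ Unit) ⊕ Fin d), epw S (σ' j) (ε (eqv j)) := by
      rw [← Equiv.prod_comp eqv.symm fun j : ((κ ⊕ Unit) ⊕ Fin d) => epw S (σ' j) (ε (eqv j))]
      refine Finset.prod_congr rfl fun j _ => ?_
      rw [Equiv.apply_symm_apply]
    rw [h1, Fintype.prod_sum_type, Fintype.prod_sum_type]
    have h2 : ∏ i : Fin d, epw S (σ' (Sum.inr i)) (ε (eqv (Sum.inr i))) = 1 := by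
      refine Finset.prod_eq_one fun i _ => ?_
      refine epw_one _ ?_
      have h3 := mem_JJ.1 hε (eqv (Sum.inr i))
      change ε (eqv (Sum.inr i)) ≤ a' (eqv.symm (eqv (Sum.inr i))) at h3
      rw [Equiv.symm_apply_apply] at h3
      exact h3
    have h4 : ∏ u : Unit, epw S (σ' (Sum.inl (Sum.inr u))) (ε (eqv (Sum.inl (Sum.inr u)))) =
        epw S (fun p (_ : Fin 1) => ω p) (ε (eqv (Sum.inl (Sum.inr ())))) := by
      change ∏ u : Unit, epw S (fun p (_ : Fin 1) => ω p) (ε (eqv (Sum.inl (Sum.inr u)))) = _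
      simp
    rw [h2, h4, mul_one]
    change (∏ j, epw S (σ j) (ε (eqv (Sum.inl (Sum.inl j))))) * _ * rr S τ = _
    simp only [hX]
    ring
  have hxe1 : ∀ j, ((eqv (Sum.inl (Sum.inl j)) : Fin K) : ℕ) = pos j := by
    intro j
    rw [heqv]
    rfl
  have hxe2 : ((eqv (Sum.inl (Sum.inr ())) : Fin K) : ℕ) = i₀ := by
    rw [heqv]
    rfl
  have hlin : ∀ ε : Fin K → ℕ, linD D ε (fun j => x j) =
      lam (fun j => ε (eqv (Sum.inl (Sum.inl j)))) +
        ((ε (eqv (Sum.inl (Sum.inr ()))) : ℝ) - 1 / 2) * x i₀ +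
        ∑ i : Fin d, ((ε (eqv (Sum.inr i)) : ℝ) - 1 / 2) * x (eqv (Sum.inr i)) := by
    intro ε
    rw [linD_apply]
    change ∑ j : Fin K, ((ε j : ℝ) - a' (eqv.symm j) / 2) * x j = _
    have h1 : ∑ j : Fin K, ((ε j : ℝ) - a' (eqv.symm j) / 2) * x j =
        ∑ j : ((κ ⊕ Unit) ⊕ Fin d), ((ε (eqv j) : ℝ) - a' j / 2) * x (eqv j) := by
      rw [← Equiv.sum_comp eqv fun j : Fin K => ((ε j : ℝ) - a' (eqv.symm j) / 2) * x j]
      refine Finset.sum_congr rfl fun j _ => ?_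
      rw [Equiv.symm_apply_apply]
    rw [h1, Fintype.sum_sum_type, Fintype.sum_sum_type]
    have h2 : ∑ u : Unit, ((ε (eqv (Sum.inl (Sum.inr u))) : ℝ) - a' (Sum.inl (Sum.inr u)) / 2) *
        x (eqv (Sum.inl (Sum.inr u))) = ((ε (eqv (Sum.inl (Sum.inr ()))) : ℝ) - 1 / 2) * x i₀ := by
      rw [Fintype.sum_unique]
      change ((ε (eqv (Sum.inl (Sum.inr ()))) : ℝ) - ((1 : ℕ) : ℝ) / 2) *
        x (eqv (Sum.inl (Sum.inr ()))) = _
      rw [hxe2, Nat.cast_one]
    rw [h2]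
    congr 1
    · congr 1
      simp only [hlam]
      refine Finset.sum_congr rfl fun j _ => ?_
      rw [hxe1]
      rfl
    · refine Finset.sum_congr rfl fun i _ => ?_
      change ((ε (eqv (Sum.inr i)) : ℝ) - ((1 : ℕ) : ℝ) / 2) * x (eqv (Sum.inr i)) = _
      rw [Nat.cast_one]
  -- the dominating constituent
  set e' : Fin K → ℕ := fun j => Sum.elim (Sum.elim e fun _ => 0) (fun _ => 0) (eqv.symm j) with he'
  have he'1 : ∀ j, e' (eqv (Sum.inl (Sum.inl j))) = e j := by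
    intro j
    simp only [he', Equiv.symm_apply_apply, Sum.elim_inl]
  have he'2 : e' (eqv (Sum.inl (Sum.inr ()))) = 0 := by
    simp only [he', Equiv.symm_apply_apply, Sum.elim_inl, Sum.elim_inr]
  have he'3 : ∀ i, e' (eqv (Sum.inr i)) = 0 := by
    intro i
    simp only [he', Equiv.symm_apply_apply, Sum.elim_inr]
  have he'J : e' ∈ JJ D := by
    rw [mem_JJ]
    intro j
    obtain ⟨j', rfl⟩ := eqv.surjective j
    change e' (eqv j') ≤ a' (eqv.symm (eqv j'))
    rw [Equiv.symm_apply_apply]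
    rcases j' with ((j | u) | i)
    · rw [he'1]
      exact (hJm e).1 he j
    · rw [show u = () from rfl, he'2]
      exact Nat.zero_le _
    · rw [he'3]
      exact Nat.zero_le _
  have hcons' : cons S D e' = X e := by
    rw [hcons e' he'J, he'2]
    have h1 : epw S (fun p (_ : Fin 1) => ω p) 0 = 1 := es_zero' _
    rw [h1, mul_one]
    congr 1
    funext j
    exact he'1 j
  have hlin' : linD D e' (fun j => x j) = lam e - x i₀ / 2 -
      ∑ i : Fin d, x (eqv (Sum.inr i)) / 2 := by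
    rw [hlin, he'2]
    have h1 : (fun j => e' (eqv (Sum.inl (Sum.inl j)))) = e := funext he'1
    have h2 : ∑ i : Fin d, ((e' (eqv (Sum.inr i)) : ℝ) - 1 / 2) * x (eqv (Sum.inr i)) =
        -∑ i : Fin d, x (eqv (Sum.inr i)) / 2 := by
      rw [← Finset.sum_neg_distrib]
      refine Finset.sum_congr rfl fun i _ => ?_
      rw [he'3]
      push_cast
      ring
    rw [h1, h2]
    push_cast
    ring
  have hmain := datum_abs D (x := fun j => x j) (y := y) hS₁ S (e := e') he'J (β := b)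
    (by rw [hcons']; exact hb) (by
    intro ε hε hne
    rw [hcons ε hε]
    set ε₁ : κ → ℕ := fun j => ε (eqv (Sum.inl (Sum.inl j))) with hε₁
    have hε₁J : ε₁ ∈ J := by
      rw [hJm]
      intro j
      have h1 := mem_JJ.1 hε (eqv (Sum.inl (Sum.inl j)))
      change ε (eqv (Sum.inl (Sum.inl j))) ≤ a' (eqv.symm (eqv (Sum.inl (Sum.inl j)))) at h1
      rw [Equiv.symm_apply_apply] at h1
      exact h1
    have hω1 : ε (eqv (Sum.inl (Sum.inr ()))) ≤ 1 := by
      have h1 := mem_JJ.1 hε (eqv (Sum.inl (Sum.inr ())))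
      change ε (eqv (Sum.inl (Sum.inr ()))) ≤ a' (eqv.symm (eqv (Sum.inl (Sum.inr ())))) at h1
      rw [Equiv.symm_apply_apply] at h1
      exact h1
    rw [hlin', hlin ε]
    have hsum : ∑ i : Fin d, ((ε (eqv (Sum.inr i)) : ℝ) - 1 / 2) * x (eqv (Sum.inr i)) =
        ∑ i : Fin d, (ε (eqv (Sum.inr i)) : ℝ) * x (eqv (Sum.inr i)) -
          ∑ i : Fin d, x (eqv (Sum.inr i)) / 2 := by
      rw [← Finset.sum_sub_distrib]
      exact Finset.sum_congr rfl fun i _ => by ring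
    rw [hsum]
    have hnn : 0 ≤ ∑ i : Fin d, (ε (eqv (Sum.inr i)) : ℝ) * x (eqv (Sum.inr i)) :=
      Finset.sum_nonneg fun i _ => mul_nonneg (Nat.cast_nonneg _) (hx _).le
    rw [← hε₁]
    have hcase : ε (eqv (Sum.inl (Sum.inr ()))) = 0 ∨ ε (eqv (Sum.inl (Sum.inr ()))) = 1 := by
      omega
    rcases hcase with h1 | h1
    · rw [h1]
      have h2 : epw S (fun p (_ : Fin 1) => ω p) 0 = 1 := es_zero' _
      rw [h2, mul_one]
      change β ε₁ < _
      by_cases h3 : ε₁ = e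
      · -- one of the trivial characters is involved
        have h4 : ∃ i : Fin d, ε (eqv (Sum.inr i)) ≠ 0 := by
          by_contra h5
          push Not at h5
          apply hne
          funext j
          obtain ⟨j', rfl⟩ := eqv.surjective j
          rcases j' with ((j | u) | i)
          · rw [he'1, ← h3]
          · rw [show u = () from rfl, he'2, h1]
          · rw [he'3, h5]
        obtain ⟨i, hi⟩ := h4
        have h5 : 0 < ∑ i : Fin d, (ε (eqv (Sum.inr i)) : ℝ) * x (eqv (Sum.inr i)) := by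
          refine Finset.sum_pos' (fun i _ => mul_nonneg (Nat.cast_nonneg _) (hx _).le)
            ⟨i, Finset.mem_univ i, mul_pos ?_ (hx _)⟩
          exact_mod_cast Nat.pos_of_ne_zero hi
        rw [h3, hb, EReal.coe_lt_coe_iff]
        push_cast
        linarith
      · refine (hmax ε₁ hε₁J h3).trans_le ?_
        rw [EReal.coe_le_coe_iff]
        have e1 : ∑ j, ((e j : ℝ) - a j / 2) * x (pos j) = lam e := rfl
        have e2 : ∑ j, ((ε₁ j : ℝ) - a j / 2) * x (pos j) = lam ε₁ := rfl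
        rw [e1, e2]
        push_cast
        linarith
    · rw [h1, epw_single]
      refine (absc_le_of_good (LX_good (hBω ε₁))).trans_lt ?_
      rw [EReal.coe_lt_coe_iff]
      have h2 : |Bω ε₁| ≤ ∑ ε ∈ J, |Bω ε| :=
        Finset.single_le_sum (f := fun ε => |Bω ε|) (fun _ _ => abs_nonneg _) hε₁J
      have h3 : |lam ε₁| ≤ Λ :=
        Finset.single_le_sum (f := fun ε => |lam ε|) (fun _ _ => abs_nonneg _) hε₁J
      have h4 := le_abs_self (Bω ε₁)
      have h5 := neg_abs_le (lam ε₁)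
      have h6 := neg_abs_le (b - lam e)
      push_cast
      linarith)
  -- the contradiction
  rw [hlin'] at hmain
  have hAN : ∑ j, (D.a j : ℝ) * x j / 2 = A₀ + x i₀ / 2 + ∑ i : Fin d, x (eqv (Sum.inr i)) / 2 := by
    change ∑ j : Fin K, (a' (eqv.symm j) : ℝ) * x j / 2 = _
    have h1 : ∑ j : Fin K, (a' (eqv.symm j) : ℝ) * x j / 2 =
        ∑ j : ((κ ⊕ Unit) ⊕ Fin d), (a' j : ℝ) * x (eqv j) / 2 := by
      rw [← Equiv.sum_comp eqv fun j : Fin K => (a' (eqv.symm j) : ℝ) * x j / 2]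
      refine Finset.sum_congr rfl fun j _ => ?_
      rw [Equiv.symm_apply_apply]
    rw [h1, Fintype.sum_sum_type, Fintype.sum_sum_type]
    congr 1
    · congr 1
      · simp only [hA₀]
        refine Finset.sum_congr rfl fun j _ => ?_
        rw [hxe1]
        rfl
      · rw [Fintype.sum_unique]
        change ((1 : ℕ) : ℝ) * x (eqv (Sum.inl (Sum.inr ()))) / 2 = _
        rw [hxe2, Nat.cast_one, one_mul]
    · refine Finset.sum_congr rfl fun i _ => ?_
      change ((1 : ℕ) : ℝ) * x (eqv (Sum.inr i)) / 2 = _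
      rw [Nat.cast_one, one_mul]
  have hbig : A₁ ≤ ∑ j, (D.a j : ℝ) * x j / 2 := by
    have hK1 : K - 1 < K := by omega
    have h1 : (D.a ⟨K - 1, hK1⟩ : ℝ) * x (K - 1) / 2 ≤ ∑ j, (D.a j : ℝ) * x j / 2 :=
      Finset.single_le_sum (f := fun j : Fin K => (D.a j : ℝ) * x j / 2)
        (fun j _ => div_nonneg (mul_nonneg (Nat.cast_nonneg _) (hx _).le) zero_le_two)
        (Finset.mem_univ (⟨K - 1, hK1⟩ : Fin K))
    have h2 := hn₁ (K - 1) (by omega)
    have h3 : (1 : ℝ) ≤ (D.a ⟨K - 1, hK1⟩ : ℝ) := by exact_mod_cast D.a_pos _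
    have h4 := hx (K - 1)
    nlinarith
  have hfin := hA₁ _ hbig
  rw [hAN] at hfin hmain
  linarith

/-- all spin L-functions continue -/
theorem spinHyp_of_one {𝒩 : Set ℕ} (h𝒩 : 𝒩.Infinite) {x : ℕ → ℝ} (hx : ∀ j, 0 < x j)
    (hx' : Tendsto x atTop atTop) {φ : ℝ → ℝ} (hφ : Tendsto (fun A => A - φ A) atTop atTop)
    (H : OneHyp C 𝒩 x φ) : SpinHyp C Set.univ := by
  intro D hk _ _
  refine ⟨∅, fun hneg => ?_⟩
  have e : {y : Fin D.k → ℝ |
      Continues ∅ (D.t₀ (-(∑ j, (D.a j : ℂ) * y j) / 2 * I)) (D.t fun j => y j * I)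
        (spin D.Index)} = Set.univ := by
    refine Set.eq_univ_of_forall fun y => ?_
    have ht : ∀ w ∈ spin D.Index, Tame (vl (D.t₀ (-(∑ j, (D.a j : ℂ) * y j) / 2 * I))
        (D.t fun j => y j * I) w) := fun w _ => vl_tame (D.tame_t₀ _) (D.tame_t _) w
    change Continues ∅ _ _ _
    rw [continues_iff_LX ht, spin_datum]
    refine ((GG ∅).sum_mem fun ε hε => GG_sh ?_ _).2
    refine component_one h𝒩 hx hx' hφ H ∅ D.a_pos D.σ_mem D.τ_mem fun j => ?_
    have h1 := Fintype.mem_piFinset.1 hε j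
    exact Nat.lt_succ_iff.1 (Finset.mem_range.1 h1)
  rw [e] at hneg
  exact Measure.measure_univ_ne_zero.2 (NeZero.ne _) hneg.1

end Run7.h456
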