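import Pool.Agent.Run7.h456.Defs2

set_option autoImplicit false

/-!
# Dominant shifts: from invariants of a Levi subgroup to invariants of the Weyl group
-/

namespace Run7.h456

variable {n k : ℕ}

/-- an element of the Weyl group -/
def act (g : Equiv.Perm (Fin n)) (R : Fin n → Bool) (w : Weight (Fin n)) : Weight (Fin n) :=
  (w.1, fun i => if R i then w.1 - w.2 (g i) else w.2 (g i))

theorem act_act (g h : Equiv.Perm (Fin n)) (R R' : Fin n → Bool) (w : Weight (Fin n)) :
    act h R' (act g R w) = act (h.trans g) (fun i => xor (R' i) (R (h i))) w := by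
  unfold act
  refine Prod.ext rfl (funext fun i => ?_)
  simp only [Equiv.trans_apply]
  by_cases h1 : R' i = true <;> by_cases h2 : R (h i) = true <;> simp [h1, h2]

theorem act_one (w : Weight (Fin n)) : act 1 (fun _ => false) w = w := by
  unfold act
  simp

/-- conjugate under the Weyl group -/
def Cj (w w' : Weight (Fin n)) : Prop := ∃ g R, w' = act g R w

theorem Cj.refl (w : Weight (Fin n)) : Cj w w := ⟨1, fun _ => false, (act_one w).symm⟩

theorem Cj.trans {w w' w'' : Weight (Fin n)} (h : Cj w w') (h' : Cj w' w'') : Cj w w'' := by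
  obtain ⟨g, R, rfl⟩ := h
  obtain ⟨g', R', rfl⟩ := h'
  exact ⟨_, _, act_act g g' R R' w⟩

theorem Cj.symm {w w' : Weight (Fin n)} (h : Cj w w') : Cj w' w := by
  obtain ⟨g, R, rfl⟩ := h
  refine ⟨g.symm, fun i => R (g.symm i), ?_⟩
  rw [act_act]
  simp only [Bool.xor_self, Equiv.symm_trans_self]
  exact (act_one w).symm

theorem permute_eq (g : Equiv.Perm (Fin n)) (w : Weight (Fin n)) :
    permute g w = act g (fun _ => false) w := by
  unfold permute act
  simp

theorem reflect_eq (i : Fin n) (w : Weight (Fin n)) :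
    reflect i w = act 1 (fun j => decide (j = i)) w := by
  unfold reflect act
  refine Prod.ext rfl (funext fun j => ?_)
  by_cases h : j = i
  · subst h
    simp
  · simp [h]

theorem Cj.permute {w w' : Weight (Fin n)} (g : Equiv.Perm (Fin n)) :
    Cj w (permute g w') ↔ Cj w w' := by
  constructor
  · intro h
    refine h.trans (Cj.symm ⟨g, fun _ => false, permute_eq g w'⟩)
  · intro h
    exact h.trans ⟨g, fun _ => false, permute_eq g w'⟩

theorem Cj.reflect {w w' : Weight (Fin n)} (i : Fin n) :
    Cj w (reflect i w') ↔ Cj w w' := by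
  constructor
  · intro h
    refine h.trans (Cj.symm ⟨1, _, reflect_eq i w'⟩)
  · intro h
    exact h.trans ⟨1, _, reflect_eq i w'⟩

/-- the counts of a Levi invariant multiset -/
theorem LeviInvariant.count_act {b : Fin n → Option (Fin k)} {θ : Multiset (Weight (Fin n))}
    (h : LeviInvariant b θ) {g : Equiv.Perm (Fin n)} {R : Fin n → Bool} (hg : ∀ i, b (g i) = b i)
    (hR : ∀ i, R i = true → b i = none) (w : Weight (Fin n)) : θ.count (act g R w) = θ.count w := by
  have h1 : θ.count (permute g w) = θ.count w := by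
    conv_lhs => rw [← h.1 g hg]
    exact Multiset.count_map_eq_count' _ _ (permute_inj g) w
  have h2 : ∀ i, b i = none → ∀ w, θ.count (reflect i w) = θ.count w := by
    intro i hi w
    conv_lhs => rw [← h.2 i hi]
    exact Multiset.count_map_eq_count' _ _ (reflect_inj i) w
  have h3 : ∀ (s : Finset (Fin n)), (∀ i ∈ s, b i = none) → ∀ w,
      θ.count (act 1 (fun i => decide (i ∈ s)) w) = θ.count w := by
    intro s
    induction s using Finset.induction_on with
    | empty =>
      intro _ w
      simp only [Finset.notMem_empty, decide_false]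
      rw [act_one]
    | insert j s hj ih =>
      intro hs w
      have e : act 1 (fun i => decide (i ∈ insert j s)) w =
          reflect j (act 1 (fun i => decide (i ∈ s)) w) := by
        rw [reflect_eq, act_act]
        congr 1
        funext i
        by_cases hij : i = j
        · subst hij
          simp [hj]
        · simp only [Finset.mem_insert, hij, false_or, Equiv.Perm.coe_one, id_eq, decide_false,
            Bool.false_xor]
          exact decide_eq_decide.2 Iff.rfl
      rw [e, h2 j (hs j (Finset.mem_insert_self j s)),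
        ih (fun i hi => hs i (Finset.mem_insert_of_mem hi))]
  have e : act g R w = act 1 (fun i => decide (i ∈ Finset.univ.filter fun i => R i = true))
      (permute g w) := by
    rw [permute_eq, act_act]
    congr 1
    funext i
    simp
  rw [e, h3 _ (fun i hi => hR i (Finset.mem_filter.1 hi).2), h1]

/-- the dominant shift -/
def nu (b : Fin n → Option (Fin k)) (K : ℤ) (i : Fin n) : ℤ := (b i).elim 0 fun j => ((j : ℕ) + 1) * K

/-- the shifted multiset -/
def shiftW (b : Fin n → Option (Fin k)) (K : ℤ) (θ : Multiset (Weight (Fin n))) :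
    Multiset (Weight (Fin n)) := θ.map fun w => (w.1, fun i => w.2 i + nu b K i)

theorem nu_nonneg {b : Fin n → Option (Fin k)} {K : ℤ} (hK : 0 ≤ K) (i : Fin n) :
    0 ≤ nu b K i := by
  unfold nu
  cases b i with
  | none => simp
  | some j =>
    simp only [Option.elim_some]
    positivity

theorem nu_le {b : Fin n → Option (Fin k)} {K : ℤ} (hK : 0 ≤ K) (i : Fin n) :
    nu b K i ≤ k * K := by
  unfold nu
  cases b i with
  | none =>
    simp only [Option.elim_none]
    positivity
  | some j =>
    simp only [Option.elim_some]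
    have h1 : ((j : ℕ) : ℤ) + 1 ≤ k := by
      have := j.2
      omega
    exact mul_le_mul_of_nonneg_right h1 hK

theorem nu_dvd (b : Fin n → Option (Fin k)) (K : ℤ) (i : Fin n) : K ∣ nu b K i := by
  unfold nu
  cases b i with
  | none => simp
  | some j => exact dvd_mul_left _ _

theorem nu_inj {b : Fin n → Option (Fin k)} {K : ℤ} (hK : 0 < K) {i i' : Fin n}
    (h : nu b K i = nu b K i') : b i = b i' := by
  unfold nu at h
  rcases hb : b i with _ | j <;> rcases hb' : b i' with _ | j' <;> rw [hb, hb'] at h <;>
    simp only [Option.elim_none, Option.elim_some] at h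
  · exfalso
    have : 0 < (((j' : ℕ) : ℤ) + 1) * K := by positivity
    omega
  · exfalso
    have : 0 < (((j : ℕ) : ℤ) + 1) * K := by positivity
    omega
  · have h1 := mul_right_cancel₀ hK.ne' h
    have h2 : (j : ℕ) = j' := by omega
    rw [Fin.ext h2]

theorem nu_eq_zero {b : Fin n → Option (Fin k)} {K : ℤ} (hK : 0 < K) {i : Fin n}
    (h : nu b K i = 0) : b i = none := by
  unfold nu at h
  rcases hb : b i with _ | j
  · rfl
  · rw [hb] at h
    simp only [Option.elim_some] at h
    exfalso
    have : 0 < (((j : ℕ) : ℤ) + 1) * K := by positivity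
    omega

/-- **The key estimate.** A Weyl group element which does not change the product with `ν` of a weight close to `ν`
is in the Weyl group of the Levi subgroup. -/
theorem star {b : Fin n → Option (Fin k)} {K B : ℤ} (hB : 0 ≤ B) (hK : 6 * B * n * k < K)
    {w : Weight (Fin n)} (hw0 : |w.1| ≤ B) (hw : ∀ i, |w.2 i| ≤ B) {g : Equiv.Perm (Fin n)}
    {R : Fin n → Bool}
    (h : ∑ i, nu b K i * (act g R (w.1, fun i => w.2 i + nu b K i)).2 i =
      ∑ i, nu b K i * (w.2 i + nu b K i)) :
    (∀ i, b (g i) = b i) ∧ ∀ i, R i = true → b i = none := by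
  have hK0 : 0 < K := by
    have : 0 ≤ 6 * B * n * k := by positivity
    omega
  set ν : Fin n → ℤ := nu b K with hν
  set s : Fin n → ℤ := fun i => if R i then -1 else 1 with hs
  -- the error terms
  have e1 : ∀ i, (act g R (w.1, fun i => w.2 i + ν i)).2 i =
      s i * ν (g i) + if R i then w.1 - w.2 (g i) else w.2 (g i) := by
    intro i
    unfold act
    simp only [hs]
    cases R i
    · simp only [Bool.false_eq_true, if_false]
      ring
    · simp only [if_true]
      ring
  have h1 : ∑ i, ν i * ν i - ∑ i, s i * (ν i * ν (g i)) =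
      ∑ i, ν i * ((if R i then w.1 - w.2 (g i) else w.2 (g i)) - w.2 i) := by
    simp only [e1] at h
    have h2 : ∑ i, ν i * (s i * ν (g i) + if R i then w.1 - w.2 (g i) else w.2 (g i)) =
        ∑ i, s i * (ν i * ν (g i)) +
          ∑ i, ν i * (if R i then w.1 - w.2 (g i) else w.2 (g i)) := by
      rw [← Finset.sum_add_distrib]
      exact Finset.sum_congr rfl fun i _ => by ring
    have h3 : ∑ i, ν i * (w.2 i + ν i) = ∑ i, ν i * w.2 i + ∑ i, ν i * ν i := by
      rw [← Finset.sum_add_distrib]
      exact Finset.sum_congr rfl fun i _ => by ring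
    rw [h2, h3] at h
    have h4 : ∑ i, ν i * ((if R i then w.1 - w.2 (g i) else w.2 (g i)) - w.2 i) =
        ∑ i, ν i * (if R i then w.1 - w.2 (g i) else w.2 (g i)) - ∑ i, ν i * w.2 i := by
      rw [← Finset.sum_sub_distrib]
      exact Finset.sum_congr rfl fun i _ => by ring
    rw [h4]
    linarith
  have h2 : ∑ i, ν i * ((if R i then w.1 - w.2 (g i) else w.2 (g i)) - w.2 i) ≤
      n * (k * K * (3 * B)) := by
    have : ∀ i ∈ (Finset.univ : Finset (Fin n)),
        ν i * ((if R i then w.1 - w.2 (g i) else w.2 (g i)) - w.2 i) ≤ k * K * (3 * B) := by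
      intro i _
      have h3 := (abs_le.1 (hw i))
      have h4 := (abs_le.1 (hw (g i)))
      have h5 := abs_le.1 hw0
      have h6 : (if R i then w.1 - w.2 (g i) else w.2 (g i)) - w.2 i ≤ 3 * B := by
        split_ifs <;> omega
      exact (mul_le_mul_of_nonneg_left h6 (nu_nonneg hK0.le i)).trans
        (mul_le_mul_of_nonneg_right (nu_le hK0.le i) (by positivity))
    have h7 := Finset.sum_le_card_nsmul _ _ _ this
    rw [Finset.card_univ, Fintype.card_fin, nsmul_eq_mul] at h7
    exact h7
  have h3 : 2 * (∑ i, ν i * ν i - ∑ i, s i * (ν i * ν (g i))) =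
      ∑ i, (ν i - s i * ν (g i)) ^ 2 := by
    have h4 : ∑ i, ν (g i) * ν (g i) = ∑ i, ν i * ν i := Equiv.sum_comp g fun i => ν i * ν i
    have h5 : ∑ i, (ν i - s i * ν (g i)) ^ 2 =
        ∑ i, ν i * ν i + ∑ i, ν (g i) * ν (g i) - 2 * ∑ i, s i * (ν i * ν (g i)) := by
      rw [Finset.mul_sum, ← Finset.sum_add_distrib, ← Finset.sum_sub_distrib]
      refine Finset.sum_congr rfl fun i _ => ?_
      have h6 : s i * s i = 1 := by
        simp only [hs]
        split_ifs <;> rfl
      linear_combination ν (g i) * ν (g i) * h6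
    rw [h5, h4]
    ring
  -- all squares vanish
  have h4 : ∀ i, ν i - s i * ν (g i) = 0 := by
    intro i
    by_contra hne
    have hdvd : K ∣ ν i - s i * ν (g i) :=
      dvd_sub (nu_dvd b K i) (Dvd.dvd.mul_left (nu_dvd b K (g i)) _)
    obtain ⟨c, hc⟩ := hdvd
    have hc0 : c ≠ 0 := by
      rintro rfl
      exact hne (by rw [hc, mul_zero])
    have h5 : K ^ 2 ≤ (ν i - s i * ν (g i)) ^ 2 := by
      rw [hc, mul_pow]
      have : 1 ≤ c ^ 2 := by
        have := sq_pos_of_ne_zero hc0
        omega
      nlinarith [sq_nonneg K]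
    have h6 : (ν i - s i * ν (g i)) ^ 2 ≤ ∑ i, (ν i - s i * ν (g i)) ^ 2 :=
      Finset.single_le_sum (f := fun i => (ν i - s i * ν (g i)) ^ 2)
        (fun _ _ => sq_nonneg _) (Finset.mem_univ i)
    have h7 : K ^ 2 ≤ 2 * (n * (k * K * (3 * B))) := by
      rw [← h3, h1] at h6
      linarith
    nlinarith
  have h5 : ∀ i, R i = true → ν i = 0 ∧ ν (g i) = 0 := by
    intro i hi
    have h6 := h4 i
    simp only [hs, hi, if_true] at h6
    have h7 := nu_nonneg (b := b) hK0.le i
    have h8 := nu_nonneg (b := b) hK0.le (g i)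
    rw [← hν] at h7 h8
    omega
  refine ⟨fun i => ?_, fun i hi => nu_eq_zero hK0 (h5 i hi).1⟩
  refine nu_inj hK0 ?_
  rcases hR : R i with _ | _
  · have h6 := h4 i
    simp only [hs, hR, Bool.false_eq_true, if_false] at h6
    rw [← hν]
    omega
  · have h6 := h5 i hR
    rw [← hν]
    omega

end Run7.h456
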