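import Pool.Agent.Run7.h456.Mero

set_option autoImplicit false

/-!
# The zeros and poles of a function whose quotients by its vertical shifts continue
-/

namespace Run7.h456

open Filter Topology Complex Set

/-- orders are eventually zero around a point where the function is not locally zero -/
theorem eventually_order_zero {f : ℂ → ℂ} {s : ℂ} (hf : MeromorphicAt f s)
    (h : meromorphicOrderAt f s ≠ ⊤) : ∀ᶠ z in 𝓝[≠] s, meromorphicOrderAt f z = 0 := by
  have h1 := (meromorphicOrderAt_ne_top_iff_eventually_ne_zero hf).1 h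
  filter_upwards [h1, hf.eventually_analyticAt] with z hz1 hz2
  rw [hz2.meromorphicOrderAt_eq, hz2.analyticOrderAt_eq_zero.2 hz1]
  rfl

/-- the points of nonzero order are countable -/
theorem countable_orders {f : ℂ → ℂ} {U : Set ℂ} (hf : MeromorphicOn f U)
    (h : ∀ u ∈ U, meromorphicOrderAt f u ≠ ⊤) :
    {u ∈ U | meromorphicOrderAt f u ≠ 0}.Countable := by
  have h1 := MeromorphicOn.codiscreteWithin_setOfPred_meromorphicOrderAt_eq_zero_or_top hf h
  have h2 : ({u ∈ U | meromorphicOrderAt f u = 0 ∨ meromorphicOrderAt f u = ⊤}ᶜ ∩ U).Countable := by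
    apply (HereditarilyLindelofSpace.isLindelof _).countable_of_isDiscrete
      (isDiscrete_of_codiscreteWithin _)
    rw [compl_compl]
    exact h1
  refine h2.mono ?_
  rintro u ⟨hu1, hu2⟩
  refine ⟨?_, hu1⟩
  rintro ⟨-, h3 | h3⟩
  · exact hu2 h3
  · exact h u hu1 h3

theorem order_shift {f : ℂ → ℂ} {s a : ℂ} :
    meromorphicOrderAt (fun z => f (z + a)) s = meromorphicOrderAt f (s + a) :=
  meromorphicOrderAt_comp_add_const_eq_meromorphicOrderAt

/-- a vertical shift -/
theorem re_add_ih (s : ℂ) (h : ℝ) : (s + h * I).re = s.re := by simp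

theorem HP_add_ih {q : ℝ} {s : ℂ} (hs : s ∈ HP q) (h : ℝ) : s + h * I ∈ HP q := by
  rw [mem_HP, re_add_ih]
  exact hs

/-- the data of the situation: `L` continues `f` to `Re s > σ`, `R h` continues
`f(s + ih)/f(s)` to `Re s > q` -/
structure Sit (c q σ : ℝ) (f L : ℂ → ℂ) (R : ℝ → ℂ → ℂ) : Prop where
  qσ : q < σ
  good : GoodAt c f
  mL : MeromorphicOn L (HP σ)
  eL : ∀ s : ℂ, c < s.re → L s = f s
  mR : ∀ h, MeromorphicOn (R h) (HP q)
  eR : ∀ (h : ℝ) (s : ℂ), c < s.re → R h s = f (s + h * I) / f s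

variable {c q σ : ℝ} {f L : ℂ → ℂ} {R : ℝ → ℂ → ℂ}

theorem Sit.ordL (H : Sit c q σ f L R) {s : ℂ} (hs : s ∈ HP σ) : meromorphicOrderAt L s ≠ ⊤ := by
  obtain ⟨s₀, h1, h2⟩ := exists_re_gt c σ
  refine H.mL.meromorphicOrderAt_ne_top_of_isPreconnected (preconn_HP σ) (x := s₀) h2 hs ?_
  rw [meromorphicOrderAt_ne_top_iff_eventually_ne_zero (H.mL s₀ h2)]
  refine mem_nhdsWithin_of_mem_nhds ?_
  filter_upwards [(isOpen_HP c).mem_nhds h1] with z hz
  rw [H.eL z hz]
  exact (H.good z hz).2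

theorem Sit.ordR (H : Sit c q σ f L R) (h : ℝ) {s : ℂ} (hs : s ∈ HP q) :
    meromorphicOrderAt (R h) s ≠ ⊤ := by
  obtain ⟨s₀, h1, h2⟩ := exists_re_gt c q
  refine (H.mR h).meromorphicOrderAt_ne_top_of_isPreconnected (preconn_HP q) (x := s₀) h2 hs ?_
  rw [meromorphicOrderAt_ne_top_iff_eventually_ne_zero (H.mR h s₀ h2)]
  refine mem_nhdsWithin_of_mem_nhds ?_
  filter_upwards [(isOpen_HP c).mem_nhds h1] with z hz
  rw [H.eR h z hz]
  exact div_ne_zero (H.good _ (by rw [re_add_ih]; exact hz)).2 (H.good z hz).2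

/-- `R h · L = L(· + ih)` -/
theorem Sit.mul_eq (H : Sit c q σ f L R) (h : ℝ) {s : ℂ} (hs : s ∈ HP σ) :
    (fun z => R h z * L z) =ᶠ[𝓝[≠] s] fun z => L (z + h * I) := by
  obtain ⟨s₀, h1, h2⟩ := exists_re_gt c σ
  refine mero_identity (preconn_HP σ) (fun z hz => ?_) (fun z hz => ?_) (s₀ := s₀) h2 ?_ s hs
  · exact (H.mR h z (HP_mono H.qσ.le hz)).mul (H.mL z hz)
  · exact mero_shift (H.mL _ (HP_add_ih hz h))
  · refine mem_nhdsWithin_of_mem_nhds ?_
    filter_upwards [(isOpen_HP c).mem_nhds h1] with z hz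
    have hz' : c < (z + h * I).re := by rw [re_add_ih]; exact hz
    simp only [H.eR h z hz, H.eL z hz, H.eL _ hz', div_mul_cancel₀ _ (H.good z hz).2]

theorem Sit.ord_eq (H : Sit c q σ f L R) (h : ℝ) {s : ℂ} (hs : s ∈ HP σ) :
    meromorphicOrderAt (R h) s + meromorphicOrderAt L s = meromorphicOrderAt L (s + h * I) := by
  rw [← order_shift, ← meromorphicOrderAt_congr (H.mul_eq h hs)]
  exact (meromorphicOrderAt_mul (H.mR h s (HP_mono H.qσ.le hs)) (H.mL s hs)).symm

/-- the zeros and poles of `L` do not accumulate at the boundary -/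
theorem Sit.no_acc (H : Sit c q σ f L R) {s₁ : ℂ} (hs₁ : s₁.re = σ) :
    ∃ δ : ℝ, 0 < δ ∧ ∀ s ∈ HP σ, dist s s₁ < δ → meromorphicOrderAt L s = 0 := by
  by_contra hcon
  push Not at hcon
  have h1 : ∀ n : ℕ, ∃ s ∈ HP σ, dist s s₁ < 1 / ((n : ℝ) + 1) ∧ meromorphicOrderAt L s ≠ 0 :=
    fun n => hcon _ Nat.one_div_pos_of_nat
  choose p hp1 hp2 hp3 using h1
  have hP : {u ∈ HP σ | meromorphicOrderAt L u ≠ 0}.Countable :=
    countable_orders H.mL fun u hu => H.ordL hu
  set C : ℕ → Set ℝ := fun n => {h : ℝ | meromorphicOrderAt L (p n + h * I) ≠ 0} with hC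
  have hCc : ∀ n, (C n).Countable := by
    intro n
    have hinj : Function.Injective fun h : ℝ => p n + h * I := by
      intro a b hab
      have := congrArg Complex.im hab
      simpa using this
    refine (hP.preimage_of_injOn (f := fun h : ℝ => p n + h * I) hinj.injOn).mono ?_
    intro h hh
    exact ⟨HP_add_ih (hp1 n) h, hh⟩
  have hp : Tendsto p atTop (𝓝 s₁) := by
    rw [tendsto_iff_dist_tendsto_zero]
    exact squeeze_zero (fun _ => dist_nonneg) (fun n => (hp2 n).le)
      tendsto_one_div_add_atTop_nhds_zero_nat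
  have hp' : Tendsto p atTop (𝓝[≠] s₁) := by
    rw [tendsto_nhdsWithin_iff]
    refine ⟨hp, Eventually.of_forall fun n => ?_⟩
    intro hn
    rw [mem_singleton_iff] at hn
    have := hp1 n
    rw [hn, mem_HP, hs₁] at this
    exact lt_irrefl _ this
  have hall : (⋃ n, C n) = univ := by
    rw [eq_univ_iff_forall]
    intro h
    have hs₁q : s₁ ∈ HP q := by
      rw [mem_HP, hs₁]
      exact H.qσ
    have h2 := hp'.eventually (eventually_order_zero (H.mR h s₁ hs₁q) (H.ordR h hs₁q))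
    obtain ⟨n, hn⟩ := h2.exists
    rw [mem_iUnion]
    refine ⟨n, ?_⟩
    have h3 := H.ord_eq h (hp1 n)
    rw [hn, zero_add] at h3
    change meromorphicOrderAt L (p n + h * I) ≠ 0
    rw [← h3]
    exact hp3 n
  have : (univ : Set ℝ).Countable := by
    rw [← hall]
    exact countable_iUnion hCc
  exact Cardinal.not_countable_real this

end Run7.h456
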