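import Pool.Agent.Run7.h456.Orb

set_option autoImplicit false

/-!
# Saturation of a multiset of weights under the Weyl group
-/

namespace Run7.h456

variable {n k : ℕ}

open Classical in
/-- the multiplicity of `w` in the saturation -/
noncomputable def satc (θ : Multiset (Weight (Fin n))) (w : Weight (Fin n)) : ℕ :=
  if h : ∃ w' ∈ θ, Cj w' w then θ.count h.choose else 0

theorem exists_sat (θ : Multiset (Weight (Fin n)))
    (H : ∀ w₁ ∈ θ, ∀ w₂ ∈ θ, Cj w₁ w₂ → θ.count w₁ = θ.count w₂) :
    ∃ ρ : Multiset (Weight (Fin n)), WeylInvariant ρ ∧ (∀ w ∈ θ, ρ.count w = θ.count w) ∧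
      ∀ w ∈ ρ, ∃ w' ∈ θ, Cj w' w := by
  classical
  set T : Finset (Weight (Fin n)) := (θ.toFinset ×ˢ
    ((Finset.univ : Finset (Equiv.Perm (Fin n))) ×ˢ (Finset.univ : Finset (Fin n → Bool)))).image
      fun x => act x.2.1 x.2.2 x.1 with hT
  have hTmem : ∀ w, w ∈ T ↔ ∃ w' ∈ θ, Cj w' w := by
    intro w
    rw [hT, Finset.mem_image]
    constructor
    · rintro ⟨⟨w', g, R⟩, hx, rfl⟩
      rw [Finset.mem_product] at hx
      exact ⟨w', Multiset.mem_toFinset.1 hx.1, g, R, rfl⟩
    · rintro ⟨w', hw', g, R, rfl⟩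
      refine ⟨⟨w', g, R⟩, ?_, rfl⟩
      rw [Finset.mem_product, Finset.mem_product]
      exact ⟨Multiset.mem_toFinset.2 hw', Finset.mem_univ _, Finset.mem_univ _⟩
  set ρ : Multiset (Weight (Fin n)) := ∑ w ∈ T, satc θ w • {w} with hρ
  have hcount : ∀ v, ρ.count v = satc θ v := by
    intro v
    rw [hρ, Multiset.count_sum']
    simp only [Multiset.count_nsmul, Multiset.count_singleton]
    by_cases hv : v ∈ T
    · rw [Finset.sum_eq_single v]
      · simp
      · intro u _ hu
        rw [if_neg (Ne.symm hu), mul_zero]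
      · exact fun h => absurd hv h
    · have h0 : satc θ v = 0 := by
        unfold satc
        rw [dif_neg]
        intro h
        exact hv ((hTmem v).2 h)
      rw [h0]
      refine Finset.sum_eq_zero fun u hu => ?_
      rw [if_neg, mul_zero]
      rintro rfl
      exact hv hu
  have hindep : ∀ v w' , w' ∈ θ → Cj w' v → satc θ v = θ.count w' := by
    intro v w' hw' hc
    have h : ∃ w' ∈ θ, Cj w' v := ⟨w', hw', hc⟩
    unfold satc
    rw [dif_pos h]
    exact H _ h.choose_spec.1 _ hw' (h.choose_spec.2.trans hc.symm)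
  have hinv : ∀ f : Weight (Fin n) → Weight (Fin n), (∀ w w', Cj w (f w') ↔ Cj w w') →
      ∀ v, satc θ (f v) = satc θ v := by
    intro f hf v
    by_cases h : ∃ w' ∈ θ, Cj w' v
    · obtain ⟨w', hw', hc⟩ := h
      rw [hindep v w' hw' hc, hindep (f v) w' hw' ((hf _ _).2 hc)]
    · have h' : ¬ ∃ w' ∈ θ, Cj w' (f v) := by
        rintro ⟨w', hw', hc⟩
        exact h ⟨w', hw', (hf _ _).1 hc⟩
      unfold satc
      rw [dif_neg h, dif_neg h']
  refine ⟨ρ, ⟨fun g => ?_, fun i => ?_⟩, fun w hw => ?_, fun w hw => ?_⟩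
  · ext v
    have h1 : v = permute g (permute g.symm v) := by
      unfold permute
      simp
    conv_lhs => rw [h1]
    rw [Multiset.count_map_eq_count' _ _ (permute_inj g), hcount, hcount]
    exact hinv _ (fun _ _ => Cj.permute _) v
  · ext v
    have h1 : v = reflect i (reflect i v) := (reflect_reflect i v).symm
    conv_lhs => rw [h1]
    rw [Multiset.count_map_eq_count' _ _ (reflect_inj i), hcount, hcount]
    exact hinv _ (fun _ _ => Cj.reflect _) v
  · rw [hcount]
    exact hindep w w hw (Cj.refl w)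
  · rw [← Multiset.count_pos, hcount] at hw
    by_contra h
    unfold satc at hw
    rw [dif_neg h] at hw
    exact absurd hw (lt_irrefl 0)

theorem shiftW_levi {b : Fin n → Option (Fin k)} (K : ℤ) {θ : Multiset (Weight (Fin n))}
    (h : LeviInvariant b θ) : LeviInvariant b (shiftW b K θ) := by
  constructor
  · intro g hg
    unfold shiftW
    rw [Multiset.map_map]
    conv_rhs => rw [← h.1 g hg]
    rw [Multiset.map_map]
    refine Multiset.map_congr rfl fun w _ => ?_
    simp only [Function.comp_apply, permute]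
    refine Prod.ext rfl (funext fun i => ?_)
    simp only
    rw [show nu b K (g i) = nu b K i by unfold nu; rw [hg i]]
  · intro i hi
    unfold shiftW
    rw [Multiset.map_map]
    conv_rhs => rw [← h.2 i hi]
    rw [Multiset.map_map]
    refine Multiset.map_congr rfl fun w _ => ?_
    simp only [Function.comp_apply, reflect]
    refine Prod.ext rfl (funext fun j => ?_)
    simp only
    have h0 : nu b K i = 0 := by
      unfold nu
      rw [hi]
      rfl
    by_cases hj : j = i
    · subst hj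
      simp [h0]
    · simp [Function.update_of_ne hj]

theorem sum_nu (b : Fin n → Option (Fin k)) (K : ℤ) (w : Weight (Fin n)) :
    ∑ i, nu b K i * w.2 i = ∑ j : Fin k, (((j : ℕ) : ℤ) + 1) * K * (central b w).2 j := by
  unfold central
  simp only [Finset.mul_sum, Finset.sum_filter]
  rw [Finset.sum_comm]
  refine Finset.sum_congr rfl fun i _ => ?_
  unfold nu
  rcases b i with _ | j
  · simp
  · simp

/-- **The weights of a dominant shift are exactly one isotypic part of an invariant multiset.** -/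
theorem exists_dominant {b : Fin n → Option (Fin k)} {θ : Multiset (Weight (Fin n))}
    (hθ : LeviInvariant b θ) {κ : ℤ × (Fin k → ℤ)} (hκ : ∀ w ∈ θ, central b w = κ) {B K : ℤ}
    (hB : 0 ≤ B) (hB0 : ∀ w ∈ θ, |w.1| ≤ B) (hBw : ∀ w ∈ θ, ∀ i, |w.2 i| ≤ B)
    (hK : 6 * B * n * k < K) :
    ∃ (ρ : Multiset (Weight (Fin n))) (κ' : ℤ × (Fin k → ℤ)), WeylInvariant ρ ∧
      Homogeneous ρ ∧ (ρ.filter fun w => central b w = κ') = shiftW b K θ := by
  classical
  set θ' := shiftW b K θ with hθ'
  set κ' : ℤ × (Fin k → ℤ) := (κ.1, fun j => κ.2 j + ∑ i with b i = some j, nu b K i) with hκ'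
  have hcen : ∀ w ∈ θ', central b w = κ' := by
    intro w hw
    rw [hθ', shiftW, Multiset.mem_map] at hw
    obtain ⟨v, hv, rfl⟩ := hw
    rw [hκ', ← hκ v hv]
    unfold central
    refine Prod.ext rfl (funext fun j => ?_)
    simp only
    rw [Finset.sum_add_distrib]
  have key : ∀ w ∈ θ', ∀ v, Cj w v → central b v = κ' → θ'.count v = θ'.count w := by
    rintro w hw v ⟨g, R, rfl⟩ hv
    have hw' := hw
    rw [hθ', shiftW, Multiset.mem_map] at hw'
    obtain ⟨u, hu, rfl⟩ := hw'
    have h1 := sum_nu b K (act g R (u.1, fun i => u.2 i + nu b K i))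
    have h2 := sum_nu b K ((u.1, fun i => u.2 i + nu b K i) : Weight (Fin n))
    rw [hv] at h1
    rw [hcen _ hw] at h2
    obtain ⟨h3, h4⟩ := star hB hK (hB0 u hu) (hBw u hu) (h1.trans h2.symm)
    exact (shiftW_levi K hθ).count_act h3 h4 _
  obtain ⟨ρ, hρ1, hρ2, hρ3⟩ := exists_sat θ' fun w₁ h₁ w₂ h₂ hc =>
    (key w₁ h₁ w₂ hc (hcen w₂ h₂)).symm
  refine ⟨ρ, κ', hρ1, ⟨κ.1, fun w hw => ?_⟩, ?_⟩
  · obtain ⟨w', hw', g, R, rfl⟩ := hρ3 w hw
    exact congrArg Prod.fst (hcen w' hw')
  ext v
  rw [Multiset.count_filter]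
  split_ifs with hv
  · by_cases hvρ : v ∈ ρ
    · obtain ⟨w, hw, hc⟩ := hρ3 v hvρ
      have h5 := key w hw v hc hv
      have hvθ : v ∈ θ' := by
        rw [← Multiset.count_pos, h5]
        exact Multiset.count_pos.2 hw
      exact hρ2 v hvθ
    · have h6 : v ∉ θ' := by
        intro hvθ
        have h7 := hρ2 v hvθ
        rw [Multiset.count_eq_zero.2 hvρ] at h7
        exact absurd (Multiset.count_pos.2 hvθ) (by omega)
      rw [Multiset.count_eq_zero.2 hvρ, Multiset.count_eq_zero.2 h6]
  · symm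
    rw [Multiset.count_eq_zero]
    exact fun hvθ => hv (hcen v hvθ)

end Run7.h456
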