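import Pool.Agent.Run7.h456.Shift

set_option autoImplicit false

/-!
# Separation of the factors of a product of vertical shifts
-/

namespace Run7.h456

open Filter Topology Complex Set Metric

theorem GoodAt.ishift {c : ℝ} {f : ℂ → ℂ} (hf : GoodAt c f) (t : ℝ) :
    GoodAt c (fun s => f (s + t * I)) := by
  intro s hs
  have h1 := hf (s + t * I) (by rw [re_add_ih]; exact hs)
  exact ⟨AnalyticAt.fun_comp (g := f) (f := fun s : ℂ => s + t * I) h1.1
    (analyticAt_id.add analyticAt_const), h1.2⟩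

theorem GoodAt.div {c : ℝ} {f g : ℂ → ℂ} (hf : GoodAt c f) (hg : GoodAt c g) :
    GoodAt c (fun s => f s / g s) := fun s hs =>
  ⟨(hf s hs).1.div (hg s hs).1 (hg s hs).2, div_ne_zero (hf s hs).2 (hg s hs).2⟩

theorem GoodAt.mul {c : ℝ} {f g : ℂ → ℂ} (hf : GoodAt c f) (hg : GoodAt c g) :
    GoodAt c (fun s => f s * g s) := fun s hs =>
  ⟨(hf s hs).1.mul (hg s hs).1, mul_ne_zero (hf s hs).2 (hg s hs).2⟩

/-- small shifts suffice -/
theorem shifts_all {c q : ℝ} {f : ℂ → ℂ} (hf : GoodAt c f) {ε : ℝ} (hε : 0 < ε)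
    (h : ∀ t : ℝ, |t| < ε → Ext q (fun s => f (s + t * I) / f s)) (t : ℝ) :
    Ext q (fun s => f (s + t * I) / f s) := by
  obtain ⟨n, hn⟩ := exists_nat_gt (|t| / ε)
  have hn0 : (0 : ℝ) < n := (div_nonneg (abs_nonneg t) hε.le).trans_lt hn
  set u : ℝ := t / n with hu
  have hu1 : |u| < ε := by
    rw [hu, abs_div, abs_of_pos hn0, div_lt_iff₀ hn0]
    rwa [div_lt_iff₀ hε, mul_comm] at hn
  have key : ∀ k : ℕ, Ext q (fun s => f (s + ((k * u : ℝ) : ℂ) * I) / f s) := by
    intro k
    induction k with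
    | zero =>
      refine (Ext.const q 1).congr (c := c) fun s hs => ?_
      simp only [Nat.cast_zero, zero_mul, ofReal_zero, add_zero]
      exact (div_self (hf s hs).2).symm
    | succ k ih =>
      refine ((ih.ishift u).mul (h u hu1)).congr (c := c) fun s hs => ?_
      have h1 := (hf (s + u * I) (by rw [re_add_ih]; exact hs)).2
      have e : s + u * I + ((k * u : ℝ) : ℂ) * I = s + (((k + 1 : ℕ) * u : ℝ) : ℂ) * I := by
        push_cast
        ring
      rw [e, div_mul_div_cancel₀ h1]
  have := key n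
  have e : (n : ℝ) * u = t := by
    rw [hu]
    field_simp
  rwa [e] at this

/-- a family of large sets -/
structure LargeFam {V : Type*} [AddCommGroup V] [TopologicalSpace V] (𝓔 : Set (Set V)) : Prop where
  nonempty : ∀ E ∈ 𝓔, E.Nonempty
  shift : ∀ E ∈ 𝓔, ∀ᶠ h in 𝓝 (0 : V), E ∩ {y | y + h ∈ E} ∈ 𝓔

variable {V : Type*} [AddCommGroup V] [Module ℝ V] [TopologicalSpace V] [ContinuousSMul ℝ V]

/-- **Separation.** -/
theorem sep {𝓔 : Set (Set V)} (h𝓔 : LargeFam 𝓔) {J : Type*} {c q : ℝ} (t : Finset J) :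
    ∀ (f : J → ℂ → ℂ) (_ : ∀ j ∈ t, GoodAt c (f j)) (l : J → V →ₗ[ℝ] ℝ)
      (_ : ∀ j ∈ t, ∀ j' ∈ t, j ≠ j' → l j ≠ l j') (E : Set V) (_ : E ∈ 𝓔)
      (_ : ∀ y ∈ E, Ext q (fun s => ∏ j ∈ t, f j (s + (l j y : ℝ) * I))),
      ∀ j ∈ t, Ext q (f j) := by
  classical
  induction t using Finset.induction_on with
  | empty =>
    intro f _ l _ E _ _ j hj
    simp at hj
  | insert m t hm ih =>
    intro f hf l hl E hE h
    have hfm := hf m (Finset.mem_insert_self m t)
    have hft : ∀ j ∈ t, GoodAt c (f j) := fun j hj => hf j (Finset.mem_insert_of_mem hj)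
    -- after the shift by `-l m y`
    have h1 : ∀ y ∈ E, Ext q (fun s => f m s * ∏ j ∈ t, f j (s + ((l j - l m) y : ℝ) * I)) := by
      intro y hy
      refine ((h y hy).ishift (-(l m y))).congr (c := c) fun s hs => ?_
      rw [Finset.prod_insert hm]
      congr 1
      · congr 1
        push_cast
        ring
      · refine Finset.prod_congr rfl fun j _ => ?_
        congr 1
        rw [LinearMap.sub_apply]
        push_cast
        ring
    have hne : ∀ j ∈ t, l j - l m ≠ 0 := by
      intro j hj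
      rw [sub_ne_zero]
      refine hl j (Finset.mem_insert_of_mem hj) m (Finset.mem_insert_self m t) ?_
      rintro rfl
      exact hm hj
    -- the quotients
    have h2 : ∀ᶠ v in 𝓝 (0 : V), ∀ j ∈ t,
        Ext q (fun s => f j (s + ((l j - l m) v : ℝ) * I) / f j s) := by
      filter_upwards [h𝓔.shift E hE] with v hv
      refine ih (fun j s => f j (s + ((l j - l m) v : ℝ) * I) / f j s)
        (fun j hj => ((hft j hj).ishift _).div (hft j hj)) (fun j => l j - l m) ?_ _ hv ?_
      · intro j hj j' hj' hjj' heq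
        exact hl j (Finset.mem_insert_of_mem hj) j' (Finset.mem_insert_of_mem hj') hjj'
          (sub_left_injective heq)
      · intro y hy
        refine ((h1 (y + v) hy.2).div (h1 y hy.1)).congr (c := c) fun s hs => ?_
        rw [mul_div_mul_left _ _ (hfm s hs).2, ← Finset.prod_div_distrib]
        refine Finset.prod_congr rfl fun j hj => ?_
        congr 2
        rw [map_add]
        push_cast
        ring
    have h3 : ∀ j ∈ t, Ext q (f j) := by
      intro j hj
      obtain ⟨v₀, hv₀⟩ : ∃ v, (l j - l m) v ≠ 0 := by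
        by_contra hcon
        push Not at hcon
        exact hne j hj (LinearMap.ext hcon)
      set v₁ : V := ((l j - l m) v₀)⁻¹ • v₀ with hv₁
      have hv₁' : (l j - l m) v₁ = 1 := by
        rw [hv₁, map_smul, smul_eq_mul, inv_mul_cancel₀ hv₀]
      have h4 : Tendsto (fun τ : ℝ => τ • v₁) (𝓝 0) (𝓝 (0 : V)) := by
        have : Continuous fun τ : ℝ => τ • v₁ := continuous_id.smul continuous_const
        have h5 := this.tendsto 0
        rwa [zero_smul] at h5
      obtain ⟨ε, hε, h6⟩ := Metric.eventually_nhds_iff.1 (h4.eventually h2)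
      refine ext_of_shifts (hft j hj) (shifts_all (hft j hj) hε fun τ hτ => ?_)
      have h7 := h6 (y := τ) (by rwa [Real.dist_eq, sub_zero]) j hj
      rw [map_smul, hv₁', smul_eq_mul, mul_one] at h7
      exact h7
    intro j hj
    rcases Finset.mem_insert.1 hj with rfl | hj
    · obtain ⟨y, hy⟩ := h𝓔.nonempty E hE
      have h8 : Ext q (fun s => ∏ i ∈ t, f i (s + ((l i - l j) y : ℝ) * I)) :=
        Ext.prod t fun i hi => (h3 i hi).ishift _
      refine ((h1 y hy).div h8).congr (c := c) fun s hs => ?_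
      refine mul_div_cancel_right₀ _ ?_
      refine Finset.prod_ne_zero_iff.2 fun i hi => ?_
      exact (hft i hi _ (by rw [re_add_ih]; exact hs)).2
    · exact h3 j hj

end Run7.h456
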