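import Pool.Agent.Run7.h456.Local

set_option autoImplicit false

/-!
# If all quotients `f(s + ih)/f(s)` continue, then `f` continues
-/

namespace Run7.h456

open Filter Topology Complex Set Metric

variable {c q σ : ℝ} {f L : ℂ → ℂ} {R : ℝ → ℂ → ℂ}

theorem Sit.step (H₀ : Sit c q σ f L R) : ∃ σ' < σ, Ext σ' f := by
  obtain ⟨L', H, hNF⟩ := H₀.nf
  obtain ⟨s₂, r₀, K, hs₂, hr₀, hK1, hK2⟩ := H.local_ext hNF
  set r : ℝ := min r₀ (σ - q) with hr
  have hrpos : 0 < r := lt_min hr₀ (by linarith [H.qσ])
  have hrr : ball s₂ r ⊆ ball s₂ r₀ := ball_subset_ball (min_le_left _ _)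
  have hq : ∀ w ∈ ball s₂ r, w ∈ HP q := by
    intro w hw
    rw [mem_ball, dist_eq_norm] at hw
    have h1 : |(w - s₂).re| < r := (abs_re_le_norm _).trans_lt hw
    have h2 := (abs_lt.1 h1).1
    rw [sub_re, hs₂] at h2
    have h3 : r ≤ σ - q := min_le_right _ _
    rw [mem_HP]
    linarith
  have hsh : ∀ (h : ℝ) (w : ℂ), w ∈ ball (s₂ + h * I) r → w - h * I ∈ ball s₂ r := by
    intro h w hw
    rw [mem_ball, dist_eq_norm] at hw ⊢
    have e : w - h * I - s₂ = w - (s₂ + h * I) := by ring
    rw [e]
    exact hw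
  set V : Option ℝ → Set ℂ := fun o => match o with
    | none => HP σ
    | some h => ball (s₂ + h * I) r with hV
  set G : Option ℝ → ℂ → ℂ := fun o => match o with
    | none => L'
    | some h => fun w => K (w - h * I) * R h (w - h * I) with hG
  have hVo : ∀ o, IsOpen (V o) := by
    intro o
    cases o with
    | none => exact isOpen_HP σ
    | some h => exact isOpen_ball
  have hGm : ∀ o, MeromorphicOn (G o) (V o) := by
    intro o
    cases o with
    | none => exact H.mL
    | some h =>
      intro w hw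
      have h1 := hsh h w hw
      have h2 : MeromorphicAt (fun w => K (w - h * I)) w := by
        have := mero_shift (L := K) (s := w) (a := -(h * I))
          (by rw [← sub_eq_add_neg]; exact (hK1 _ (hrr h1)).meromorphicAt)
        simpa only [← sub_eq_add_neg] using this
      have h3 : MeromorphicAt (fun w => R h (w - h * I)) w := by
        have := mero_shift (L := R h) (s := w) (a := -(h * I))
          (by rw [← sub_eq_add_neg]; exact H.mR h _ (hq _ h1))
        simpa only [← sub_eq_add_neg] using this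
      exact h2.mul h3
  -- agreement with `L'`
  have hagree : ∀ (h : ℝ) (s : ℂ), s ∈ HP σ → s ∈ ball (s₂ + h * I) r →
      (fun w => K (w - h * I) * R h (w - h * I)) =ᶠ[𝓝[≠] s] L' := by
    intro h s hs1 hs2
    have h1 := hsh h s hs2
    have hs3 : s - h * I ∈ HP σ := by
      have := HP_add_ih hs1 (-h)
      have e : s + ((-h : ℝ) : ℂ) * I = s - h * I := by
        push_cast
        ring
      rwa [e] at this
    have h2 := H.mul_eq h hs3
    have h3 : (fun z => K z * R h z) =ᶠ[𝓝[≠] (s - h * I)] fun z => L' (z + h * I) := by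
      have h4 : ∀ᶠ z in 𝓝[≠] (s - h * I), z ∈ ball s₂ r ∩ HP σ :=
        mem_nhdsWithin_of_mem_nhds ((isOpen_ball.inter (isOpen_HP σ)).mem_nhds ⟨h1, hs3⟩)
      filter_upwards [h2, h4] with z hz1 hz2
      rw [hK2 z (hrr hz2.1) hz2.2, ← hz1]
      ring
    have h5 : Tendsto (fun w : ℂ => w - h * I) (𝓝[≠] s) (𝓝[≠] (s - h * I)) := by
      rw [tendsto_nhdsWithin_iff]
      constructor
      · have : Continuous fun w : ℂ => w - h * I := by fun_prop
        exact (this.tendsto s).mono_left nhdsWithin_le_nhds
      · filter_upwards [self_mem_nhdsWithin] with w hw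
        intro hcon
        apply hw
        rw [mem_singleton_iff] at hcon ⊢
        exact sub_left_injective hcon
    filter_upwards [h5.eventually h3] with w hw
    rw [hw, sub_add_cancel]
  have hcomp : ∀ i j s, s ∈ V i → s ∈ V j → G i =ᶠ[𝓝[≠] s] G j := by
    intro i j s hi hj
    cases i with
    | none =>
      cases j with
      | none => exact EventuallyEq.rfl
      | some h => exact (hagree h s hi hj).symm
    | some h =>
      cases j with
      | none => exact hagree h s hj hi
      | some h' =>
        have hi' : dist s (s₂ + h * I) < r := hi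
        have hj' : dist s (s₂ + h' * I) < r := hj
        have hd : |h - h'| < 2 * r := by
          have h1 := dist_triangle_left (s₂ + h * I) (s₂ + h' * I) s
          have h2 : dist (s₂ + h * I) (s₂ + h' * I) = |h - h'| := by
            rw [dist_eq_norm]
            have e : s₂ + h * I - (s₂ + h' * I) = ((h - h' : ℝ) : ℂ) * I := by
              push_cast
              ring
            rw [e, norm_mul, norm_I, mul_one, Complex.norm_real, Real.norm_eq_abs]
          rw [h2] at h1
          linarith
        set e₀ : ℝ := (2 * r - |h - h'|) / 4 with he₀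
        have he₀pos : 0 < e₀ := by
          rw [he₀]
          linarith
        set s₀ : ℂ := s₂ + ((h + h') / 2 : ℝ) * I + (e₀ : ℝ) with hs₀
        have hs₀σ : s₀ ∈ HP σ := by
          rw [mem_HP]
          have : s₀.re = σ + e₀ := by simp [hs₀, hs₂]
          rw [this]
          linarith
        have hd1 : s₀ ∈ ball (s₂ + h * I) r := by
          rw [mem_ball, dist_eq_norm]
          have e : s₀ - (s₂ + h * I) = (((h' - h) / 2 : ℝ) : ℂ) * I + (e₀ : ℝ) := by
            rw [hs₀]
            push_cast
            ring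
          rw [e]
          refine (norm_add_le _ _).trans_lt ?_
          rw [norm_mul, norm_I, mul_one, Complex.norm_real, Complex.norm_real, Real.norm_eq_abs,
            Real.norm_eq_abs, abs_of_pos he₀pos, abs_div, abs_sub_comm h' h, abs_two]
          linarith
        have hd2 : s₀ ∈ ball (s₂ + h' * I) r := by
          rw [mem_ball, dist_eq_norm]
          have e : s₀ - (s₂ + h' * I) = (((h - h') / 2 : ℝ) : ℂ) * I + (e₀ : ℝ) := by
            rw [hs₀]
            push_cast
            ring
          rw [e]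
          refine (norm_add_le _ _).trans_lt ?_
          rw [norm_mul, norm_I, mul_one, Complex.norm_real, Complex.norm_real, Real.norm_eq_abs,
            Real.norm_eq_abs, abs_of_pos he₀pos, abs_div, abs_two]
          linarith
        refine mero_identity (V := ball (s₂ + h * I) r ∩ ball (s₂ + h' * I) r)
          ((convex_ball _ _).inter (convex_ball _ _)).isPreconnected
          (fun z hz => hGm (some h) z hz.1) (fun z hz => hGm (some h') z hz.2) (s₀ := s₀)
          ⟨hd1, hd2⟩ ?_ s ⟨hi, hj⟩
        exact (hagree h s₀ hs₀σ hd1).trans (hagree h' s₀ hs₀σ hd2).symm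
  obtain ⟨M, hM⟩ := mero_glue hVo hGm hcomp
  refine ⟨σ - r, by linarith, ?_⟩
  obtain ⟨s₀, h1, h2⟩ := exists_re_gt c σ
  refine Ext.of_germ (L := M) (s₀ := s₀) (fun s hs => (H.good s hs).1) ?_ h1 (by linarith) ?_
  · intro s hs
    rw [mem_HP] at hs
    by_cases hsσ : σ < s.re
    · exact (hM none s hsσ).1
    · refine (hM (some (s.im - s₂.im)) s ?_).1
      change s ∈ ball (s₂ + ((s.im - s₂.im : ℝ) : ℂ) * I) r
      rw [mem_ball, dist_eq_norm]
      have e : s - (s₂ + ((s.im - s₂.im : ℝ) : ℂ) * I) = ((s.re - σ : ℝ) : ℂ) := by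
        apply Complex.ext
        · simp [hs₂]
        · simp
      rw [e, Complex.norm_real, Real.norm_eq_abs, abs_lt]
      constructor
      · linarith
      · push Not at hsσ
        linarith
  · refine (hM none s₀ h2).2.trans ?_
    refine mem_nhdsWithin_of_mem_nhds ?_
    filter_upwards [(isOpen_HP c).mem_nhds h1] with z hz
    exact H.eL z hz

/-- **The shift lemma.** If `f(s + ih)/f(s)` continues to `Re s > q` for all real `h`, then so does
`f`. -/
theorem ext_of_shifts {c q : ℝ} {f : ℂ → ℂ} (hf : GoodAt c f)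
    (h : ∀ h : ℝ, Ext q (fun s => f (s + h * I) / f s)) : Ext q f := by
  have hfa : ∀ s : ℂ, c < s.re → AnalyticAt ℂ f s := fun s hs => (hf s hs).1
  have hquot : ∀ (h : ℝ) (s : ℂ), c < s.re → AnalyticAt ℂ (fun s => f (s + h * I) / f s) s := by
    intro h s hs
    have h1 : AnalyticAt ℂ (fun s => f (s + h * I)) s :=
      AnalyticAt.fun_comp (g := f) (f := fun s : ℂ => s + h * I)
        (hfa _ (by rw [re_add_ih]; exact hs)) (analyticAt_id.add analyticAt_const)
    exact h1.div (hfa s hs) (hf s hs).2
  choose R hR1 hR2 using fun h' : ℝ => (h h').exact (hquot h')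
  -- the set of abscissas
  by_contra hcon
  set E : Set ℝ := {σ : ℝ | Ext σ f} with hE
  have hEc : c ∈ E := ⟨f, fun s hs => (hfa s hs).meromorphicAt, c, fun _ _ => rfl⟩
  have hlow : ∀ σ ∈ E, q ≤ σ := by
    intro σ hσ
    by_contra hlt
    push Not at hlt
    exact hcon (hσ.mono hlt.le)
  have hbdd : BddBelow E := ⟨q, hlow⟩
  set σ₀ := sInf E with hσ₀
  have hq : q ≤ σ₀ := le_csInf ⟨c, hEc⟩ hlow
  have hσ₀E : Ext σ₀ f := by
    refine Ext.of_seq hfa fun q' hq' => ?_
    obtain ⟨σ, hσ1, hσ2⟩ := exists_lt_of_csInf_lt ⟨c, hEc⟩ hq'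
    exact Ext.mono hσ2.le hσ1
  have hqlt : q < σ₀ := by
    rcases hq.lt_or_eq with h1 | h1
    · exact h1
    · exact absurd (h1 ▸ hσ₀E) hcon
  obtain ⟨L, hL1, hL2⟩ := hσ₀E.exact hfa
  obtain ⟨σ', h1, h2⟩ := Sit.step (c := c) (q := q) (σ := σ₀) (f := f) (L := L) (R := R)
    ⟨hqlt, hf, hL1, hL2, hR1, hR2⟩
  exact absurd (csInf_le hbdd h2) (not_le.2 h1)

end Run7.h456
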