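import Pool.Agent.Run7.h456.Alg2

set_option autoImplicit false

/-!
# Weights of `GSpin_{2n+1}(ℂ)` and the Weyl group
-/

namespace Run7.h456

variable {ι : Type} [DecidableEq ι]

/-- a character `(w₀; (w_i))` of the dual torus of `GSp_{2n}`, the index set `ι` having `n` elements -/
abbrev Weight (ι : Type) : Type := ℤ × (ι → ℤ)

/-- the action of a permutation of the coordinates -/
def permute (g : Equiv.Perm ι) (w : Weight ι) : Weight ι := (w.1, fun i => w.2 (g i))

/-- the action of the sign change at the coordinate `i`: `w_i ↦ w₀ - w_i` -/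
def reflect (i : ι) (w : Weight ι) : Weight ι := (w.1, Function.update w.2 i (w.1 - w.2 i))

/-- The multiset of weights is invariant under the Weyl group of `GSpin_{2n+1}`, as the multiset of the weights of
every algebraic representation is. (Conversely an invariant multiset is the multiset of weights of a virtual
representation, the difference of two representations.) -/
def WeylInvariant (ρ : Multiset (Weight ι)) : Prop :=
  (∀ g : Equiv.Perm ι, ρ.map (permute g) = ρ) ∧ ∀ i, ρ.map (reflect i) = ρ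

omit [DecidableEq ι] in
theorem permute_inj (g : Equiv.Perm ι) : Function.Injective (permute g : Weight ι → Weight ι) := by
  intro w w' h
  have h1 := congrArg Prod.fst h
  have h2 := congrArg Prod.snd h
  simp only [permute] at h1 h2
  refine Prod.ext h1 (funext fun i => ?_)
  have := congrFun h2 (g.symm i)
  simpa using this

theorem reflect_reflect (i : ι) (w : Weight ι) : reflect i (reflect i w) = w := by
  unfold reflect
  refine Prod.ext rfl (funext fun j => ?_)
  by_cases h : j = i
  · subst h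
    simp
  · simp [Function.update_of_ne h]

theorem reflect_inj (i : ι) : Function.Injective (reflect i : Weight ι → Weight ι) :=
  Function.LeftInverse.injective (reflect_reflect i)

theorem WeylInvariant.count_permute {ρ : Multiset (Weight ι)} (h : WeylInvariant ρ)
    [DecidableEq (Weight ι)] (g : Equiv.Perm ι) (w : Weight ι) :
    ρ.count (permute g w) = ρ.count w := by
  conv_lhs => rw [← h.1 g]
  exact Multiset.count_map_eq_count' _ _ (permute_inj g) w

theorem WeylInvariant.count_reflect {ρ : Multiset (Weight ι)} (h : WeylInvariant ρ)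
    [DecidableEq (Weight ι)] (i : ι) (w : Weight ι) :
    ρ.count (reflect i w) = ρ.count w := by
  conv_lhs => rw [← h.2 i]
  exact Multiset.count_map_eq_count' _ _ (reflect_inj i) w

variable [Fintype ι] {R : Type*} [CommRing R]

/-- **The character of an invariant multiset.** -/
theorem weyl_mem {A : Subring R} {t₀ : Rˣ} {t : ι → Rˣ}
    (hl : ((t₀ ^ 2 * ∏ i, t i : Rˣ) : R) ∈ A) (hl' : (((t₀ ^ 2 * ∏ i, t i)⁻¹ : Rˣ) : R) ∈ A)
    (he : ∀ k, es (fun i => (t i : R) + (((t i)⁻¹ : Rˣ) : R)) k ∈ A)
    {ρ : Multiset (Weight ι)} (hρ : WeylInvariant ρ) :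
    ∃ x ∈ A, ∃ y ∈ A, (ρ.map fun w => ((t₀ ^ w.1 * ∏ i, t i ^ w.2 i : Rˣ) : R)).sum =
      x + y * ((t₀ : R) * ∏ i, (1 + (t i : R))) := by
  classical
  set v : Weight ι → R := fun w => ((t₀ ^ w.1 * ∏ i, t i ^ w.2 i : Rˣ) : R) with hv
  set T : Finset ℤ := ρ.toFinset.image Prod.fst with hT
  obtain ⟨N, hN⟩ : ∃ N : ℕ, ∀ w ∈ ρ.toFinset, ∀ i, idx w.1 (w.2 i) < N := by
    refine ⟨(∑ w ∈ ρ.toFinset, ∑ i, idx w.1 (w.2 i)) + 1, fun w hw i => Nat.lt_succ_of_le ?_⟩
    calc idx w.1 (w.2 i) ≤ ∑ i, idx w.1 (w.2 i) :=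
          Finset.single_le_sum (f := fun i => idx w.1 (w.2 i)) (fun _ _ => Nat.zero_le _)
            (Finset.mem_univ i)
      _ ≤ _ := Finset.single_le_sum (f := fun w : Weight ι => ∑ i, idx w.1 (w.2 i))
            (fun _ _ => Nat.zero_le _) hw
  have h1 : (ρ.map v).sum = ∑ a ∈ T, ∑ u ∈ box ι a N, ((ρ.count (a, u) : ℤ) : R) * v (a, u) := by
    rw [Finset.sum_multiset_map_count, ← Finset.sum_fiberwise_of_maps_to (s := ρ.toFinset)
      (t := T) (g := Prod.fst) (fun w hw => Finset.mem_image_of_mem _ hw)]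
    refine Finset.sum_congr rfl fun a _ => ?_
    have hinj : Set.InjOn (fun u : ι → ℤ => ((a, u) : Weight ι)) (box ι a N : Set (ι → ℤ)) :=
      fun u _ u' _ h => congrArg Prod.snd h
    rw [← Finset.sum_image (s := box ι a N) (g := fun u : ι → ℤ => ((a, u) : Weight ι))
      (f := fun w => ((ρ.count w : ℤ) : R) * v w) hinj]
    have hsub : ρ.toFinset.filter (fun w => w.1 = a) ⊆
        (box ι a N).image fun u : ι → ℤ => ((a, u) : Weight ι) := by
      intro w hw
      rw [Finset.mem_filter] at hw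
      rw [Finset.mem_image]
      refine ⟨w.2, mem_box.2 fun i => ?_, Prod.ext hw.2.symm rfl⟩
      have := hN w hw.1 i
      rwa [hw.2] at this
    rw [← Finset.sum_subset hsub]
    · refine Finset.sum_congr rfl fun w _ => ?_
      rw [nsmul_eq_mul, Int.cast_natCast]
    · intro w hw hw'
      rw [Finset.mem_image] at hw
      obtain ⟨u, _, rfl⟩ := hw
      have h0 : ρ.count ((a, u) : Weight ι) = 0 := by
        rw [Multiset.count_eq_zero]
        intro hmem
        exact hw' (Finset.mem_filter.2 ⟨Multiset.mem_toFinset.2 hmem, rfl⟩)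
      rw [h0]
      simp
  have h2 : ∀ a : ℤ, ∃ x ∈ A, ∑ u ∈ box ι a N, ((ρ.count (a, u) : ℤ) : R) * v (a, u) =
      x * ((t₀ : R) * ∏ i, (1 + (t i : R))) ^ (a % 2).toNat := by
    intro a
    refine core hl hl' he (a := a) (f := fun u => (ρ.count (a, u) : ℤ)) (fun g u => ?_)
      (fun u i => ?_) N
    · have := hρ.count_permute g (a, u)
      exact_mod_cast this
    · have := hρ.count_reflect i (a, u)
      exact_mod_cast this
  have h3 : ∀ T : Finset ℤ, ∃ x ∈ A, ∃ y ∈ A,
      ∑ a ∈ T, ∑ u ∈ box ι a N, ((ρ.count (a, u) : ℤ) : R) * v (a, u) =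
        x + y * ((t₀ : R) * ∏ i, (1 + (t i : R))) := by
    intro T
    induction T using Finset.induction_on with
    | empty => exact ⟨0, A.zero_mem, 0, A.zero_mem, by simp⟩
    | insert a T ha ih =>
      obtain ⟨x, hx, y, hy, hxy⟩ := ih
      obtain ⟨z, hz, hz'⟩ := h2 a
      rw [Finset.sum_insert ha, hxy, hz']
      have h4 := Int.emod_nonneg a (show (2 : ℤ) ≠ 0 by norm_num)
      have h5 := Int.emod_lt_of_pos a (show (0 : ℤ) < 2 by norm_num)
      have hcases : a % 2 = 0 ∨ a % 2 = 1 := by omega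
      rcases hcases with h0 | h0
      · refine ⟨z + x, A.add_mem hz hx, y, hy, ?_⟩
        rw [h0, Int.toNat_zero, pow_zero]
        ring
      · refine ⟨x, hx, z + y, A.add_mem hz hy, ?_⟩
        rw [h0, Int.toNat_one, pow_one]
        ring
  obtain ⟨x, hx, y, hy, hxy⟩ := h3 T
  exact ⟨x, hx, y, hy, by rw [h1, hxy]⟩

end Run7.h456
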